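import Mathlib

/-!
# MP_9dd972_gt, all dimensions, p close to 1: definitions

`hh C` : support function; `NN K` : gradient of the gauge (outer normal with `hh K = 1`); `bd K x` :
radial boundary point; `dv V` : divergence; `HM f` : Hessian matrix; `Bre K C φ` : convex potential
whose gradient transports the volume of `K` to the volume of `C`; `Hyp p K C` : equality of the
L_p surface area measures, written with `p`-homogeneous functions of `NN`.
-/

set_option autoImplicit false

namespace Pool.Agent.MP9dd972N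

open MeasureTheory Set Metric
open scoped ENNReal NNReal Topology

/-- Euclidean space. -/
abbrev EE (n : ℕ) := EuclideanSpace ℝ (Fin n)

variable {n : ℕ}

/-- Convex body with the origin in the interior. -/
structure Body (K : Set (EE n)) : Prop where
  conv : Convex ℝ K
  comp : IsCompact K
  zero : (0 : EE n) ∈ interior K

/-- Convex body between two balls. -/
structure Round (r R : ℝ) (K : Set (EE n)) : Prop extends Body K where
  inn : ball (0 : EE n) r ⊆ K
  out : K ⊆ closedBall (0 : EE n) R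

/-- Support function. -/
noncomputable def hh (C : Set (EE n)) (u : EE n) : ℝ :=
  sSup ((fun x : EE n => (inner ℝ u x : ℝ)) '' C)

/-- Gradient of the gauge: the outer normal at the boundary point on the ray through `x`,
normalised by `hh K = 1`. -/
noncomputable def NN (K : Set (EE n)) (x : EE n) : EE n := gradient (gauge K) x

/-- The boundary point on the ray through `x`. -/
noncomputable def bd (K : Set (EE n)) (x : EE n) : EE n := (gauge K x)⁻¹ • x

/-- Divergence. -/
noncomputable def dv (V : EE n → EE n) (x : EE n) : ℝ :=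
  ∑ i, (fderiv ℝ V x (EuclideanSpace.single i (1 : ℝ))) i

/-- Hessian matrix. -/
noncomputable def HM (f : EE n → ℝ) (x : EE n) : Matrix (Fin n) (Fin n) ℝ :=
  Matrix.of fun i j => (fderiv ℝ (gradient f) x (EuclideanSpace.single j (1 : ℝ))) i

/-- Action of a matrix. -/
noncomputable def act (S : Matrix (Fin n) (Fin n) ℝ) (x : EE n) : EE n :=
  Matrix.toEuclideanCLM (𝕜 := ℝ) S x

/-- The function `s² / (1 + s)`. -/
noncomputable def Phi (s : ℝ) : ℝ := s ^ 2 / (1 + s)

/-- Smooth mollifier supported in the ball of radius `ε`. -/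
structure Ker (ε : ℝ) (k : EE n → ℝ) : Prop where
  pos : 0 < ε
  smooth : ContDiff ℝ (⊤ : ℕ∞) k
  nn : ∀ z, 0 ≤ k z
  supp : ∀ z, ε ≤ ‖z‖ → k z = 0
  int1 : ∫ z, k z = 1

/-- Conjugate function with respect to `C`. -/
noncomputable def cj (C : Set (EE n)) (ψ : EE n → ℝ) (x : EE n) : ℝ :=
  sSup ((fun y : EE n => (inner ℝ x y : ℝ) - ψ y) '' C)

/-- Evaluation of a polynomial. -/
noncomputable def pev (q : MvPolynomial (Fin n) ℝ) (x : EE n) : ℝ :=
  MvPolynomial.eval (fun i => x i) q

/-- Mollification. -/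
noncomputable def mol (k φ : EE n → ℝ) (x : EE n) : ℝ := ∫ z, k z * φ (x - z)

/-- Transport potential from `K` to `C`. -/
structure Bre (K C : Set (EE n)) (φ : EE n → ℝ) : Prop where
  conv : ConvexOn ℝ univ φ
  slope : ∀ x z, φ z - φ x ≤ hh C (z - x)
  push : ∀ G : Set (EE n), MeasurableSet G →
    volume {x | x ∈ K ∧ gradient φ x ∈ G} = volume (C ∩ G)

/-- Gradient images are at least as large as the sets (Monge-Ampere inequality). -/
def MAge (φ : EE n → ℝ) (Ω : Set (EE n)) : Prop :=
  ∀ U : Set (EE n), IsOpen U → U ⊆ Ω → ∀ G : Set (EE n),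
    (∀ x ∈ U, DifferentiableAt ℝ φ x → gradient φ x ∈ G) → volume U ≤ volume G

/-- Equality of the L_p surface area measures, in homogeneous form. -/
def Hyp (p : ℝ) (K C : Set (EE n)) : Prop :=
  ∀ G : EE n → ℝ≥0∞, Measurable G →
    (∀ (c : ℝ) (u : EE n), 0 < c → G (c • u) = ENNReal.ofReal (c ^ p) * G u) →
    ∫⁻ x in K, G (NN K x) = ∫⁻ x in C, G (NN C x)

/-- The cone over a set. -/
def cone (A : Set (EE n)) : Set (EE n) := {y | ∃ x ∈ A, ∃ s ∈ Ioc (0 : ℝ) 1, y = s • x}

/-- `u` is a unit outer normal of `K` at `x`. -/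
def IsNor (K : Set (EE n)) (x u : EE n) : Prop :=
  u ∈ Metric.sphere (0 : EE n) 1 ∧ ∀ y ∈ K, inner ℝ u (y - x) ≤ (0 : ℝ)

/-- The L_p surface area measure of `K` on the set `ω` of unit vectors, as in the problem. -/
noncomputable def LpN (p : ℝ) (K ω : Set (EE n)) : ℝ≥0∞ :=
  ∫⁻ x in {x | x ∈ K ∧ ∃ u ∈ ω, ∀ y ∈ K, inner ℝ u (y - x) ≤ (0 : ℝ)},
    (⨅ (u : EE n) (_ : u ∈ Metric.sphere (0 : EE n) 1 ∧ ∀ y ∈ K, inner ℝ u (y - x) ≤ (0 : ℝ)),
      ENNReal.ofReal (inner ℝ u x ^ (1 - p))) ∂μH[(n : ℝ) - 1]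

end Pool.Agent.MP9dd972N
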