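import Mathlib
import Pool.Agent.Lib.MP_9dd972_gt.N.Defs

/-!
# Determinant and trace of a positive semidefinite matrix
-/

set_option autoImplicit false

namespace Pool.Agent.MP9dd972N

open MeasureTheory Set Metric
open scoped ENNReal NNReal Topology Pointwise

theorem det_le_trace {n : ℕ} (hn : 0 < n) {A : Matrix (Fin n) (Fin n) ℝ}
    (hA : A.PosSemidef) : A.det ≤ (A.trace / n) ^ n := by
  have hn0 : (n : ℝ) ≠ 0 := by positivity
  have hev : ∀ i, 0 ≤ hA.isHermitian.eigenvalues i := hA.eigenvalues_nonneg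
  have h1 : A.det = ∏ i, hA.isHermitian.eigenvalues i := by
    simpa using hA.isHermitian.det_eq_prod_eigenvalues
  have h2 : A.trace = ∑ i, hA.isHermitian.eigenvalues i := by
    simpa using hA.isHermitian.trace_eq_sum_eigenvalues
  have h3 := Real.geom_mean_le_arith_mean_weighted Finset.univ (fun _ : Fin n => (n : ℝ)⁻¹)
    hA.isHermitian.eigenvalues (fun _ _ => by positivity) (by simp [hn0]) (fun i _ => hev i)
  have h4 : (∏ i, hA.isHermitian.eigenvalues i ^ ((n : ℝ)⁻¹)) ^ n =
      ∏ i, hA.isHermitian.eigenvalues i := by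
    rw [← Finset.prod_pow]
    exact Finset.prod_congr rfl fun i _ => Real.rpow_inv_natCast_pow (hev i) hn.ne'
  have h5 : ∑ i, (n : ℝ)⁻¹ * hA.isHermitian.eigenvalues i = A.trace / n := by
    rw [h2, ← Finset.mul_sum, div_eq_inv_mul]
  rw [h1, ← h4, ← h5]
  exact pow_le_pow_left₀ (Finset.prod_nonneg fun i _ => Real.rpow_nonneg (hev i) _) h3 n

end Pool.Agent.MP9dd972N
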