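import Mathlib
import Pool.Agent.Lib.MP_9dd972_gt.N.Defs

/-!
# Support function of a compact set: elementary facts
-/

set_option autoImplicit false

namespace Pool.Agent.MP9dd972N

open MeasureTheory Set Metric
open scoped ENNReal NNReal Topology Pointwise

namespace HsupAux

theorem bdd {n : ℕ} {C : Set (EE n)} (hC : IsCompact C) (u : EE n) :
    BddAbove ((fun x : EE n => (inner ℝ u x : ℝ)) '' C) :=
  (hC.image (by fun_prop)).bddAbove

end HsupAux

theorem inner_le_hh {n : ℕ} {C : Set (EE n)} (hC : IsCompact C) {x : EE n} (hx : x ∈ C)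
    (u : EE n) : (inner ℝ u x : ℝ) ≤ hh C u :=
  le_csSup (HsupAux.bdd hC u) ⟨x, hx, rfl⟩

theorem exists_hh {n : ℕ} {C : Set (EE n)} (hC : IsCompact C) (hne : C.Nonempty) (u : EE n) :
    ∃ x ∈ C, (inner ℝ u x : ℝ) = hh C u := by
  have h1 : IsCompact ((fun x : EE n => (inner ℝ u x : ℝ)) '' C) := hC.image (by fun_prop)
  obtain ⟨x, hx, e⟩ := h1.sSup_mem (hne.image _)
  exact ⟨x, hx, e⟩

theorem hh_le {n : ℕ} {C : Set (EE n)} (hne : C.Nonempty) {u : EE n} {t : ℝ}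
    (h : ∀ x ∈ C, (inner ℝ u x : ℝ) ≤ t) : hh C u ≤ t := by
  apply csSup_le (hne.image _)
  rintro _ ⟨x, hx, rfl⟩
  exact h x hx

theorem hh_zero {n : ℕ} (C : Set (EE n)) : hh C 0 = 0 := by
  rcases C.eq_empty_or_nonempty with rfl | hne
  · simp [hh]
  · unfold hh
    have : (fun x : EE n => (inner ℝ (0 : EE n) x : ℝ)) '' C = {0} := by
      ext t
      simp only [inner_zero_left, mem_image, mem_singleton_iff]
      constructor
      · rintro ⟨_, _, e⟩
        exact e.symm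
      · rintro rfl
        obtain ⟨x, hx⟩ := hne
        exact ⟨x, hx, rfl⟩
    rw [this, csSup_singleton]

theorem hh_add_le {n : ℕ} {C : Set (EE n)} (hC : IsCompact C) (hne : C.Nonempty) (u v : EE n) :
    hh C (u + v) ≤ hh C u + hh C v := by
  apply hh_le hne
  intro x hx
  rw [inner_add_left]
  exact add_le_add (inner_le_hh hC hx u) (inner_le_hh hC hx v)

theorem hh_smul {n : ℕ} (C : Set (EE n)) {c : ℝ} (hc : 0 ≤ c) (u : EE n) :
    hh C (c • u) = c * hh C u := by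
  unfold hh
  rw [← smul_eq_mul, ← Real.sSup_smul_of_nonneg hc]
  congr 1
  ext t
  simp only [mem_image, Set.mem_smul_set, smul_eq_mul]
  constructor
  · rintro ⟨x, hx, rfl⟩
    exact ⟨_, ⟨x, hx, rfl⟩, by rw [real_inner_smul_left]⟩
  · rintro ⟨_, ⟨x, hx, rfl⟩, rfl⟩
    exact ⟨x, hx, by rw [real_inner_smul_left]⟩

theorem hh_smul_set {n : ℕ} (C : Set (EE n)) {c : ℝ} (hc : 0 ≤ c) (u : EE n) :
    hh (c • C) u = c * hh C u := by
  unfold hh
  rw [← smul_eq_mul, ← Real.sSup_smul_of_nonneg hc]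
  congr 1
  ext t
  simp only [mem_image, Set.mem_smul_set, smul_eq_mul]
  constructor
  · rintro ⟨_, ⟨x, hx, rfl⟩, rfl⟩
    exact ⟨_, ⟨x, hx, rfl⟩, by rw [real_inner_smul_right]⟩
  · rintro ⟨_, ⟨x, hx, rfl⟩, rfl⟩
    exact ⟨_, ⟨x, hx, rfl⟩, by rw [real_inner_smul_right]⟩

theorem hh_mono {n : ℕ} {C D : Set (EE n)} (hD : IsCompact D) (hne : C.Nonempty) (h : C ⊆ D)
    (u : EE n) : hh C u ≤ hh D u :=
  hh_le hne fun _ hx => inner_le_hh hD (h hx) u

theorem hh_bound {n : ℕ} {C : Set (EE n)} (hne : C.Nonempty) {R : ℝ}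
    (hR : C ⊆ closedBall (0 : EE n) R) (u : EE n) : hh C u ≤ R * ‖u‖ := by
  apply hh_le hne
  intro x hx
  have h1 : ‖x‖ ≤ R := by simpa using hR hx
  calc (inner ℝ u x : ℝ) ≤ ‖u‖ * ‖x‖ := real_inner_le_norm u x
    _ ≤ ‖u‖ * R := mul_le_mul_of_nonneg_left h1 (norm_nonneg u)
    _ = R * ‖u‖ := mul_comm _ _

theorem hh_lip {n : ℕ} {C : Set (EE n)} (hC : IsCompact C) (hne : C.Nonempty) {R : ℝ}
    (hR : C ⊆ closedBall (0 : EE n) R) (u v : EE n) : |hh C u - hh C v| ≤ R * ‖u - v‖ := by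
  have h1 := hh_add_le hC hne v (u - v)
  have h2 := hh_add_le hC hne u (v - u)
  have h3 := hh_bound hne hR (u - v)
  have h4 := hh_bound hne hR (v - u)
  rw [add_sub_cancel] at h1 h2
  rw [norm_sub_rev] at h4
  rw [abs_le]
  constructor <;> linarith

theorem le_hh {n : ℕ} {C : Set (EE n)} (hC : IsCompact C) {r : ℝ} (hr : 0 < r)
    (h : ball (0 : EE n) r ⊆ C) (u : EE n) : r * ‖u‖ ≤ hh C u := by
  rcases eq_or_ne u 0 with rfl | hu
  · rw [hh_zero]
    simp
  have hu' : 0 < ‖u‖ := norm_pos_iff.2 hu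
  apply le_of_forall_lt
  intro t ht
  have h1 : t / ‖u‖ < r := by rwa [div_lt_iff₀ hu']
  obtain ⟨s, hs1, hs2⟩ := exists_between (max_lt h1 hr)
  have hs3 : t / ‖u‖ < s := (le_max_left _ _).trans_lt hs1
  have hs0 : 0 < s := (le_max_right _ _).trans_lt hs1
  have hx : (s / ‖u‖) • u ∈ C := by
    apply h
    rw [mem_ball_zero_iff, norm_smul, Real.norm_eq_abs, abs_of_pos (div_pos hs0 hu'),
      div_mul_cancel₀ _ hu'.ne']
    exact hs2
  refine lt_of_lt_of_le ?_ (inner_le_hh hC hx u)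
  rw [real_inner_smul_right, real_inner_self_eq_norm_sq]
  have e : s / ‖u‖ * ‖u‖ ^ 2 = s * ‖u‖ := by
    field_simp
  rw [e]
  rwa [div_lt_iff₀ hu'] at hs3

theorem hh_cont {n : ℕ} {C : Set (EE n)} (hC : IsCompact C) (hne : C.Nonempty) :
    Continuous (hh C) := by
  obtain ⟨R, hR⟩ := hC.isBounded.subset_closedBall (0 : EE n)
  have hL : LipschitzWith (Real.toNNReal R) (hh C) := by
    apply LipschitzWith.of_dist_le_mul
    intro u v
    rw [Real.dist_eq, dist_eq_norm]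
    refine (hh_lip hC hne hR u v).trans ?_
    exact mul_le_mul_of_nonneg_right (Real.le_coe_toNNReal R) (norm_nonneg _)
  exact hL.continuous

theorem hh_pos {n : ℕ} {C : Set (EE n)} (hC : Body C) {u : EE n} (hu : u ≠ 0) :
    0 < hh C u := by
  obtain ⟨r, hr, h⟩ := Metric.mem_nhds_iff.1 (mem_interior_iff_mem_nhds.1 hC.zero)
  have h1 := le_hh hC.comp hr h u
  have h2 : 0 < r * ‖u‖ := mul_pos hr (norm_pos_iff.2 hu)
  linarith

theorem mem_of_hh {n : ℕ} {C : Set (EE n)} (hC : IsCompact C) (hv : Convex ℝ C)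
    (hne : C.Nonempty) {x : EE n} (h : ∀ u : EE n, (inner ℝ u x : ℝ) ≤ hh C u) : x ∈ C := by
  by_contra hx
  obtain ⟨f, s, h1, h2⟩ := geometric_hahn_banach_closed_point hv hC.isClosed hx
  set u : EE n := (InnerProductSpace.toDual ℝ (EE n)).symm f with hu
  have hf : ∀ y, f y = inner ℝ u y := by
    intro y
    rw [hu, InnerProductSpace.toDual_symm_apply]
  have h3 : hh C u ≤ s := hh_le hne fun y hy => by
    rw [← hf]
    exact (h1 y hy).le
  have h4 := h u
  rw [← hf] at h4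
  linarith

theorem subset_of_hh {n : ℕ} {C D : Set (EE n)} (hC : IsCompact C) (hD : IsCompact D)
    (hv : Convex ℝ D) (hne : D.Nonempty) (h : ∀ u : EE n, hh C u ≤ hh D u) : C ⊆ D := by
  intro x hx
  exact mem_of_hh hD hv hne fun u => (inner_le_hh hC hx u).trans (h u)

end Pool.Agent.MP9dd972N
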