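import Mathlib
import Pool.Agent.Lib.MP_9dd972_gt.N.Defs
import Pool.Agent.Lib.MP_9dd972_gt.N.Hsup

set_option autoImplicit false

namespace Pool.Agent.MP9dd972N

open MeasureTheory Set Metric
open scoped ENNReal NNReal Topology Pointwise

namespace MageAux

theorem slope_lip' {n : ℕ} {C : Set (EE n)} (hne : C.Nonempty) {R : ℝ≥0}
    (hR : C ⊆ closedBall (0 : EE n) R) {φ : EE n → ℝ}
    (hs : ∀ x z, φ z - φ x ≤ hh C (z - x)) : LipschitzWith R φ := by
  refine LipschitzWith.of_dist_le_mul fun x y => ?_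
  rw [Real.dist_eq, dist_eq_norm, abs_le]
  constructor
  · have h := (hs x y).trans (hh_bound hne hR (y - x))
    rw [norm_sub_rev] at h
    linarith
  · exact (hs y x).trans (hh_bound hne hR (x - y))

/-- The linear map `act S`. -/
noncomputable def lin {n : ℕ} (S : Matrix (Fin n) (Fin n) ℝ) : EE n →L[ℝ] EE n :=
  Matrix.toEuclideanCLM (𝕜 := ℝ) S

theorem act_eq {n : ℕ} (S : Matrix (Fin n) (Fin n) ℝ) (x : EE n) : act S x = lin S x := rfl

theorem det_lin {n : ℕ} (S : Matrix (Fin n) (Fin n) ℝ) :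
    LinearMap.det (lin S : EE n →ₗ[ℝ] EE n) = S.det := by
  unfold lin
  rw [Matrix.coe_toEuclideanCLM_eq_toEuclideanLin, Matrix.toEuclideanLin_eq_toLin,
    LinearMap.det_toLin]

theorem det_smul_lin {n : ℕ} (S : Matrix (Fin n) (Fin n) ℝ) (c : ℝ) :
    LinearMap.det ((c • lin S : EE n →L[ℝ] EE n) : EE n →ₗ[ℝ] EE n) = c ^ n * S.det := by
  rw [ContinuousLinearMap.toLinearMap_smul, LinearMap.det_smul, det_lin]
  simp

theorem inner_lin {n : ℕ} (S : Matrix (Fin n) (Fin n) ℝ) (x y : EE n) :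
    (inner ℝ x (lin S y) : ℝ) = inner ℝ (lin S.transpose x) y := by
  unfold lin
  rw [Matrix.inner_toEuclideanCLM, real_inner_comm, Matrix.inner_toEuclideanCLM,
    Matrix.dotProduct_mulVec, dotProduct_comm, Matrix.mulVec_transpose]

theorem hasGrad {n : ℕ} {φ : EE n → ℝ} (x0 : EE n) {ρ : ℝ} (hρ : 0 < ρ)
    (S : Matrix (Fin n) (Fin n) ℝ) {z g : EE n} (h : HasGradientAt φ g (x0 + ρ • act S z)) :
    HasGradientAt (fun z => φ (x0 + ρ • act S z) / ρ ^ 2) (ρ⁻¹ • lin S.transpose g) z := by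
  have h1 : HasFDerivAt (fun z : EE n => x0 + ρ • act S z) (ρ • lin S) z := by
    have := ((lin S).hasFDerivAt (x := z)).const_smul ρ
    exact this.const_add x0
  have h2 := (h.hasFDerivAt.comp z h1).mul_const ((ρ ^ 2)⁻¹)
  rw [hasGradientAt_iff_hasFDerivAt]
  have h3 : (InnerProductSpace.toDual ℝ (EE n)) (ρ⁻¹ • lin S.transpose g)
      = (ρ ^ 2)⁻¹ • ((InnerProductSpace.toDual ℝ (EE n)) g).comp (ρ • lin S) := by
    ext y
    simp only [InnerProductSpace.toDual_apply_apply, smul_apply,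
      ContinuousLinearMap.comp_apply, inner_smul_left, inner_smul_right, smul_eq_mul,
      inner_lin, RCLike.conj_to_real]
    field_simp
  rw [h3]
  simpa [div_eq_mul_inv] using h2

end MageAux

open MageAux

theorem bre_mage {n : ℕ} {K C : Set (EE n)} (hC : Body C) {φ : EE n → ℝ} (hφ : Bre K C φ) :
    MAge φ (interior K) := by
  obtain ⟨R, hR0, hR⟩ := hC.comp.isBounded.subset_closedBall_lt 0 (0 : EE n)
  have hne : C.Nonempty := ⟨0, interior_subset hC.zero⟩
  have hlip : LipschitzWith (⟨R, hR0.le⟩ : ℝ≥0) φ :=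
    slope_lip' (R := ⟨R, hR0.le⟩) hne hR hφ.slope
  intro U hU hUK G hG
  have hdiff : ∀ᵐ x : EE n, DifferentiableAt ℝ φ x := hlip.ae_differentiableAt
  have h1 : volume U ≤ volume {x | x ∈ K ∧ gradient φ x ∈ toMeasurable volume G} := by
    apply measure_mono_ae
    filter_upwards [hdiff] with x hx hxU
    exact ⟨interior_subset (hUK hxU), subset_toMeasurable _ _ (hG x hxU hx)⟩
  rw [hφ.push _ (measurableSet_toMeasurable _ _)] at h1
  calc volume U ≤ volume (C ∩ toMeasurable volume G) := h1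
    _ ≤ volume (toMeasurable volume G) := measure_mono inter_subset_right
    _ = volume G := measure_toMeasurable _

theorem mage_affine {n : ℕ} {φ : EE n → ℝ} {Ω : Set (EE n)} (h : MAge φ Ω) (x0 : EE n)
    {ρ : ℝ} (hρ : 0 < ρ) {S : Matrix (Fin n) (Fin n) ℝ} (hS : S.det = 1) :
    MAge (fun z => φ (x0 + ρ • act S z) / ρ ^ 2) {z | x0 + ρ • act S z ∈ Ω} := by
  intro U hU hUΩ G hG
  set A : EE n →L[ℝ] EE n := ρ • lin S with hA
  have hdetA : LinearMap.det (A : EE n →ₗ[ℝ] EE n) = ρ ^ n := by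
    rw [hA, det_smul_lin, hS, mul_one]
  have hρn : (0 : ℝ) < ρ ^ n := pow_pos hρ n
  have hL : ∀ z, x0 + ρ • act S z = x0 + A z := fun z => rfl
  -- the image
  have hop : IsOpen (A '' U) := by
    have hd : A.det ≠ 0 := by
      change LinearMap.det (A : EE n →ₗ[ℝ] EE n) ≠ 0
      rw [hdetA]
      exact hρn.ne'
    have hh := (A.toContinuousLinearEquivOfDetNeZero hd).toHomeomorph.isOpenMap U hU
    exact hh
  have hset : (fun z => x0 + A z) '' U = (fun y => -x0 + y) ⁻¹' (A '' U) := by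
    rw [← image_add_left, image_image]
  have himg : volume ((fun z => x0 + A z) '' U) = ENNReal.ofReal (ρ ^ n) * volume U := by
    rw [hset, measure_preimage_add, Measure.addHaar_image_continuousLinearMap,
      hdetA, abs_of_pos hρn]
  have hopen : IsOpen ((fun z => x0 + A z) '' U) := by
    rw [hset]
    exact hop.preimage (by fun_prop)
  -- the target
  set B : EE n →L[ℝ] EE n := ρ⁻¹ • lin S.transpose with hB
  have hdetB : LinearMap.det (B : EE n →ₗ[ℝ] EE n) = (ρ ^ n)⁻¹ := by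
    rw [hB, det_smul_lin, Matrix.det_transpose, hS, mul_one, inv_pow]
  have hpre : volume (B ⁻¹' G) = ENNReal.ofReal (ρ ^ n) * volume G := by
    have := Measure.addHaar_preimage_linearMap (volume : Measure (EE n))
      (f := (B : EE n →ₗ[ℝ] EE n)) (by rw [hdetB]; positivity) G
    rw [hdetB, inv_inv, abs_of_pos hρn] at this
    exact this
  have key := h _ hopen (by
      rintro _ ⟨z, hz, rfl⟩
      exact hUΩ hz) (B ⁻¹' G) (by
      rintro _ ⟨z, hz, rfl⟩ hd
      have hg := hasGrad x0 hρ S (z := z) (g := gradient φ (x0 + ρ • act S z))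
        hd.hasGradientAt
      have h1 := hG z hz hg.differentiableAt
      rw [hg.gradient] at h1
      exact h1)
  rw [himg, hpre] at key
  exact (ENNReal.mul_le_mul_iff_right (by simpa using hρn) ENNReal.ofReal_ne_top).1 key

theorem convex_affine {n : ℕ} {φ : EE n → ℝ} (h : ConvexOn ℝ univ φ) (x0 : EE n)
    {ρ : ℝ} (hρ : 0 < ρ) (S : Matrix (Fin n) (Fin n) ℝ) :
    ConvexOn ℝ univ (fun z => φ (x0 + ρ • act S z) / ρ ^ 2) := by
  have h1 := h.comp_affineMap (AffineMap.const ℝ (EE n) x0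
    + ((ρ • lin S : EE n →L[ℝ] EE n) : EE n →ₗ[ℝ] EE n).toAffineMap)
  have h2 := h1.smul (c := (ρ ^ 2)⁻¹) (by positivity)
  rw [preimage_univ] at h2
  refine h2.congr fun z _ => ?_
  simp [div_eq_inv_mul, act_eq]

end Pool.Agent.MP9dd972N
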