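import Mathlib
import Pool.Agent.Lib.MP_9dd972_gt.N.Defs

/-!
# MP_9dd972_gt, part 2, module HESSA: Hessian matrix, basic facts
-/

set_option autoImplicit false

namespace Pool.Agent.MP9dd972N

open MeasureTheory Set Metric
open scoped ENNReal NNReal Topology Pointwise

namespace HessaAux

theorem grad_apply {n : ℕ} (f : EE n → ℝ) (x : EE n) (i : Fin n) :
    (gradient f x) i = fderiv ℝ f x (EuclideanSpace.single i (1 : ℝ)) := by
  have h := InnerProductSpace.toDual_symm_apply (𝕜 := ℝ) (E := EE n)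
    (x := EuclideanSpace.single i (1 : ℝ)) (y := fderiv ℝ f x)
  rw [EuclideanSpace.inner_single_right] at h
  simpa [gradient] using h

theorem clm_expand {n : ℕ} (L : EE n →L[ℝ] EE n) (y : EE n) (i : Fin n) :
    (L y) i = ∑ j, (L (EuclideanSpace.single j (1 : ℝ))) i * y j := by
  have h1 : y = ∑ j, y j • EuclideanSpace.single j (1 : ℝ) := by
    ext k
    simp [Finset.sum_apply, Pi.single_apply]
  conv_lhs => rw [h1, map_sum]
  rw [WithLp.ofLp_sum, Finset.sum_apply]
  refine Finset.sum_congr rfl fun j _ => ?_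
  rw [map_smul, PiLp.smul_apply, smul_eq_mul, mul_comm]

end HessaAux

open HessaAux

theorem grad_contDiff1 {n : ℕ} {f : EE n → ℝ} (hf : ContDiff ℝ 2 f) :
    ContDiff ℝ 1 (gradient f) := by
  rw [contDiff_euclidean]
  intro i
  simp only [grad_apply]
  exact (hf.fderiv_right (m := 1) (by norm_num)).clm_apply contDiff_const

theorem grad_contDiff2 {n : ℕ} {f : EE n → ℝ} (hf : ContDiff ℝ 3 f) :
    ContDiff ℝ 2 (gradient f) := by
  rw [contDiff_euclidean]
  intro i
  simp only [grad_apply]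
  exact (hf.fderiv_right (m := 2) (by norm_num)).clm_apply contDiff_const

namespace HessaAux

theorem hm_apply {n : ℕ} {f : EE n → ℝ} (hf : ContDiff ℝ 2 f) (x : EE n) (i j : Fin n) :
    HM f x i j = fderiv ℝ (fderiv ℝ f) x (EuclideanSpace.single j (1 : ℝ))
      (EuclideanSpace.single i (1 : ℝ)) := by
  have hd : DifferentiableAt ℝ (gradient f) x :=
    (grad_contDiff1 hf).differentiable (by norm_num) x
  have h1 : HasFDerivAt (fun y => (gradient f y) i)
      ((EuclideanSpace.proj i : EE n →L[ℝ] ℝ).comp (fderiv ℝ (gradient f) x)) x :=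
    (EuclideanSpace.proj i : EE n →L[ℝ] ℝ).hasFDerivAt.comp x hd.hasFDerivAt
  have hd2 : DifferentiableAt ℝ (fderiv ℝ f) x :=
    (hf.fderiv_right (m := 1) (by norm_num)).differentiable (by norm_num) x
  have h2 := hd2.hasFDerivAt.clm_apply
    (hasFDerivAt_const (EuclideanSpace.single i (1 : ℝ)) x)
  have h3 : (fun y => (gradient f y) i) =
      fun y => fderiv ℝ f y (EuclideanSpace.single i (1 : ℝ)) := by
    funext y
    exact grad_apply f y i
  rw [h3] at h1
  have h4 := congrArg (fun L : EE n →L[ℝ] ℝ => L (EuclideanSpace.single j (1 : ℝ)))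
    (h1.unique h2)
  simpa [HM] using h4

end HessaAux

theorem hm_symm {n : ℕ} {f : EE n → ℝ} (hf : ContDiff ℝ 2 f) (x : EE n) :
    (HM f x).IsSymm := by
  ext i j
  rw [Matrix.transpose_apply, hm_apply hf, hm_apply hf]
  have h := (hf.contDiffAt (x := x)).isSymmSndFDerivAt (by simp)
  exact h _ _

theorem hm_det {n : ℕ} (f : EE n → ℝ) (x : EE n) :
    (fderiv ℝ (gradient f) x).det = (HM f x).det := by
  rw [ContinuousLinearMap.det, ← LinearMap.det_toMatrix (EuclideanSpace.basisFun (Fin n) ℝ).toBasis]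
  congr 1

theorem hm_trace {n : ℕ} (f : EE n → ℝ) (x : EE n) :
    dv (gradient f) x = (HM f x).trace := rfl

theorem hm_cont {n : ℕ} {f : EE n → ℝ} (hf : ContDiff ℝ 2 f) :
    Continuous (fun x => HM f x) := by
  refine continuous_matrix fun i j => ?_
  have h := ((grad_contDiff1 hf).continuous_fderiv (by norm_num)).clm_apply
    (continuous_const (y := EuclideanSpace.single j (1 : ℝ)))
  exact (EuclideanSpace.proj i : EE n →L[ℝ] ℝ).continuous.comp h

theorem hm_sub_inner {n : ℕ} {f : EE n → ℝ} (hf : ContDiff ℝ 2 f) (q x : EE n) :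
    HM (fun y => f y - (inner ℝ q y : ℝ)) x = HM f x := by
  have h1 : gradient (fun y => f y - (inner ℝ q y : ℝ)) = fun y => gradient f y - q := by
    funext y
    ext i
    rw [grad_apply, PiLp.sub_apply, grad_apply]
    have h2 : HasFDerivAt (fun y => f y - (inner ℝ q y : ℝ)) (fderiv ℝ f y - innerSL ℝ q) y :=
      (hf.differentiable (by norm_num) y).hasFDerivAt.sub (innerSL ℝ q).hasFDerivAt
    rw [h2.fderiv, _root_.sub_apply, innerSL_apply_apply,
      EuclideanSpace.inner_single_right]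
    simp
  ext i j
  simp only [HM, Matrix.of_apply, h1]
  rw [fderiv_sub_const]

theorem norm_fderiv_le {n : ℕ} (v : EE n → EE n) (x : EE n) :
    ‖fderiv ℝ v x‖ ≤
      Real.sqrt (∑ i, ∑ j, ((fderiv ℝ v x (EuclideanSpace.single j (1 : ℝ))) i) ^ 2) := by
  obtain ⟨L, hL⟩ : ∃ L, L = fderiv ℝ v x := ⟨_, rfl⟩
  rw [← hL]
  refine ContinuousLinearMap.opNorm_le_bound L (Real.sqrt_nonneg _) fun y => ?_
  rw [EuclideanSpace.norm_eq, EuclideanSpace.norm_eq, ← Real.sqrt_mul
    (Finset.sum_nonneg fun i _ => Finset.sum_nonneg fun j _ => sq_nonneg _)]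
  refine Real.sqrt_le_sqrt ?_
  simp only [Real.norm_eq_abs, sq_abs]
  rw [Finset.sum_mul]
  refine Finset.sum_le_sum fun i _ => ?_
  rw [clm_expand L y i]
  exact Finset.sum_mul_sq_le_sq_mul_sq _ _ _

end Pool.Agent.MP9dd972N
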