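import Mathlib
import Pool.Agent.Lib.MP_9dd972_gt.N.Defs

set_option autoImplicit false

namespace Pool.Agent.MP9dd972N

open MeasureTheory Set Metric
open scoped ENNReal NNReal Topology Pointwise

namespace HessbAux

variable {n : ℕ}

theorem inner_grad (f : EE n → ℝ) (x y : EE n) :
    (inner ℝ (gradient f x) y : ℝ) = fderiv ℝ f x y := by
  rw [inner_gradient_left]

theorem grad_coord (f : EE n → ℝ) (x : EE n) (i : Fin n) :
    gradient f x i = fderiv ℝ f x (EuclideanSpace.single i (1 : ℝ)) := by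
  rw [← inner_grad, EuclideanSpace.inner_single_right]
  simp

theorem diff_fderiv {f : EE n → ℝ} (hf : ContDiff ℝ 2 f) : Differentiable ℝ (fderiv ℝ f) :=
  (hf.fderiv_right (m := 1) (by norm_num)).differentiable (by norm_num)

theorem diff_grad {f : EE n → ℝ} (hf : ContDiff ℝ 2 f) : Differentiable ℝ (gradient f) := by
  rw [differentiable_euclidean]
  intro i
  have h : (fun x => gradient f x i) =
      fun x => fderiv ℝ f x (EuclideanSpace.single i (1 : ℝ)) := by
    funext x
    exact grad_coord f x i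
  rw [h]
  exact (diff_fderiv hf).clm_apply (differentiable_const _)

theorem hm_eq {f : EE n → ℝ} (hf : ContDiff ℝ 2 f) (x : EE n) (i j : Fin n) :
    HM f x i j = fderiv ℝ (fderiv ℝ f) x (EuclideanSpace.single j (1 : ℝ))
      (EuclideanSpace.single i (1 : ℝ)) := by
  unfold HM
  rw [Matrix.of_apply]
  have h1 : HasFDerivAt (fun z => gradient f z i)
      ((EuclideanSpace.proj i : EE n →L[ℝ] ℝ).comp (fderiv ℝ (gradient f) x)) x :=
    (EuclideanSpace.proj i : EE n →L[ℝ] ℝ).hasFDerivAt.comp x (diff_grad hf x).hasFDerivAt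
  have h2 : HasFDerivAt (fun z => gradient f z i)
      ((ContinuousLinearMap.apply ℝ ℝ (EuclideanSpace.single i (1 : ℝ))).comp
        (fderiv ℝ (fderiv ℝ f) x)) x := by
    have h3 : (fun z => gradient f z i) =
        fun z => (ContinuousLinearMap.apply ℝ ℝ (EuclideanSpace.single i (1 : ℝ))) (fderiv ℝ f z) := by
      funext z
      exact grad_coord f z i
    rw [h3]
    exact (ContinuousLinearMap.apply ℝ ℝ
      (EuclideanSpace.single i (1 : ℝ))).hasFDerivAt.comp x (diff_fderiv hf x).hasFDerivAt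
  have h4 := h1.unique h2
  have h5 := congrArg (fun L : EE n →L[ℝ] ℝ => L (EuclideanSpace.single j (1 : ℝ))) h4
  exact h5

theorem symm2 {f : EE n → ℝ} (hf : ContDiff ℝ 2 f) (x y z : EE n) :
    fderiv ℝ (fderiv ℝ f) x y z = fderiv ℝ (fderiv ℝ f) x z y := by
  have h : IsSymmSndFDerivAt ℝ f x := hf.contDiffAt.isSymmSndFDerivAt (by simp)
  exact h y z

theorem hm_quad {f : EE n → ℝ} (hf : ContDiff ℝ 2 f) (x y : EE n) :
    ∑ i, ∑ j, HM f x i j * y i * y j = fderiv ℝ (fderiv ℝ f) x y y := by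
  have hy : y = ∑ i, y i • (EuclideanSpace.single i (1 : ℝ) : EE n) := by
    have h := (EuclideanSpace.basisFun (Fin n) ℝ).sum_repr y
    simpa using h.symm
  have h1 : ∀ L : EE n →L[ℝ] ℝ, L y = ∑ i, y i * L (EuclideanSpace.single i (1 : ℝ)) := by
    intro L
    conv_lhs => rw [hy]
    rw [map_sum]
    simp only [map_smul, smul_eq_mul]
  have h2 : fderiv ℝ (fderiv ℝ f) x y =
      ∑ j, y j • fderiv ℝ (fderiv ℝ f) x (EuclideanSpace.single j (1 : ℝ)) := by
    conv_lhs => rw [hy]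
    rw [map_sum]
    simp only [map_smul]
  rw [h1 (fderiv ℝ (fderiv ℝ f) x y)]
  refine Finset.sum_congr rfl fun i _ => ?_
  rw [h2, ContinuousLinearMap.sum_apply, Finset.mul_sum]
  refine Finset.sum_congr rfl fun j _ => ?_
  rw [hm_eq hf, ContinuousLinearMap.smul_apply, smul_eq_mul]
  ring

/-- the second order Taylor expansion -/
theorem taylor {f : EE n → ℝ} (hf : ContDiff ℝ 2 f) (x : EE n) {η : ℝ}
    (hη : 0 < η) : ∃ ρ : ℝ, 0 < ρ ∧ ∀ y : EE n, ‖y‖ ≤ ρ →
      |f (x + y) - f x - fderiv ℝ f x y - (1 / 2) * fderiv ℝ (fderiv ℝ f) x y y| ≤ η * ‖y‖ ^ 2 := by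
  set D := fderiv ℝ (fderiv ℝ f) x with hD
  have h1 := (diff_fderiv hf x).hasFDerivAt
  rw [hasFDerivAt_iff_isLittleO_nhds_zero] at h1
  have h2 := h1.def hη
  rw [Metric.eventually_nhds_iff] at h2
  obtain ⟨ρ, hρ, h3⟩ := h2
  refine ⟨ρ / 2, by positivity, fun y hy => ?_⟩
  set G : EE n → ℝ := fun z => f (x + z) - f x - fderiv ℝ f x z - (1 / 2) * D z z with hG
  have hDsymm : ∀ a b, D a b = D b a := fun a b => symm2 hf x a b
  have hGd : ∀ z, HasFDerivAt G (fderiv ℝ f (x + z) - fderiv ℝ f x - D z) z := by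
    intro z
    have e1 : HasFDerivAt (fun z => f (x + z)) (fderiv ℝ f (x + z)) z :=
      (hasFDerivAt_comp_add_left x).2 ((hf.differentiable (by norm_num)) (x + z)).hasFDerivAt
    have e2 : HasFDerivAt (fun z => fderiv ℝ f x z) (fderiv ℝ f x) z :=
      (fderiv ℝ f x).hasFDerivAt
    have e3 : HasFDerivAt (fun z => D z z) ((D z).comp (ContinuousLinearMap.id ℝ (EE n)) +
        D.flip z) z := D.hasFDerivAt.clm_apply (hasFDerivAt_id z)
    have e4 := ((e1.sub_const (f x)).sub e2).sub (e3.const_mul (1 / 2))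
    refine e4.congr_fderiv ?_
    ext w
    simp only [ContinuousLinearMap.sub_apply, ContinuousLinearMap.smul_apply,
      ContinuousLinearMap.add_apply, ContinuousLinearMap.comp_apply,
      ContinuousLinearMap.id_apply, ContinuousLinearMap.flip_apply, smul_eq_mul]
    rw [hDsymm w z]
    ring
  have hb : ∀ z ∈ closedBall (0 : EE n) ‖y‖, ‖fderiv ℝ G z‖ ≤ η * ‖y‖ := by
    intro z hz
    rw [mem_closedBall_zero_iff] at hz
    rw [(hGd z).fderiv]
    have h4 : dist z 0 < ρ := by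
      rw [dist_zero_right]
      linarith
    refine (h3 h4).trans ?_
    exact mul_le_mul_of_nonneg_left hz hη.le
  have h5 := (convex_closedBall (0 : EE n) ‖y‖).norm_image_sub_le_of_norm_fderiv_le
    (fun z _ => (hGd z).differentiableAt) hb (mem_closedBall_self (norm_nonneg y))
    (mem_closedBall_zero_iff.2 le_rfl : y ∈ closedBall (0 : EE n) ‖y‖)
  have h6 : G 0 = 0 := by
    rw [hG]
    simp
  rw [h6, sub_zero, sub_zero, Real.norm_eq_abs] at h5
  calc |f (x + y) - f x - fderiv ℝ f x y - (1 / 2) * D y y| = |G y| := rfl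
    _ ≤ η * ‖y‖ * ‖y‖ := h5
    _ = η * ‖y‖ ^ 2 := by ring

end HessbAux

open HessbAux

theorem taylor_two {n : ℕ} {f : EE n → ℝ} (hf : ContDiff ℝ 2 f) (x : EE n) {η : ℝ}
    (hη : 0 < η) : ∃ ρ : ℝ, 0 < ρ ∧ ∀ y : EE n, ‖y‖ ≤ ρ →
      |f (x + y) - f x - (inner ℝ (gradient f x) y : ℝ)
        - (1 / 2) * ∑ i, ∑ j, HM f x i j * y i * y j| ≤ η * ‖y‖ ^ 2 := by
  obtain ⟨ρ, hρ, h⟩ := taylor hf x hη
  refine ⟨ρ, hρ, fun y hy => ?_⟩
  rw [hm_quad hf, inner_grad]
  exact h y hy

theorem hm_psd_of_min {n : ℕ} {f : EE n → ℝ} (hf : ContDiff ℝ 2 f) {x : EE n}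
    (hx : IsLocalMin f x) : (HM f x).PosSemidef := by
  refine Matrix.PosSemidef.of_dotProduct_mulVec_nonneg ?_ fun v => ?_
  · ext i j
    rw [Matrix.conjTranspose_apply, star_trivial, hm_eq hf, hm_eq hf]
    exact symm2 hf _ _ _
  · set y : EE n := WithLp.toLp 2 v with hy
    have hq : star v ⬝ᵥ (HM f x).mulVec v = fderiv ℝ (fderiv ℝ f) x y y := by
      rw [← hm_quad hf]
      simp only [dotProduct, Matrix.mulVec, star_trivial, Finset.mul_sum]
      refine Finset.sum_congr rfl fun i _ => Finset.sum_congr rfl fun j _ => ?_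
      rw [hy]
      ring
    rw [hq]
    by_contra hneg
    push Not at hneg
    set q := fderiv ℝ (fderiv ℝ f) x y y with hqd
    have hη : 0 < -q / (4 * (‖y‖ ^ 2 + 1)) := by
      apply div_pos (by linarith)
      positivity
    obtain ⟨ρ, hρ, h⟩ := taylor hf x hη
    have h0 : fderiv ℝ f x = 0 := hx.fderiv_eq_zero
    rw [IsLocalMin, IsMinFilter, Metric.eventually_nhds_iff] at hx
    obtain ⟨δ, hδ, hmin⟩ := hx
    set t : ℝ := min ρ (δ / 2) / (‖y‖ + 1) with ht
    have htpos : 0 < t := by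
      rw [ht]
      apply div_pos (lt_min hρ (by linarith))
      positivity
    have hty : ‖t • y‖ ≤ min ρ (δ / 2) := by
      rw [norm_smul, Real.norm_eq_abs, abs_of_pos htpos, ht, div_mul_eq_mul_div,
        div_le_iff₀ (by positivity)]
      have : 0 < min ρ (δ / 2) := lt_min hρ (by linarith)
      nlinarith [norm_nonneg y]
    have h1 := h (t • y) (hty.trans (min_le_left _ _))
    have h2 : f x ≤ f (x + t • y) := by
      apply hmin
      rw [dist_eq_norm, add_sub_cancel_left]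
      have := hty.trans (min_le_right _ _)
      linarith
    have hqt : fderiv ℝ (fderiv ℝ f) x (t • y) (t • y) = t * (t * q) := by
      rw [map_smul, map_smul, FunLike.coe_smul, Pi.smul_apply, smul_eq_mul, smul_eq_mul, ← hqd]
    rw [h0, hqt, norm_smul, Real.norm_eq_abs, abs_of_pos htpos] at h1
    have hz : (0 : EE n →L[ℝ] ℝ) (t • y) = 0 := rfl
    rw [hz] at h1
    have h3 := (abs_le.mp h1).2
    have h4 : -q / (4 * (‖y‖ ^ 2 + 1)) * (t * ‖y‖) ^ 2 ≤ -q / 4 * t ^ 2 := by
      have e1 : -q / (4 * (‖y‖ ^ 2 + 1)) * (t * ‖y‖) ^ 2 =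
          -q / 4 * t ^ 2 * (‖y‖ ^ 2 / (‖y‖ ^ 2 + 1)) := by
        have : (0 : ℝ) < ‖y‖ ^ 2 + 1 := by positivity
        field_simp
      rw [e1]
      refine mul_le_of_le_one_right ?_ ?_
      · have : 0 < -q := by linarith
        positivity
      · rw [div_le_one (by positivity)]
        linarith
    have h5 : 0 < -q * t ^ 2 := mul_pos (by linarith) (by positivity)
    nlinarith

end Pool.Agent.MP9dd972N
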