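import Mathlib
import Pool.Agent.Lib.MP_9dd972_gt.N.Defs
import Pool.Agent.Lib.MP_9dd972_gt.N.Hessa
import Pool.Agent.Lib.MP_9dd972_gt.N.Hessb
import Pool.Agent.Lib.MP_9dd972_gt.N.Amgm

/-!
# MP_9dd972_gt, part 2, module COMP: comparison principle (contact argument)
-/

set_option autoImplicit false

namespace Pool.Agent.MP9dd972N

open MeasureTheory Set Metric
open scoped ENNReal NNReal Topology Pointwise

namespace CompAux

/-- gradient inequality for convex functions -/
theorem grad_ineq {n : ℕ} {φ : EE n → ℝ} (hφ : ConvexOn ℝ univ φ) {x : EE n}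
    (hx : DifferentiableAt ℝ φ x) (y : EE n) :
    φ x + (inner ℝ (gradient φ x) (y - x) : ℝ) ≤ φ y := by
  have h1 : (inner ℝ (gradient φ x) (y - x) : ℝ) = fderiv ℝ φ x (y - x) := by
    rw [gradient, ← InnerProductSpace.toDual_apply_apply, LinearIsometryEquiv.apply_symm_apply]
  rw [h1]
  -- the function along the segment
  have h2 : HasDerivAt (fun t : ℝ => φ (x + t • (y - x))) (fderiv ℝ φ x (y - x)) 0 := by
    have h3 : HasDerivAt (fun t : ℝ => x + t • (y - x)) (y - x) 0 := by
      have h4 := ((hasDerivAt_id (0 : ℝ)).smul_const (y - x)).const_add x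
      simpa using h4
    have h5 : HasFDerivAt φ (fderiv ℝ φ x) (x + (0 : ℝ) • (y - x)) := by
      simpa using hx.hasFDerivAt
    exact h5.comp_hasDerivAt 0 h3
  have h6 := (hasDerivAt_iff_tendsto_slope.1 h2).mono_left
    (nhdsWithin_mono 0 (show Ioi (0 : ℝ) ⊆ {0}ᶜ from fun t ht => (ne_of_gt ht)))
  have h7 : fderiv ℝ φ x (y - x) ≤ φ y - φ x := by
    refine le_of_tendsto h6 ?_
    have h8 : Ioo (0 : ℝ) 1 ∈ 𝓝[>] (0 : ℝ) := Ioo_mem_nhdsGT one_pos
    filter_upwards [h8] with t ht
    rw [slope_def_field]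
    simp only [zero_smul, add_zero, sub_zero]
    rw [div_le_iff₀ ht.1]
    have h9 := hφ.2 (mem_univ x) (mem_univ y) (show (0 : ℝ) ≤ 1 - t by linarith [ht.2])
      ht.1.le (by ring)
    have h10 : (1 - t) • x + t • y = x + t • (y - x) := by module
    rw [h10] at h9
    simp only [smul_eq_mul] at h9
    nlinarith
  linarith

/-- the contact set is measurable -/
theorem psd_closed {n : ℕ} {w : EE n → ℝ} (hw : ContDiff ℝ 2 w) :
    IsClosed {y : EE n | (HM w y).PosSemidef} := by
  have h1 : {y : EE n | (HM w y).PosSemidef} =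
      ⋂ v : Fin n → ℝ, {y | 0 ≤ star v ⬝ᵥ (Matrix.mulVec (HM w y) v)} := by
    ext y
    simp only [Set.mem_ofPred_eq, mem_iInter]
    constructor
    · intro h v
      exact h.dotProduct_mulVec_nonneg v
    · intro h
      refine Matrix.PosSemidef.of_dotProduct_mulVec_nonneg ?_ h
      have := hm_symm hw y
      rw [Matrix.IsHermitian, Matrix.conjTranspose_eq_transpose_of_trivial]
      exact this
  rw [h1]
  refine isClosed_iInter fun v => isClosed_le continuous_const ?_
  have h2 := hm_cont hw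
  exact Continuous.dotProduct continuous_const (h2.matrix_mulVec continuous_const)

end CompAux

open CompAux

theorem comparison {n : ℕ} (hn : 0 < n) {φ w : EE n → ℝ} {κ : ℝ}
    (hφ : ConvexOn ℝ univ φ) (hM : MAge φ (ball (0 : EE n) 1)) (hw : ContDiff ℝ 2 w)
    (hκ : 0 < κ) (hκ1 : κ ≤ 1)
    (hL : ∀ x ∈ ball (0 : EE n) 1, dv (gradient w) x ≤ n * (1 - κ))
    (hb : ∀ x ∈ sphere (0 : EE n) 1, φ x ≤ w x) :
    ∀ x ∈ ball (0 : EE n) 1, φ x ≤ w x := by
  by_contra hcon
  push Not at hcon
  obtain ⟨x₀, hx₀, hlt₀⟩ := hcon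
  have hφc : Continuous φ := continuousOn_univ.1 (hφ.continuousOn isOpen_univ)
  have hwc : Continuous w := hw.continuous
  obtain ⟨U, hU⟩ : ∃ U : Set (EE n), U = {x | x ∈ ball (0 : EE n) 1 ∧ w x < φ x} := ⟨_, rfl⟩
  have hUo : IsOpen U := by
    rw [hU]
    exact isOpen_ball.inter (isOpen_lt hwc hφc)
  have hUb : U ⊆ ball (0 : EE n) 1 := by
    rw [hU]
    exact fun x hx => hx.1
  obtain ⟨P, hP⟩ : ∃ P : Set (EE n), P = U ∩ {y | (HM w y).PosSemidef} := ⟨_, rfl⟩
  have hPm : MeasurableSet P := by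
    rw [hP]
    exact hUo.measurableSet.inter (psd_closed hw).measurableSet
  have hgrad := grad_contDiff1 hw
  -- the contact argument
  have hcontact : ∀ x ∈ U, DifferentiableAt ℝ φ x → gradient φ x ∈ gradient w '' P := by
    intro x hx hdx
    obtain ⟨q, hq⟩ : ∃ q, q = gradient φ x := ⟨_, rfl⟩
    obtain ⟨F, hF⟩ : ∃ F : EE n → ℝ, F = fun y => w y - (inner ℝ q y : ℝ) := ⟨_, rfl⟩
    have hFc : Continuous F := by
      rw [hF]
      fun_prop
    have hK : IsCompact (closedBall (0 : EE n) 1 ∩ {y | w y ≤ φ y}) :=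
      (isCompact_closedBall _ _).inter_right (isClosed_le hwc hφc)
    have hxU : x ∈ ball (0 : EE n) 1 ∧ w x < φ x := by
      rw [hU] at hx
      exact hx
    obtain ⟨y, hyK, hymin⟩ := hK.exists_isMinOn
      ⟨x, ball_subset_closedBall hxU.1, hxU.2.le⟩ hFc.continuousOn
    have hFy : F y ≤ F x := hymin ⟨ball_subset_closedBall hxU.1, hxU.2.le⟩
    have hyU : y ∈ U := by
      by_contra hy
      have h1 : φ y ≤ w y := by
        by_cases hyb : y ∈ ball (0 : EE n) 1
        · rw [hU] at hy
          by_contra h2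
          exact hy ⟨hyb, not_le.1 h2⟩
        · refine hb y ?_
          have h2 := hyK.1
          rw [mem_closedBall] at h2
          rw [mem_ball, not_lt] at hyb
          rw [mem_sphere]
          exact le_antisymm h2 hyb
      have h2 := grad_ineq hφ hdx y
      rw [← hq, inner_sub_right] at h2
      rw [hF] at hFy
      simp only at hFy
      linarith [hxU.2]
    have hloc : IsLocalMin F y := by
      refine hymin.isLocalMin ?_
      filter_upwards [hUo.mem_nhds hyU] with z hz
      rw [hU] at hz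
      exact ⟨ball_subset_closedBall hz.1, hz.2.le⟩
    have hFcd : ContDiff ℝ 2 F := by
      rw [hF]
      exact hw.sub (contDiff_const.inner ℝ contDiff_id)
    have hpsd : (HM w y).PosSemidef := by
      have h1 := hm_psd_of_min hFcd hloc
      rw [hF, hm_sub_inner hw q y] at h1
      exact h1
    refine ⟨y, ?_, ?_⟩
    · rw [hP]
      exact ⟨hyU, hpsd⟩
    · have h1 : HasFDerivAt F (fderiv ℝ w y - innerSL ℝ q) y := by
        rw [hF]
        exact (hw.differentiable (by norm_num) y).hasFDerivAt.sub (innerSL ℝ q).hasFDerivAt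
      have h2 := hloc.hasFDerivAt_eq_zero h1
      have h3 : fderiv ℝ w y = InnerProductSpace.toDual ℝ (EE n) q := by
        rw [sub_eq_zero.1 h2]
        rfl
      rw [gradient, h3, LinearIsometryEquiv.symm_apply_apply, hq]
  have hvol := hM U hUo hUb _ hcontact
  -- the area estimate
  have harea : volume (gradient w '' P) ≤ ENNReal.ofReal (1 - κ) * volume P := by
    refine (addHaar_image_le_lintegral_abs_det_fderiv volume hPm
      (f' := fun x => fderiv ℝ (gradient w) x) (fun x _ =>
        (hgrad.differentiable (by norm_num) x).hasFDerivAt.hasFDerivWithinAt)).trans ?_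
    rw [← setLIntegral_const]
    refine setLIntegral_mono measurable_const fun x hx => ENNReal.ofReal_le_ofReal ?_
    rw [hP] at hx
    have hpsd : (HM w x).PosSemidef := hx.2
    have hn' : (0 : ℝ) < n := Nat.cast_pos.2 hn
    have h1 := hL x (hUb hx.1)
    rw [hm_trace] at h1
    have h2 := hpsd.trace_nonneg
    have h3 := det_le_trace hn hpsd
    rw [hm_det, abs_of_nonneg hpsd.det_nonneg]
    have h4 : 0 ≤ (HM w x).trace / n := div_nonneg h2 hn'.le
    have h5 : (HM w x).trace / n ≤ 1 - κ := by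
      rw [div_le_iff₀ hn']
      linarith
    calc (HM w x).det ≤ ((HM w x).trace / n) ^ n := h3
      _ ≤ (1 - κ) ^ n := pow_le_pow_left₀ h4 h5 n
      _ ≤ 1 - κ := pow_le_of_le_one (by linarith) (by linarith) hn.ne'
  have hPU : volume P ≤ volume U := measure_mono (by rw [hP]; exact inter_subset_left)
  have hUpos : 0 < volume U := hUo.measure_pos volume ⟨x₀, by rw [hU]; exact ⟨hx₀, hlt₀⟩⟩
  have hUfin : volume U ≠ ⊤ :=
    ne_top_of_le_ne_top measure_ball_lt_top.ne (measure_mono hUb)
  have h1 : volume U ≤ ENNReal.ofReal (1 - κ) * volume U :=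
    hvol.trans (harea.trans (mul_le_mul_right hPU _))
  have h2 := ENNReal.toReal_mono (ENNReal.mul_ne_top ENNReal.ofReal_ne_top hUfin) h1
  rw [ENNReal.toReal_mul, ENNReal.toReal_ofReal (by linarith)] at h2
  have h3 : 0 < (volume U).toReal := ENNReal.toReal_pos hUpos.ne' hUfin
  nlinarith

end Pool.Agent.MP9dd972N
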