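import Mathlib
import Pool.Agent.Lib.MP_9dd972_gt.N.Defs

set_option autoImplicit false

namespace Pool.Agent.MP9dd972N

open MeasureTheory Set Metric
open scoped ENNReal NNReal Topology Pointwise

namespace MaxpAux

variable {n : ℕ}

theorem second_deriv_nonpos {g g' : ℝ → ℝ} {a : ℝ} (hg : ∀ t, HasDerivAt g (g' t) t)
    (hg' : HasDerivAt g' a 0) (hmax : IsLocalMax g 0) : a ≤ 0 := by
  by_contra hcon
  push Not at hcon
  have hd : deriv g = g' := funext fun t => (hg t).deriv
  have h1 : deriv (deriv g) 0 = a := by rw [hd, hg'.deriv]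
  have hmin : IsLocalMin g 0 :=
    isLocalMin_of_deriv_deriv_pos (by rw [h1]; exact hcon) hmax.deriv_eq_zero
      (hg 0).continuousAt
  have h2 : g =ᶠ[𝓝 0] fun _ : ℝ => g 0 := by
    filter_upwards [hmax, hmin] with t h3 h4
    exact le_antisymm h3 h4
  have h5 : deriv g =ᶠ[𝓝 0] deriv fun _ : ℝ => g 0 := h2.deriv
  have h6 : deriv (deriv g) 0 = deriv (deriv fun _ : ℝ => g 0) 0 := h5.deriv_eq
  rw [h1] at h6
  simp at h6
  linarith

theorem gradient_apply (u : EE n → ℝ) (x : EE n) (i : Fin n) :
    fderiv ℝ u x (EuclideanSpace.single i (1 : ℝ)) = gradient u x i := by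
  have h1 : fderiv ℝ u x (EuclideanSpace.single i (1 : ℝ)) =
      inner ℝ (gradient u x) (EuclideanSpace.single i (1 : ℝ)) := by
    rw [gradient, InnerProductSpace.toDual_symm_apply]
  rw [h1, EuclideanSpace.inner_single_right]
  simp

theorem gradient_diff {u : EE n → ℝ} (hu : ContDiff ℝ 2 u) : Differentiable ℝ (gradient u) := by
  have h1 : Differentiable ℝ (fderiv ℝ u) :=
    (hu.fderiv_right (m := 1) (by norm_num)).differentiable (by norm_num)
  have h2 : gradient u = fun x => (InnerProductSpace.toDual ℝ (EE n)).symm (fderiv ℝ u x) := rfl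
  rw [h2]
  exact (InnerProductSpace.toDual ℝ (EE n)).symm.toContinuousLinearEquiv.differentiable.comp h1

theorem hasDerivAt_line (x e : EE n) (t : ℝ) : HasDerivAt (fun s : ℝ => x + s • e) e t := by
  have h := ((hasDerivAt_id t).smul_const e).const_add x
  simpa using h

end MaxpAux

open MaxpAux

theorem max_principle {n : ℕ} (hn : 0 < n) {u : EE n → ℝ} (hu : ContDiff ℝ 2 u)
    (hL : ∀ x ∈ ball (0 : EE n) 1, 0 ≤ dv (gradient u) x)
    (hb : ∀ x ∈ sphere (0 : EE n) 1, u x ≤ 0) :
    ∀ x ∈ closedBall (0 : EE n) 1, u x ≤ 0 := by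
  intro x0 hx0
  by_contra hcon
  push Not at hcon
  set η : ℝ := u x0 / 2 with hη
  have hη0 : 0 < η := by positivity
  have hcont : Continuous fun x : EE n => u x + η * (‖x‖ ^ 2 - 1) := by
    have := hu.continuous
    fun_prop
  obtain ⟨x1, hx1, hmax⟩ := (isCompact_closedBall (0 : EE n) 1).exists_isMaxOn ⟨x0, hx0⟩
    hcont.continuousOn
  have hx0' : ‖x0‖ ^ 2 ≥ 0 := sq_nonneg _
  have hval : 0 < u x1 + η * (‖x1‖ ^ 2 - 1) := by
    have h1 : u x0 + η * (‖x0‖ ^ 2 - 1) ≤ u x1 + η * (‖x1‖ ^ 2 - 1) := hmax hx0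
    nlinarith
  have hx1ball : x1 ∈ ball (0 : EE n) 1 := by
    rw [mem_ball_zero_iff]
    rw [mem_closedBall_zero_iff] at hx1
    rcases lt_or_eq_of_le hx1 with h | h
    · exact h
    · exfalso
      have h1 := hb x1 (by simpa using h)
      rw [h] at hval
      nlinarith
  have hloc : IsLocalMax (fun x : EE n => u x + η * (‖x‖ ^ 2 - 1)) x1 := by
    refine hmax.isLocalMax ?_
    exact Filter.mem_of_superset (isOpen_ball.mem_nhds hx1ball) ball_subset_closedBall
  have hcoord : ∀ i : Fin n,
      (fderiv ℝ (gradient u) x1 (EuclideanSpace.single i (1 : ℝ))) i + 2 * η ≤ 0 := by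
    intro i
    set e : EE n := EuclideanSpace.single i (1 : ℝ) with he
    have hnorm : ∀ t : ℝ, ‖x1 + t • e‖ ^ 2 = ‖x1‖ ^ 2 + 2 * t * x1 i + t ^ 2 := by
      intro t
      rw [norm_add_sq_real, norm_smul, inner_smul_right]
      have h1 : inner ℝ x1 e = x1 i := by
        rw [he, EuclideanSpace.inner_single_right]
        simp
      have h2 : ‖e‖ = 1 := by
        rw [he]
        simp
      rw [h1, h2, mul_one, Real.norm_eq_abs, sq_abs]
      ring
    have hg : ∀ t : ℝ, HasDerivAt (fun s : ℝ => u (x1 + s • e) + η * (‖x1 + s • e‖ ^ 2 - 1))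
        (gradient u (x1 + t • e) i + η * (2 * x1 i + 2 * t)) t := by
      intro t
      have h1 : HasDerivAt (fun s : ℝ => u (x1 + s • e)) (gradient u (x1 + t • e) i) t := by
        have h2 := ((hu.differentiable (by norm_num)) (x1 + t • e)).hasFDerivAt.comp_hasDerivAt t
          (hasDerivAt_line x1 e t)
        rw [gradient_apply] at h2
        exact h2
      have h3 : HasDerivAt (fun s : ℝ => η * (‖x1 + s • e‖ ^ 2 - 1))
          (η * (2 * x1 i + 2 * t)) t := by
        have h4 : (fun s : ℝ => η * (‖x1 + s • e‖ ^ 2 - 1)) =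
            fun s : ℝ => η * (‖x1‖ ^ 2 + 2 * s * x1 i + s ^ 2 - 1) := by
          funext s
          rw [hnorm]
        rw [h4]
        refine HasDerivAt.const_mul η ?_
        have h5 : HasDerivAt (fun s : ℝ => 2 * s * x1 i) (2 * x1 i) t := by
          have := ((hasDerivAt_id t).const_mul (2 : ℝ)).mul_const (x1 i)
          simpa using this
        have h6 : HasDerivAt (fun s : ℝ => s ^ 2) (2 * t) t := by
          simpa using hasDerivAt_pow 2 t
        exact ((h5.const_add (‖x1‖ ^ 2)).add h6).sub_const 1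
      exact h1.add h3
    have hg' : HasDerivAt (fun t : ℝ => gradient u (x1 + t • e) i + η * (2 * x1 i + 2 * t))
        ((fderiv ℝ (gradient u) x1 e) i + 2 * η) 0 := by
      have h1 : HasDerivAt (fun t : ℝ => gradient u (x1 + t • e) i)
          ((fderiv ℝ (gradient u) x1 e) i) 0 := by
        have hd : HasFDerivAt (gradient u) (fderiv ℝ (gradient u) x1) (x1 + (0 : ℝ) • e) := by
          rw [zero_smul, add_zero]
          exact (gradient_diff hu x1).hasFDerivAt
        have h2 := hd.comp_hasDerivAt (0 : ℝ) (hasDerivAt_line x1 e 0)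
        have h3 : HasFDerivAt (fun y : EE n => y i) (EuclideanSpace.proj i : EE n →L[ℝ] ℝ)
            (gradient u (x1 + (0 : ℝ) • e)) := (EuclideanSpace.proj i : EE n →L[ℝ] ℝ).hasFDerivAt
        exact h3.comp_hasDerivAt (0 : ℝ) h2
      have h4 : HasDerivAt (fun t : ℝ => η * (2 * x1 i + 2 * t)) (2 * η) 0 := by
        have := (((hasDerivAt_id (0 : ℝ)).const_mul (2 : ℝ)).const_add (2 * x1 i)).const_mul η
        have h5 : η * (2 * 1) = 2 * η := by ring
        rw [h5] at this
        exact this
      exact h1.add h4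
    refine second_deriv_nonpos hg hg' ?_
    have hc : Filter.Tendsto (fun t : ℝ => x1 + t • e) (𝓝 0) (𝓝 x1) := by
      have h1 := (hasDerivAt_line x1 e 0).continuousAt.tendsto
      simpa using h1
    have h7 := hc.eventually hloc
    filter_upwards [h7] with t ht
    simpa using ht
  have hsum : dv (gradient u) x1 + 2 * n * η ≤ 0 := by
    have h1 := Finset.sum_le_sum fun i (_ : i ∈ Finset.univ) => hcoord i
    rw [Finset.sum_add_distrib] at h1
    simp only [Finset.sum_const, Finset.card_univ, Fintype.card_fin, nsmul_eq_mul,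
      mul_zero] at h1
    unfold dv
    linarith
  have h2 := hL x1 hx1ball
  have h3 : (0 : ℝ) < n := by exact_mod_cast hn
  nlinarith [mul_pos h3 hη0]

end Pool.Agent.MP9dd972N
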