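import Mathlib
import Pool.Agent.Lib.MP_9dd972_gt.N.Defs

set_option autoImplicit false

namespace Pool.Agent.MP9dd972N

open MeasureTheory Set Metric
open scoped ENNReal NNReal Topology Pointwise

namespace PevcAux

variable {n : ℕ}

theorem pev_smooth (q : MvPolynomial (Fin n) ℝ) : ContDiff ℝ (⊤ : ℕ∞) (pev q) := by
  induction q using MvPolynomial.induction_on with
  | C a =>
    have : pev (MvPolynomial.C a : MvPolynomial (Fin n) ℝ) = fun _ => a := by
      funext x
      simp [pev]
    rw [this]
    exact contDiff_const
  | add p q hp hq =>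
    have : pev (p + q) = fun x => pev p x + pev q x := by
      funext x
      simp [pev]
    rw [this]
    exact hp.add hq
  | mul_X p i hp =>
    have : pev (p * MvPolynomial.X i) = fun x => pev p x * x i := by
      funext x
      simp [pev]
    rw [this]
    refine hp.mul ?_
    fun_prop

theorem pev_diff (q : MvPolynomial (Fin n) ℝ) : Differentiable ℝ (pev q) :=
  (pev_smooth q).differentiable (by simp)

theorem fderiv_pev (q : MvPolynomial (Fin n) ℝ) (x : EE n) (i : Fin n) :
    fderiv ℝ (pev q) x (EuclideanSpace.single i (1 : ℝ)) =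
      pev (MvPolynomial.pderiv i q) x := by
  induction q using MvPolynomial.induction_on with
  | C a =>
    have : pev (MvPolynomial.C a : MvPolynomial (Fin n) ℝ) = fun _ => a := by
      funext x
      simp [pev]
    rw [this]
    simp [pev]
  | add p q hp hq =>
    have : pev (p + q) = fun x => pev p x + pev q x := by
      funext x
      simp [pev]
    rw [this, fderiv_fun_add (pev_diff p x) (pev_diff q x)]
    simp only [ContinuousLinearMap.add_apply, hp, hq]
    simp [pev]
  | mul_X p j hp =>
    have : pev (p * MvPolynomial.X j) = fun x => pev p x * x j := by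
      funext x
      simp [pev]
    have hj : DifferentiableAt ℝ (fun x : EE n => x j) x := by fun_prop
    have hj' : fderiv ℝ (fun x : EE n => x j) x (EuclideanSpace.single i (1 : ℝ)) =
        if i = j then 1 else 0 := by
      have h1 : HasFDerivAt (fun x : EE n => x j) (EuclideanSpace.proj j : EE n →L[ℝ] ℝ) x :=
        (EuclideanSpace.proj j : EE n →L[ℝ] ℝ).hasFDerivAt
      rw [h1.fderiv]
      simp [EuclideanSpace.single_apply, eq_comm]
    rw [this, fderiv_fun_mul (pev_diff p x) hj]
    simp only [ContinuousLinearMap.add_apply, ContinuousLinearMap.smul_apply, hp, hj', smul_eq_mul]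
    rw [Derivation.leibniz]
    simp only [MvPolynomial.pderiv_X, pev, map_add, smul_eq_mul, map_mul, MvPolynomial.eval_X]
    by_cases hij : i = j
    · subst hij
      simp
    · simp [hij, Pi.single_apply, Ne.symm hij, eq_comm]

theorem gradient_pev (q : MvPolynomial (Fin n) ℝ) (x : EE n) (i : Fin n) :
    gradient (pev q) x i = pev (MvPolynomial.pderiv i q) x := by
  rw [← fderiv_pev]
  have h1 : fderiv ℝ (pev q) x (EuclideanSpace.single i (1 : ℝ)) =
      inner ℝ (gradient (pev q) x) (EuclideanSpace.single i (1 : ℝ)) := by
    rw [gradient, InnerProductSpace.toDual_symm_apply]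
  rw [h1, EuclideanSpace.inner_single_right]
  simp

end PevcAux

open PevcAux

theorem pev_contDiff {n : ℕ} (q : MvPolynomial (Fin n) ℝ) : ContDiff ℝ 2 (pev q) :=
  (pev_smooth q).of_le (by norm_cast)

theorem pev_lap {n : ℕ} (q : MvPolynomial (Fin n) ℝ) (x : EE n) :
    dv (gradient (pev q)) x
      = pev (∑ i, MvPolynomial.pderiv i (MvPolynomial.pderiv i q)) x := by
  have h1 : ∀ i : Fin n, (fderiv ℝ (gradient (pev q)) x (EuclideanSpace.single i (1 : ℝ))) i =
      pev (MvPolynomial.pderiv i (MvPolynomial.pderiv i q)) x := by
    intro i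
    have hd : DifferentiableAt ℝ (gradient (pev q)) x := by
      rw [differentiableAt_euclidean]
      intro j
      have : (fun x : EE n => gradient (pev q) x j) = pev (MvPolynomial.pderiv j q) := by
        funext y
        exact gradient_pev q y j
      rw [this]
      exact pev_diff _ x
    have h2 : (fderiv ℝ (gradient (pev q)) x (EuclideanSpace.single i (1 : ℝ))) i =
        fderiv ℝ (fun y => gradient (pev q) y i) x (EuclideanSpace.single i (1 : ℝ)) := by
      have h3 : HasFDerivAt (fun y : EE n => (EuclideanSpace.proj i : EE n →L[ℝ] ℝ)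
          (gradient (pev q) y)) ((EuclideanSpace.proj i : EE n →L[ℝ] ℝ).comp
            (fderiv ℝ (gradient (pev q)) x)) x :=
        (EuclideanSpace.proj i : EE n →L[ℝ] ℝ).hasFDerivAt.comp x hd.hasFDerivAt
      have h4 : (fun y => gradient (pev q) y i) = fun y : EE n =>
          (EuclideanSpace.proj i : EE n →L[ℝ] ℝ) (gradient (pev q) y) := by
        funext y
        rfl
      rw [h4, h3.fderiv]
      rfl
    rw [h2]
    have h5 : (fun y : EE n => gradient (pev q) y i) = pev (MvPolynomial.pderiv i q) := by
      funext y
      exact gradient_pev q y i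
    rw [h5, fderiv_pev]
  unfold dv
  rw [Finset.sum_congr rfl fun i _ => h1 i]
  simp [pev, map_sum]

end Pool.Agent.MP9dd972N
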