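import Mathlib
import Pool.Agent.Lib.MP_9dd972_gt.N.Defs
import Pool.Agent.Lib.MP_9dd972_gt.N.Pevc
import Pool.Agent.Lib.MP_9dd972_gt.N.Maxp

set_option autoImplicit false

namespace Pool.Agent.MP9dd972N

open MeasureTheory Set Metric
open scoped ENNReal NNReal Topology Pointwise

namespace LapinjAux

variable {n : ℕ}

theorem pev_PP_mul (q : MvPolynomial (Fin n) ℝ) (x : EE n) :
    pev (((∑ j, MvPolynomial.X j ^ 2) - 1) * q) x = (‖x‖ ^ 2 - 1) * pev q x := by
  have h3 : ‖x‖ ^ 2 = ∑ j, x j ^ 2 := by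
    rw [EuclideanSpace.norm_sq_eq x]
    simp only [Real.norm_eq_abs, sq_abs]
  rw [h3]
  simp [pev]

theorem nonpos_of_lap (p : MvPolynomial (Fin n) ℝ) (hn : 0 < n)
    (h : ∑ i, MvPolynomial.pderiv i (MvPolynomial.pderiv i p) = 0)
    (hs : ∀ x ∈ sphere (0 : EE n) 1, pev p x = 0) :
    ∀ x ∈ closedBall (0 : EE n) 1, pev p x ≤ 0 := by
  refine max_principle hn (pev_contDiff p) (fun x _ => ?_) fun x hx => (hs x hx).le
  rw [pev_lap, h]
  simp [pev]

theorem eq_zero_of_ball (q : MvPolynomial (Fin n) ℝ)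
    (h : ∀ x ∈ ball (0 : EE n) 1, pev q x = 0) : q = 0 := by
  set c : ℝ := 1 / ((n : ℝ) + 1) with hc
  have hc0 : 0 < c := by positivity
  refine MvPolynomial.funext_set (fun _ => Ioo (-c) c) (fun _ => Ioo_infinite (by linarith)) ?_
  intro y hy
  have h1 : (WithLp.toLp 2 y : EE n) ∈ ball (0 : EE n) 1 := by
    rw [mem_ball_zero_iff]
    have h2 : ‖(WithLp.toLp 2 y : EE n)‖ ^ 2 < 1 := by
      rw [EuclideanSpace.norm_sq_eq]
      have h3 : ∀ i : Fin n, ‖(WithLp.toLp 2 y : EE n) i‖ ^ 2 ≤ c ^ 2 := by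
        intro i
        have h4 := hy i (Set.mem_univ i)
        have h5 : |y i| < c := abs_lt.2 h4
        exact pow_le_pow_left₀ (norm_nonneg _) h5.le 2
      refine (Finset.sum_le_sum fun i _ => h3 i).trans_lt ?_
      rw [Finset.sum_const, Finset.card_univ, Fintype.card_fin, nsmul_eq_mul, hc, div_pow,
        one_pow, mul_one_div, div_lt_one (by positivity)]
      have : (0 : ℝ) ≤ n := Nat.cast_nonneg n
      nlinarith
    nlinarith [norm_nonneg (WithLp.toLp 2 y : EE n)]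
  have h2 := h _ h1
  simp only [map_zero]
  exact h2

end LapinjAux

open LapinjAux

theorem lap_inj {n : ℕ} (hn : 0 < n) (q : MvPolynomial (Fin n) ℝ)
    (h : ∑ i, MvPolynomial.pderiv i (MvPolynomial.pderiv i
      (((∑ j, MvPolynomial.X j ^ 2) - 1) * q)) = 0) : q = 0 := by
  have hs : ∀ x ∈ sphere (0 : EE n) 1,
      pev (((∑ j, MvPolynomial.X j ^ 2) - 1) * q) x = 0 := by
    intro x hx
    rw [pev_PP_mul]
    have : ‖x‖ = 1 := by simpa using hx
    rw [this]
    ring
  have h1 := nonpos_of_lap _ hn h hs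
  have h2 := nonpos_of_lap (-(((∑ j, MvPolynomial.X j ^ 2) - 1) * q)) hn
    (by
      simp only [map_neg, Finset.sum_neg_distrib]
      rw [h, neg_zero])
    (by
      intro x hx
      have := hs x hx
      simp only [pev, map_neg] at this ⊢
      rw [this, neg_zero])
  apply eq_zero_of_ball
  intro x hx
  have h3 := h1 x (ball_subset_closedBall hx)
  have h4 := h2 x (ball_subset_closedBall hx)
  have h5 : pev (-(((∑ j, MvPolynomial.X j ^ 2) - 1) * q)) x =
      -pev (((∑ j, MvPolynomial.X j ^ 2) - 1) * q) x := by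
    simp only [pev, map_neg]
  rw [h5] at h4
  have h6 : (‖x‖ ^ 2 - 1) * pev q x = 0 := by
    rw [← pev_PP_mul]
    linarith
  rw [mem_ball_zero_iff] at hx
  have h7 : ‖x‖ ^ 2 - 1 ≠ 0 := by
    have := norm_nonneg x
    nlinarith
  exact (mul_eq_zero.1 h6).resolve_left h7

end Pool.Agent.MP9dd972N
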