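import Mathlib
import Pool.Agent.Lib.MP_9dd972_gt.N.Defs
import Pool.Agent.Lib.MP_9dd972_gt.N.Pevc
import Pool.Agent.Lib.MP_9dd972_gt.N.Lapinj

set_option autoImplicit false

namespace Pool.Agent.MP9dd972N

open MeasureTheory Set Metric
open scoped ENNReal NNReal Topology Pointwise

namespace HpolAux

open MvPolynomial

variable {n : ℕ}

theorem totalDegree_pderiv_le (i : Fin n) (p : MvPolynomial (Fin n) ℝ) (m : ℕ)
    (hp : p.totalDegree ≤ m) : (pderiv i p).totalDegree ≤ m - 1 := by
  have h1 : pderiv i p = ∑ s ∈ p.support, pderiv i (monomial s (coeff s p)) := by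
    conv_lhs => rw [p.as_sum]
    rw [map_sum]
  rw [h1]
  refine (totalDegree_finset_sum _ _).trans (Finset.sup_le fun s hs => ?_)
  rw [pderiv_monomial]
  by_cases h0 : s i = 0
  · rw [h0]
    simp
  · refine (totalDegree_monomial_le _ _).trans ?_
    have h2 : s.sum (fun _ e => e) ≤ m := (le_totalDegree hs).trans hp
    have h3 : (s - Finsupp.single i 1).sum (fun _ e => e) + 1 = s.sum (fun _ e => e) := by
      have h4 : s - Finsupp.single i 1 + Finsupp.single i 1 = s := by
        apply tsub_add_cancel_of_le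
        rw [Finsupp.single_le_iff]
        omega
      conv_rhs => rw [← h4]
      rw [Finsupp.sum_add_index' (fun _ => rfl) (fun _ _ _ => rfl), Finsupp.sum_single_index rfl]
    change (s - Finsupp.single i 1).sum (fun _ e => e) ≤ m - 1
    omega

/-- The polynomial `Σ X_j² - 1`. -/
noncomputable def PP (n : ℕ) : MvPolynomial (Fin n) ℝ := (∑ j, X j ^ 2) - 1

theorem totalDegree_PP : (PP n).totalDegree ≤ 2 := by
  unfold PP
  refine (totalDegree_sub _ _).trans (max_le ?_ ?_)
  · refine (totalDegree_finset_sum _ _).trans (Finset.sup_le fun j _ => ?_)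
    refine (totalDegree_pow _ _).trans ?_
    rw [totalDegree_X]
  · rw [totalDegree_one]
    exact Nat.zero_le _

/-- The Laplacian. -/
noncomputable def lap (n : ℕ) : MvPolynomial (Fin n) ℝ →ₗ[ℝ] MvPolynomial (Fin n) ℝ :=
  ∑ i, ((pderiv i : Derivation ℝ (MvPolynomial (Fin n) ℝ) (MvPolynomial (Fin n) ℝ)) :
    MvPolynomial (Fin n) ℝ →ₗ[ℝ] MvPolynomial (Fin n) ℝ) ∘ₗ
    ((pderiv i : Derivation ℝ (MvPolynomial (Fin n) ℝ) (MvPolynomial (Fin n) ℝ)) :
    MvPolynomial (Fin n) ℝ →ₗ[ℝ] MvPolynomial (Fin n) ℝ)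

theorem lap_apply (q : MvPolynomial (Fin n) ℝ) : lap n q = ∑ i, pderiv i (pderiv i q) := by
  simp [lap, LinearMap.sum_apply]

theorem totalDegree_lap (q : MvPolynomial (Fin n) ℝ) (m : ℕ) (hq : q.totalDegree ≤ m) :
    (lap n q).totalDegree ≤ m - 1 - 1 := by
  rw [lap_apply]
  refine (totalDegree_finset_sum _ _).trans (Finset.sup_le fun j _ => ?_)
  exact totalDegree_pderiv_le j _ _ (totalDegree_pderiv_le j _ _ hq)

/-- The operator `p ↦ Δ((Σ X_j² - 1) p)`. -/
noncomputable def LL (n : ℕ) : MvPolynomial (Fin n) ℝ →ₗ[ℝ] MvPolynomial (Fin n) ℝ :=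
  lap n ∘ₗ LinearMap.mulLeft ℝ (PP n)

theorem LL_apply (q : MvPolynomial (Fin n) ℝ) : LL n q = lap n (PP n * q) := rfl

theorem LL_mem (m : ℕ) (q : MvPolynomial (Fin n) ℝ) (hq : q ∈ restrictTotalDegree (Fin n) ℝ m) :
    LL n q ∈ restrictTotalDegree (Fin n) ℝ m := by
  rw [mem_restrictTotalDegree] at hq ⊢
  rw [LL_apply]
  refine (totalDegree_lap _ (2 + m) ?_).trans (by omega)
  exact (totalDegree_mul _ _).trans (add_le_add totalDegree_PP hq)

theorem exists_sol (hn : 0 < n) (q : MvPolynomial (Fin n) ℝ) :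
    ∃ p : MvPolynomial (Fin n) ℝ, lap n (PP n * p) = lap n q := by
  set m := q.totalDegree with hm
  have hL : lap n q ∈ restrictTotalDegree (Fin n) ℝ m := by
    rw [mem_restrictTotalDegree]
    exact (totalDegree_lap q m le_rfl).trans (by omega)
  let L' : restrictTotalDegree (Fin n) ℝ m →ₗ[ℝ] restrictTotalDegree (Fin n) ℝ m :=
    (LL n).restrict (LL_mem m)
  have hinj : Function.Injective L' := by
    rw [← LinearMap.ker_eq_bot, LinearMap.ker_eq_bot']
    rintro ⟨p, hp⟩ h0
    have h1 : LL n p = 0 := by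
      have := congrArg Subtype.val h0
      simpa [L'] using this
    have h2 : p = 0 := by
      apply lap_inj hn
      rw [LL_apply, lap_apply] at h1
      exact h1
    simp [h2]
  have hsurj : Function.Surjective L' := LinearMap.injective_iff_surjective.1 hinj
  obtain ⟨⟨p, hp⟩, h⟩ := hsurj ⟨lap n q, hL⟩
  refine ⟨p, ?_⟩
  have := congrArg Subtype.val h
  simpa [L', LL_apply] using this

end HpolAux

open HpolAux in
theorem harmonic_ext {n : ℕ} (hn : 0 < n) (q : MvPolynomial (Fin n) ℝ) :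
    ∃ h : MvPolynomial (Fin n) ℝ, (∀ x : EE n, dv (gradient (pev h)) x = 0) ∧
      ∀ x ∈ sphere (0 : EE n) 1, pev h x = pev q x := by
  obtain ⟨p, hp⟩ := exists_sol hn q
  refine ⟨q - PP n * p, fun x => ?_, fun x hx => ?_⟩
  · rw [pev_lap, ← lap_apply, map_sub, hp, sub_self]
    simp [pev]
  · have h1 : ∑ j, x j ^ 2 = 1 := by
      have h2 : ‖x‖ = 1 := by simpa using hx
      have h3 := EuclideanSpace.norm_sq_eq x
      rw [h2] at h3
      simp only [Real.norm_eq_abs, sq_abs] at h3
      linarith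
    have h4 : pev (PP n) x = 0 := by
      simp only [pev, PP, map_sub, map_sum, map_pow, MvPolynomial.eval_X, map_one]
      rw [h1, sub_self]
    have h5 : pev (q - PP n * p) x = pev q x - pev (PP n) x * pev p x := by
      simp [pev]
    rw [h5, h4, zero_mul, sub_zero]

end Pool.Agent.MP9dd972N
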