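import Mathlib
import Pool.Agent.Lib.MP_9dd972_gt.N.Defs

set_option autoImplicit false

namespace Pool.Agent.MP9dd972N

open MeasureTheory Set Metric
open scoped ENNReal NNReal Topology Pointwise

namespace DivaAux

variable {n : ℕ}

/-- integration by parts in one direction -/
theorem one_dir {χ : EE n → ℝ} {L : ℝ≥0} (hχ : LipschitzWith L χ)
    (hc : HasCompactSupport χ) {v : EE n → ℝ} (hv : ContDiff ℝ 1 v) (e : EE n) :
    Integrable (fun x => χ x * fderiv ℝ v x e) ∧
    Integrable (fun x => fderiv ℝ χ x e * v x) ∧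
    ∫ x, χ x * fderiv ℝ v x e = - ∫ x, fderiv ℝ χ x e * v x := by
  obtain ⟨R, hR⟩ := hc.isCompact.isBounded.subset_closedBall (0 : EE n)
  have hR0 : 0 < max R 0 + 1 := by
    have := le_max_right R 0
    linarith
  let η : ContDiffBump (0 : EE n) :=
    { rIn := max R 0 + 1, rOut := max R 0 + 2, rIn_pos := hR0, rIn_lt_rOut := by linarith }
  set W : EE n → ℝ := fun x => η x * v x with hW
  have hWs : HasCompactSupport W := η.hasCompactSupport.mul_right
  have hWc : ContDiff ℝ 1 W := η.contDiff.mul hv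
  obtain ⟨C, hC⟩ := ContDiff.lipschitzWith_of_hasCompactSupport hWs hWc one_ne_zero
  have hmain := LipschitzWith.integral_lineDeriv_mul_eq (μ := (volume : Measure (EE n))) hC hχ hc e
  -- the set where `η = 1`
  have hη : ∀ x ∈ tsupport χ, W =ᶠ[𝓝 x] v := by
    intro x hx
    have h1 : x ∈ ball (0 : EE n) η.rIn := by
      have h2 := hR hx
      rw [mem_closedBall_zero_iff] at h2
      rw [mem_ball_zero_iff]
      show ‖x‖ < max R 0 + 1
      have := le_max_left R 0
      linarith
    filter_upwards [η.eventuallyEq_one_of_mem_ball h1] with y hy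
    show η y * v y = v y
    rw [hy]
    simp
  have hl : ∀ x, lineDeriv ℝ W x e * χ x = χ x * fderiv ℝ v x e := by
    intro x
    by_cases hx : x ∈ tsupport χ
    · rw [(hWc.differentiable one_ne_zero x).lineDeriv_eq_fderiv, (hη x hx).fderiv_eq, mul_comm]
    · rw [image_eq_zero_of_notMem_tsupport hx]
      simp
  have hr : ∀ᵐ x : EE n, lineDeriv ℝ χ x (-e) * W x = -(fderiv ℝ χ x e * v x) := by
    filter_upwards [hχ.ae_differentiableAt] with x hx
    rw [hx.lineDeriv_eq_fderiv, map_neg]
    by_cases hxs : x ∈ tsupport χ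
    · rw [(hη x hxs).self_of_nhds]
      ring
    · have h1 : fderiv ℝ χ x = 0 := by
        by_contra h
        exact hxs (support_fderiv_subset ℝ (Function.mem_support.mpr h))
      rw [h1]
      simp
  have hi2 : Integrable (fun x => lineDeriv ℝ χ x (-e) * W x) :=
    (hχ.locallyIntegrable_lineDeriv (-e)).integrable_smul_right_of_hasCompactSupport
      hWc.continuous hWs
  refine ⟨?_, ?_, ?_⟩
  · have h1 : Continuous (fun x => χ x * fderiv ℝ v x e) :=
      hχ.continuous.mul ((hv.continuous_fderiv one_ne_zero).clm_apply continuous_const)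
    exact h1.integrable_of_hasCompactSupport hc.mul_right
  · have h1 := (hi2.congr hr).neg
    refine h1.congr (Filter.Eventually.of_forall fun x => ?_)
    simp
  · rw [← integral_neg, ← integral_congr_ae hr, ← hmain]
    exact integral_congr_ae (Filter.Eventually.of_forall fun x => (hl x).symm)

end DivaAux

open DivaAux

theorem ibp_lip {n : ℕ} {χ : EE n → ℝ} {L : ℝ≥0} (hχ : LipschitzWith L χ)
    (hc : HasCompactSupport χ) {V : EE n → EE n} (hV : ContDiff ℝ 1 V) :
    ∫ x, χ x * dv V x = - ∫ x, (inner ℝ (gradient χ x) (V x) : ℝ) := by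
  have hVi : ∀ i : Fin n, ContDiff ℝ 1 (fun x => V x i) := fun i =>
    (EuclideanSpace.proj (𝕜 := ℝ) i : EE n →L[ℝ] ℝ).contDiff.comp hV
  have hfd : ∀ (i : Fin n) (x e : EE n), fderiv ℝ (fun x => V x i) x e = (fderiv ℝ V x e) i := by
    intro i x e
    have h1 := ((EuclideanSpace.proj (𝕜 := ℝ) i : EE n →L[ℝ] ℝ).hasFDerivAt).comp x
      (hV.differentiable one_ne_zero x).hasFDerivAt
    have h2 : HasFDerivAt (fun x => V x i)
      ((EuclideanSpace.proj (𝕜 := ℝ) i : EE n →L[ℝ] ℝ).comp (fderiv ℝ V x)) x := h1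
    rw [h2.fderiv]
    rfl
  have h := fun i : Fin n => one_dir hχ hc (hVi i) (EuclideanSpace.single i (1 : ℝ))
  have hL : (fun x => χ x * dv V x) =
      fun x => ∑ i, χ x * fderiv ℝ (fun x => V x i) x (EuclideanSpace.single i (1 : ℝ)) := by
    funext x
    rw [dv, Finset.mul_sum]
    exact Finset.sum_congr rfl fun i _ => by rw [hfd]
  have hR : (fun x => (inner ℝ (gradient χ x) (V x) : ℝ)) =
      fun x => ∑ i, fderiv ℝ χ x (EuclideanSpace.single i (1 : ℝ)) * V x i := by
    funext x
    rw [inner_gradient_left]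
    have h1 : V x = ∑ i, (V x i) • EuclideanSpace.single i (1 : ℝ) := by
      ext j
      simp [Finset.sum_apply, Pi.single_apply]
    conv_lhs => rw [h1]
    rw [map_sum]
    exact Finset.sum_congr rfl fun i _ => by rw [map_smul, smul_eq_mul, mul_comm]
  rw [hL, hR, integral_finsetSum _ fun i _ => (h i).1, integral_finsetSum _ fun i _ => (h i).2.1,
    ← Finset.sum_neg_distrib]
  exact Finset.sum_congr rfl fun i _ => (h i).2.2

end Pool.Agent.MP9dd972N
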