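import Mathlib
import Pool.Agent.Lib.MP_9dd972_gt.N.Defs
import Pool.Agent.Lib.MP_9dd972_gt.N.Hsup

set_option autoImplicit false

namespace Pool.Agent.MP9dd972N

open MeasureTheory Set Metric
open scoped ENNReal NNReal Topology Pointwise

namespace GaugeAux

variable {n : ℕ}

theorem nhds0 {K : Set (EE n)} (hK : Body K) : K ∈ 𝓝 (0 : EE n) := mem_interior_iff_mem_nhds.mp hK.zero

theorem mem0 {K : Set (EE n)} (hK : Body K) : (0 : EE n) ∈ K := interior_subset hK.zero

theorem absorbent {K : Set (EE n)} (hK : Body K) : Absorbent ℝ K := absorbent_nhds_zero (nhds0 hK)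

theorem fd_smul {K : Set (EE n)} {c : ℝ} (hc : 0 < c) {x : EE n} {A : EE n →L[ℝ] ℝ}
    (h : HasFDerivAt (gauge K) A x) : HasFDerivAt (gauge K) A (c • x) := by
  have h0 : c⁻¹ • c • x = x := by rw [smul_smul, inv_mul_cancel₀ hc.ne', one_smul]
  have h1 : HasFDerivAt (fun y : EE n => c⁻¹ • y) (c⁻¹ • ContinuousLinearMap.id ℝ (EE n)) (c • x) :=
    (hasFDerivAt_id (c • x)).const_smul c⁻¹
  have h2 : HasFDerivAt (gauge K) A (c⁻¹ • c • x) := by rw [h0]; exact h
  have h3 := (h2.comp (c • x) h1).const_mul c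
  have h4 : (fun y : EE n => c * (gauge K ∘ fun y : EE n => c⁻¹ • y) y) = gauge K := by
    funext y
    show c * gauge K (c⁻¹ • y) = gauge K y
    rw [gauge_smul_of_nonneg (inv_nonneg.mpr hc.le), smul_eq_mul, ← mul_assoc,
      mul_inv_cancel₀ hc.ne', one_mul]
  have h5 : c • A.comp (c⁻¹ • ContinuousLinearMap.id ℝ (EE n)) = A := by
    ext y
    simp [hc.ne']
  rw [h4, h5] at h3
  exact h3

theorem slope_le {φ : ℝ → ℝ} {d m : ℝ} (h : HasDerivAt φ d 0)
    (hm : ∀ t : ℝ, 0 < t → φ t ≤ φ 0 + t * m) : d ≤ m := by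
  rw [hasDerivAt_iff_tendsto_slope_zero] at h
  have h1 : Filter.Tendsto (fun t : ℝ => t⁻¹ • (φ (0 + t) - φ 0)) (𝓝[>] 0) (𝓝 d) :=
    h.mono_left (nhdsWithin_mono _ (fun t ht => ne_of_gt ht))
  refine le_of_tendsto h1 ?_
  filter_upwards [self_mem_nhdsWithin] with t ht
  have ht' : 0 < t := ht
  rw [zero_add, smul_eq_mul, inv_mul_le_iff₀ ht']
  linarith [hm t ht']

theorem line_deriv {K : Set (EE n)} {x : EE n} (hx : DifferentiableAt ℝ (gauge K) x) (y : EE n) :
    HasDerivAt (fun t : ℝ => gauge K (x + t • y)) (inner ℝ (NN K x) y) 0 := by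
  have h1 : HasDerivAt (fun t : ℝ => x + t • y) y 0 := by
    simpa using ((hasDerivAt_id (0 : ℝ)).smul_const y).const_add x
  have h2 : HasFDerivAt (gauge K) (fderiv ℝ (gauge K) x) (x + (0 : ℝ) • y) := by
    rw [zero_smul, add_zero]
    exact hx.hasFDerivAt
  have h3 := h2.comp_hasDerivAt (0 : ℝ) h1
  have h4 : (inner ℝ (NN K x) y : ℝ) = fderiv ℝ (gauge K) x y := by
    rw [NN, inner_gradient_left]
  rw [h4]
  exact h3

theorem gauge_ball {r : ℝ} (hr : 0 < r) {K : Set (EE n)} (hv : Convex ℝ K)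
    (h : ball (0 : EE n) r ⊆ K) (y : EE n) : gauge K y ≤ r⁻¹ * ‖y‖ := by
  have h1 := hv.lipschitzWith_gauge (r := (⟨r, hr.le⟩ : ℝ≥0)) (by exact_mod_cast hr) h
  have h2 := h1.dist_le_mul y 0
  rw [Real.dist_eq, gauge_zero, sub_zero, dist_zero_right] at h2
  refine (le_abs_self _).trans (h2.trans (le_of_eq ?_))
  rw [NNReal.coe_inv]
  rfl

end GaugeAux

open GaugeAux

theorem Body.smul {n : ℕ} {K : Set (EE n)} (hK : Body K) {c : ℝ} (hc : 0 < c) :
    Body (c • K) where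
  conv := hK.conv.smul c
  comp := hK.comp.smul c
  zero := by
    rw [interior_smul₀ hc.ne']
    exact ⟨0, hK.zero, smul_zero c⟩

theorem Body.gauge_lip {n : ℕ} {K : Set (EE n)} (hK : Body K) :
    ∃ L : ℝ≥0, LipschitzWith L (gauge K) := hK.conv.lipschitz_gauge (nhds0 hK)

theorem Body.gauge_le_one {n : ℕ} {K : Set (EE n)} (hK : Body K) (x : EE n) :
    gauge K x ≤ 1 ↔ x ∈ K := by
  rw [gauge_le_one_iff_mem_closure hK.conv (nhds0 hK), hK.comp.isClosed.closure_eq]

theorem Body.gauge_lt_one {n : ℕ} {K : Set (EE n)} (hK : Body K) (x : EE n) :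
    gauge K x < 1 ↔ x ∈ interior K := gauge_lt_one_iff_mem_interior hK.conv (nhds0 hK)

theorem Body.gauge_pos {n : ℕ} {K : Set (EE n)} (hK : Body K) {x : EE n} (hx : x ≠ 0) :
    0 < gauge K x :=
  (_root_.gauge_pos (absorbent hK)
    (NormedSpace.isVonNBounded_of_isBounded _ hK.comp.isBounded)).mpr hx

theorem Body.gauge_add {n : ℕ} {K : Set (EE n)} (hK : Body K) (x y : EE n) :
    gauge K (x + y) ≤ gauge K x + gauge K y := gauge_add_le hK.conv (absorbent hK) x y

theorem Body.ae_diff {n : ℕ} (hn : 0 < n) {K : Set (EE n)} (hK : Body K) :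
    ∀ᵐ x : EE n, DifferentiableAt ℝ (gauge K) x ∧ x ≠ 0 := by
  obtain ⟨L, hL⟩ := hK.gauge_lip
  have : Nontrivial (EE n) := by
    have : Nonempty (Fin n) := ⟨⟨0, hn⟩⟩
    infer_instance
  have h2 : ∀ᵐ x : EE n, x ≠ 0 := by
    rw [ae_iff]
    simp
  filter_upwards [hL.ae_differentiableAt, h2] with x hx hx2
  exact ⟨hx, hx2⟩

theorem NN_meas {n : ℕ} (K : Set (EE n)) : Measurable (NN K) := by
  have h1 : NN K = fun x => (InnerProductSpace.toDual ℝ (EE n)).symm (fderiv ℝ (gauge K) x) := rfl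
  rw [h1]
  exact (InnerProductSpace.toDual ℝ (EE n)).symm.continuous.measurable.comp
    (measurable_fderiv ℝ (gauge K))

theorem bd_meas {n : ℕ} {K : Set (EE n)} (hK : Body K) : Measurable (bd K) := by
  obtain ⟨L, hL⟩ := hK.gauge_lip
  exact (hL.continuous.measurable.inv).smul measurable_id

theorem inner_NN_le {n : ℕ} {K : Set (EE n)} (hK : Body K) (x y : EE n) :
    (inner ℝ (NN K x) y : ℝ) ≤ gauge K y := by
  by_cases hx : DifferentiableAt ℝ (gauge K) x
  · refine slope_le (line_deriv hx y) fun t ht => ?_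
    rw [zero_smul, add_zero]
    refine (hK.gauge_add x (t • y)).trans (le_of_eq ?_)
    rw [gauge_smul_of_nonneg ht.le, smul_eq_mul]
  · rw [NN, gradient_eq_zero_of_not_differentiableAt hx, inner_zero_left]
    exact gauge_nonneg y

theorem inner_NN_self {n : ℕ} {K : Set (EE n)} (hK : Body K) {x : EE n}
    (hx : DifferentiableAt ℝ (gauge K) x) : (inner ℝ (NN K x) x : ℝ) = gauge K x := by
  have h1 := line_deriv hx x
  have h2 : HasDerivAt (fun t : ℝ => (1 + t) * gauge K x) (gauge K x) 0 := by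
    simpa using ((hasDerivAt_id (0 : ℝ)).const_add 1).mul_const (gauge K x)
  have h3 : (fun t : ℝ => gauge K (x + t • x)) =ᶠ[𝓝 0] fun t : ℝ => (1 + t) * gauge K x := by
    filter_upwards [lt_mem_nhds (show (-1 : ℝ) < 0 by norm_num)] with t ht
    have h4 : x + t • x = (1 + t) • x := by rw [add_smul, one_smul]
    rw [h4, gauge_smul_of_nonneg (by linarith), smul_eq_mul]
  exact h1.unique (h2.congr_of_eventuallyEq h3)

theorem inner_NN_bd {n : ℕ} {K : Set (EE n)} (hK : Body K) {x : EE n}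
    (hx : DifferentiableAt ℝ (gauge K) x) (h0 : x ≠ 0) :
    (inner ℝ (NN K x) (bd K x) : ℝ) = 1 := by
  rw [bd, inner_smul_right, inner_NN_self hK hx, inv_mul_cancel₀ (hK.gauge_pos h0).ne']

theorem hh_NN_le {n : ℕ} {K : Set (EE n)} (hK : Body K) (x : EE n) :
    hh K (NN K x) ≤ 1 :=
  hh_le ⟨0, mem0 hK⟩ fun y hy => (inner_NN_le hK x y).trans ((hK.gauge_le_one y).mpr hy)

theorem NN_smul {n : ℕ} (K : Set (EE n)) {c : ℝ} (hc : 0 < c) (x : EE n) :
    NN K (c • x) = NN K x := by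
  by_cases hx : DifferentiableAt ℝ (gauge K) x
  · have h1 := fd_smul hc hx.hasFDerivAt
    rw [NN, gradient, h1.fderiv, NN, gradient]
  · have h2 : ¬ DifferentiableAt ℝ (gauge K) (c • x) := fun h => by
      have h3 := fd_smul (inv_pos.mpr hc) h.hasFDerivAt
      rw [smul_smul, inv_mul_cancel₀ hc.ne', one_smul] at h3
      exact hx h3.differentiableAt
    rw [NN, gradient_eq_zero_of_not_differentiableAt h2, NN,
      gradient_eq_zero_of_not_differentiableAt hx]

theorem bd_smul {n : ℕ} (K : Set (EE n)) {c : ℝ} (hc : 0 < c) (x : EE n) :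
    bd K (c • x) = bd K x := by
  rw [bd, bd, gauge_smul_of_nonneg hc.le, smul_eq_mul, smul_smul, mul_inv, mul_right_comm,
    inv_mul_cancel₀ hc.ne', one_mul]

theorem NN_smul_set {n : ℕ} (K : Set (EE n)) {c : ℝ} (hc : 0 < c) (x : EE n) :
    NN (c • K) x = c⁻¹ • NN K x := by
  have h0 : gauge (c • K) = fun y => c⁻¹ * gauge K y := by
    rw [gauge_smul_left_of_nonneg hc.le]
    rfl
  have hc' : c⁻¹ ≠ 0 := inv_ne_zero hc.ne'
  by_cases hx : DifferentiableAt ℝ (gauge K) x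
  · rw [NN, gradient, h0, fderiv_const_mul hx, NN, gradient, map_smulₛₗ]
    simp
  · have h2 : ¬ DifferentiableAt ℝ (gauge (c • K)) x := fun h => by
      rw [h0] at h
      have h3 := h.const_mul c
      have h4 : (fun y => c * (c⁻¹ * gauge K y)) = gauge K := by
        funext y
        rw [← mul_assoc, mul_inv_cancel₀ hc.ne', one_mul]
      rw [h4] at h3
      exact hx h3
    rw [NN, gradient_eq_zero_of_not_differentiableAt h2, NN,
      gradient_eq_zero_of_not_differentiableAt hx, smul_zero]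

theorem bd_smul_set {n : ℕ} (K : Set (EE n)) {c : ℝ} (hc : 0 < c) (x : EE n) :
    bd (c • K) x = c • bd K x := by
  rw [bd, bd, gauge_smul_left_of_nonneg hc.le, Pi.smul_apply, smul_eq_mul, mul_inv, inv_inv,
    smul_smul]

theorem gauge_bd {n : ℕ} {K : Set (EE n)} (hK : Body K) {x : EE n} (hx : x ≠ 0) :
    gauge K (bd K x) = 1 := by
  rw [bd, gauge_smul_of_nonneg (inv_nonneg.mpr (gauge_nonneg x)), smul_eq_mul,
    inv_mul_cancel₀ (hK.gauge_pos hx).ne']

theorem bd_mem {n : ℕ} {K : Set (EE n)} (hK : Body K) (x : EE n) : bd K x ∈ K := by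
  by_cases hx : x = 0
  · rw [hx, bd, smul_zero]
    exact mem0 hK
  · exact (hK.gauge_le_one _).mp (gauge_bd hK hx).le

theorem bd_frontier {n : ℕ} {K : Set (EE n)} (hK : Body K) {x : EE n} (hx : x ≠ 0) :
    bd K x ∈ frontier K := by
  rw [hK.comp.isClosed.frontier_eq]
  refine ⟨bd_mem hK x, fun h => ?_⟩
  have h1 := (hK.gauge_lt_one _).mpr h
  rw [gauge_bd hK hx] at h1
  exact lt_irrefl _ h1

theorem hh_NN {n : ℕ} {K : Set (EE n)} (hK : Body K) {x : EE n}
    (hx : DifferentiableAt ℝ (gauge K) x) (h0 : x ≠ 0) : hh K (NN K x) = 1 :=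
  le_antisymm (hh_NN_le hK x) ((inner_NN_bd hK hx h0).symm.le.trans
    (inner_le_hh hK.comp (bd_mem hK x) _))

theorem norm_NN_le {n : ℕ} {r R : ℝ} {K : Set (EE n)} (hr : 0 < r) (hK : Round r R K)
    (x : EE n) : ‖NN K x‖ ≤ r⁻¹ := by
  have h1 := inner_NN_le hK.toBody x (NN K x)
  rw [real_inner_self_eq_norm_sq] at h1
  have h2 := h1.trans (gauge_ball hr hK.conv hK.inn (NN K x))
  rcases (norm_nonneg (NN K x)).eq_or_lt with h | h
  · rw [← h]
    exact inv_nonneg.mpr hr.le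
  · rw [sq] at h2
    exact le_of_mul_le_mul_right h2 h

theorem le_norm_NN {n : ℕ} {r R : ℝ} {K : Set (EE n)} (hR : 0 < R) (hK : Round r R K)
    {x : EE n} (hx : DifferentiableAt ℝ (gauge K) x) (h0 : x ≠ 0) :
    R⁻¹ ≤ ‖NN K x‖ := by
  have h1 := hh_bound ⟨0, mem0 hK.toBody⟩ hK.out (NN K x)
  rw [hh_NN hK.toBody hx h0] at h1
  rw [inv_le_iff_one_le_mul₀ hR]
  linarith

theorem Body.round {n : ℕ} {K : Set (EE n)} (hK : Body K) :
    ∃ r R : ℝ, 0 < r ∧ 1 ≤ R ∧ Round r R K := by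
  obtain ⟨r, hr, hrK⟩ := Metric.mem_nhds_iff.mp (nhds0 hK)
  obtain ⟨R, hR⟩ := hK.comp.isBounded.subset_closedBall (0 : EE n)
  exact ⟨r, max R 1, hr, le_max_right _ _,
    { toBody := hK, inn := hrK, out := hR.trans (closedBall_subset_closedBall (le_max_left _ _)) }⟩

theorem int_hh {n : ℕ} {K C : Set (EE n)} (hK : Body K) (hC : IsCompact C) (hne : C.Nonempty) :
    IntegrableOn (fun x => hh C (NN K x)) K := by
  obtain ⟨r, R, hr, hR, hrd⟩ := hK.round
  obtain ⟨R', hR'⟩ := hC.isBounded.subset_closedBall (0 : EE n)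
  have hR0 : 0 ≤ max R' 0 := le_max_right _ _
  have hR'' : C ⊆ closedBall (0 : EE n) (max R' 0) :=
    hR'.trans (closedBall_subset_closedBall (le_max_left _ _))
  refine Measure.integrableOn_of_bounded (M := max R' 0 * r⁻¹) hK.comp.measure_lt_top.ne
    (((hh_cont hC hne).measurable.comp (NN_meas K)).aestronglyMeasurable)
    (Filter.Eventually.of_forall fun x => ?_)
  rw [Real.norm_eq_abs]
  have h1 := hh_lip hC hne hR'' (NN K x) 0
  rw [hh_zero, sub_zero, sub_zero] at h1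
  exact h1.trans (mul_le_mul_of_nonneg_left (norm_NN_le hr hrd x) hR0)

end Pool.Agent.MP9dd972N
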