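import Mathlib
import Pool.Agent.Lib.MP_9dd972_gt.N.Defs
import Pool.Agent.Lib.MP_9dd972_gt.N.Gauge

set_option autoImplicit false

namespace Pool.Agent.MP9dd972N

open MeasureTheory Set Metric
open scoped ENNReal NNReal Topology Pointwise

theorem vol_smul {n : ℕ} (K : Set (EE n)) {c : ℝ} (hc : 0 < c) :
    (volume (c • K)).toReal = c ^ n * (volume K).toReal := by
  rw [Measure.addHaar_smul, finrank_euclideanSpace_fin, ENNReal.toReal_mul,
    ENNReal.toReal_ofReal (abs_nonneg _), abs_of_pos (pow_pos hc n)]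

theorem hom_smul {n : ℕ} (K : Set (EE n)) {H : EE n → ℝ}
    (hH : ∀ (c : ℝ) (x : EE n), 0 < c → H (c • x) = H x) {c : ℝ} (hc : 0 < c) :
    ∫ x in c • K, H x = c ^ n * ∫ x in K, H x := by
  have h1 := Measure.setIntegral_comp_smul_of_pos (volume : Measure (EE n)) H K hc
  rw [finrank_euclideanSpace_fin, smul_eq_mul] at h1
  have h2 : ∫ x in K, H (c • x) = ∫ x in K, H x := by
    congr 1
    funext x
    exact hH c x hc
  rw [h2] at h1
  rw [h1, ← mul_assoc, mul_inv_cancel₀ (pow_pos hc n).ne', one_mul]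

theorem hom_shell {n : ℕ} {K : Set (EE n)} (hK : Body K) {H : EE n → ℝ}
    (hH : ∀ (c : ℝ) (x : EE n), 0 < c → H (c • x) = H x) (hI : IntegrableOn H K)
    {a : ℝ} (ha : 0 < a) (ha1 : a ≤ 1) :
    ∫ x in {x | a < gauge K x ∧ gauge K x ≤ 1}, H x = (1 - a ^ n) * ∫ x in K, H x := by
  have h1 : ∀ x : EE n, x ∈ a • K ↔ gauge K x ≤ a := by
    intro x
    have h2 : x ∈ a • K ↔ a⁻¹ • x ∈ K := by
      rw [Set.mem_smul_set_iff_inv_smul_mem₀ ha.ne']
    rw [h2, ← hK.gauge_le_one, gauge_smul_of_nonneg (inv_nonneg.mpr ha.le), smul_eq_mul,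
      inv_mul_le_iff₀ ha, mul_one]
  have h3 : {x : EE n | a < gauge K x ∧ gauge K x ≤ 1} = K \ (a • K) := by
    ext x
    rw [Set.mem_sdiff, h1, ← hK.gauge_le_one, not_le]
    exact ⟨fun h => ⟨h.2, h.1⟩, fun h => ⟨h.2, h.1⟩⟩
  have h4 : a • K ⊆ K := by
    intro x hx
    rw [h1] at hx
    exact (hK.gauge_le_one x).mp (hx.trans ha1)
  rw [h3, setIntegral_sdiff ((hK.comp.smul a).isClosed.measurableSet) hI h4, hom_smul K hH ha]
  ring

end Pool.Agent.MP9dd972N
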