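import Mathlib
import Pool.Agent.Lib.MP_9dd972_gt.N.Defs
import Pool.Agent.Lib.MP_9dd972_gt.N.Gauge
import Pool.Agent.Lib.MP_9dd972_gt.N.Hom
import Pool.Agent.Lib.MP_9dd972_gt.N.Diva

set_option autoImplicit false

namespace Pool.Agent.MP9dd972N

open MeasureTheory Set Metric
open scoped ENNReal NNReal Topology Pointwise

namespace DivAux

variable {n : ℕ}

/-- the cutoff function -/
noncomputable def ch (K : Set (EE n)) (k : ℝ) (x : EE n) : ℝ :=
  min 1 (k * max 0 (1 - gauge K x))

theorem min_abs (a b : ℝ) : |min 1 a - min 1 b| ≤ |a - b| := by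
  rcases le_total 1 a with ha | ha <;> rcases le_total 1 b with hb | hb
  · rw [min_eq_left ha, min_eq_left hb]
    simp
  · rw [min_eq_left ha, min_eq_right hb, abs_of_nonneg (by linarith), abs_of_nonneg (by linarith)]
    linarith
  · rw [min_eq_right ha, min_eq_left hb, abs_of_nonpos (by linarith), abs_of_nonpos (by linarith)]
    linarith
  · rw [min_eq_right ha, min_eq_right hb]

theorem max_abs (a b : ℝ) : |max 0 a - max 0 b| ≤ |a - b| := by
  rcases le_total 0 a with ha | ha <;> rcases le_total 0 b with hb | hb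
  · rw [max_eq_right ha, max_eq_right hb]
  · rw [max_eq_right ha, max_eq_left hb, abs_of_nonneg (by linarith), abs_of_nonneg (by linarith)]
    linarith
  · rw [max_eq_left ha, max_eq_right hb, abs_of_nonpos (by linarith), abs_of_nonpos (by linarith)]
    linarith
  · rw [max_eq_left ha, max_eq_left hb]
    simp

theorem ch_lip {K : Set (EE n)} {L : ℝ≥0} (hL : LipschitzWith L (gauge K)) {k : ℝ} (hk : 0 ≤ k) :
    LipschitzWith (k.toNNReal * L) (ch K k) := by
  refine LipschitzWith.of_dist_le_mul fun x y => ?_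
  rw [Real.dist_eq, ch, ch]
  calc |min 1 (k * max 0 (1 - gauge K x)) - min 1 (k * max 0 (1 - gauge K y))|
      ≤ |k * max 0 (1 - gauge K x) - k * max 0 (1 - gauge K y)| := min_abs _ _
    _ = k * |max 0 (1 - gauge K x) - max 0 (1 - gauge K y)| := by
        rw [← mul_sub, abs_mul, abs_of_nonneg hk]
    _ ≤ k * |(1 - gauge K x) - (1 - gauge K y)| :=
        mul_le_mul_of_nonneg_left (max_abs _ _) hk
    _ = k * dist (gauge K x) (gauge K y) := by
        rw [Real.dist_eq, ← abs_neg]
        congr 2
        ring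
    _ ≤ k * (L * dist x y) := mul_le_mul_of_nonneg_left (hL.dist_le_mul x y) hk
    _ = _ := by
        rw [NNReal.coe_mul, Real.coe_toNNReal k hk]
        ring

theorem ch_nonneg (K : Set (EE n)) {k : ℝ} (hk : 0 ≤ k) (x : EE n) : 0 ≤ ch K k x :=
  le_min zero_le_one (mul_nonneg hk (le_max_left _ _))

theorem ch_le_one (K : Set (EE n)) (k : ℝ) (x : EE n) : ch K k x ≤ 1 := min_le_left _ _

theorem ch_zero {K : Set (EE n)} (k : ℝ) {x : EE n} (h : 1 ≤ gauge K x) : ch K k x = 0 := by
  rw [ch, max_eq_left (by linarith), mul_zero]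
  exact min_eq_right zero_le_one

theorem ch_one {K : Set (EE n)} {k : ℝ} {x : EE n} (h : 1 ≤ k * (1 - gauge K x)) (hk : 0 ≤ k) :
    ch K k x = 1 := by
  rw [ch]
  exact min_eq_left (h.trans (mul_le_mul_of_nonneg_left (le_max_right _ _) hk))

theorem ch_mid {K : Set (EE n)} {k : ℝ} {x : EE n} (h : k * (1 - gauge K x) ≤ 1)
    (h1 : gauge K x ≤ 1) : ch K k x = k * (1 - gauge K x) := by
  rw [ch, max_eq_right (by linarith)]
  exact min_eq_right h

theorem ch_supp {K : Set (EE n)} (hK : Body K) (k : ℝ) : HasCompactSupport (ch K k) := by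
  refine HasCompactSupport.intro hK.comp fun x hx => ch_zero k ?_
  rw [← hK.gauge_le_one, not_le] at hx
  exact hx.le

theorem level_one {K : Set (EE n)} (hK : Body K) : volume {x : EE n | gauge K x = 1} = 0 := by
  refine measure_mono_null ?_ (hK.conv.addHaar_frontier volume)
  intro x hx
  have hx' : gauge K x = 1 := hx
  rw [hK.comp.isClosed.frontier_eq]
  refine ⟨(hK.gauge_le_one x).mp hx'.le, fun h => ?_⟩
  have := (hK.gauge_lt_one x).mpr h
  linarith

theorem level_null {K : Set (EE n)} (hK : Body K) {a : ℝ} (ha : 0 < a) :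
    volume {x : EE n | gauge K x = a} = 0 := by
  have h1 : {x : EE n | gauge K x = a} ⊆ a • {x : EE n | gauge K x = 1} := by
    intro x hx
    have hx' : gauge K x = a := hx
    refine ⟨a⁻¹ • x, ?_, ?_⟩
    · show gauge K (a⁻¹ • x) = 1
      rw [gauge_smul_of_nonneg (inv_nonneg.mpr ha.le), hx', smul_eq_mul, inv_mul_cancel₀ ha.ne']
    · show a • a⁻¹ • x = x
      rw [smul_smul, mul_inv_cancel₀ ha.ne', one_smul]
  refine measure_mono_null h1 ?_
  rw [Measure.addHaar_smul, level_one hK, mul_zero]

theorem grad_ch {K : Set (EE n)} {L : ℝ≥0} (hL : LipschitzWith L (gauge K)) {k : ℝ} (hk : 0 < k)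
    {x : EE n} (hd : DifferentiableAt ℝ (gauge K) x) (h1 : gauge K x ≠ 1)
    (h2 : gauge K x ≠ 1 - k⁻¹) :
    gradient (ch K k) x =
      {x | 1 - k⁻¹ < gauge K x ∧ gauge K x ≤ 1}.indicator (fun x => (-k) • NN K x) x := by
  have hg : Continuous (gauge K) := hL.continuous
  rcases lt_or_gt_of_ne h2 with h | h
  · -- inner region
    rw [indicator_of_notMem (fun hx => lt_asymm hx.1 h)]
    have he : ch K k =ᶠ[𝓝 x] fun _ => (1 : ℝ) := by
      filter_upwards [hg.continuousAt.eventually (gt_mem_nhds h)] with y hy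
      refine ch_one ?_ hk.le
      have : k⁻¹ ≤ 1 - gauge K y := by linarith
      calc (1 : ℝ) = k * k⁻¹ := (mul_inv_cancel₀ hk.ne').symm
        _ ≤ k * (1 - gauge K y) := mul_le_mul_of_nonneg_left this hk.le
    rw [he.gradient_eq]
    exact gradient_fun_const x 1
  · rcases lt_or_gt_of_ne h1 with h' | h'
    · -- shell
      rw [indicator_of_mem (show x ∈ {x | 1 - k⁻¹ < gauge K x ∧ gauge K x ≤ 1} from ⟨h, h'.le⟩)]
      have he : ch K k =ᶠ[𝓝 x] fun y => k * (1 - gauge K y) := by
        filter_upwards [hg.continuousAt.eventually (lt_mem_nhds h),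
          hg.continuousAt.eventually (gt_mem_nhds h')] with y hy hy'
        refine ch_mid ?_ hy'.le
        have : 1 - gauge K y ≤ k⁻¹ := by linarith
        calc k * (1 - gauge K y) ≤ k * k⁻¹ := mul_le_mul_of_nonneg_left this hk.le
          _ = 1 := mul_inv_cancel₀ hk.ne'
      rw [he.gradient_eq]
      have h3 : HasFDerivAt (fun y => k * (1 - gauge K y)) (k • (0 - fderiv ℝ (gauge K) x)) x :=
        ((hasFDerivAt_const (1 : ℝ) x).sub hd.hasFDerivAt).const_mul k
      rw [gradient, h3.fderiv, NN, gradient, zero_sub, smul_neg, map_neg, map_smulₛₗ, neg_smul]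
      simp
    · -- outer region
      rw [indicator_of_notMem (fun hx => absurd hx.2 (not_le.mpr h'))]
      have he : ch K k =ᶠ[𝓝 x] fun _ => (0 : ℝ) := by
        filter_upwards [hg.continuousAt.eventually (lt_mem_nhds h')] with y hy
        exact ch_zero k hy.le
      rw [he.gradient_eq]
      exact gradient_fun_const x 0

theorem dv_cont {V : EE n → EE n} (hV : ContDiff ℝ 1 V) : Continuous (dv V) := by
  unfold dv
  refine continuous_finsetSum _ fun i _ => ?_
  have h1 : Continuous fun x => fderiv ℝ V x (EuclideanSpace.single i (1 : ℝ)) :=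
    (hV.continuous_fderiv (by norm_num)).clm_apply continuous_const
  exact (continuous_apply i).comp ((PiLp.continuous_ofLp 2 _).comp h1)

/-- integrability on subsets of `K` of `inner (NN K x) (W x)` for bounded measurable `W` -/
theorem int_inner {K : Set (EE n)} (hK : Body K) {W : EE n → EE n} (hW : Measurable W) {M : ℝ}
    (hM : ∀ x ∈ K, ‖W x‖ ≤ M) :
    IntegrableOn (fun x => (inner ℝ (NN K x) (W x) : ℝ)) K := by
  obtain ⟨r, R, hr, hR, hrd⟩ := hK.round
  have hKv : volume K < ∞ := hK.comp.measure_lt_top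
  refine Measure.integrableOn_of_bounded (M := r⁻¹ * M) hKv.ne
    (((NN_meas K).inner hW).aestronglyMeasurable) ?_
  refine (ae_restrict_mem hK.comp.isClosed.measurableSet).mono fun x hx => ?_
  refine (norm_inner_le_norm _ _).trans ?_
  exact mul_le_mul (norm_NN_le hr hrd x) (hM x hx) (norm_nonneg _) (inv_nonneg.mpr hr.le)

end DivAux

open DivAux

theorem div_cone {n : ℕ} (hn : 0 < n) {K : Set (EE n)} (hK : Body K) {V : EE n → EE n}
    (hV : ContDiff ℝ 1 V) :
    ∫ x in K, dv V x = n * ∫ x in K, (inner ℝ (NN K x) (V (bd K x)) : ℝ) := by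
  obtain ⟨L, hL⟩ := hK.gauge_lip
  obtain ⟨r, R, hr, hR, hrd⟩ := hK.round
  have hgc : Continuous (gauge K) := hL.continuous
  have hKm : MeasurableSet K := hK.comp.isClosed.measurableSet
  have hKv : volume K < ∞ := hK.comp.measure_lt_top
  have hVc : Continuous V := hV.continuous
  -- bound of `V` on `K`
  obtain ⟨M, hM⟩ := hK.comp.exists_bound_of_continuousOn hVc.continuousOn
  set S : ℝ → Set (EE n) := fun a => {x | a < gauge K x ∧ gauge K x ≤ 1} with hS
  have hSm : ∀ a, MeasurableSet (S a) := fun a =>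
    (isOpen_lt continuous_const hgc).measurableSet.inter
      (isClosed_le hgc continuous_const).measurableSet
  have hSK : ∀ a, S a ⊆ K := fun a x hx => (hK.gauge_le_one x).mp hx.2
  have hI1 : IntegrableOn (fun x => (inner ℝ (NN K x) (V x) : ℝ)) K :=
    int_inner hK hVc.measurable hM
  have hI2 : IntegrableOn (fun x => (inner ℝ (NN K x) (V (bd K x)) : ℝ)) K :=
    int_inner hK (hVc.measurable.comp (bd_meas hK)) (fun x _ => hM _ (bd_mem hK x))
  -- the first identity
  have hA : ∀ k : ℝ, 1 < k → ∫ x, ch K k x * dv V x =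
      k * ∫ x in S (1 - k⁻¹), (inner ℝ (NN K x) (V x) : ℝ) := by
    intro k hk
    have hk0 : 0 < k := by linarith
    have ha : 0 < 1 - k⁻¹ := by
      have := inv_lt_one_of_one_lt₀ hk
      linarith
    rw [ibp_lip (ch_lip hL hk0.le) (ch_supp hK k) hV, ← integral_const_mul,
      ← integral_indicator (hSm _), ← integral_neg]
    refine integral_congr_ae ?_
    have e1 : ∀ᵐ x : EE n, gauge K x ≠ 1 := by
      rw [ae_iff]
      simpa using level_one hK
    have e2 : ∀ᵐ x : EE n, gauge K x ≠ 1 - k⁻¹ := by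
      rw [ae_iff]
      simpa using level_null hK ha
    filter_upwards [hK.ae_diff hn, e1, e2] with x hx hx1 hx2
    rw [grad_ch hL hk0 hx.1 hx1 hx2]
    by_cases hxS : x ∈ S (1 - k⁻¹)
    · rw [indicator_of_mem hxS, indicator_of_mem hxS, inner_smul_left]
      simp
    · rw [indicator_of_notMem hxS, indicator_of_notMem hxS, inner_zero_left, neg_zero]
  -- the left side converges
  have hB : Filter.Tendsto (fun m : ℕ => ∫ x, ch K ((m : ℝ) + 2) x * dv V x) Filter.atTop
      (𝓝 (∫ x in K, dv V x)) := by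
    rw [← integral_indicator hKm]
    refine tendsto_integral_of_dominated_convergence (K.indicator fun x => |dv V x|) ?_ ?_ ?_ ?_
    · intro m
      exact ((ch_lip hL (by positivity)).continuous.mul (dv_cont hV)).aestronglyMeasurable
    · rw [integrable_indicator_iff hKm]
      exact ((dv_cont hV).abs.continuousOn).integrableOn_compact hK.comp
    · intro m
      refine Filter.Eventually.of_forall fun x => ?_
      by_cases hx : x ∈ K
      · rw [indicator_of_mem hx, norm_mul, Real.norm_eq_abs, Real.norm_eq_abs,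
          abs_of_nonneg (ch_nonneg K (by positivity) x)]
        exact mul_le_of_le_one_left (abs_nonneg _) (ch_le_one K _ x)
      · rw [indicator_of_notMem hx, ch_zero, zero_mul, norm_zero]
        rw [← hK.gauge_le_one, not_le] at hx
        exact hx.le
    · have e1 : ∀ᵐ x : EE n, gauge K x ≠ 1 := by
        rw [ae_iff]
        simpa using level_one hK
      filter_upwards [e1] with x hx1
      rcases lt_or_gt_of_ne hx1 with h | h
      · rw [indicator_of_mem ((hK.gauge_le_one x).mp h.le)]
        refine tendsto_const_nhds.congr' ?_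
        obtain ⟨N, hN⟩ := exists_nat_ge ((1 - gauge K x)⁻¹)
        filter_upwards [Filter.eventually_ge_atTop N] with m hm
        rw [ch_one _ (by positivity), one_mul]
        have h1 : (1 - gauge K x)⁻¹ ≤ (m : ℝ) + 2 := by
          have : (N : ℝ) ≤ m := by exact_mod_cast hm
          linarith
        have h2 : 0 < 1 - gauge K x := by linarith
        calc (1 : ℝ) = (1 - gauge K x)⁻¹ * (1 - gauge K x) := (inv_mul_cancel₀ h2.ne').symm
          _ ≤ ((m : ℝ) + 2) * (1 - gauge K x) := mul_le_mul_of_nonneg_right h1 h2.le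
      · rw [indicator_of_notMem (fun hx => absurd ((hK.gauge_le_one x).mpr hx) (not_le.mpr h))]
        refine tendsto_const_nhds.congr fun m => ?_
        rw [ch_zero _ h.le, zero_mul]
  -- the right side
  have hom : ∀ (c : ℝ) (x : EE n), 0 < c →
      (inner ℝ (NN K (c • x)) (V (bd K (c • x))) : ℝ) = inner ℝ (NN K x) (V (bd K x)) := by
    intro c x hc
    rw [NN_smul K hc, bd_smul K hc]
  set I : ℝ := ∫ x in K, (inner ℝ (NN K x) (V (bd K x)) : ℝ) with hI
  -- k (1 - (1 - 1/k)^n) -> n
  have hlim : Filter.Tendsto (fun m : ℕ => ((m : ℝ) + 2) * (1 - (1 - ((m : ℝ) + 2)⁻¹) ^ n))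
      Filter.atTop (𝓝 (n : ℝ)) := by
    have h1 : HasDerivAt (fun t : ℝ => -(1 - t) ^ n) ((n : ℝ)) 0 := by
      have h2 : HasDerivAt (fun t : ℝ => (1 - t) ^ n) ((n : ℝ) * (1 - 0) ^ (n - 1) * (-1)) 0 := by
        have h3 : HasDerivAt (fun t : ℝ => 1 - t) (-1) 0 := by
          simpa using (hasDerivAt_id (0 : ℝ)).const_sub 1
        exact h3.pow n
      have h4 : HasDerivAt (fun t : ℝ => -(1 - t) ^ n) (-((n : ℝ) * (1 - 0) ^ (n - 1) * (-1))) 0 :=
        h2.neg
      have h5 : -((n : ℝ) * (1 - 0) ^ (n - 1) * (-1)) = n := by simp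
      rwa [h5] at h4
    rw [hasDerivAt_iff_tendsto_slope_zero] at h1
    have h5 : Filter.Tendsto (fun m : ℕ => ((m : ℝ) + 2)⁻¹) Filter.atTop (𝓝[≠] 0) := by
      rw [tendsto_nhdsWithin_iff]
      refine ⟨?_, Filter.Eventually.of_forall fun m => ?_⟩
      · exact tendsto_inv_atTop_zero.comp
          (Filter.tendsto_atTop_add_const_right _ _ tendsto_natCast_atTop_atTop)
      · exact inv_ne_zero (by positivity)
    refine (h1.comp h5).congr fun m => ?_
    simp only [Function.comp, zero_add, inv_inv, smul_eq_mul, sub_zero, one_pow]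
    ring
  have hC : Filter.Tendsto (fun m : ℕ => ((m : ℝ) + 2) *
      ∫ x in S (1 - ((m : ℝ) + 2)⁻¹), (inner ℝ (NN K x) (V x) : ℝ)) Filter.atTop
      (𝓝 (n * I)) := by
    have hsplit : ∀ m : ℕ, ((m : ℝ) + 2) *
        ∫ x in S (1 - ((m : ℝ) + 2)⁻¹), (inner ℝ (NN K x) (V x) : ℝ) =
        ((m : ℝ) + 2) * (1 - (1 - ((m : ℝ) + 2)⁻¹) ^ n) * I +
        ((m : ℝ) + 2) * ∫ x in S (1 - ((m : ℝ) + 2)⁻¹),
          (inner ℝ (NN K x) (V x - V (bd K x)) : ℝ) := by
      intro m
      have ha : 0 < 1 - ((m : ℝ) + 2)⁻¹ := by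
        have : ((m : ℝ) + 2)⁻¹ < 1 := inv_lt_one_of_one_lt₀ (by
          have : (0 : ℝ) ≤ m := Nat.cast_nonneg m
          linarith)
        linarith
      have ha1 : 1 - ((m : ℝ) + 2)⁻¹ ≤ 1 := by
        have : (0 : ℝ) ≤ ((m : ℝ) + 2)⁻¹ := by positivity
        linarith
      have h1 := hom_shell hK hom hI2 ha ha1
      rw [mul_assoc, hI, ← h1, ← mul_add, ← integral_add]
      · congr 1
        refine setIntegral_congr_fun (hSm _) fun x _ => ?_
        show (inner ℝ (NN K x) (V x) : ℝ) =
          inner ℝ (NN K x) (V (bd K x)) + inner ℝ (NN K x) (V x - V (bd K x))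
        rw [← inner_add_right]
        congr 1
        abel
      · exact hI2.mono_set (hSK _)
      · have : (fun x => (inner ℝ (NN K x) (V x - V (bd K x)) : ℝ)) =
            fun x => (inner ℝ (NN K x) (V x) : ℝ) - inner ℝ (NN K x) (V (bd K x)) := by
          funext x
          rw [inner_sub_right]
        rw [this]
        exact (hI1.mono_set (hSK _)).sub (hI2.mono_set (hSK _))
    have hrest : Filter.Tendsto (fun m : ℕ => ((m : ℝ) + 2) *
        ∫ x in S (1 - ((m : ℝ) + 2)⁻¹), (inner ℝ (NN K x) (V x - V (bd K x)) : ℝ))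
        Filter.atTop (𝓝 0) := by
      rw [Metric.tendsto_atTop]
      intro ε hε
      -- choose the modulus
      set C : ℝ := (n + 1) * (volume K).toReal * r⁻¹ + 1 with hC
      have hC0 : 0 < C := by positivity
      have huc : UniformContinuousOn V K :=
        hK.comp.uniformContinuousOn_of_continuous hVc.continuousOn
      rw [Metric.uniformContinuousOn_iff] at huc
      obtain ⟨δ, hδ, hδV⟩ := huc (ε / C) (by positivity)
      rw [Metric.tendsto_atTop] at hlim
      obtain ⟨N1, hN1⟩ := hlim 1 one_pos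
      obtain ⟨N2, hN2⟩ := exists_nat_gt (R / δ)
      refine ⟨max N1 N2, fun m hm => ?_⟩
      have hm1 : N1 ≤ m := (le_max_left _ _).trans hm
      have hm2 : N2 ≤ m := (le_max_right _ _).trans hm
      set k : ℝ := (m : ℝ) + 2 with hk
      have hk0 : 0 < k := by positivity
      have ha : 0 < 1 - k⁻¹ := by
        have : k⁻¹ < 1 := inv_lt_one_of_one_lt₀ (by
          have : (0 : ℝ) ≤ m := Nat.cast_nonneg m
          linarith)
        linarith
      have ha1 : 1 - k⁻¹ ≤ 1 := by
        have : (0 : ℝ) ≤ k⁻¹ := by positivity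
        linarith
      have hkn : k * (1 - (1 - k⁻¹) ^ n) ≤ n + 1 := by
        have := hN1 m hm1
        rw [Real.dist_eq, abs_lt] at this
        linarith [this.2]
      have hRk : R / k < δ := by
        rw [div_lt_iff₀ hk0]
        have h1 : R / δ < k := by
          have : (N2 : ℝ) ≤ m := by exact_mod_cast hm2
          linarith
        rw [div_lt_iff₀ hδ] at h1
        linarith
      have hpt : ∀ x ∈ S (1 - k⁻¹),
          ‖(inner ℝ (NN K x) (V x - V (bd K x)) : ℝ)‖ ≤ r⁻¹ * (ε / C) := by
        intro x hx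
        have hgx : 0 < gauge K x := ha.trans hx.1
        have hxb : x = gauge K x • bd K x := by
          rw [bd, smul_smul, mul_inv_cancel₀ hgx.ne', one_smul]
        have hdist : dist x (bd K x) < δ := by
          have h1 : x - bd K x = -((1 - gauge K x) • bd K x) := by
            conv_lhs => rw [hxb]
            rw [show bd K (gauge K x • bd K x) = bd K x by rw [← hxb]]
            rw [sub_smul, one_smul]
            abel
          rw [dist_eq_norm, h1, norm_neg, norm_smul, Real.norm_eq_abs,
            abs_of_nonneg (by linarith [hx.2])]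
          have h2 : ‖bd K x‖ ≤ R := by
            have := hrd.out (bd_mem hK x)
            rwa [mem_closedBall_zero_iff] at this
          have h3 : 1 - gauge K x ≤ k⁻¹ := by linarith [hx.1]
          calc (1 - gauge K x) * ‖bd K x‖ ≤ k⁻¹ * R :=
                mul_le_mul h3 h2 (norm_nonneg _) (inv_nonneg.mpr hk0.le)
            _ = R / k := by rw [div_eq_mul_inv, mul_comm]
            _ < δ := hRk
        have hV1 := hδV x (hSK _ hx) (bd K x) (bd_mem hK x) hdist
        rw [dist_eq_norm] at hV1
        refine (norm_inner_le_norm _ _).trans ?_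
        exact mul_le_mul (norm_NN_le hr hrd x) hV1.le (norm_nonneg _) (inv_nonneg.mpr hr.le)
      have hvol : (volume (S (1 - k⁻¹))).toReal = (1 - (1 - k⁻¹) ^ n) * (volume K).toReal := by
        have h1 := hom_shell hK (H := fun _ => (1 : ℝ)) (fun _ _ _ => rfl)
          (integrableOn_const hKv.ne) ha ha1
        simpa [Measure.real] using h1
      have hle : ‖∫ x in S (1 - k⁻¹), (inner ℝ (NN K x) (V x - V (bd K x)) : ℝ)‖ ≤
          r⁻¹ * (ε / C) * (volume (S (1 - k⁻¹))).toReal := by
        have hSv : volume (S (1 - k⁻¹)) < ∞ := (measure_mono (hSK _)).trans_lt hKv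
        exact norm_setIntegral_le_of_norm_le_const hSv hpt
      rw [dist_zero_right, norm_mul, Real.norm_of_nonneg hk0.le]
      calc k * ‖∫ x in S (1 - k⁻¹), (inner ℝ (NN K x) (V x - V (bd K x)) : ℝ)‖
          ≤ k * (r⁻¹ * (ε / C) * (volume (S (1 - k⁻¹))).toReal) :=
            mul_le_mul_of_nonneg_left hle hk0.le
        _ = (k * (1 - (1 - k⁻¹) ^ n)) * ((volume K).toReal * r⁻¹) * (ε / C) := by
            rw [hvol]
            ring
        _ ≤ (n + 1) * ((volume K).toReal * r⁻¹) * (ε / C) := by
            refine mul_le_mul_of_nonneg_right (mul_le_mul_of_nonneg_right hkn ?_) (by positivity)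
            positivity
        _ = (C - 1) * (ε / C) := by rw [hC]; ring
        _ < C * (ε / C) := mul_lt_mul_of_pos_right (by linarith) (by positivity)
        _ = ε := by field_simp
    have h6 := (hlim.mul_const I).add hrest
    rw [add_zero] at h6
    exact h6.congr fun m => (hsplit m).symm
  refine tendsto_nhds_unique hB (hC.congr fun m => (hA _ ?_).symm)
  have : (0 : ℝ) ≤ m := Nat.cast_nonneg m
  linarith

end Pool.Agent.MP9dd972N
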