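import Mathlib
import Pool.Agent.Lib.MP_9dd972_gt.N.Defs
import Pool.Agent.Lib.MP_9dd972_gt.N.Gauge
import Pool.Agent.Lib.MP_9dd972_gt.N.Div

set_option autoImplicit false

namespace Pool.Agent.MP9dd972N

open MeasureTheory Set Metric
open scoped ENNReal NNReal Topology Pointwise

namespace MvpAux

theorem body_ball {n : ℕ} : Body (closedBall (0 : EE n) 1) where
  conv := convex_closedBall 0 1
  comp := isCompact_closedBall 0 1
  zero := by
    rw [mem_interior_iff_mem_nhds]
    exact closedBall_mem_nhds 0 one_pos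

theorem gauge_one {n : ℕ} : gauge (closedBall (0 : EE n) 1) = fun x => ‖x‖ := by
  funext x
  rw [gauge_closedBall zero_le_one, div_one]

theorem bd_one {n : ℕ} (x : EE n) : bd (closedBall (0 : EE n) 1) x = ‖x‖⁻¹ • x := by
  rw [bd, gauge_one]

theorem grad_norm {n : ℕ} {x : EE n} (hx : x ≠ 0) : gradient (fun x : EE n => ‖x‖) x
    = ‖x‖⁻¹ • x := by
  have hx' : ‖x‖ ≠ 0 := norm_ne_zero_iff.mpr hx
  have h1 : HasFDerivAt (fun x : EE n => ‖x‖ ^ 2) (2 • innerSL ℝ x) x :=
    (hasStrictFDerivAt_norm_sq x).hasFDerivAt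
  have h2 := h1.sqrt (by positivity)
  have h3 : (fun x : EE n => Real.sqrt (‖x‖ ^ 2)) = fun x : EE n => ‖x‖ := by
    funext y
    exact Real.sqrt_sq (norm_nonneg y)
  rw [h3] at h2
  have h4 : HasGradientAt (fun x : EE n => ‖x‖) (‖x‖⁻¹ • x) x := by
    have h5 : InnerProductSpace.toDual ℝ (EE n) (‖x‖⁻¹ • x)
        = (1 / (2 * √(‖x‖ ^ 2))) • 2 • (innerSL ℝ) x := by
      ext y
      rw [Real.sqrt_sq (norm_nonneg x)]
      simp [inner_smul_left, InnerProductSpace.toDual_apply_apply]
      field_simp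
    rw [hasGradientAt_iff_hasFDerivAt, h5]
    exact h2
  exact h4.gradient

theorem NN_one {n : ℕ} {x : EE n} (hx : x ≠ 0) :
    NN (closedBall (0 : EE n) 1) x = ‖x‖⁻¹ • x := by
  rw [NN, gauge_one, grad_norm hx]

theorem norm_unit_le {n : ℕ} (x : EE n) : ‖(‖x‖⁻¹ • x : EE n)‖ ≤ 1 := by
  rw [norm_smul, norm_inv, norm_norm]
  exact inv_mul_le_one

theorem meas_unit {n : ℕ} : Measurable (fun x : EE n => ‖x‖⁻¹ • x) :=
  (measurable_norm.inv).smul measurable_id

theorem grad_c1 {n : ℕ} {f : EE n → ℝ} (hf : ContDiff ℝ 2 f) : ContDiff ℝ 1 (gradient f) := by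
  have h1 : ContDiff ℝ 1 (fderiv ℝ f) := hf.fderiv_right (by norm_num)
  exact (InnerProductSpace.toDual ℝ (EE n)).symm.contDiff.comp h1

end MvpAux

open MvpAux

theorem mean_value {n : ℕ} (hn : 0 < n) {h : EE n → ℝ} (hd : ContDiff ℝ 2 h)
    (hL : ∀ x, dv (gradient h) x = 0) :
    ∫ z in closedBall (0 : EE n) 1, h (‖z‖⁻¹ • z)
      = (volume (closedBall (0 : EE n) 1)).toReal * h 0 := by
  have hg : ContDiff ℝ 1 (gradient h) := grad_c1 hd
  have hhc : Continuous h := hd.continuous
  have hgc : Continuous (gradient h) := hg.continuous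
  have hhd : Differentiable ℝ h := hd.differentiable (by norm_num)
  set B : Set (EE n) := closedBall (0 : EE n) 1 with hB
  set m : ℝ → ℝ := fun t => ∫ z in B, h (t • (‖z‖⁻¹ • z)) with hm
  have hfin : IsFiniteMeasure (volume.restrict B) :=
    ⟨by rw [Measure.restrict_apply_univ]; exact (isCompact_closedBall 0 1).measure_lt_top⟩
  -- derivative
  have hder : ∀ t : ℝ, HasDerivAt m
      (∫ z in B, (inner ℝ (gradient h (t • (‖z‖⁻¹ • z))) (‖z‖⁻¹ • z) : ℝ)) t := by
    intro t
    obtain ⟨M, hM⟩ := (isCompact_closedBall (0 : EE n) (|t| + 1)).exists_bound_of_continuousOn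
      hgc.continuousOn
    obtain ⟨M', hM'⟩ := (isCompact_closedBall (0 : EE n) (|t| + 1)).exists_bound_of_continuousOn
      hhc.continuousOn
    have hmem : ∀ s ∈ ball t 1, ∀ z : EE n, s • (‖z‖⁻¹ • z) ∈ closedBall (0 : EE n) (|t| + 1) := by
      intro s hs z
      rw [mem_closedBall_zero_iff, norm_smul, Real.norm_eq_abs]
      rw [mem_ball, Real.dist_eq] at hs
      have h1 := norm_unit_le z
      have h2 : |s| ≤ |t| + 1 := by
        have := abs_sub_abs_le_abs_sub s t
        linarith
      have h3 : 0 ≤ |s| := abs_nonneg s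
      nlinarith [norm_nonneg (‖z‖⁻¹ • z : EE n)]
    refine (hasDerivAt_integral_of_dominated_loc_of_deriv_le (𝕜 := ℝ) (E := ℝ) (s := ball t 1)
      (μ := volume.restrict B) (x₀ := t)
      (F := fun (s : ℝ) (z : EE n) => h (s • (‖z‖⁻¹ • z)))
      (F' := fun (s : ℝ) (z : EE n) =>
        (inner ℝ (gradient h (s • (‖z‖⁻¹ • z))) (‖z‖⁻¹ • z) : ℝ))
      (bound := fun _ => M) (ball_mem_nhds t one_pos) ?_ ?_ ?_ ?_ ?_ ?_).2
    · refine Filter.Eventually.of_forall fun s => ?_
      exact (hhc.measurable.comp (meas_unit.const_smul s)).aestronglyMeasurable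
    · refine Integrable.of_bound (C := M') ?_ ?_
      · exact (hhc.measurable.comp (meas_unit.const_smul t)).aestronglyMeasurable
      · exact Filter.Eventually.of_forall fun z => hM' _ (hmem t (mem_ball_self one_pos) z)
    · exact ((hgc.measurable.comp (meas_unit.const_smul t)).inner meas_unit).aestronglyMeasurable
    · refine Filter.Eventually.of_forall fun z s hs => ?_
      refine (norm_inner_le_norm (𝕜 := ℝ) _ _).trans ?_
      have h1 := hM _ (hmem s hs z)
      have h2 := norm_unit_le z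
      have h3 := norm_nonneg (gradient h (s • ‖z‖⁻¹ • z))
      nlinarith [norm_nonneg (‖z‖⁻¹ • z : EE n)]
    · exact integrable_const M
    · refine Filter.Eventually.of_forall fun z s _ => ?_
      have h1 : HasFDerivAt h (InnerProductSpace.toDual ℝ (EE n) (gradient h (s • (‖z‖⁻¹ • z))))
          (s • (‖z‖⁻¹ • z)) := by
        rw [← hasGradientAt_iff_hasFDerivAt]
        exact (hhd _).hasGradientAt
      have h2 : HasDerivAt (fun s : ℝ => s • (‖z‖⁻¹ • z)) (‖z‖⁻¹ • z) s := by
        simpa using (hasDerivAt_id s).smul_const (‖z‖⁻¹ • z)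
      have h3 := h1.comp_hasDerivAt s h2
      rw [InnerProductSpace.toDual_apply_apply] at h3
      exact h3
  have hzero : ∀ t : ℝ,
      (∫ z in B, (inner ℝ (gradient h (t • (‖z‖⁻¹ • z))) (‖z‖⁻¹ • z) : ℝ)) = 0 := by
    intro t
    have hV : ContDiff ℝ 1 (fun x : EE n => gradient h (t • x)) :=
      hg.comp (contDiff_const_smul t)
    have h1 := div_cone hn (K := B) body_ball hV
    have h2 : ∀ x, dv (fun x : EE n => gradient h (t • x)) x = 0 := by
      intro x
      have h3 : HasFDerivAt (fun x : EE n => gradient h (t • x))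
          ((fderiv ℝ (gradient h) (t • x)).comp (t • ContinuousLinearMap.id ℝ (EE n))) x := by
        refine HasFDerivAt.comp x ((hg.differentiable (by norm_num)) (t • x)).hasFDerivAt ?_
        exact (hasFDerivAt_id x).const_smul t
      rw [dv, h3.fderiv]
      have h4 := hL (t • x)
      rw [dv] at h4
      simp only [ContinuousLinearMap.comp_smul, ContinuousLinearMap.comp_id,
        _root_.smul_apply, PiLp.smul_apply, smul_eq_mul]
      rw [← Finset.mul_sum, h4, mul_zero]
    simp only [h2, integral_zero] at h1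
    have h5 : (n : ℝ) ≠ 0 := by exact_mod_cast hn.ne'
    have h6 := (mul_eq_zero.mp h1.symm).resolve_left h5
    rw [← h6]
    refine setIntegral_congr_ae measurableSet_closedBall ?_
    filter_upwards [Body.ae_diff hn (body_ball (n := n))] with x hx _
    rw [NN_one hx.2, bd_one, real_inner_comm]
  have hconst := is_const_of_deriv_eq_zero (f := m) (fun t => (hder t).differentiableAt)
    (fun t => by rw [(hder t).deriv, hzero t]) 1 0
  have e1 : m 1 = ∫ z in B, h (‖z‖⁻¹ • z) := by
    simp only [hm, one_smul]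
  have e0 : m 0 = (volume B).toReal * h 0 := by
    simp only [hm, zero_smul]
    rw [setIntegral_const, smul_eq_mul]
    rfl
  rw [← e1, hconst, e0]

end Pool.Agent.MP9dd972N
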