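import Mathlib
import Pool.Agent.Lib.MP_9dd972_gt.N.Defs

/-!
# MP_9dd972_gt part 2, module STONE: Stone-Weierstrass on the closed ball
-/

set_option autoImplicit false

namespace Pool.Agent.MP9dd972N

open MeasureTheory Set Metric
open scoped ENNReal NNReal Topology Pointwise

namespace StoneAux

/-- Coordinate function on the closed ball. -/
noncomputable def crd {n : ℕ} (i : Fin n) : C(closedBall (0 : EE n) 1, ℝ) :=
  ⟨fun x => x.1 i, by fun_prop⟩

theorem aeval_crd {n : ℕ} (p : MvPolynomial (Fin n) ℝ) (x : closedBall (0 : EE n) 1) :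
    (MvPolynomial.aeval crd p : C(closedBall (0 : EE n) 1, ℝ)) x = pev p x.1 := by
  induction p using MvPolynomial.induction_on with
  | C a =>
    rw [MvPolynomial.aeval_C]
    unfold pev
    rw [MvPolynomial.eval_C]
    rfl
  | add p q hp hq =>
    rw [map_add, ContinuousMap.add_apply, hp, hq]
    unfold pev
    rw [map_add]
  | mul_X p i hp =>
    rw [map_mul, ContinuousMap.mul_apply, hp, MvPolynomial.aeval_X]
    unfold pev
    rw [map_mul, MvPolynomial.eval_X]
    rfl

end StoneAux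

open StoneAux

theorem stone {n : ℕ} {f : EE n → ℝ} (hf : Continuous f) {δ : ℝ} (hδ : 0 < δ) :
    ∃ q : MvPolynomial (Fin n) ℝ, ∀ x ∈ closedBall (0 : EE n) 1, |f x - pev q x| ≤ δ := by
  have hcomp : CompactSpace (closedBall (0 : EE n) 1) :=
    isCompact_iff_compactSpace.mp (isCompact_closedBall _ _)
  have hsep : (MvPolynomial.aeval (R := ℝ) (crd (n := n))).range.SeparatesPoints := by
    intro x y hxy
    have h1 : ∃ i, x.1 i ≠ y.1 i := by
      by_contra h
      push Not at h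
      exact hxy (Subtype.ext (by ext i; exact h i))
    obtain ⟨i, hi⟩ := h1
    refine ⟨crd i, ⟨crd i, ⟨MvPolynomial.X i, ?_⟩, rfl⟩, hi⟩
    exact MvPolynomial.aeval_X crd i
  obtain ⟨F, hF⟩ : ∃ F : C(closedBall (0 : EE n) 1, ℝ), ∀ x, F x = f x.1 :=
    ⟨⟨fun x => f x.1, by fun_prop⟩, fun x => rfl⟩
  obtain ⟨⟨g, hgm⟩, hg⟩ :=
    ContinuousMap.exists_mem_subalgebra_near_continuousMap_of_separatesPoints
      _ hsep F δ hδ
  obtain ⟨q, hq⟩ := hgm
  refine ⟨q, ?_⟩
  intro x hx
  have h2 : g ⟨x, hx⟩ = pev q x := by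
    rw [← hq]
    exact aeval_crd q ⟨x, hx⟩
  have h5 := (ContinuousMap.norm_coe_le_norm (g - F) ⟨x, hx⟩).trans hg.le
  rw [ContinuousMap.sub_apply, hF, h2, Real.norm_eq_abs, abs_sub_comm] at h5
  exact h5

end Pool.Agent.MP9dd972N
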