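import Mathlib
import Pool.Agent.Lib.MP_9dd972_gt.N.Defs
import Pool.Agent.Lib.MP_9dd972_gt.N.Comp
import Pool.Agent.Lib.MP_9dd972_gt.N.Pevc
import Pool.Agent.Lib.MP_9dd972_gt.N.Mvp
import Pool.Agent.Lib.MP_9dd972_gt.N.Stone
import Pool.Agent.Lib.MP_9dd972_gt.N.Hpol

/-!
# MP_9dd972_gt part 2, module SUBM: strict sub-mean value property
-/

set_option autoImplicit false

namespace Pool.Agent.MP9dd972N

open MeasureTheory Set Metric
open scoped ENNReal NNReal Topology Pointwise

namespace SubmAux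

theorem grad_add_sq {n : ℕ} {f : EE n → ℝ} (hf : ContDiff ℝ 2 f) (c : ℝ) :
    gradient (fun x => f x + c * (‖x‖ ^ 2 - 1) / 2) = fun x => gradient f x + c • x := by
  funext x
  have h1 : HasGradientAt f (gradient f x) x :=
    ((hf.differentiable (by norm_num)) x).hasGradientAt
  have h2 : HasFDerivAt (fun x : EE n => ‖x‖ ^ 2) (2 • (innerSL ℝ x)) x :=
    (hasStrictFDerivAt_norm_sq x).hasFDerivAt
  have h3 : HasGradientAt (fun x => f x + c * (‖x‖ ^ 2 - 1) / 2) (gradient f x + c • x) x := by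
    rw [hasGradientAt_iff_hasFDerivAt] at h1 ⊢
    have h4 := h1.add (((h2.sub_const 1).const_mul c).mul_const (1 / 2 : ℝ))
    have h5 : (fun x : EE n => f x + c * (‖x‖ ^ 2 - 1) / 2)
        = (f + fun y : EE n => c * (‖y‖ ^ 2 - 1) * (1 / 2 : ℝ)) := by
      funext y
      simp only [Pi.add_apply]
      ring
    rw [h5]
    refine h4.congr_fderiv ?_
    ext y
    simp
    ring
  exact h3.gradient

theorem dv_add_smul {n : ℕ} {V : EE n → EE n} {x : EE n} (hV : DifferentiableAt ℝ V x) (c : ℝ) :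
    dv (fun y => V y + c • y) x = dv V x + c * n := by
  have h1 : HasFDerivAt (fun y : EE n => V y + c • y)
      (fderiv ℝ V x + c • ContinuousLinearMap.id ℝ (EE n)) x :=
    hV.hasFDerivAt.add ((hasFDerivAt_id x).const_smul c)
  unfold dv
  rw [h1.fderiv]
  simp [Finset.sum_add_distrib, mul_comm]

theorem grad_diff {n : ℕ} {f : EE n → ℝ} (hf : ContDiff ℝ 2 f) (x : EE n) :
    DifferentiableAt ℝ (gradient f) x := by
  have h1 : ContDiff ℝ 1 (fderiv ℝ f) := hf.fderiv_right (by norm_num)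
  have h2 : DifferentiableAt ℝ (fderiv ℝ f) x := h1.differentiable (by norm_num) x
  exact ((InnerProductSpace.toDual ℝ (EE n)).symm.toContinuousLinearEquiv.differentiableAt).comp x h2

end SubmAux

open SubmAux

theorem sub_mean {n : ℕ} (hn : 0 < n) {φ : EE n → ℝ} (hφ : ConvexOn ℝ univ φ)
    (hM : MAge φ (ball (0 : EE n) 1)) :
    (volume (closedBall (0 : EE n) 1)).toReal * (φ 0 + 1 / 2)
      ≤ ∫ z in closedBall (0 : EE n) 1, φ (‖z‖⁻¹ • z) := by
  have hφc : Continuous φ := by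
    rw [← continuousOn_univ]
    exact hφ.continuousOn isOpen_univ
  set B : Set (EE n) := closedBall (0 : EE n) 1 with hB
  have hBf : volume B < ⊤ := (isCompact_closedBall _ _).measure_lt_top
  set v : ℝ := (volume B).toReal with hv
  have hv0 : 0 ≤ v := ENNReal.toReal_nonneg
  have hunit : ∀ z : EE n, ‖z‖⁻¹ • z ∈ B := by
    intro z
    rw [hB, mem_closedBall_zero_iff, norm_smul, norm_inv, norm_norm]
    exact inv_mul_le_one
  -- integrability
  have hint : ∀ g : EE n → ℝ, Continuous g →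
      IntegrableOn (fun z => g (‖z‖⁻¹ • z)) B volume := by
    intro g hg
    obtain ⟨C, hC⟩ := (isCompact_closedBall (0 : EE n) 1).exists_bound_of_continuousOn
      hg.continuousOn
    have hm : Measurable fun z : EE n => g (‖z‖⁻¹ • z) :=
      hg.measurable.comp ((measurable_id.norm.inv).smul measurable_id)
    exact Measure.integrableOn_of_bounded (M := C) hBf.ne hm.aestronglyMeasurable
      (Filter.Eventually.of_forall fun z => hC _ (hunit z))
  have key : ∀ δ : ℝ, 0 < δ → δ ≤ 1 →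
      v * (φ 0 + 1 / 2) ≤ (∫ z in B, φ (‖z‖⁻¹ • z)) + v * (3 / 2) * δ := by
    intro δ hδ hδ1
    obtain ⟨q, hq⟩ := stone (f := fun x => φ x + δ / 2) (by fun_prop) (half_pos hδ)
    obtain ⟨h, hh0, hhq⟩ := harmonic_ext hn q
    have hqle : ∀ x ∈ B, φ x ≤ pev q x ∧ pev q x ≤ φ x + δ := by
      intro x hx
      have := abs_le.mp (hq x hx)
      constructor <;> linarith [this.1, this.2]
    have hcd : ContDiff ℝ 2 (pev h) := pev_contDiff h
    set w : EE n → ℝ := fun x => pev h x + (1 - δ) * (‖x‖ ^ 2 - 1) / 2 with hw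
    have hwc : ContDiff ℝ 2 w := by
      have h1 : ContDiff ℝ 2 fun x : EE n => ‖x‖ ^ 2 := contDiff_norm_sq ℝ
      exact hcd.add ((contDiff_const.mul (h1.sub contDiff_const)).div_const 2)
    have hdv : ∀ x ∈ ball (0 : EE n) 1, dv (gradient w) x ≤ n * (1 - δ) := by
      intro x _
      rw [hw, grad_add_sq hcd, dv_add_smul (grad_diff hcd x), hh0 x]
      exact le_of_eq (by ring)
    have hbd : ∀ x ∈ sphere (0 : EE n) 1, φ x ≤ w x := by
      intro x hx
      have hx1 : ‖x‖ = 1 := by simpa using hx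
      have h1 : w x = pev q x := by
        rw [hw]
        show pev h x + (1 - δ) * (‖x‖ ^ 2 - 1) / 2 = _
        rw [hx1, hhq x hx]
        ring
      rw [h1]
      exact (hqle x (sphere_subset_closedBall hx)).1
    have h0 := comparison hn hφ hM hwc hδ hδ1 hdv hbd 0 (mem_ball_self one_pos)
    have h0' : φ 0 ≤ pev h 0 - (1 - δ) / 2 := by
      refine h0.trans (le_of_eq ?_)
      show pev h 0 + (1 - δ) * (‖(0 : EE n)‖ ^ 2 - 1) / 2 = _
      rw [norm_zero]
      ring
    have h1 := mean_value hn hcd hh0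
    have h2 : ∫ z in B, pev h (‖z‖⁻¹ • z) ≤ ∫ z in B, (φ (‖z‖⁻¹ • z) + δ) := by
      have : Nonempty (Fin n) := ⟨⟨0, hn⟩⟩
      refine setIntegral_mono_ae (hint _ hcd.continuous) (hint _ (hφc.add continuous_const)) ?_
      have h3 : ∀ᵐ z : EE n, z ≠ 0 := by
        rw [ae_iff]
        simp
      filter_upwards [h3] with z hz
      have h4 : ‖z‖⁻¹ • z ∈ sphere (0 : EE n) 1 := by
        rw [mem_sphere_zero_iff_norm, norm_smul, norm_inv, norm_norm]
        exact inv_mul_cancel₀ (norm_ne_zero_iff.mpr hz)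
      rw [hhq _ h4]
      exact (hqle _ (hunit z)).2
    rw [integral_add (hint _ hφc) (integrableOn_const hBf.ne), setIntegral_const, smul_eq_mul] at h2
    have h5 : volume.real B = v := rfl
    rw [h5] at h2
    rw [h1] at h2
    have h6 : v * (φ 0 + (1 - δ) / 2) ≤ v * pev h 0 :=
      mul_le_mul_of_nonneg_left (by linarith) hv0
    have h7 : (volume (closedBall (0 : EE n) 1)).toReal = v := rfl
    rw [h7] at h2
    nlinarith [h2, h6]
  have hlim : Filter.Tendsto (fun δ : ℝ => (∫ z in B, φ (‖z‖⁻¹ • z)) + v * (3 / 2) * δ)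
      (𝓝[>] 0) (𝓝 ((∫ z in B, φ (‖z‖⁻¹ • z)) + v * (3 / 2) * 0)) := by
    apply tendsto_nhdsWithin_of_tendsto_nhds
    exact (Continuous.tendsto (by fun_prop) 0)
  rw [mul_zero, add_zero] at hlim
  refine ge_of_tendsto hlim ?_
  have : Ioc (0 : ℝ) 1 ∈ 𝓝[>] (0 : ℝ) := Ioc_mem_nhdsGT one_pos
  filter_upwards [this] with δ hδ
  exact key δ hδ.1 hδ.2

end Pool.Agent.MP9dd972N
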