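import Mathlib
import Pool.Agent.Lib.MP_9dd972_gt.N.Defs
import Pool.Agent.Lib.MP_9dd972_gt.N.Mage
import Pool.Agent.Lib.MP_9dd972_gt.N.Subm

/-!
# MP_9dd972_gt part 2, module BRESUB: rescaled sub-mean value property
-/

set_option autoImplicit false

namespace Pool.Agent.MP9dd972N

open MeasureTheory Set Metric
open scoped ENNReal NNReal Topology Pointwise

theorem sub_mean_aff {n : ℕ} (hn : 0 < n) {φ : EE n → ℝ} (hφ : ConvexOn ℝ univ φ)
    {Ω : Set (EE n)} (hM : MAge φ Ω) {x0 : EE n} {ρ : ℝ} (hρ : 0 < ρ)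
    {S : Matrix (Fin n) (Fin n) ℝ} (hS : S.det = 1)
    (h : ∀ z ∈ ball (0 : EE n) 1, x0 + ρ • act S z ∈ Ω) :
    (volume (closedBall (0 : EE n) 1)).toReal * (φ x0 + ρ ^ 2 / 2)
      ≤ ∫ z in closedBall (0 : EE n) 1, φ (x0 + ρ • act S (‖z‖⁻¹ • z)) := by
  have h1 : MAge (fun z => φ (x0 + ρ • act S z) / ρ ^ 2) (ball (0 : EE n) 1) := by
    intro U hU hUs G hG
    exact mage_affine hM x0 hρ hS U hU (fun z hz => h z (hUs hz)) G hG
  have h2 := sub_mean hn (convex_affine hφ x0 hρ S) h1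
  have h3 : act S (0 : EE n) = 0 := by
    show Matrix.toEuclideanCLM (𝕜 := ℝ) S 0 = 0
    exact map_zero _
  simp only [h3, smul_zero, add_zero] at h2
  rw [integral_div, le_div_iff₀ (by positivity)] at h2
  refine le_trans (le_of_eq ?_) h2
  field_simp

end Pool.Agent.MP9dd972N
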