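import Mathlib
import Pool.Agent.Lib.MP_9dd972_gt.N.Defs

/-!
# MP_9dd972_gt, part 2, module CAPA

Projection of a nearly flat set.
-/

set_option autoImplicit false

namespace Pool.Agent.MP9dd972N

open MeasureTheory Set Metric
open scoped ENNReal NNReal Topology Pointwise

namespace CapaAux

theorem norm_proj {n : ℕ} {u0 : EE n} (hu : ‖u0‖ = 1) (h0 : ℝ) (x y : EE n) :
    ‖(x + (h0 - (inner ℝ u0 x : ℝ)) • u0) - (y + (h0 - (inner ℝ u0 y : ℝ)) • u0)‖ ^ 2 =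
      ‖x - y‖ ^ 2 - (inner ℝ u0 (x - y) : ℝ) ^ 2 := by
  have e : (x + (h0 - (inner ℝ u0 x : ℝ)) • u0) - (y + (h0 - (inner ℝ u0 y : ℝ)) • u0) =
      (x - y) - (inner ℝ u0 (x - y) : ℝ) • u0 := by
    rw [inner_sub_right]
    module
  rw [e, norm_sub_sq_real, norm_smul, inner_smul_right, hu, mul_one, Real.norm_eq_abs, sq_abs,
    real_inner_comm]
  ring

end CapaAux

theorem cap_haus {n : ℕ} {η : ℝ} (hη : 0 ≤ η) (hη1 : η < 1) {u0 : EE n} (hu : ‖u0‖ = 1)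
    (h0 : ℝ) {A : Set (EE n)}
    (hA : ∀ x ∈ A, ∀ y ∈ A, |(inner ℝ u0 (x - y) : ℝ)| ≤ η * ‖x - y‖) {d : ℝ} (hd : 0 ≤ d) :
    InjOn (fun x : EE n => x + (h0 - (inner ℝ u0 x : ℝ)) • u0) A ∧
    μH[d] ((fun x : EE n => x + (h0 - (inner ℝ u0 x : ℝ)) • u0) '' A) ≤ μH[d] A ∧
    μH[d] A ≤ ENNReal.ofReal (((1 - η ^ 2)⁻¹) ^ (d / 2)) *
      μH[d] ((fun x : EE n => x + (h0 - (inner ℝ u0 x : ℝ)) • u0) '' A) := by
  set P : EE n → EE n := fun x : EE n => x + (h0 - (inner ℝ u0 x : ℝ)) • u0 with hP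
  have h1η : 0 < 1 - η ^ 2 := by nlinarith
  have hnorm : ∀ x y, ‖P x - P y‖ ^ 2 = ‖x - y‖ ^ 2 - (inner ℝ u0 (x - y) : ℝ) ^ 2 :=
    fun x y => CapaAux.norm_proj hu h0 x y
  have hup : ∀ x y, ‖P x - P y‖ ≤ ‖x - y‖ := by
    intro x y
    refine le_of_sq_le_sq ?_ (norm_nonneg _)
    rw [hnorm]
    nlinarith [sq_nonneg (inner ℝ u0 (x - y) : ℝ)]
  set L : ℝ := Real.sqrt ((1 - η ^ 2)⁻¹) with hL
  have hL0 : 0 ≤ L := Real.sqrt_nonneg _
  have hL2 : L ^ 2 = (1 - η ^ 2)⁻¹ := Real.sq_sqrt (by positivity)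
  have hlo : ∀ x ∈ A, ∀ y ∈ A, ‖x - y‖ ≤ L * ‖P x - P y‖ := by
    intro x hx y hy
    refine le_of_sq_le_sq ?_ (by positivity)
    rw [mul_pow, hL2, hnorm, inv_mul_eq_div, le_div_iff₀ h1η]
    have h1 := hA x hx y hy
    have h2 : (inner ℝ u0 (x - y) : ℝ) ^ 2 ≤ (η * ‖x - y‖) ^ 2 := by
      rw [← sq_abs (inner ℝ u0 (x - y) : ℝ)]
      exact pow_le_pow_left₀ (abs_nonneg _) h1 2
    nlinarith
  have hinj : InjOn P A := by
    intro x hx y hy he
    have := hlo x hx y hy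
    rw [he, sub_self, norm_zero, mul_zero] at this
    exact sub_eq_zero.mp (norm_le_zero_iff.mp this)
  refine ⟨hinj, ?_, ?_⟩
  · have hl : LipschitzOnWith 1 P A := by
      apply LipschitzOnWith.of_dist_le_mul
      intro x _ y _
      rw [dist_eq_norm, dist_eq_norm, NNReal.coe_one, one_mul]
      exact hup x y
    refine (hl.hausdorffMeasure_image_le hd).trans (le_of_eq ?_)
    simp
  · have hl : LipschitzOnWith (Real.toNNReal L) (Function.invFunOn P A) (P '' A) := by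
      apply LipschitzOnWith.of_dist_le_mul
      rintro _ ⟨z, hz, rfl⟩ _ ⟨z', hz', rfl⟩
      rw [Real.coe_toNNReal _ hL0, dist_eq_norm, dist_eq_norm,
        hinj.leftInvOn_invFunOn hz, hinj.leftInvOn_invFunOn hz']
      exact hlo z hz z' hz'
    have himg : Function.invFunOn P A '' (P '' A) = A := by
      ext z
      constructor
      · rintro ⟨_, ⟨w, hw, rfl⟩, rfl⟩
        rw [hinj.leftInvOn_invFunOn hw]
        exact hw
      · intro hz
        exact ⟨P z, ⟨z, hz, rfl⟩, hinj.leftInvOn_invFunOn hz⟩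
    have := hl.hausdorffMeasure_image_le hd
    rw [himg] at this
    refine this.trans (le_of_eq ?_)
    congr 1
    have e : ((1 - η ^ 2)⁻¹) ^ (d / 2) = L ^ d := by
      rw [← hL2, ← Real.rpow_natCast, ← Real.rpow_mul hL0]
      congr 1
      push_cast
      ring
    rw [e, ← ENNReal.ofReal_rpow_of_nonneg hL0 hd]
    rfl

end Pool.Agent.MP9dd972N
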