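import Mathlib
import Pool.Agent.Lib.MP_9dd972_gt.N.Defs
import Pool.Agent.Lib.MP_9dd972_gt.N.Gauge

/-!
# MP_9dd972_gt, part 2, module CAPB

The cone over a nearly flat boundary piece.
-/

set_option autoImplicit false

namespace Pool.Agent.MP9dd972N

open MeasureTheory Set Metric
open scoped ENNReal NNReal Topology Pointwise

namespace CapbAux

theorem gauge_frontier {n : ℕ} {K : Set (EE n)} (hK : Body K) {x : EE n}
    (hx : x ∈ frontier K) : gauge K x = 1 := by
  have h1 : gauge K x ≤ 1 := (hK.gauge_le_one x).mpr (hK.comp.isClosed.frontier_subset hx)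
  have h2 : ¬ gauge K x < 1 := by
    rw [hK.gauge_lt_one x]
    rw [hK.comp.isClosed.frontier_eq] at hx
    exact hx.2
  exact le_antisymm h1 (not_lt.mp h2)

theorem gauge_smul' {n : ℕ} (K : Set (EE n)) {s : ℝ} (hs : 0 ≤ s) (x : EE n) :
    gauge K (s • x) = s * gauge K x := by
  rw [gauge_smul_of_nonneg hs, smul_eq_mul]

/-- lower bound for the height of a boundary point along its normal -/
theorem inner_ge {n : ℕ} {r R : ℝ} {K : Set (EE n)} (hK : Round r R K)
    {x u : EE n} (hu : IsNor K x u) : r ≤ (inner ℝ u x : ℝ) := by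
  have hu1 : ‖u‖ = 1 := by simpa using hu.1
  by_contra hc
  push Not at hc
  rcases lt_or_ge (inner ℝ u x : ℝ) 0 with h | h
  · have h0 : (0 : EE n) ∈ K := interior_subset hK.zero
    have := hu.2 0 h0
    rw [zero_sub, inner_neg_right] at this
    linarith
  · obtain ⟨s, hs1, hs2⟩ := exists_between hc
    have hs : s • u ∈ K := by
      apply hK.inn
      rw [mem_ball_zero_iff, norm_smul, hu1, mul_one, Real.norm_of_nonneg (h.trans hs1.le)]
      exact hs2
    have := hu.2 _ hs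
    rw [inner_sub_right, inner_smul_right, real_inner_self_eq_norm_sq, hu1] at this
    linarith

/-- the normalised normal is a subgradient of the gauge -/
theorem exists_nu {n : ℕ} {r R : ℝ} (hr : 0 < r) {K : Set (EE n)} (hK : Round r R K)
    {η : ℝ} {u0 : EE n} {h0 : ℝ} {x : EE n} (hxK : x ∈ frontier K)
    (hx1 : |(inner ℝ u0 x : ℝ) - h0| ≤ η) (hx2 : ∃ u : EE n, IsNor K x u ∧ ‖u - u0‖ ≤ η) :
    ∃ ν : EE n, (∀ y, (inner ℝ ν y : ℝ) ≤ gauge K y) ∧ (inner ℝ ν x : ℝ) = 1 ∧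
      ‖h0 • ν - u0‖ ≤ ((R + 1) / r + 1) * η := by
  obtain ⟨u, hu, hu2⟩ := hx2
  have hu1 : ‖u‖ = 1 := by simpa using hu.1
  have h1 := inner_ge hK hu
  have hpos : 0 < (inner ℝ u x : ℝ) := hr.trans_le h1
  set t : ℝ := (inner ℝ u x : ℝ) with ht
  have hη : 0 ≤ η := (norm_nonneg _).trans hu2
  have hxR : ‖x‖ ≤ R := by
    have : x ∈ K := hK.comp.isClosed.frontier_subset hxK
    simpa using hK.out this
  refine ⟨t⁻¹ • u, ?_, ?_, ?_⟩
  · intro y
    rw [real_inner_smul_left]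
    rcases eq_or_ne y 0 with hy | hy
    · rw [hy, inner_zero_right, mul_zero, gauge_zero]
    · have hg : 0 < gauge K y := hK.toBody.gauge_pos hy
      have hb := hu.2 _ (bd_mem hK.toBody y)
      rw [inner_sub_right, ← ht] at hb
      unfold bd at hb
      rw [inner_smul_right] at hb
      rw [inv_mul_eq_div, div_le_iff₀ hpos]
      have h3 : (gauge K y)⁻¹ * (inner ℝ u y : ℝ) ≤ t := by linarith
      rw [inv_mul_eq_div, div_le_iff₀ hg] at h3
      linarith
  · rw [real_inner_smul_left, ← ht, inv_mul_cancel₀ hpos.ne']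
  · have e : h0 • (t⁻¹ • u) - u0 = ((h0 - t) * t⁻¹) • u + (u - u0) := by
      rw [sub_mul, mul_inv_cancel₀ hpos.ne', smul_smul]
      module
    rw [e]
    have h2 : |h0 - t| ≤ (R + 1) * η := by
      have e2 : h0 - t = (h0 - (inner ℝ u0 x : ℝ)) + (inner ℝ (u0 - u) x : ℝ) := by
        rw [inner_sub_left, ← ht]
        ring
      rw [e2]
      have h3 : |(inner ℝ (u0 - u) x : ℝ)| ≤ η * R := by
        refine (abs_real_inner_le_norm _ _).trans ?_
        rw [norm_sub_rev]
        exact mul_le_mul hu2 hxR (norm_nonneg _) hη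
      have h4 : |h0 - (inner ℝ u0 x : ℝ)| ≤ η := by
        rw [abs_sub_comm]
        exact hx1
      refine (abs_add_le _ _).trans ?_
      linarith
    calc ‖((h0 - t) * t⁻¹) • u + (u - u0)‖ ≤ ‖((h0 - t) * t⁻¹) • u‖ + ‖u - u0‖ :=
          norm_add_le _ _
      _ ≤ |h0 - t| / t + η := by
          refine add_le_add (le_of_eq ?_) hu2
          rw [norm_smul, hu1, mul_one, Real.norm_eq_abs, abs_mul, abs_inv, abs_of_pos hpos,
            div_eq_mul_inv]
      _ ≤ ((R + 1) * η) / r + η := by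
          refine add_le_add ?_ le_rfl
          refine div_le_div₀ ?_ h2 hr h1
          exact (abs_nonneg _).trans h2
      _ = ((R + 1) / r + 1) * η := by ring

end CapbAux

theorem cap_cone {n : ℕ} {r R : ℝ} (hr : 0 < r) {K : Set (EE n)} (hK : Round r R K)
    {η : ℝ} (hη : 0 ≤ η) {u0 : EE n} (hu : ‖u0‖ = 1) {h0 : ℝ} {A : Set (EE n)}
    (hAK : A ⊆ frontier K)
    (hA : ∀ x ∈ A, |(inner ℝ u0 x : ℝ) - h0| ≤ η ∧ ∃ u : EE n, IsNor K x u ∧ ‖u - u0‖ ≤ η) :
    (∀ z ∈ cone A, ∀ z' ∈ cone A,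
      |(h0 * gauge K z - (inner ℝ u0 z : ℝ)) - (h0 * gauge K z' - (inner ℝ u0 z' : ℝ))|
        ≤ ((R + 1) / r + 1) * η * ‖z - z'‖) ∧
    (fun z : EE n => z + (h0 * gauge K z - (inner ℝ u0 z : ℝ)) • u0) '' cone A
      = cone ((fun x : EE n => x + (h0 - (inner ℝ u0 x : ℝ)) • u0) '' A) ∧
    (∀ z ∈ cone A, DifferentiableAt ℝ (gauge K) z →
      ‖h0 • NN K z - u0‖ ≤ ((R + 1) / r + 1) * η) := by
  have hnu : ∀ z ∈ cone A, ∃ ν : EE n, (∀ y, (inner ℝ ν y : ℝ) ≤ gauge K y) ∧
      (inner ℝ ν z : ℝ) = gauge K z ∧ ‖h0 • ν - u0‖ ≤ ((R + 1) / r + 1) * η := by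
    rintro _ ⟨x, hx, s, hs, rfl⟩
    obtain ⟨ν, h1, h2, h3⟩ := CapbAux.exists_nu hr hK (hAK hx) (hA x hx).1 (hA x hx).2
    refine ⟨ν, h1, ?_, h3⟩
    rw [inner_smul_right, h2, CapbAux.gauge_smul' K hs.1.le,
      CapbAux.gauge_frontier hK.toBody (hAK hx)]
  set q : ℝ := ((R + 1) / r + 1) * η with hq
  refine ⟨?_, ?_, ?_⟩
  · intro z hz z' hz'
    obtain ⟨ν, h1, h2, h3⟩ := hnu z hz
    obtain ⟨ν', h1', h2', h3'⟩ := hnu z' hz'
    have a1 : gauge K z - gauge K z' ≤ (inner ℝ ν (z - z') : ℝ) := by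
      rw [inner_sub_right, h2]
      have := h1 z'
      linarith
    have a2 : (inner ℝ ν' (z - z') : ℝ) ≤ gauge K z - gauge K z' := by
      rw [inner_sub_right, h2']
      have := h1' z
      linarith
    have b1 : |(inner ℝ (h0 • ν - u0) (z - z') : ℝ)| ≤ q * ‖z - z'‖ :=
      (abs_real_inner_le_norm _ _).trans (mul_le_mul_of_nonneg_right h3 (norm_nonneg _))
    have b2 : |(inner ℝ (h0 • ν' - u0) (z - z') : ℝ)| ≤ q * ‖z - z'‖ :=
      (abs_real_inner_le_norm _ _).trans (mul_le_mul_of_nonneg_right h3' (norm_nonneg _))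
    rw [inner_sub_left, real_inner_smul_left] at b1 b2
    have e : (h0 * gauge K z - (inner ℝ u0 z : ℝ)) - (h0 * gauge K z' - (inner ℝ u0 z' : ℝ)) =
        h0 * (gauge K z - gauge K z') - (inner ℝ u0 (z - z') : ℝ) := by
      rw [inner_sub_right]
      ring
    rw [e]
    rw [abs_le] at b1 b2 ⊢
    rcases le_or_gt 0 h0 with h | h
    · have c1 := mul_le_mul_of_nonneg_left a1 h
      have c2 := mul_le_mul_of_nonneg_left a2 h
      constructor <;> linarith [b1.1, b1.2, b2.1, b2.2]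
    · have c1 := mul_le_mul_of_nonpos_left a1 h.le
      have c2 := mul_le_mul_of_nonpos_left a2 h.le
      constructor <;> linarith [b1.1, b1.2, b2.1, b2.2]
  · ext y
    constructor
    · rintro ⟨_, ⟨x, hx, s, hs, rfl⟩, rfl⟩
      refine ⟨_, ⟨x, hx, rfl⟩, s, hs, ?_⟩
      simp only
      rw [CapbAux.gauge_smul' K hs.1.le, CapbAux.gauge_frontier hK.toBody (hAK hx),
        inner_smul_right]
      module
    · rintro ⟨_, ⟨x, hx, rfl⟩, s, hs, rfl⟩
      refine ⟨s • x, ⟨x, hx, s, hs, rfl⟩, ?_⟩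
      simp only
      rw [CapbAux.gauge_smul' K hs.1.le, CapbAux.gauge_frontier hK.toBody (hAK hx),
        inner_smul_right]
      module
  · intro z hz hd
    obtain ⟨ν, h1, h2, h3⟩ := hnu z hz
    have hN : NN K z = ν := by
      have hmin : IsLocalMin (fun y => gauge K y - (inner ℝ ν y : ℝ)) z := by
        refine Filter.Eventually.of_forall fun y => ?_
        simp only
        rw [h2, sub_self]
        have := h1 y
        linarith
      have hd2 : HasFDerivAt (fun y : EE n => (inner ℝ ν y : ℝ)) (innerSL ℝ ν) z :=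
        (innerSL ℝ ν).hasFDerivAt
      have h4 := hmin.hasFDerivAt_eq_zero (hd.hasFDerivAt.sub hd2)
      have h5 : fderiv ℝ (gauge K) z = innerSL ℝ ν := sub_eq_zero.mp h4
      unfold NN gradient
      rw [h5]
      apply (InnerProductSpace.toDual ℝ (EE n)).injective
      rw [LinearIsometryEquiv.apply_symm_apply]
      ext w
      simp
    rw [hN]
    exact h3

end Pool.Agent.MP9dd972N
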