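import Mathlib
import Pool.Agent.Lib.MP_9dd972_gt.N.Defs
import Pool.Agent.Lib.MP_9dd972_gt.N.Gauge

/-!
# MP_9dd972_gt, part 2, module CONEB

Cones over boundary sets.
-/

set_option autoImplicit false

namespace Pool.Agent.MP9dd972N

open MeasureTheory Set Metric
open scoped ENNReal NNReal Topology Pointwise

namespace ConebAux

theorem gauge_frontier {n : ℕ} {K : Set (EE n)} (hK : Body K) {x : EE n}
    (hx : x ∈ frontier K) : gauge K x = 1 := by
  have h1 : gauge K x ≤ 1 := (hK.gauge_le_one x).mpr (hK.comp.isClosed.frontier_subset hx)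
  have h2 : ¬ gauge K x < 1 := by
    rw [hK.gauge_lt_one x]
    rw [hK.comp.isClosed.frontier_eq] at hx
    exact hx.2
  exact le_antisymm h1 (not_lt.mp h2)

theorem gauge_smul' {n : ℕ} (K : Set (EE n)) {s : ℝ} (hs : 0 ≤ s) (x : EE n) :
    gauge K (s • x) = s * gauge K x := by
  rw [gauge_smul_of_nonneg hs, smul_eq_mul]

end ConebAux

theorem cone_eq {n : ℕ} {K : Set (EE n)} (hK : Body K) {A : Set (EE n)}
    (hA : A ⊆ frontier K) : cone A = {z | z ∈ K ∧ z ≠ 0 ∧ bd K z ∈ A} := by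
  ext z
  constructor
  · rintro ⟨x, hx, s, hs, rfl⟩
    have h1 := ConebAux.gauge_frontier hK (hA hx)
    have h2 : gauge K (s • x) = s := by
      rw [ConebAux.gauge_smul' K hs.1.le, h1, mul_one]
    refine ⟨?_, ?_, ?_⟩
    · rw [← hK.gauge_le_one, h2]
      exact hs.2
    · intro h0
      rw [h0, gauge_zero] at h2
      exact hs.1.ne h2
    · unfold bd
      rw [h2, smul_smul, inv_mul_cancel₀ hs.1.ne', one_smul]
      exact hx
  · rintro ⟨h1, h2, h3⟩
    have h4 : 0 < gauge K z := hK.gauge_pos h2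
    refine ⟨bd K z, h3, gauge K z, ⟨h4, (hK.gauge_le_one z).mpr h1⟩, ?_⟩
    unfold bd
    rw [smul_smul, mul_inv_cancel₀ h4.ne', one_smul]

theorem cone_meas {n : ℕ} {K : Set (EE n)} (hK : Body K) {A : Set (EE n)}
    (hA : A ⊆ frontier K) (hm : MeasurableSet A) : MeasurableSet (cone A) := by
  rw [cone_eq hK hA]
  have e : {z : EE n | z ∈ K ∧ z ≠ 0 ∧ bd K z ∈ A} = K ∩ ({0}ᶜ ∩ bd K ⁻¹' A) := by
    ext z
    rfl
  rw [e]
  exact hK.comp.measurableSet.inter
    ((measurableSet_singleton 0).compl.inter (bd_meas hK hm))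

end Pool.Agent.MP9dd972N
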