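import Mathlib
import Pool.Agent.Lib.MP_9dd972_gt.N.Defs

/-!
# MP_9dd972_gt, part 2, module VOLLIP

Volume of Lipschitz images.
-/

set_option autoImplicit false

namespace Pool.Agent.MP9dd972N

open MeasureTheory Set Metric
open scoped ENNReal NNReal Topology Pointwise

theorem vol_lip {n : ℕ} {f : EE n → EE n} {s : Set (EE n)} {L : ℝ≥0}
    (hf : LipschitzOnWith L f s) : volume (f '' s) ≤ (L : ℝ≥0∞) ^ n * volume s := by
  have h1 := hf.hausdorffMeasure_image_le (d := (n : ℝ)) (by positivity)
  rw [ENNReal.rpow_natCast] at h1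
  rw [← EuclideanSpace.euclideanHausdorffMeasure_eq_volume,
    Measure.euclideanHausdorffMeasure_def, Measure.smul_apply, Measure.smul_apply,
    ENNReal.smul_def, ENNReal.smul_def, smul_eq_mul, smul_eq_mul]
  calc _ ≤ _ := mul_le_mul' le_rfl h1
    _ = _ := by ring

end Pool.Agent.MP9dd972N
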