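import Mathlib
import Pool.Agent.Lib.MP_9dd972_gt.N.Defs
import Pool.Agent.Lib.MP_9dd972_gt.N.Gauge
import Pool.Agent.Lib.MP_9dd972_gt.N.Vollip
import Pool.Agent.Lib.MP_9dd972_gt.N.Coneb
import Pool.Agent.Lib.MP_9dd972_gt.N.Capa
import Pool.Agent.Lib.MP_9dd972_gt.N.Capb

/-!
# MP_9dd972_gt, part 2, module CAP

Small pieces of the boundary.
-/

set_option autoImplicit false

namespace Pool.Agent.MP9dd972N

open MeasureTheory Set Metric
open scoped ENNReal NNReal Topology Pointwise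

namespace CapAux

/-- lower bound for the height of a boundary point along its normal -/
theorem inner_ge {n : ℕ} {r R : ℝ} {K : Set (EE n)} (hK : Round r R K)
    {x u : EE n} (hu : IsNor K x u) : r ≤ (inner ℝ u x : ℝ) := by
  have hu1 : ‖u‖ = 1 := by simpa using hu.1
  by_contra hc
  push Not at hc
  rcases lt_or_ge (inner ℝ u x : ℝ) 0 with h | h
  · have h0 : (0 : EE n) ∈ K := interior_subset hK.zero
    have := hu.2 0 h0
    rw [zero_sub, inner_neg_right] at this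
    linarith
  · obtain ⟨s, hs1, hs2⟩ := exists_between hc
    have hs : s • u ∈ K := by
      apply hK.inn
      rw [mem_ball_zero_iff, norm_smul, hu1, mul_one, Real.norm_of_nonneg (h.trans hs1.le)]
      exact hs2
    have := hu.2 _ hs
    rw [inner_sub_right, inner_smul_right, real_inner_self_eq_norm_sq, hu1] at this
    linarith

theorem exists_eta (C r R : ℝ) (hr : 0 < r) (m : ℕ) (n : ℕ) {θ : ℝ} (hθ : 1 < θ) :
    ∃ η : ℝ, 0 < η ∧ η < 1 ∧ C * η < 1 / 2 ∧ 0 < r - η * (R + 1) ∧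
      ((1 - η ^ 2)⁻¹) ^ (((n : ℝ) - 1) / 2) * (1 + C * η) ^ m * (1 - C * η)⁻¹ ≤ θ ∧
      (1 + C * η) * ((1 - C * η)⁻¹) ^ m ≤ θ := by
  have h1 : ∀ᶠ η : ℝ in 𝓝 0, η < 1 := eventually_lt_nhds one_pos
  have h2 : ∀ᶠ η : ℝ in 𝓝 0, C * η < 1 / 2 := by
    have hc : ContinuousAt (fun η : ℝ => C * η) 0 := by fun_prop
    exact hc.eventually_lt continuousAt_const (by norm_num)
  have h3 : ∀ᶠ η : ℝ in 𝓝 0, 0 < r - η * (R + 1) := by
    have hc : ContinuousAt (fun η : ℝ => r - η * (R + 1)) 0 := by fun_prop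
    exact continuousAt_const.eventually_lt hc (by simpa using hr)
  have h4 : ∀ᶠ η : ℝ in 𝓝 0,
      ((1 - η ^ 2)⁻¹) ^ (((n : ℝ) - 1) / 2) * (1 + C * η) ^ m * (1 - C * η)⁻¹ < θ := by
    have hc : ContinuousAt (fun η : ℝ =>
        ((1 - η ^ 2)⁻¹) ^ (((n : ℝ) - 1) / 2) * (1 + C * η) ^ m * (1 - C * η)⁻¹) 0 := by
      refine ContinuousAt.mul (ContinuousAt.mul ?_ (by fun_prop)) ?_
      · refine ContinuousAt.rpow_const ?_ ?_
        · refine ContinuousAt.inv₀ (by fun_prop) ?_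
          norm_num
        · left
          norm_num
      · refine ContinuousAt.inv₀ (by fun_prop) ?_
        norm_num
    exact hc.eventually_lt continuousAt_const (by simpa using hθ)
  have h5 : ∀ᶠ η : ℝ in 𝓝 0, (1 + C * η) * ((1 - C * η)⁻¹) ^ m < θ := by
    have hc : ContinuousAt (fun η : ℝ => (1 + C * η) * ((1 - C * η)⁻¹) ^ m) 0 := by
      refine ContinuousAt.mul (by fun_prop) (ContinuousAt.pow ?_ m)
      refine ContinuousAt.inv₀ (by fun_prop) ?_
      norm_num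
    exact hc.eventually_lt continuousAt_const (by simpa using hθ)
  have h6 := h1.and (h2.and (h3.and (h4.and h5)))
  have h7 : ∀ᶠ η : ℝ in 𝓝[>] 0, (η < 1 ∧ C * η < 1 / 2 ∧ 0 < r - η * (R + 1) ∧
      ((1 - η ^ 2)⁻¹) ^ (((n : ℝ) - 1) / 2) * (1 + C * η) ^ m * (1 - C * η)⁻¹ < θ ∧
      (1 + C * η) * ((1 - C * η)⁻¹) ^ m < θ) := h6.filter_mono nhdsWithin_le_nhds
  obtain ⟨η, ⟨a1, a2, a3, a4, a5⟩, ha⟩ := (h7.and self_mem_nhdsWithin).exists
  exact ⟨η, ha, a1, a2, a3, a4.le, a5.le⟩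

/-- two sided volume bound for an almost isometric map -/
theorem vol_two {n : ℕ} {Ψ : EE n → EE n} {s : Set (EE n)} {q : ℝ} (hq : 0 ≤ q) (hq1 : q < 1)
    (h : ∀ z ∈ s, ∀ z' ∈ s, ‖(Ψ z - z) - (Ψ z' - z')‖ ≤ q * ‖z - z'‖) :
    volume (Ψ '' s) ≤ ENNReal.ofReal ((1 + q) ^ n) * volume s ∧
      volume s ≤ ENNReal.ofReal (((1 - q)⁻¹) ^ n) * volume (Ψ '' s) := by
  have hup : ∀ z ∈ s, ∀ z' ∈ s, ‖Ψ z - Ψ z'‖ ≤ (1 + q) * ‖z - z'‖ := by
    intro z hz z' hz'
    have e : Ψ z - Ψ z' = (z - z') + ((Ψ z - z) - (Ψ z' - z')) := by abel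
    rw [e]
    refine (norm_add_le _ _).trans ?_
    have := h z hz z' hz'
    nlinarith
  have hlo : ∀ z ∈ s, ∀ z' ∈ s, (1 - q) * ‖z - z'‖ ≤ ‖Ψ z - Ψ z'‖ := by
    intro z hz z' hz'
    have e : z - z' = (Ψ z - Ψ z') - ((Ψ z - z) - (Ψ z' - z')) := by abel
    have h1 : ‖z - z'‖ ≤ ‖Ψ z - Ψ z'‖ + ‖(Ψ z - z) - (Ψ z' - z')‖ := by
      conv_lhs => rw [e]
      exact norm_sub_le _ _
    have := h z hz z' hz'
    nlinarith
  constructor
  · have hl : LipschitzOnWith (Real.toNNReal (1 + q)) Ψ s := by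
      apply LipschitzOnWith.of_dist_le_mul
      intro z hz z' hz'
      rw [Real.coe_toNNReal _ (by linarith), dist_eq_norm, dist_eq_norm]
      exact hup z hz z' hz'
    refine (vol_lip hl).trans (le_of_eq ?_)
    rw [ENNReal.ofReal_pow (by linarith)]
    rfl
  · have hinj : InjOn Ψ s := by
      intro z hz z' hz' he
      have := hlo z hz z' hz'
      rw [he, sub_self, norm_zero] at this
      have h2 : ‖z - z'‖ ≤ 0 := by
        by_contra hc
        push Not at hc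
        nlinarith
      exact sub_eq_zero.mp (norm_le_zero_iff.mp h2)
    have hq2 : 0 < 1 - q := by linarith
    have hl : LipschitzOnWith (Real.toNNReal ((1 - q)⁻¹)) (Function.invFunOn Ψ s) (Ψ '' s) := by
      apply LipschitzOnWith.of_dist_le_mul
      rintro _ ⟨z, hz, rfl⟩ _ ⟨z', hz', rfl⟩
      rw [Real.coe_toNNReal _ (by positivity), dist_eq_norm, dist_eq_norm,
        hinj.leftInvOn_invFunOn hz, hinj.leftInvOn_invFunOn hz']
      have := hlo z hz z' hz'
      rw [inv_mul_eq_div, le_div_iff₀ hq2, mul_comm]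
      exact this
    have himg : Function.invFunOn Ψ s '' (Ψ '' s) = s := by
      ext z
      constructor
      · rintro ⟨_, ⟨w, hw, rfl⟩, rfl⟩
        rw [hinj.leftInvOn_invFunOn hw]
        exact hw
      · intro hz
        exact ⟨Ψ z, ⟨z, hz, rfl⟩, hinj.leftInvOn_invFunOn hz⟩
    have := vol_lip hl
    rw [himg] at this
    refine this.trans (le_of_eq ?_)
    rw [ENNReal.ofReal_pow (by positivity)]
    rfl

/-- bounds for the integral of the norm of the normal on the cone -/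
theorem int_two {n : ℕ} {K s : Set (EE n)} {h0 q : ℝ} (hh0 : 0 < h0)
    (hq1 : q < 1) {u0 : EE n} (hu0 : ‖u0‖ = 1)
    (h : ∀ᵐ z ∂(volume.restrict s), ‖h0 • NN K z - u0‖ ≤ q) :
    ENNReal.ofReal h0 * (∫⁻ x in s, ENNReal.ofReal ‖NN K x‖) ≤
        ENNReal.ofReal (1 + q) * volume s ∧
      volume s ≤ ENNReal.ofReal ((1 - q)⁻¹) *
        (ENNReal.ofReal h0 * (∫⁻ x in s, ENNReal.ofReal ‖NN K x‖)) := by
  have key : ∀ᵐ z ∂(volume.restrict s), 1 - q ≤ h0 * ‖NN K z‖ ∧ h0 * ‖NN K z‖ ≤ 1 + q := by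
    filter_upwards [h] with z hz
    have e : ‖h0 • NN K z‖ = h0 * ‖NN K z‖ := by
      rw [norm_smul, Real.norm_of_nonneg hh0.le]
    rw [← e]
    constructor
    · have h1 : ‖u0‖ ≤ ‖h0 • NN K z‖ + ‖h0 • NN K z - u0‖ := by
        have e2 : u0 = h0 • NN K z - (h0 • NN K z - u0) := by abel
        conv_lhs => rw [e2]
        exact norm_sub_le _ _
      linarith
    · have h1 : ‖h0 • NN K z‖ ≤ ‖u0‖ + ‖h0 • NN K z - u0‖ := by
        have e2 : h0 • NN K z = u0 + (h0 • NN K z - u0) := by abel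
        conv_lhs => rw [e2]
        exact norm_add_le _ _
      linarith
  have e : ENNReal.ofReal h0 * (∫⁻ x in s, ENNReal.ofReal ‖NN K x‖) =
      ∫⁻ x in s, ENNReal.ofReal (h0 * ‖NN K x‖) := by
    rw [← lintegral_const_mul' _ _ ENNReal.ofReal_ne_top]
    refine lintegral_congr fun x => ?_
    rw [ENNReal.ofReal_mul hh0.le]
  rw [e]
  constructor
  · calc ∫⁻ x in s, ENNReal.ofReal (h0 * ‖NN K x‖) ≤ ∫⁻ _ in s, ENNReal.ofReal (1 + q) := by
          refine lintegral_mono_ae ?_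
          filter_upwards [key] with z hz
          exact ENNReal.ofReal_le_ofReal hz.2
      _ = ENNReal.ofReal (1 + q) * volume s := by
          rw [setLIntegral_const]
  · have hq2 : 0 < 1 - q := by linarith
    have h1 : ENNReal.ofReal (1 - q) * volume s ≤ ∫⁻ x in s, ENNReal.ofReal (h0 * ‖NN K x‖) := by
      rw [← setLIntegral_const]
      refine lintegral_mono_ae ?_
      filter_upwards [key] with z hz
      exact ENNReal.ofReal_le_ofReal hz.1
    calc volume s = ENNReal.ofReal ((1 - q)⁻¹) * (ENNReal.ofReal (1 - q) * volume s) := by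
          rw [← mul_assoc, ← ENNReal.ofReal_mul (by positivity), inv_mul_cancel₀ hq2.ne',
            ENNReal.ofReal_one, one_mul]
      _ ≤ _ := by gcongr

end CapAux

theorem cap_est {n : ℕ} (hn : 2 ≤ n) {κ : ℝ≥0∞} (hκ : κ ≠ ⊤)
    (hflat : ∀ (u : EE n) (h : ℝ) (A : Set (EE n)), ‖u‖ = 1 → 0 < h →
      MeasurableSet A → (∀ x ∈ A, (inner ℝ u x : ℝ) = h) →
      μH[(n : ℝ) - 1] A * ENNReal.ofReal h = κ * volume (cone A))
    {K : Set (EE n)} (hK : Body K) {θ : ℝ} (hθ : 1 < θ) :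
    ∃ η : ℝ, 0 < η ∧ ∀ (u0 : EE n) (h0 : ℝ) (A : Set (EE n)), ‖u0‖ = 1 →
      MeasurableSet A → A ⊆ frontier K →
      (∀ x ∈ A, |(inner ℝ u0 x : ℝ) - h0| ≤ η ∧ ∃ u : EE n, IsNor K x u ∧ ‖u - u0‖ ≤ η) →
      μH[(n : ℝ) - 1] A ≤ ENNReal.ofReal θ * (κ * ∫⁻ x in cone A, ENNReal.ofReal ‖NN K x‖) ∧
      κ * (∫⁻ x in cone A, ENNReal.ofReal ‖NN K x‖) ≤
        ENNReal.ofReal θ * μH[(n : ℝ) - 1] A := by
  obtain ⟨r, R, hr, hR, hround⟩ := hK.round
  obtain ⟨η, hη0, hη1, hη2, hη3, hη4, hη5⟩ :=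
    CapAux.exists_eta ((R + 1) / r + 1) r R hr n n hθ
  refine ⟨η, hη0, ?_⟩
  intro u0 h0 A hu0 hAm hAK hA
  set C : ℝ := (R + 1) / r + 1 with hC
  have hC0 : 0 < C := by positivity
  rcases A.eq_empty_or_nonempty with hAe | hAne
  · have hce : cone A = ∅ := by
      rw [hAe]
      ext y
      simp [cone]
    rw [hce, hAe]
    simp
  -- height is positive
  have hh0 : 0 < h0 := by
    obtain ⟨x, hx⟩ := hAne
    obtain ⟨hx1, u, hu, hu2⟩ := hA x hx
    have h1 := CapAux.inner_ge hround hu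
    have hxR : ‖x‖ ≤ R := by
      have hxK : x ∈ K := hK.comp.isClosed.frontier_subset (hAK hx)
      simpa using hround.out hxK
    have h2 : (inner ℝ (u - u0) x : ℝ) ≤ η * R :=
      (real_inner_le_norm _ _).trans (mul_le_mul hu2 hxR (norm_nonneg _) hη0.le)
    rw [inner_sub_left] at h2
    have h3 := (abs_le.mp hx1).2
    nlinarith
  have hlip : ∀ x ∈ A, ∀ y ∈ A, |(inner ℝ u0 (x - y) : ℝ)| ≤ η * ‖x - y‖ := by
    have aux : ∀ x ∈ A, ∀ y ∈ A, (inner ℝ u0 (y - x) : ℝ) ≤ η * ‖x - y‖ := by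
      intro x hx y hy
      obtain ⟨_, u, hu, hu2⟩ := hA x hx
      have hyK : y ∈ K := hK.comp.isClosed.frontier_subset (hAK hy)
      have h1 := hu.2 y hyK
      have h2 : (inner ℝ (u0 - u) (y - x) : ℝ) ≤ η * ‖x - y‖ := by
        refine (real_inner_le_norm _ _).trans ?_
        rw [norm_sub_rev u0 u, norm_sub_rev y x]
        exact mul_le_mul_of_nonneg_right hu2 (norm_nonneg _)
      rw [inner_sub_left] at h2
      linarith
    intro x hx y hy
    rw [abs_le]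
    constructor
    · have := aux x hx y hy
      have e : (inner ℝ u0 (x - y) : ℝ) = - inner ℝ u0 (y - x) := by
        rw [← inner_neg_right, neg_sub]
      rw [e]
      linarith
    · have := aux y hy x hx
      rw [norm_sub_rev y x] at this
      exact this
  obtain ⟨hinj, hH1, hH2⟩ := cap_haus hη0.le hη1 hu0 h0 hlip
    (d := (n : ℝ) - 1) (by
      have : (2 : ℝ) ≤ n := by exact_mod_cast hn
      linarith)
  obtain ⟨hc1, hc2, hc3⟩ := cap_cone hr hround hη0.le hu0 hAK hA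
  rw [← hC] at hc1 hc3
  set P : EE n → EE n := fun x : EE n => x + (h0 - (inner ℝ u0 x : ℝ)) • u0 with hP
  set Ψ : EE n → EE n := fun z : EE n => z + (h0 * gauge K z - (inner ℝ u0 z : ℝ)) • u0 with hΨ
  have hPm : MeasurableSet (P '' A) := by
    refine hAm.image_of_continuousOn_injOn ?_ hinj
    rw [hP]
    fun_prop
  have hPin : ∀ x ∈ P '' A, (inner ℝ u0 x : ℝ) = h0 := by
    rintro _ ⟨x, hx, rfl⟩
    rw [hP]
    simp only
    rw [inner_add_right, inner_smul_right, real_inner_self_eq_norm_sq, hu0]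
    ring
  have hfl := hflat u0 h0 (P '' A) hu0 hh0 hPm hPin
  have hq0 : 0 ≤ C * η := by positivity
  have hq1 : C * η < 1 := by linarith
  have hvol := CapAux.vol_two (n := n) (Ψ := Ψ) (s := cone A) hq0 hq1 (by
    intro z hz z' hz'
    have e : (Ψ z - z) - (Ψ z' - z') = ((h0 * gauge K z - (inner ℝ u0 z : ℝ)) -
        (h0 * gauge K z' - (inner ℝ u0 z' : ℝ))) • u0 := by
      rw [hΨ]
      simp only
      rw [add_sub_cancel_left, add_sub_cancel_left, ← sub_smul]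
    rw [e, norm_smul, hu0, mul_one, Real.norm_eq_abs]
    exact hc1 z hz z' hz')
  rw [hc2] at hvol
  have hcm : MeasurableSet (cone A) := cone_meas hK hAK hAm
  have hint := CapAux.int_two (n := n) (K := K) hh0 hq1 hu0 (by
    refine (ae_restrict_iff' hcm).mpr ?_
    filter_upwards [hK.ae_diff (by omega)] with z hz hzc
    exact hc3 z hzc hz.1)
  set I : ℝ≥0∞ := ∫⁻ x in cone A, ENNReal.ofReal ‖NN K x‖ with hI
  set H : ℝ≥0∞ := ENNReal.ofReal h0 with hH
  have hH0 : H ≠ 0 := by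
    rw [hH]
    exact (ENNReal.ofReal_pos.mpr hh0).ne'
  have hHt : H ≠ ⊤ := ENNReal.ofReal_ne_top
  have hq2 : 0 < 1 - C * η := by linarith
  have h1η : 0 < 1 - η ^ 2 := by nlinarith
  constructor
  · rw [← ENNReal.mul_le_mul_iff_left hH0 hHt]
    calc μH[(n : ℝ) - 1] A * H
        ≤ (ENNReal.ofReal (((1 - η ^ 2)⁻¹) ^ (((n : ℝ) - 1) / 2)) *
            μH[(n : ℝ) - 1] (P '' A)) * H := by gcongr
      _ = ENNReal.ofReal (((1 - η ^ 2)⁻¹) ^ (((n : ℝ) - 1) / 2)) *
            (κ * volume (cone (P '' A))) := by rw [mul_assoc, hfl]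
      _ ≤ ENNReal.ofReal (((1 - η ^ 2)⁻¹) ^ (((n : ℝ) - 1) / 2)) *
            (κ * (ENNReal.ofReal ((1 + C * η) ^ n) *
              (ENNReal.ofReal ((1 - C * η)⁻¹) * (H * I)))) := by
          refine mul_le_mul' le_rfl (mul_le_mul' le_rfl (hvol.1.trans (mul_le_mul' le_rfl hint.2)))
      _ = ENNReal.ofReal (((1 - η ^ 2)⁻¹) ^ (((n : ℝ) - 1) / 2) * (1 + C * η) ^ n *
            (1 - C * η)⁻¹) * (κ * I) * H := by
          rw [ENNReal.ofReal_mul (by positivity), ENNReal.ofReal_mul (by positivity)]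
          ring
      _ ≤ ENNReal.ofReal θ * (κ * I) * H := by gcongr
  · rw [← ENNReal.mul_le_mul_iff_left hH0 hHt]
    calc κ * I * H = κ * (H * I) := by ring
      _ ≤ κ * (ENNReal.ofReal (1 + C * η) * (ENNReal.ofReal (((1 - C * η)⁻¹) ^ n) *
            volume (cone (P '' A)))) := by
          refine mul_le_mul' le_rfl (hint.1.trans (mul_le_mul' le_rfl hvol.2))
      _ = ENNReal.ofReal ((1 + C * η) * ((1 - C * η)⁻¹) ^ n) *
            (κ * volume (cone (P '' A))) := by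
          rw [ENNReal.ofReal_mul (by positivity)]
          ring
      _ = ENNReal.ofReal ((1 + C * η) * ((1 - C * η)⁻¹) ^ n) *
            (μH[(n : ℝ) - 1] (P '' A) * H) := by rw [hfl]
      _ ≤ ENNReal.ofReal θ * (μH[(n : ℝ) - 1] A * H) := by gcongr
      _ = ENNReal.ofReal θ * μH[(n : ℝ) - 1] A * H := by ring

end Pool.Agent.MP9dd972N
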