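import Mathlib
import Pool.Agent.Lib.MP_9dd972_gt.N.Defs
import Pool.Agent.Lib.MP_9dd972_gt.N.Hsup
import Pool.Agent.Lib.MP_9dd972_gt.N.Gauge
import Pool.Agent.Lib.MP_9dd972_gt.N.Hom

/-!
# Bodies with centroid at the origin
-/

set_option autoImplicit false

namespace Pool.Agent.MP9dd972N

open MeasureTheory Set Metric
open scoped ENNReal NNReal Topology Pointwise

theorem hh_neg_le {n : ℕ} {K : Set (EE n)} (hK : Body K) (hc : ∫ x in K, x = (0 : EE n))
    (u : EE n) : hh K (-u) ≤ 2 ^ (n + 1) * hh K u := by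
  have h0K : (0 : EE n) ∈ K := interior_subset hK.zero
  have hne : K.Nonempty := ⟨0, h0K⟩
  obtain ⟨x0, hx0, hb⟩ := exists_hh hK.comp hne (-u)
  set a : ℝ := hh K u with ha
  set b : ℝ := hh K (-u) with hbd
  have ha0 : 0 ≤ a := by
    have := inner_le_hh hK.comp h0K u
    rwa [inner_zero_right] at this
  set V : ℝ := (volume K).toReal with hV
  have hVpos : 0 < V := by
    apply ENNReal.toReal_pos
    · have h1 : 0 < volume (interior K) := isOpen_interior.measure_pos volume ⟨0, hK.zero⟩
      exact (h1.trans_le (measure_mono interior_subset)).ne'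
    · exact hK.comp.measure_lt_top.ne
  set S : Set (EE n) := (fun z => (1 / 2 : ℝ) • x0 + z) '' ((1 / 2 : ℝ) • K) with hS
  have hSK : S ⊆ K := by
    rintro _ ⟨_, ⟨y, hy, rfl⟩, rfl⟩
    exact hK.conv hx0 hy (by norm_num) (by norm_num) (by norm_num)
  have hvS : (volume S).toReal = (1 / 2) ^ n * V := by
    rw [hS, Set.image_add_left, measure_preimage_add]
    exact vol_smul K (by norm_num)
  have hSm : MeasurableSet S := by
    rw [hS]
    exact ((hK.comp.smul (1 / 2 : ℝ)).image (by fun_prop)).measurableSet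
  have hSfin : volume S ≠ ⊤ := ((measure_mono hSK).trans_lt hK.comp.measure_lt_top).ne
  have hcont : Continuous fun x : EE n => a - inner ℝ u x := by fun_prop
  have hint : IntegrableOn (fun x : EE n => a - inner ℝ u x) K :=
    hcont.continuousOn.integrableOn_compact hK.comp
  have hxi : IntegrableOn (fun x : EE n => x) K := continuousOn_id.integrableOn_compact hK.comp
  have e1 : ∫ x in K, (a - inner ℝ u x) = V * a := by
    have i1 : IntegrableOn (fun _ : EE n => a) K :=
      continuous_const.continuousOn.integrableOn_compact hK.comp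
    have i2 : IntegrableOn (fun x : EE n => (inner ℝ u x : ℝ)) K := by
      have : Continuous fun x : EE n => (inner ℝ u x : ℝ) := by fun_prop
      exact this.continuousOn.integrableOn_compact hK.comp
    rw [integral_sub i1 i2, setIntegral_const, smul_eq_mul, Measure.real, ← hV]
    have i3 : ∫ x in K, (inner ℝ u x : ℝ) = 0 := by
      have h1 := integral_inner (𝕜 := ℝ) (μ := volume.restrict K) hxi u
      rw [hc, inner_zero_right] at h1
      exact h1
    rw [i3, sub_zero]
  have m1 : ∫ x in S, (a - inner ℝ u x) ≤ ∫ x in K, (a - inner ℝ u x) := by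
    apply setIntegral_mono_set hint
    · rw [Filter.EventuallyLE, ae_restrict_iff' hK.comp.measurableSet]
      apply Filter.Eventually.of_forall
      intro x hx
      have := inner_le_hh hK.comp hx u
      simp only [Pi.zero_apply]
      linarith
    · exact hSK.eventuallyLE
  have m2 : ∫ _ in S, ((a + b) / 2) ≤ ∫ x in S, (a - inner ℝ u x) := by
    apply setIntegral_mono_on
    · exact integrableOn_const hSfin
    · exact hint.mono_set hSK
    · exact hSm
    · rintro _ ⟨_, ⟨y, hy, rfl⟩, rfl⟩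
      have h1 := inner_le_hh hK.comp hy u
      rw [inner_neg_left] at hb
      have h2 : (inner ℝ u ((1 / 2 : ℝ) • x0 + (1 / 2 : ℝ) • y) : ℝ) =
          1 / 2 * inner ℝ u x0 + 1 / 2 * inner ℝ u y := by
        rw [inner_add_right, real_inner_smul_right, real_inner_smul_right]
      show (a + b) / 2 ≤ a - inner ℝ u ((1 / 2 : ℝ) • x0 + (1 / 2 : ℝ) • y)
      rw [h2]
      linarith
  have e2 : ∫ _ in S, ((a + b) / 2) = (1 / 2) ^ n * V * ((a + b) / 2) := by
    rw [setIntegral_const, smul_eq_mul, Measure.real, hvS]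
  have h3 : (1 / 2) ^ n * V * ((a + b) / 2) ≤ V * a := by
    rw [← e1, ← e2]
    exact m2.trans m1
  have h4 : (1 / 2 : ℝ) ^ n * ((a + b) / 2) ≤ a := by
    have : V * ((1 / 2) ^ n * ((a + b) / 2)) ≤ V * a := by
      calc V * ((1 / 2) ^ n * ((a + b) / 2)) = (1 / 2) ^ n * V * ((a + b) / 2) := by ring
        _ ≤ V * a := h3
    exact le_of_mul_le_mul_left this hVpos
  have h5 : (2 : ℝ) ^ (n + 1) * ((1 / 2 : ℝ) ^ n * ((a + b) / 2)) = a + b := by
    have : (2 : ℝ) ^ n * (1 / 2 : ℝ) ^ n = 1 := by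
      rw [← mul_pow]
      norm_num
    rw [pow_succ]
    calc (2 : ℝ) ^ n * 2 * ((1 / 2 : ℝ) ^ n * ((a + b) / 2))
        = ((2 : ℝ) ^ n * (1 / 2 : ℝ) ^ n) * (a + b) := by ring
      _ = a + b := by rw [this, one_mul]
  have h6 := mul_le_mul_of_nonneg_left h4 (show (0 : ℝ) ≤ 2 ^ (n + 1) by positivity)
  rw [h5] at h6
  linarith

theorem gauge_neg_le {n : ℕ} {K : Set (EE n)} (hK : Body K) (hc : ∫ x in K, x = (0 : EE n))
    (x : EE n) : gauge K (-x) ≤ 2 ^ (n + 1) * gauge K x := by
  rcases eq_or_ne x 0 with rfl | hx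
  · simp
  have hm0 : (0 : ℝ) < 2 ^ (n + 1) := by positivity
  set g : ℝ := gauge K x with hg
  have hg0 : 0 < g := hK.gauge_pos hx
  set y : EE n := g⁻¹ • x with hy
  have hyK : y ∈ K := by
    rw [← hK.gauge_le_one, hy, gauge_smul_of_nonneg (inv_nonneg.2 hg0.le), smul_eq_mul, ← hg,
      inv_mul_cancel₀ hg0.ne']
  have hB := hK.smul hm0
  have hneg : -y ∈ (2 ^ (n + 1) : ℝ) • K := by
    apply mem_of_hh hB.comp hB.conv ⟨0, interior_subset hB.zero⟩
    intro u
    rw [hh_smul_set K hm0.le, inner_neg_right, ← inner_neg_left]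
    exact (inner_le_hh hK.comp hyK (-u)).trans (hh_neg_le hK hc u)
  have h1 : gauge K (-y) ≤ 2 ^ (n + 1) := by
    rw [Set.mem_smul_set_iff_inv_smul_mem₀ hm0.ne', ← hK.gauge_le_one,
      gauge_smul_of_nonneg (inv_nonneg.2 hm0.le), smul_eq_mul, inv_mul_le_iff₀ hm0,
      mul_one] at hneg
    exact hneg
  have h2 : -x = g • (-y) := by
    rw [hy, smul_neg, smul_smul, mul_inv_cancel₀ hg0.ne', one_smul]
  rw [h2, gauge_smul_of_nonneg hg0.le, smul_eq_mul, mul_comm]
  exact mul_le_mul_of_nonneg_right h1 hg0.le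

end Pool.Agent.MP9dd972N
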