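import Mathlib
import Pool.Agent.Lib.MP_9dd972_gt.N.Defs
import Pool.Agent.Lib.MP_9dd972_gt.N.Gauge

/-!
# Real-valued form of the hypothesis
-/

set_option autoImplicit false

namespace Pool.Agent.MP9dd972N

open MeasureTheory Set Metric
open scoped ENNReal NNReal Topology Pointwise

theorem hyp_real {n : ℕ} (hn : 0 < n) {p : ℝ} (hp : 0 < p) {K C : Set (EE n)} (hK : Body K)
    (hC : Body C) (h : Hyp p K C) {G : EE n → ℝ} (hG : Measurable G) (h0 : ∀ u, 0 ≤ G u)
    (hom : ∀ (c : ℝ) (u : EE n), 0 < c → G (c • u) = c ^ p * G u) :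
    ∫ x in K, G (NN K x) = ∫ x in C, G (NN C x) := by
  have h1 := h (fun u => ENNReal.ofReal (G u)) hG.ennreal_ofReal (by
    intro c u hc
    rw [hom c u hc, ENNReal.ofReal_mul (Real.rpow_nonneg hc.le p)])
  rw [integral_eq_lintegral_of_nonneg_ae (Filter.Eventually.of_forall fun x => h0 _)
      (hG.comp (NN_meas K)).aestronglyMeasurable,
    integral_eq_lintegral_of_nonneg_ae (Filter.Eventually.of_forall fun x => h0 _)
      (hG.comp (NN_meas C)).aestronglyMeasurable]
  exact congrArg ENNReal.toReal h1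

end Pool.Agent.MP9dd972N
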