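import Mathlib
import Pool.Agent.Lib.MP_9dd972_gt.N.Defs
import Pool.Agent.Lib.MP_9dd972_gt.N.Gauge
import Pool.Agent.Lib.MP_9dd972_gt.N.Hom
import Pool.Agent.Lib.MP_9dd972_gt.N.Centr

/-!
# Two-sided bounds for the integral of the p-th power of inner NN e
-/

set_option autoImplicit false

namespace Pool.Agent.MP9dd972N

open MeasureTheory Set Metric
open scoped ENNReal NNReal Topology Pointwise

namespace LowupAux

theorem abs_inner_le {n : ℕ} {C : Set (EE n)} (hC : Body C) (hc : ∫ x in C, x = (0 : EE n))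
    (e x : EE n) : |(inner ℝ (NN C x) e : ℝ)| ≤ 2 ^ (n + 1) * gauge C e := by
  have h1 := inner_NN_le hC x e
  have h2 := inner_NN_le hC x (-e)
  have h3 := gauge_neg_le hC hc e
  have h4 : 0 ≤ gauge C e := gauge_nonneg e
  have h5 : (1 : ℝ) ≤ 2 ^ (n + 1) := one_le_pow₀ (by norm_num)
  have h6 : gauge C e ≤ 2 ^ (n + 1) * gauge C e := by nlinarith
  rw [inner_neg_right] at h2
  rw [abs_le]
  constructor <;> linarith

theorem abs_rpow_le {n : ℕ} {C : Set (EE n)} (hC : Body C) (hc : ∫ x in C, x = (0 : EE n))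
    {p : ℝ} (hp : 0 < p) (e x : EE n) :
    |(inner ℝ (NN C x) e : ℝ)| ^ p ≤ (2 ^ (n + 1)) ^ p * (gauge C e) ^ p := by
  rw [← Real.mul_rpow (by positivity) (gauge_nonneg e)]
  exact Real.rpow_le_rpow (abs_nonneg _) (abs_inner_le hC hc e x) hp.le

/-- The case `gauge C e = 1` of the lower bound. -/
theorem low_one {n : ℕ} (hn : 0 < n) {C : Set (EE n)} (hC : Body C)
    (hc : ∫ x in C, x = (0 : EE n)) {p : ℝ} (hp : 0 < p) (hp1 : p ≤ 1) {e : EE n}
    (he : gauge C e = 1) {τ : ℝ} (hτ : τ = 2 * (2 ^ (n + 1) + 1)) :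
    1 / 2 * (volume C).toReal ≤
      (1 + τ) ^ n * ∫ x in C, |(inner ℝ (NN C x) e : ℝ)| ^ p := by
  have hm0 : (0 : ℝ) < 2 ^ (n + 1) := by positivity
  have hτ0 : 0 < τ := by rw [hτ]; positivity
  have h1τ : 0 < 1 + τ := by linarith
  have hhom : ∀ (c : ℝ) (x : EE n), 0 < c →
      |(inner ℝ (NN C (c • x)) e : ℝ)| ^ p = |(inner ℝ (NN C x) e : ℝ)| ^ p := by
    intro c x h
    rw [NN_smul C h]
  rw [← hom_smul C (H := fun x => |(inner ℝ (NN C x) e : ℝ)| ^ p) hhom h1τ]
  set S : Set (EE n) := (fun y => τ • e + y) '' C with hS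
  have hgle : ∀ y ∈ C, gauge C y ≤ 1 := fun y hy => (hC.gauge_le_one y).2 hy
  have hgτ : gauge C (τ • e) = τ := by
    rw [gauge_smul_of_nonneg hτ0.le, he, smul_eq_mul, mul_one]
  have hSsub : S ⊆ (1 + τ) • C := by
    rintro _ ⟨y, hy, rfl⟩
    rw [Set.mem_smul_set_iff_inv_smul_mem₀ h1τ.ne', ← hC.gauge_le_one,
      gauge_smul_of_nonneg (inv_nonneg.2 h1τ.le), smul_eq_mul, inv_mul_le_iff₀ h1τ, mul_one]
    have h1 := hC.gauge_add (τ • e) y
    have h2 := hgle y hy
    show gauge C (τ • e + y) ≤ 1 + τ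
    linarith
  have hmeas : Measurable fun x : EE n => |(inner ℝ (NN C x) e : ℝ)| ^ p := by
    have h1 : Measurable fun x : EE n => (inner ℝ (NN C x) e : ℝ) :=
      (NN_meas C).inner measurable_const
    exact (measurable_norm.comp h1).pow_const p
  have hcomp : IsCompact ((1 + τ) • C) := hC.comp.smul (1 + τ)
  have hint : IntegrableOn (fun x : EE n => |(inner ℝ (NN C x) e : ℝ)| ^ p) ((1 + τ) • C) := by
    apply Measure.integrableOn_of_bounded (M := (2 ^ (n + 1)) ^ p * (gauge C e) ^ p)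
      hcomp.measure_lt_top.ne hmeas.aestronglyMeasurable
    apply Filter.Eventually.of_forall
    intro x
    rw [Real.norm_eq_abs, abs_of_nonneg (Real.rpow_nonneg (abs_nonneg _) p)]
    exact abs_rpow_le hC hc hp e x
  have hvS : volume S = volume C := by
    rw [hS, Set.image_add_left, measure_preimage_add]
  have hSm : MeasurableSet S := by
    rw [hS]
    exact (hC.comp.image (by fun_prop)).measurableSet
  have hSfin : volume S ≠ ⊤ := by
    rw [hvS]
    exact hC.comp.measure_lt_top.ne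
  have m1 : ∫ x in S, |(inner ℝ (NN C x) e : ℝ)| ^ p ≤
      ∫ x in (1 + τ) • C, |(inner ℝ (NN C x) e : ℝ)| ^ p := by
    apply setIntegral_mono_set hint
    · apply Filter.Eventually.of_forall
      intro x
      exact Real.rpow_nonneg (abs_nonneg _) p
    · exact hSsub.eventuallyLE
  have m2 : ∫ _ in S, (1 / 2 : ℝ) ≤ ∫ x in S, |(inner ℝ (NN C x) e : ℝ)| ^ p := by
    apply setIntegral_mono_ae_restrict
    · exact integrableOn_const hSfin
    · exact hint.mono_set hSsub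
    · rw [Filter.EventuallyLE, ae_restrict_iff' hSm]
      filter_upwards [hC.ae_diff hn] with x hx hxS
      obtain ⟨y, hy, rfl⟩ := hxS
      set I : ℝ := inner ℝ (NN C (τ • e + y)) e with hI
      have a1 := inner_NN_self hC hx.1
      have a2 : (inner ℝ (NN C (τ • e + y)) (τ • e + y) : ℝ) =
          τ * I + inner ℝ (NN C (τ • e + y)) y := by
        rw [inner_add_right, real_inner_smul_right]
      have a3 := (inner_NN_le hC (τ • e + y) y).trans (hgle y hy)
      have a4 : τ ≤ gauge C (τ • e + y) + gauge C (-y) := by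
        have := hC.gauge_add (τ • e + y) (-y)
        rwa [add_neg_cancel_right, hgτ] at this
      have a5 : gauge C (-y) ≤ 2 ^ (n + 1) := by
        refine (gauge_neg_le hC hc y).trans ?_
        have := mul_le_mul_of_nonneg_left (hgle y hy) hm0.le
        linarith
      have a6 : τ * (1 / 2) ≤ τ * I := by
        have : τ * (1 / 2) = 2 ^ (n + 1) + 1 := by rw [hτ]; ring
        linarith
      have a7 : 1 / 2 ≤ I := le_of_mul_le_mul_left a6 hτ0
      have a8 : (1 / 2 : ℝ) ≤ |I| := a7.trans (le_abs_self I)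
      calc (1 / 2 : ℝ) = (1 / 2 : ℝ) ^ (1 : ℝ) := (Real.rpow_one _).symm
        _ ≤ (1 / 2 : ℝ) ^ p :=
          Real.rpow_le_rpow_of_exponent_ge (by norm_num) (by norm_num) hp1
        _ ≤ |I| ^ p := Real.rpow_le_rpow (by norm_num) a8 hp.le
  have e1 : ∫ _ in S, (1 / 2 : ℝ) = 1 / 2 * (volume C).toReal := by
    rw [setIntegral_const, smul_eq_mul, Measure.real, hvS, mul_comm]
  rw [← e1]
  exact m2.trans m1

end LowupAux

theorem up_bound {n : ℕ} {C : Set (EE n)} (hC : Body C) (hc : ∫ x in C, x = (0 : EE n))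
    {p : ℝ} (hp : 0 < p) (e : EE n) :
    ∫ x in C, |(inner ℝ (NN C x) e : ℝ)| ^ p
      ≤ (2 ^ (n + 1)) ^ p * (volume C).toReal * (gauge C e) ^ p := by
  have h1 : ‖∫ x in C, |(inner ℝ (NN C x) e : ℝ)| ^ p‖ ≤
      (2 ^ (n + 1)) ^ p * (gauge C e) ^ p * volume.real C := by
    apply norm_setIntegral_le_of_norm_le_const hC.comp.measure_lt_top
    intro x _
    rw [Real.norm_eq_abs, abs_of_nonneg (Real.rpow_nonneg (abs_nonneg _) p)]
    exact LowupAux.abs_rpow_le hC hc hp e x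
  refine (le_abs_self _).trans (h1.trans (le_of_eq ?_))
  rw [Measure.real]
  ring

theorem low_bound (n : ℕ) (hn : 0 < n) :
    ∃ c : ℝ, 0 < c ∧ c ≤ 1 ∧ ∀ C : Set (EE n), Body C → ∫ x in C, x = (0 : EE n) →
      ∀ p : ℝ, 0 < p → p ≤ 1 → ∀ e : EE n,
        c * (volume C).toReal * (gauge C e) ^ p
          ≤ ∫ x in C, |(inner ℝ (NN C x) e : ℝ)| ^ p := by
  set τ : ℝ := 2 * (2 ^ (n + 1) + 1) with hτ
  have hτ0 : 0 < τ := by rw [hτ]; positivity
  have hT : 1 ≤ (1 + τ) ^ n := one_le_pow₀ (by linarith)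
  have hT0 : 0 < (1 + τ) ^ n := by linarith
  refine ⟨1 / 2 / (1 + τ) ^ n, by positivity, ?_, ?_⟩
  · rw [div_le_one hT0]
    linarith
  intro C hC hc p hp hp1 e
  rcases eq_or_ne e 0 with rfl | he
  · simp [gauge_zero, Real.zero_rpow hp.ne']
  set g : ℝ := gauge C e with hg
  have hg0 : 0 < g := hC.gauge_pos he
  have he1 : gauge C (g⁻¹ • e) = 1 := by
    rw [gauge_smul_of_nonneg (inv_nonneg.2 hg0.le), smul_eq_mul, ← hg, inv_mul_cancel₀ hg0.ne']
  have h1 := LowupAux.low_one hn hC hc hp hp1 he1 hτ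
  have h2 : ∀ x : EE n, |(inner ℝ (NN C x) e : ℝ)| ^ p =
      g ^ p * |(inner ℝ (NN C x) (g⁻¹ • e) : ℝ)| ^ p := by
    intro x
    rw [← Real.mul_rpow hg0.le (abs_nonneg _)]
    congr 1
    rw [real_inner_smul_right, abs_mul, abs_of_pos (inv_pos.2 hg0), ← mul_assoc,
      mul_inv_cancel₀ hg0.ne', one_mul]
  simp_rw [h2]
  rw [integral_const_mul]
  have h3 : 1 / 2 / (1 + τ) ^ n * (volume C).toReal ≤
      ∫ x in C, |(inner ℝ (NN C x) (g⁻¹ • e) : ℝ)| ^ p := by
    rw [div_mul_eq_mul_div, div_le_iff₀ hT0, mul_comm (∫ x in C, _)]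
    exact h1
  have h4 := mul_le_mul_of_nonneg_left h3 (Real.rpow_nonneg hg0.le p)
  calc 1 / 2 / (1 + τ) ^ n * (volume C).toReal * g ^ p
      = g ^ p * (1 / 2 / (1 + τ) ^ n * (volume C).toReal) := by ring
    _ ≤ _ := h4

end Pool.Agent.MP9dd972N
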