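import Mathlib
import Pool.Agent.Lib.MP_9dd972_gt.N.Defs
import Pool.Agent.Lib.MP_9dd972_gt.N.Gauge
import Pool.Agent.Lib.MP_9dd972_gt.N.Lowup
import Pool.Agent.Lib.MP_9dd972_gt.N.Hypr

set_option autoImplicit false

namespace Pool.Agent.MP9dd972N

open MeasureTheory Set Metric
open scoped ENNReal NNReal Topology Pointwise

namespace ComparAux

theorem vol_pos {n : ℕ} {K : Set (EE n)} (hK : Body K) : 0 < (volume K).toReal := by
  refine ENNReal.toReal_pos ?_ hK.comp.measure_lt_top.ne
  have h1 : (interior K).Nonempty := ⟨0, hK.zero⟩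
  have h2 := isOpen_interior.measure_pos volume h1
  exact (h2.trans_le (measure_mono interior_subset)).ne'

theorem sub_of_gauge {n : ℕ} {K C : Set (EE n)} (hK : Body K) (hC : Body C) {a : ℝ} (ha : 0 < a)
    (h : ∀ e, gauge C e ≤ a * gauge K e) : K ⊆ a • C := by
  intro x hx
  rw [Set.mem_smul_set_iff_inv_smul_mem₀ ha.ne']
  rw [← hC.gauge_le_one]
  rw [gauge_smul_of_nonneg (inv_nonneg.mpr ha.le)]
  have h1 := h x
  have h2 := (hK.gauge_le_one x).mpr hx
  have h3 : gauge C x ≤ a := by nlinarith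
  rw [smul_eq_mul]
  have h4 : a⁻¹ * gauge C x ≤ a⁻¹ * a := by
    exact mul_le_mul_of_nonneg_left h3 (inv_nonneg.mpr ha.le)
  rwa [inv_mul_cancel₀ ha.ne'] at h4

theorem vol_le {n : ℕ} {K C : Set (EE n)} (hC : Body C) {a : ℝ} (ha : 0 < a)
    (h : K ⊆ a • C) : (volume K).toReal ≤ a ^ n * (volume C).toReal := by
  have h1 : volume K ≤ ENNReal.ofReal (a ^ n) * volume C := by
    refine (measure_mono h).trans ?_
    rw [Measure.addHaar_smul]
    simp only [finrank_euclideanSpace, Fintype.card_fin]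
    rw [abs_of_nonneg (by positivity)]
  have h2 : ENNReal.ofReal (a ^ n) * volume C ≠ ⊤ :=
    ENNReal.mul_ne_top ENNReal.ofReal_ne_top hC.comp.measure_lt_top.ne
  have h3 := ENNReal.toReal_mono h2 h1
  rwa [ENNReal.toReal_mul, ENNReal.toReal_ofReal (by positivity)] at h3

theorem smul_mono {n : ℕ} {C : Set (EE n)} (hC : Body C) {a M : ℝ} (ha : 0 ≤ a) (haM : a ≤ M)
    (hM : 0 < M) : a • C ⊆ M • C := by
  rintro _ ⟨y, hy, rfl⟩
  refine ⟨(a / M) • y, ?_, ?_⟩
  · exact hC.conv.smul_mem_of_zero_mem (interior_subset hC.zero) hy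
      ⟨by positivity, (div_le_one hM).mpr haM⟩
  · simp only [smul_smul]
    rw [mul_div_cancel₀ _ hM.ne']

/-- one direction. -/
theorem half {n : ℕ} (hn : 2 ≤ n) {p q : ℝ} (hp : 1 / 2 ≤ p) (hp1 : p < 1) (hq : 1 ≤ q)
    {K C : Set (EE n)} (hK : Body K) (hC : Body C)
    (h : ∀ e, (gauge C e) ^ p ≤ q * ((volume K).toReal / (volume C).toReal) * (gauge K e) ^ p) :
    (volume C).toReal / (volume K).toReal ≤ q ^ 2 ∧
    K ⊆ (q * ((volume K).toReal / (volume C).toReal)) ^ (1 / p) • C := by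
  have hp0 : 0 < p := by linarith
  have vK := vol_pos hK
  have vC := vol_pos hC
  set l : ℝ := (volume K).toReal / (volume C).toReal with hl
  have hl0 : 0 < l := by positivity
  have hql : 0 < q * l := by positivity
  set a : ℝ := (q * l) ^ (1 / p) with ha
  have ha0 : 0 < a := Real.rpow_pos_of_pos hql _
  have hap : a ^ p = q * l := by
    rw [ha, ← Real.rpow_mul hql.le, one_div, inv_mul_cancel₀ hp0.ne', Real.rpow_one]
  have hg : ∀ e, gauge C e ≤ a * gauge K e := by
    intro e
    have h1 := h e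
    rw [← hap, ← Real.mul_rpow ha0.le (gauge_nonneg _)] at h1
    exact (Real.rpow_le_rpow_iff (gauge_nonneg _) (mul_nonneg ha0.le (gauge_nonneg _)) hp0).mp h1
  have hsub := sub_of_gauge hK hC ha0 hg
  refine ⟨?_, hsub⟩
  have hv := vol_le hC ha0 hsub
  have h1 : l ≤ a ^ n := by
    rw [hl, div_le_iff₀ vC]; exact hv
  have h2 : Real.log l ≤ n * ((1 / p) * (Real.log q + Real.log l)) := by
    have := Real.log_le_log hl0 h1
    rw [Real.log_pow, ha, Real.log_rpow hql, Real.log_mul (by positivity) hl0.ne'] at this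
    exact this
  have hlq : 0 ≤ Real.log q := Real.log_nonneg hq
  have h3 : p * Real.log l ≤ n * (Real.log q + Real.log l) := by
    have := mul_le_mul_of_nonneg_left h2 hp0.le
    have e1 : p * (n * ((1 / p) * (Real.log q + Real.log l))) =
        n * (Real.log q + Real.log l) := by
      field_simp
    rwa [e1] at this
  have hn2 : (2 : ℝ) ≤ n := by exact_mod_cast hn
  have h4 : - Real.log l ≤ 2 * Real.log q := by
    by_contra hcon
    rw [not_le] at hcon
    have : (n - p) * (- Real.log l) ≤ n * Real.log q := by nlinarith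
    have hnp : 0 < (n : ℝ) - p := by linarith
    nlinarith [mul_lt_mul_of_pos_left hcon hnp]
  have e2 : (volume C).toReal / (volume K).toReal = l⁻¹ := by rw [hl, inv_div]
  rw [e2]
  have h5 : Real.log (l⁻¹) ≤ Real.log (q ^ 2) := by
    rw [Real.log_inv, Real.log_pow]; push_cast; exact h4
  exact (Real.log_le_log_iff (by positivity) (by positivity)).mp h5

end ComparAux

theorem comparable (n : ℕ) (hn : 2 ≤ n) :
    ∃ M : ℝ, 1 ≤ M ∧ ∀ p : ℝ, 1 / 2 ≤ p → p < 1 → ∀ K C : Set (EE n), Body K → Body C →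
      ∫ x in K, x = (0 : EE n) → ∫ x in C, x = (0 : EE n) → Hyp p K C →
      K ⊆ M • C ∧ C ⊆ M • K := by
  obtain ⟨c, hc0, hc1, hlow⟩ := low_bound n (by omega)
  set m : ℝ := 2 ^ (n + 1) with hm
  have hm1 : 1 ≤ m := one_le_pow₀ (by norm_num)
  set q : ℝ := m / c with hq
  have hq1 : 1 ≤ q := by
    rw [hq, le_div_iff₀ hc0]; linarith
  refine ⟨q ^ 6, one_le_pow₀ hq1, ?_⟩
  intro p hp hp1 K C hK hC cK cC hyp
  have hp0 : 0 < p := by linarith
  have key : ∀ A B : Set (EE n), Body A → Body B → ∫ x in A, x = (0 : EE n) →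
      ∫ x in B, x = (0 : EE n) →
      (∀ e : EE n, ∫ x in A, |(inner ℝ (NN A x) e : ℝ)| ^ p
        = ∫ x in B, |(inner ℝ (NN B x) e : ℝ)| ^ p) →
      ∀ e, (gauge B e) ^ p ≤ q * ((volume A).toReal / (volume B).toReal) * (gauge A e) ^ p := by
    intro A B hA hB cA cB hI e
    have vA := ComparAux.vol_pos hA
    have vB := ComparAux.vol_pos hB
    have h1 := hlow B hB cB p hp0 hp1.le e
    have h2 := up_bound hA cA hp0 e
    rw [hI e] at h2
    have h3 : m ^ p ≤ m := by
      calc m ^ p ≤ m ^ (1 : ℝ) := Real.rpow_le_rpow_of_exponent_le hm1 hp1.le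
        _ = m := Real.rpow_one m
    have h4 : m ^ p * (volume A).toReal * (gauge A e) ^ p ≤
        m * (volume A).toReal * (gauge A e) ^ p := by
      have := Real.rpow_nonneg (gauge_nonneg (s := A) e) p
      gcongr
    have h5 : c * (volume B).toReal * (gauge B e) ^ p ≤
        m * (volume A).toReal * (gauge A e) ^ p := h1.trans (h2.trans h4)
    have h6 : q * ((volume A).toReal / (volume B).toReal) * (gauge A e) ^ p =
        (m * (volume A).toReal * (gauge A e) ^ p) / (c * (volume B).toReal) := by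
      rw [hq]; field_simp
    rw [h6, le_div_iff₀ (by positivity)]
    linarith
  have hI : ∀ e : EE n, ∫ x in K, |(inner ℝ (NN K x) e : ℝ)| ^ p
        = ∫ x in C, |(inner ℝ (NN C x) e : ℝ)| ^ p := by
    intro e
    refine hyp_real (by omega) hp0 hK hC hyp (G := fun u => |(inner ℝ u e : ℝ)| ^ p) ?_ ?_ ?_
    · have : Continuous fun u : EE n => |(inner ℝ u e : ℝ)| ^ p := by
        refine Continuous.rpow_const ?_ (fun _ => Or.inr hp0.le)
        fun_prop
      exact this.measurable
    · intro u; positivity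
    · intro c u hc
      simp only [inner_smul_left, abs_mul, conj_trivial]
      rw [Real.mul_rpow (abs_nonneg _) (abs_nonneg _), abs_of_pos hc]
  have k1 := key K C hK hC cK cC hI
  have k2 := key C K hC hK cC cK (fun e => (hI e).symm)
  obtain ⟨b1, s1⟩ := ComparAux.half hn hp hp1 hq1 hK hC k1
  obtain ⟨b2, s2⟩ := ComparAux.half hn hp hp1 hq1 hC hK k2
  have fin : ∀ t : ℝ, 0 ≤ t → t ≤ q ^ 2 → (q * t) ^ (1 / p) ≤ q ^ 6 := by
    intro t ht0 ht
    have e1 : q * t ≤ q ^ 3 := by nlinarith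
    have e2 : (1 : ℝ) ≤ q ^ 3 := one_le_pow₀ hq1
    calc (q * t) ^ (1 / p) ≤ (q ^ 3) ^ (1 / p) :=
          Real.rpow_le_rpow (by positivity) e1 (by positivity)
      _ ≤ (q ^ 3) ^ (2 : ℝ) := by
          refine Real.rpow_le_rpow_of_exponent_le e2 ?_
          rw [div_le_iff₀ hp0]; linarith
      _ = q ^ 6 := by
          rw [Real.rpow_two]; ring
  have hq0 : 0 < q := by linarith
  refine ⟨s1.trans (ComparAux.smul_mono hC (by positivity) (fin _ (by positivity) b2)
    (by positivity)), s2.trans (ComparAux.smul_mono hK (by positivity) (fin _ (by positivity) b1)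
    (by positivity))⟩

end Pool.Agent.MP9dd972N
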