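import Mathlib
import Pool.Agent.Lib.MP_9dd972_gt.N.Defs
import Pool.Agent.Lib.MP_9dd972_gt.N.Coneb

set_option autoImplicit false

namespace Pool.Agent.MP9dd972N

open MeasureTheory Set Metric
open scoped ENNReal NNReal Topology Pointwise

namespace ConemAux

variable {n : ℕ}

/-- every boundary point has a normal -/
theorem exists_nor {K : Set (EE n)} (hK : Body K) {x : EE n} (hx : x ∈ frontier K) :
    ∃ u : EE n, IsNor K x u := by
  have hxi : x ∉ interior K := hx.2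
  obtain ⟨f, hf⟩ := geometric_hahn_banach_open_point hK.conv.interior isOpen_interior hxi
  have hcl : ∀ y ∈ K, f y ≤ f x := by
    intro y hy
    have h1 : closure (interior K) = closure K :=
      hK.conv.closure_interior_eq_closure_of_nonempty_interior ⟨0, hK.zero⟩
    have h2 : y ∈ closure (interior K) := by rw [h1]; exact subset_closure hy
    have h3 : IsClosed {z | f z ≤ f x} := isClosed_le f.continuous continuous_const
    exact (closure_minimal (fun z hz => (hf z hz).le) h3) h2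
  have h0 : 0 < f x := by simpa using hf 0 hK.zero
  obtain ⟨v, hv⟩ : ∃ v : EE n, v = (InnerProductSpace.toDual ℝ (EE n)).symm f := ⟨_, rfl⟩
  have hvf : ∀ y, (inner ℝ v y : ℝ) = f y := by
    intro y
    rw [hv, InnerProductSpace.toDual_symm_apply]
  have hv0 : v ≠ 0 := by
    rintro rfl
    rw [← hvf x, inner_zero_left] at h0
    exact lt_irrefl _ h0
  have hvn : 0 < ‖v‖ := norm_pos_iff.mpr hv0
  refine ⟨‖v‖⁻¹ • v, ?_, fun y hy => ?_⟩
  · rw [mem_sphere_zero_iff_norm, norm_smul, norm_inv, norm_norm, inv_mul_cancel₀ hvn.ne']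
  · rw [inner_smul_left, inner_sub_right, hvf, hvf]
    have := hcl y hy
    have h4 : 0 ≤ ‖v‖⁻¹ := inv_nonneg.mpr hvn.le
    simp only [conj_trivial]
    nlinarith

/-- pairs of boundary points and normals -/
def TT (K : Set (EE n)) : Set (EE n × EE n) := {p | p.1 ∈ frontier K ∧ IsNor K p.1 p.2}

theorem TT_compact {K : Set (EE n)} (hK : Body K) : IsCompact (TT K) := by
  have hf : IsCompact (frontier K) :=
    hK.comp.of_isClosed_subset isClosed_frontier hK.comp.isClosed.frontier_subset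
  refine (hf.prod (isCompact_sphere (0 : EE n) 1)).of_isClosed_subset ?_ ?_
  · have h1 : TT K = (Prod.fst ⁻¹' frontier K) ∩ ((Prod.snd ⁻¹' sphere (0 : EE n) 1) ∩
        ⋂ y ∈ K, {p : EE n × EE n | (inner ℝ p.2 (y - p.1) : ℝ) ≤ 0}) := by
      ext p
      simp only [TT, IsNor, Set.mem_ofPred_eq, Set.mem_inter_iff, Set.mem_preimage, Set.mem_iInter]
    rw [h1]
    refine (isClosed_frontier.preimage continuous_fst).inter
      ((isClosed_sphere.preimage continuous_snd).inter ?_)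
    refine isClosed_biInter fun y _ => ?_
    exact isClosed_le (continuous_snd.inner (continuous_const.sub continuous_fst))
      continuous_const
  · rintro p ⟨hp1, hp2⟩
    exact ⟨hp1, hp2.1⟩

/-- boundary points with a normal near `u0` and height near `h0` -/
def FF (K : Set (EE n)) (η : ℝ) (q : EE n × EE n) : Set (EE n) :=
  {x | x ∈ frontier K ∧ |(inner ℝ q.2 x : ℝ) - inner ℝ q.2 q.1| ≤ η ∧
    ∃ u : EE n, IsNor K x u ∧ ‖u - q.2‖ ≤ η}

theorem cont1 (q : EE n × EE n) :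
    Continuous fun p : EE n × EE n => |(inner ℝ q.2 p.1 : ℝ) - inner ℝ q.2 q.1| :=
  ((continuous_const.inner continuous_fst).sub continuous_const).abs

theorem cont2 (q : EE n × EE n) : Continuous fun p : EE n × EE n => ‖p.2 - q.2‖ :=
  (continuous_snd.sub continuous_const).norm

theorem FF_meas {K : Set (EE n)} (hK : Body K) (η : ℝ) (q : EE n × EE n) :
    MeasurableSet (FF K η q) := by
  have h1 : FF K η q = Prod.fst '' (TT K ∩ {p : EE n × EE n |
      |(inner ℝ q.2 p.1 : ℝ) - inner ℝ q.2 q.1| ≤ η ∧ ‖p.2 - q.2‖ ≤ η}) := by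
    ext x
    constructor
    · rintro ⟨hx, hx2, u, hu, hu2⟩
      exact ⟨(x, u), ⟨⟨hx, hu⟩, hx2, hu2⟩, rfl⟩
    · rintro ⟨⟨y, u⟩, ⟨⟨hx, hu⟩, hx2, hu2⟩, rfl⟩
      exact ⟨hx, hx2, u, hu, hu2⟩
  rw [h1]
  refine IsClosed.measurableSet (IsCompact.isClosed (IsCompact.image ?_ continuous_fst))
  refine (TT_compact hK).inter_right ?_
  refine IsClosed.inter ?_ ?_
  · exact isClosed_le (cont1 q) continuous_const
  · exact isClosed_le (cont2 q) continuous_const

/-- finitely many of these sets cover the boundary -/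
theorem exists_cover {K : Set (EE n)} (hK : Body K) {η : ℝ} (hη : 0 < η) :
    ∃ t : Finset (EE n × EE n), (∀ q ∈ t, ‖q.2‖ = 1) ∧ frontier K ⊆ ⋃ q ∈ t, FF K η q := by
  obtain ⟨t, ht, hcov⟩ := (TT_compact hK).elim_nhds_subcover
    (fun q => {p : EE n × EE n | |(inner ℝ q.2 p.1 : ℝ) - inner ℝ q.2 q.1| < η ∧ ‖p.2 - q.2‖ < η})
    (by
      intro q _
      refine IsOpen.mem_nhds ?_ ?_
      · refine IsOpen.inter ?_ ?_
        · exact isOpen_lt (cont1 q) continuous_const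
        · exact isOpen_lt (cont2 q) continuous_const
      · refine ⟨?_, ?_⟩
        · rw [sub_self, abs_zero]
          exact hη
        · rw [sub_self, norm_zero]
          exact hη)
  refine ⟨t, fun q hq => ?_, fun x hx => ?_⟩
  · have := (ht q hq).2.1
    rwa [mem_sphere_zero_iff_norm] at this
  · obtain ⟨u, hu⟩ := exists_nor hK hx
    have h1 : (x, u) ∈ TT K := ⟨hx, hu⟩
    have h2 := hcov h1
    rw [Set.mem_iUnion₂] at h2 ⊢
    obtain ⟨q, hq, h3, h4⟩ := h2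
    exact ⟨q, hq, hx, h3.le, u, hu, h4.le⟩

theorem cone_union {A B : Set (EE n)} : cone (A ∪ B) = cone A ∪ cone B := by
  ext y
  constructor
  · rintro ⟨x, hx | hx, s, hs, hy⟩
    · exact Or.inl ⟨x, hx, s, hs, hy⟩
    · exact Or.inr ⟨x, hx, s, hs, hy⟩
  · rintro (⟨x, hx, s, hs, hy⟩ | ⟨x, hx, s, hs, hy⟩)
    · exact ⟨x, Or.inl hx, s, hs, hy⟩
    · exact ⟨x, Or.inr hx, s, hs, hy⟩

theorem lint_union {K : Set (EE n)} (hK : Body K) {A B : Set (EE n)} (hA : A ⊆ frontier K)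
    (hB : B ⊆ frontier K) (hBm : MeasurableSet B) (hd : Disjoint A B) (f : EE n → ℝ≥0∞) :
    ∫⁻ x in cone (A ∪ B), f x = (∫⁻ x in cone A, f x) + ∫⁻ x in cone B, f x := by
  rw [cone_union]
  refine lintegral_union (cone_meas hK hB hBm) ?_
  rw [cone_eq hK hA, cone_eq hK hB, Set.disjoint_left]
  rintro z ⟨_, _, h1⟩ ⟨_, _, h2⟩
  exact Set.disjoint_left.mp hd h1 h2

/-- summation over the pieces -/
theorem sum_pieces {κ θ' : ℝ≥0∞} {K : Set (EE n)} (hK : Body K) {η : ℝ}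
    (hcap : ∀ (u0 : EE n) (h0 : ℝ) (A : Set (EE n)), ‖u0‖ = 1 →
        MeasurableSet A → A ⊆ frontier K →
        (∀ x ∈ A, |(inner ℝ u0 x : ℝ) - h0| ≤ η ∧ ∃ u : EE n, IsNor K x u ∧ ‖u - u0‖ ≤ η) →
        μH[(n : ℝ) - 1] A ≤ θ' * (κ * ∫⁻ x in cone A, ENNReal.ofReal ‖NN K x‖) ∧
        κ * (∫⁻ x in cone A, ENNReal.ofReal ‖NN K x‖) ≤ θ' * μH[(n : ℝ) - 1] A)
    (t : Finset (EE n × EE n)) (ht : ∀ q ∈ t, ‖q.2‖ = 1) :
    ∀ A : Set (EE n), MeasurableSet A → A ⊆ frontier K → A ⊆ ⋃ q ∈ t, FF K η q →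
      μH[(n : ℝ) - 1] A ≤ θ' * (κ * ∫⁻ x in cone A, ENNReal.ofReal ‖NN K x‖) ∧
      κ * (∫⁻ x in cone A, ENNReal.ofReal ‖NN K x‖) ≤ θ' * μH[(n : ℝ) - 1] A := by
  classical
  induction t using Finset.induction_on with
  | empty =>
    intro A hA hAK hAt
    have : A = ∅ := by
      rw [Set.eq_empty_iff_forall_notMem]
      intro x hx
      simpa using hAt hx
    subst this
    have hc : cone (∅ : Set (EE n)) = ∅ := by
      rw [Set.eq_empty_iff_forall_notMem]
      rintro x ⟨y, hy, _⟩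
      exact hy
    rw [hc]
    simp
  | insert q t hq ih =>
    intro A hA hAK hAt
    have ih' := ih (fun q' hq' => ht q' (Finset.mem_insert_of_mem hq'))
    have hFm := FF_meas hK η q
    have e : A = (A ∩ FF K η q) ∪ (A \ FF K η q) := (Set.inter_union_sdiff A _).symm
    have hd : Disjoint (A ∩ FF K η q) (A \ FF K η q) :=
      Set.disjoint_left.mpr fun x hx hx' => hx'.2 hx.2
    have s1 : A ∩ FF K η q ⊆ frontier K := fun x hx => hAK hx.1
    have s2 : A \ FF K η q ⊆ frontier K := fun x hx => hAK hx.1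
    have m2 : MeasurableSet (A \ FF K η q) := hA.diff hFm
    have c1 := hcap q.2 (inner ℝ q.2 q.1) (A ∩ FF K η q) (ht q (Finset.mem_insert_self q t))
      (hA.inter hFm) s1 (fun x hx => ⟨hx.2.2.1, hx.2.2.2⟩)
    have c2 := ih' (A \ FF K η q) m2 s2 (by
      rintro x ⟨hx1, hx2⟩
      have := hAt hx1
      rw [Set.mem_iUnion₂] at this ⊢
      obtain ⟨q', hq', hx'⟩ := this
      rcases Finset.mem_insert.mp hq' with rfl | hq'
      · exact absurd hx' hx2
      · exact ⟨q', hq', hx'⟩)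
    have hl := lint_union hK s1 s2 m2 hd (fun x => ENNReal.ofReal ‖NN K x‖)
    have hm := measure_union (μ := μH[(n : ℝ) - 1]) hd m2
    rw [← e] at hl hm
    rw [hl, hm]
    constructor
    · rw [mul_add, mul_add]
      exact add_le_add c1.1 c2.1
    · rw [mul_add, mul_add]
      exact add_le_add c1.2 c2.2

theorem le_of_theta {a b : ℝ≥0∞} (h : ∀ θ : ℝ, 1 < θ → a ≤ ENNReal.ofReal θ * b) : a ≤ b := by
  have h1 : Filter.Tendsto (fun θ : ℝ => ENNReal.ofReal θ * b) (𝓝[>] (1 : ℝ)) (𝓝 (1 * b)) := by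
    refine ENNReal.Tendsto.mul_const ?_ (Or.inl one_ne_zero)
    have := (ENNReal.continuous_ofReal.tendsto (1 : ℝ)).mono_left
      (nhdsWithin_le_nhds (s := Set.Ioi (1 : ℝ)))
    rwa [ENNReal.ofReal_one] at this
  rw [one_mul] at h1
  refine ge_of_tendsto h1 ?_
  filter_upwards [self_mem_nhdsWithin] with θ hθ
  exact h θ hθ

end ConemAux

open ConemAux in
theorem cone_measure {n : ℕ} (hn : 2 ≤ n) {κ : ℝ≥0∞} {K : Set (EE n)} (hK : Body K)
    (hκ : κ ≠ ⊤)
    (hcap : ∀ θ : ℝ, 1 < θ →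
      ∃ η : ℝ, 0 < η ∧ ∀ (u0 : EE n) (h0 : ℝ) (A : Set (EE n)), ‖u0‖ = 1 →
        MeasurableSet A → A ⊆ frontier K →
        (∀ x ∈ A, |(inner ℝ u0 x : ℝ) - h0| ≤ η ∧ ∃ u : EE n, IsNor K x u ∧ ‖u - u0‖ ≤ η) →
        μH[(n : ℝ) - 1] A ≤ ENNReal.ofReal θ * (κ * ∫⁻ x in cone A, ENNReal.ofReal ‖NN K x‖) ∧
        κ * (∫⁻ x in cone A, ENNReal.ofReal ‖NN K x‖) ≤
          ENNReal.ofReal θ * μH[(n : ℝ) - 1] A)
    {A : Set (EE n)} (hA : MeasurableSet A) (hAK : A ⊆ frontier K) :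
    μH[(n : ℝ) - 1] A = κ * ∫⁻ x in cone A, ENNReal.ofReal ‖NN K x‖ := by
  have key : ∀ θ : ℝ, 1 < θ →
      μH[(n : ℝ) - 1] A ≤ ENNReal.ofReal θ * (κ * ∫⁻ x in cone A, ENNReal.ofReal ‖NN K x‖) ∧
      κ * (∫⁻ x in cone A, ENNReal.ofReal ‖NN K x‖) ≤
        ENNReal.ofReal θ * μH[(n : ℝ) - 1] A := by
    intro θ hθ
    obtain ⟨η, hη, hη'⟩ := hcap θ hθ
    obtain ⟨t, ht, hcov⟩ := exists_cover hK hη
    exact sum_pieces hK hη' t ht A hA hAK (hAK.trans hcov)
  exact le_antisymm (le_of_theta fun θ hθ => (key θ hθ).1) (le_of_theta fun θ hθ => (key θ hθ).2)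

end Pool.Agent.MP9dd972N
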