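import Mathlib
import Pool.Agent.Lib.MP_9dd972_gt.N.Defs
import Pool.Agent.Lib.MP_9dd972_gt.N.Hsup

/-!
# Conjugate functions: elementary facts
-/

set_option autoImplicit false

namespace Pool.Agent.MP9dd972N

open MeasureTheory Set Metric
open scoped ENNReal NNReal Topology Pointwise

namespace ConjAux

theorem isCompact_image {n : ℕ} {C : Set (EE n)} (hC : IsCompact C) {ψ : EE n → ℝ}
    (hψ : Continuous ψ) (x : EE n) :
    IsCompact ((fun y : EE n => (inner ℝ x y : ℝ) - ψ y) '' C) :=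
  hC.image (by fun_prop)

end ConjAux

theorem le_cj {n : ℕ} {C : Set (EE n)} (hC : IsCompact C) {ψ : EE n → ℝ} (hψ : Continuous ψ)
    (x : EE n) {y : EE n} (hy : y ∈ C) : (inner ℝ x y : ℝ) - ψ y ≤ cj C ψ x :=
  le_csSup (ConjAux.isCompact_image hC hψ x).bddAbove ⟨y, hy, rfl⟩

theorem exists_cj {n : ℕ} {C : Set (EE n)} (hC : IsCompact C) (hne : C.Nonempty)
    {ψ : EE n → ℝ} (hψ : Continuous ψ) (x : EE n) :
    ∃ y ∈ C, cj C ψ x = (inner ℝ x y : ℝ) - ψ y := by
  obtain ⟨y, hy, e⟩ := (ConjAux.isCompact_image hC hψ x).sSup_mem (hne.image _)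
  exact ⟨y, hy, e.symm⟩

theorem cj_slope {n : ℕ} {C : Set (EE n)} (hC : IsCompact C) (hne : C.Nonempty)
    {ψ : EE n → ℝ} (hψ : Continuous ψ) (x z : EE n) :
    cj C ψ z - cj C ψ x ≤ hh C (z - x) := by
  obtain ⟨y, hy, e⟩ := exists_cj hC hne hψ z
  have h1 := le_cj hC hψ x hy
  have h2 := inner_le_hh hC hy (z - x)
  rw [inner_sub_left] at h2
  rw [e]
  linarith

theorem cj_convex {n : ℕ} {C : Set (EE n)} (hC : IsCompact C) (hne : C.Nonempty)
    {ψ : EE n → ℝ} (hψ : Continuous ψ) : ConvexOn ℝ univ (cj C ψ) := by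
  refine ⟨convex_univ, ?_⟩
  intro x _ z _ a b ha hb hab
  obtain ⟨y, hy, e⟩ := exists_cj hC hne hψ (a • x + b • z)
  have h1 := mul_le_mul_of_nonneg_left (le_cj hC hψ x hy) ha
  have h2 := mul_le_mul_of_nonneg_left (le_cj hC hψ z hy) hb
  rw [e, inner_add_left, real_inner_smul_left, real_inner_smul_left, smul_eq_mul, smul_eq_mul]
  have h3 : ψ y = a * ψ y + b * ψ y := by rw [← add_mul, hab, one_mul]
  linarith

theorem cj_sub_le {n : ℕ} {C : Set (EE n)} (hC : IsCompact C) (hne : C.Nonempty)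
    {ψ ψ' : EE n → ℝ} (hψ : Continuous ψ) (hψ' : Continuous ψ') {η : ℝ}
    (h : ∀ y ∈ C, |ψ y - ψ' y| ≤ η) (x : EE n) : |cj C ψ x - cj C ψ' x| ≤ η := by
  rw [abs_le]
  constructor
  · obtain ⟨y, hy, e⟩ := exists_cj hC hne hψ' x
    have h1 := le_cj hC hψ x hy
    have h2 := (abs_le.1 (h y hy)).2
    rw [e]
    linarith
  · obtain ⟨y, hy, e⟩ := exists_cj hC hne hψ x
    have h1 := le_cj hC hψ' x hy
    have h2 := (abs_le.1 (h y hy)).1
    rw [e]
    linarith

theorem cj_cj_le {n : ℕ} {K C : Set (EE n)} (hC : IsCompact C) (hne : K.Nonempty)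
    {ψ : EE n → ℝ} (hψ : Continuous ψ) {y : EE n} (hy : y ∈ C) :
    cj K (cj C ψ) y ≤ ψ y := by
  apply csSup_le (hne.image _)
  rintro _ ⟨x, _, rfl⟩
  have h1 := le_cj hC hψ x hy
  show (inner ℝ y x : ℝ) - cj C ψ x ≤ ψ y
  rw [real_inner_comm]
  linarith

namespace ConjAux

theorem cj_continuous {n : ℕ} {C : Set (EE n)} (hC : IsCompact C) (hne : C.Nonempty)
    {ψ : EE n → ℝ} (hψ : Continuous ψ) : Continuous (cj C ψ) := by
  obtain ⟨R, hR⟩ := hC.isBounded.subset_closedBall (0 : EE n)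
  have hL : LipschitzWith (Real.toNNReal R) (cj C ψ) := by
    apply LipschitzWith.of_dist_le_mul
    intro u v
    rw [Real.dist_eq, dist_eq_norm]
    have h1 := (cj_slope hC hne hψ v u).trans (hh_bound hne hR (u - v))
    have h2 := (cj_slope hC hne hψ u v).trans (hh_bound hne hR (v - u))
    rw [norm_sub_rev] at h2
    have h3 : |cj C ψ u - cj C ψ v| ≤ R * ‖u - v‖ := by
      rw [abs_le]
      constructor <;> linarith
    exact h3.trans (mul_le_mul_of_nonneg_right (Real.le_coe_toNNReal R) (norm_nonneg _))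
  exact hL.continuous

end ConjAux

theorem cj_cj_cj_le {n : ℕ} {K C : Set (EE n)} (hK : IsCompact K) (hC : IsCompact C)
    (hne : C.Nonempty) {ψ : EE n → ℝ} (hψ : Continuous ψ) {x : EE n} (hx : x ∈ K) :
    cj C (cj K (cj C ψ)) x ≤ cj C ψ x := by
  have hc := ConjAux.cj_continuous hC hne hψ
  apply csSup_le (hne.image _)
  rintro _ ⟨y, _, rfl⟩
  have h1 := le_cj hK hc y hx
  show (inner ℝ x y : ℝ) - cj K (cj C ψ) y ≤ cj C ψ x
  rw [real_inner_comm] at h1
  linarith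

theorem cj_grad {n : ℕ} {C : Set (EE n)} (hC : IsCompact C) {ψ : EE n → ℝ}
    (hψ : Continuous ψ) {x y : EE n} (hy : y ∈ C) (hm : cj C ψ x = (inner ℝ x y : ℝ) - ψ y)
    (hd : DifferentiableAt ℝ (cj C ψ) x) : gradient (cj C ψ) x = y := by
  have hg := hd.hasGradientAt.hasFDerivAt
  have hi : HasFDerivAt (fun z : EE n => (inner ℝ y z : ℝ)) (InnerProductSpace.toDual ℝ (EE n) y)
      x := (InnerProductSpace.toDual ℝ (EE n) y).hasFDerivAt
  have hmin : IsLocalMin (fun z => cj C ψ z - inner ℝ y z) x := by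
    apply Filter.Eventually.of_forall
    intro z
    have h1 := le_cj hC hψ z hy
    show cj C ψ x - inner ℝ y x ≤ cj C ψ z - inner ℝ y z
    rw [hm, real_inner_comm x y, real_inner_comm z y]
    linarith
  have h0 := hmin.hasFDerivAt_eq_zero (hg.sub hi)
  rw [← map_sub] at h0
  have h1 := (InnerProductSpace.toDual ℝ (EE n)).injective (h0.trans (map_zero _).symm)
  exact sub_eq_zero.1 h1

end Pool.Agent.MP9dd972N
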