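import Mathlib
import Pool.Agent.Lib.MP_9dd972_gt.N.Defs

/-!
# MP_9dd972_gt part 2, module LININV: behaviour under linear maps
-/

set_option autoImplicit false

namespace Pool.Agent.MP9dd972N

open MeasureTheory Set Metric
open scoped ENNReal NNReal Topology Pointwise

theorem Body.image {n : ℕ} {K : Set (EE n)} (hK : Body K) (g : EE n ≃L[ℝ] EE n) :
    Body (g '' K) := by
  refine ⟨?_, hK.comp.image g.continuous, ?_⟩
  · exact hK.conv.linear_image g.toLinearEquiv.toLinearMap
  · have h1 : g.toHomeomorph '' interior K = interior (g.toHomeomorph '' K) :=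
      g.toHomeomorph.image_interior K
    have h2 : (0 : EE n) ∈ g.toHomeomorph '' interior K := ⟨0, hK.zero, map_zero g⟩
    rw [h1] at h2
    exact h2

namespace LininvAux

theorem gauge_image {n : ℕ} (K : Set (EE n)) (g : EE n ≃L[ℝ] EE n) :
    gauge (g '' K) = gauge K ∘ g.symm := by
  ext y
  show sInf {r : ℝ | 0 < r ∧ y ∈ r • g '' K} = sInf {r : ℝ | 0 < r ∧ g.symm y ∈ r • K}
  have h : {r : ℝ | 0 < r ∧ y ∈ r • g '' K} = {r : ℝ | 0 < r ∧ g.symm y ∈ r • K} := by
    ext r
    refine and_congr_right fun _ => ?_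
    constructor
    · rintro ⟨_, ⟨z, hz, rfl⟩, rfl⟩
      refine ⟨z, hz, ?_⟩
      show r • z = g.symm (r • g z)
      rw [map_smul, g.symm_apply_apply]
    · rintro ⟨z, hz, h⟩
      refine ⟨g z, ⟨z, hz, rfl⟩, ?_⟩
      show r • g z = y
      rw [← map_smul]
      have h2 : r • z = g.symm y := h
      rw [h2, g.apply_symm_apply]
  rw [h]

theorem inner_NN {n : ℕ} (K : Set (EE n)) (g : EE n ≃L[ℝ] EE n) (x z : EE n) :
    (inner ℝ (NN (g '' K) (g x)) (g z) : ℝ) = inner ℝ (NN K x) z := by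
  have h1 : ∀ (f : EE n → ℝ) (p v : EE n), (inner ℝ (gradient f p) v : ℝ) = fderiv ℝ f p v := by
    intro f p v
    show (inner ℝ ((InnerProductSpace.toDual ℝ (EE n)).symm (fderiv ℝ f p)) v : ℝ) = _
    rw [InnerProductSpace.toDual_symm_apply]
  show (inner ℝ (gradient (gauge (g '' K)) (g x)) (g z) : ℝ) =
    inner ℝ (gradient (gauge K) x) z
  rw [h1, h1, gauge_image, g.symm.comp_right_fderiv]
  show (fderiv ℝ (gauge K) (g.symm (g x))) (g.symm (g z)) = _
  rw [g.symm_apply_apply, g.symm_apply_apply]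

theorem hh_image {n : ℕ} (K C : Set (EE n)) (g : EE n ≃L[ℝ] EE n) (x : EE n) :
    hh (g '' C) (NN (g '' K) (g x)) = hh C (NN K x) := by
  show sSup ((fun y : EE n => (inner ℝ (NN (g '' K) (g x)) y : ℝ)) '' (g '' C)) =
    sSup ((fun y : EE n => (inner ℝ (NN K x) y : ℝ)) '' C)
  rw [Set.image_image]
  simp only [inner_NN]

theorem change {n : ℕ} {K : Set (EE n)} (hK : IsCompact K) (g : EE n ≃L[ℝ] EE n)
    {V : Type} [NormedAddCommGroup V] [NormedSpace ℝ V] (f : EE n → V) :
    ∫ x in g '' K, f x = |(g : EE n →L[ℝ] EE n).det| • ∫ x in K, f (g x) := by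
  rw [← integral_smul]
  exact integral_image_eq_integral_abs_det_fderiv_smul volume hK.measurableSet
    (f := g) (f' := fun _ => (g : EE n →L[ℝ] EE n))
    (fun x _ => g.hasFDerivAt.hasFDerivWithinAt) g.injective.injOn f

end LininvAux

open LininvAux

theorem lin_hh {n : ℕ} {K : Set (EE n)} (hK : Body K) (C : Set (EE n)) (g : EE n ≃L[ℝ] EE n)
    (F : ℝ → ℝ) :
    ∫ x in g '' K, F (hh (g '' C) (NN (g '' K) x))
      = |(g : EE n →L[ℝ] EE n).det| * ∫ x in K, F (hh C (NN K x)) := by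
  rw [change hK.comp g, smul_eq_mul]
  simp only [hh_image]

theorem lin_vol {n : ℕ} (K : Set (EE n)) (g : EE n ≃L[ℝ] EE n) :
    volume (g '' K) = ENNReal.ofReal |(g : EE n →L[ℝ] EE n).det| * volume K :=
  Measure.addHaar_image_continuousLinearMap volume (g : EE n →L[ℝ] EE n) K

theorem lin_cent {n : ℕ} {K : Set (EE n)} (hK : Body K) (g : EE n ≃L[ℝ] EE n)
    (hc : ∫ x in K, x = (0 : EE n)) : ∫ x in g '' K, x = (0 : EE n) := by
  rw [change hK.comp g (fun x => x)]
  have h1 : IntegrableOn (fun x : EE n => x) K :=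
    continuous_id.continuousOn.integrableOn_compact hK.comp
  have h2 : ∫ x in K, g x = g (∫ x in K, x) :=
    (g : EE n →L[ℝ] EE n).integral_comp_comm h1
  rw [h2, hc, map_zero, smul_zero]

end Pool.Agent.MP9dd972N
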