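import Mathlib
import Pool.Agent.Lib.MP_9dd972_gt.N.Defs

set_option autoImplicit false

namespace Pool.Agent.MP9dd972N

open MeasureTheory Set Metric
open scoped ENNReal NNReal Topology Pointwise

namespace MeangAux

variable {n : ℕ}

theorem hh_bd {C : Set (EE n)} (hne : C.Nonempty) {R : ℝ}
    (hR : C ⊆ closedBall (0 : EE n) R) (u : EE n) : hh C u ≤ R * ‖u‖ := by
  refine csSup_le (hne.image _) ?_
  rintro _ ⟨x, hx, rfl⟩
  have h1 : ‖x‖ ≤ R := by simpa using hR hx
  calc (inner ℝ u x : ℝ) ≤ ‖u‖ * ‖x‖ := real_inner_le_norm u x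
    _ ≤ ‖u‖ * R := mul_le_mul_of_nonneg_left h1 (norm_nonneg u)
    _ = R * ‖u‖ := mul_comm _ _

theorem lip {C : Set (EE n)} (hne : C.Nonempty) {R : ℝ≥0}
    (hR : C ⊆ closedBall (0 : EE n) R) {φ : EE n → ℝ}
    (hs : ∀ x z, φ z - φ x ≤ hh C (z - x)) : LipschitzWith R φ := by
  refine LipschitzWith.of_le_add_mul R fun x y => ?_
  have h1 := hs y x
  have h2 := hh_bd hne hR (x - y)
  rw [dist_eq_norm]
  linarith

theorem grad_norm {R : ℝ≥0} {φ : EE n → ℝ} (hφ : LipschitzWith R φ) (x : EE n) :
    ‖gradient φ x‖ ≤ R := by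
  rw [gradient, LinearIsometryEquiv.norm_map]
  exact norm_fderiv_le_of_lipschitz ℝ hφ

theorem grad_meas (φ : EE n → ℝ) : Measurable (gradient φ) := by
  have h : Measurable (fderiv ℝ φ) := measurable_fderiv ℝ φ
  exact (InnerProductSpace.toDual ℝ (EE n)).symm.continuous.measurable.comp h

theorem ker_int {ε : ℝ} {k : EE n → ℝ} (hk : Ker ε k) : Integrable k := by
  by_contra h
  have := hk.int1
  rw [integral_undef h] at this
  exact zero_ne_one this

theorem grad_mol {ε : ℝ} {k : EE n → ℝ} (hk : Ker ε k) {R : ℝ≥0} {φ : EE n → ℝ}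
    (hφ : LipschitzWith R φ) (x : EE n) :
    gradient (mol k φ) x = ∫ z, k z • gradient φ (x - z) := by
  have hkc : Continuous k := hk.smooth.continuous
  have hki := ker_int hk
  have hcs : HasCompactSupport k := by
    refine HasCompactSupport.intro (isCompact_closedBall (0 : EE n) ε) fun z hz => hk.supp z ?_
    rw [mem_closedBall_zero_iff, not_le] at hz
    exact hz.le
  have key := hasFDerivAt_integral_of_dominated_loc_of_lip (𝕜 := ℝ) (μ := (volume : Measure (EE n)))
    (F := fun x z => k z * φ (x - z)) (F' := fun z => k z • fderiv ℝ φ (x - z)) (x₀ := x)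
    (bound := fun z => R * k z) (s := univ) Filter.univ_mem ?_ ?_ ?_ ?_ ?_ ?_
  · have h1 : HasFDerivAt (mol k φ) (∫ z, k z • fderiv ℝ φ (x - z)) x := key.2
    rw [gradient, h1.fderiv]
    have h2 := ((InnerProductSpace.toDual ℝ (EE n)).symm.toContinuousLinearEquiv :
      (EE n →L[ℝ] ℝ) ≃L[ℝ] EE n).toContinuousLinearMap.integral_comp_comm key.1
    have h3 : ∀ z, ((InnerProductSpace.toDual ℝ (EE n)).symm.toContinuousLinearEquiv :
      (EE n →L[ℝ] ℝ) ≃L[ℝ] EE n).toContinuousLinearMap (k z • fderiv ℝ φ (x - z)) =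
        k z • gradient φ (x - z) := by
      intro z
      rw [map_smul]
      rfl
    simp only [h3] at h2
    exact h2.symm
  · refine Filter.Eventually.of_forall fun y => ?_
    exact (hkc.mul (hφ.continuous.comp (continuous_const.sub continuous_id))).aestronglyMeasurable
  · exact (hkc.mul (hφ.continuous.comp (continuous_const.sub continuous_id))).integrable_of_hasCompactSupport
      hcs.mul_right
  · refine (hkc.measurable.smul ?_).aestronglyMeasurable
    exact (measurable_fderiv ℝ φ).comp (measurable_const.sub measurable_id)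
  · refine Filter.Eventually.of_forall fun z => ?_
    refine LipschitzWith.lipschitzOnWith ?_
    refine LipschitzWith.of_dist_le_mul fun a b => ?_
    have h1 : Real.nnabs (R * k z) = (R * k z : ℝ) := by
      rw [Real.coe_nnabs, abs_of_nonneg (mul_nonneg R.coe_nonneg (hk.nn z))]
    rw [h1, Real.dist_eq, ← mul_sub, abs_mul, abs_of_nonneg (hk.nn z)]
    have h2 := hφ.dist_le_mul (a - z) (b - z)
    rw [Real.dist_eq, dist_sub_right] at h2
    calc k z * |φ (a - z) - φ (b - z)| ≤ k z * (R * dist a b) :=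
          mul_le_mul_of_nonneg_left h2 (hk.nn z)
      _ = R * k z * dist a b := by ring
  · exact hki.const_mul _
  · have hae : ∀ᵐ y : EE n, DifferentiableAt ℝ φ y := hφ.ae_differentiableAt
    have hae' : ∀ᵐ z : EE n, DifferentiableAt ℝ φ (x - z) :=
      (quasiMeasurePreserving_sub_left volume x).ae hae
    filter_upwards [hae'] with z hz
    have h1 : HasFDerivAt (fun y => φ (y - z)) (fderiv ℝ φ (x - z)) x := by
      have := hz.hasFDerivAt.comp x ((hasFDerivAt_id x).sub_const z)
      rwa [ContinuousLinearMap.comp_id] at this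
    exact h1.const_mul (k z)

/-- the integral of the gradient over `K` is the integral of the identity over `C` -/
theorem int_grad {K C : Set (EE n)} {φ : EE n → ℝ} (hφ : Bre K C φ) :
    ∫ x in K, gradient φ x = ∫ y in C, y := by
  have hg := grad_meas φ
  have hmap : (volume.restrict K).map (gradient φ) = volume.restrict C := by
    refine Measure.ext fun G hG => ?_
    rw [Measure.map_apply hg hG, Measure.restrict_apply (hg hG), Measure.restrict_apply hG,
      Set.inter_comm G C, ← hφ.push G hG]
    congr 1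
    ext x
    simp only [Set.mem_inter_iff, Set.mem_preimage, Set.mem_ofPred_eq]
    exact and_comm
  rw [← hmap, integral_map hg.aemeasurable]
  exact measurable_id.aestronglyMeasurable

/-- integral over a translate of the smaller body -/
theorem int_trans {r R δ : ℝ} (hr : 0 < r) {K C : Set (EE n)} (hK : Round r R K)
    (hC : Round r R C) {φ : EE n → ℝ} (hφ : Bre K C φ) (hc : ∫ y in C, y = (0 : EE n))
    (hδ : 0 < δ) (hδ1 : δ < 1) (hR : ∀ x, ‖gradient φ x‖ ≤ R) (z : EE n) (hz : ‖z‖ < δ * r) :
    ‖∫ x in (1 - δ) • K, gradient φ (x - z)‖ ≤ R * (1 - (1 - δ) ^ n) * (volume K).toReal := by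
  have hKm : MeasurableSet K := hK.comp.measurableSet
  have hCm : MeasurableSet C := hC.comp.measurableSet
  have hK'm : MeasurableSet ((1 - δ) • K) := (hK.comp.smul (1 - δ)).measurableSet
  obtain ⟨A, hA⟩ : ∃ A : Set (EE n), A = (fun y => y + z) ⁻¹' ((1 - δ) • K) := ⟨_, rfl⟩
  have hAm : MeasurableSet A := by
    rw [hA]
    exact (measurable_id.add_const z) hK'm
  have h1δ : 0 < 1 - δ := by linarith
  have hAK : A ⊆ K := by
    intro y hy
    rw [hA, Set.mem_preimage, Set.mem_smul_set] at hy
    obtain ⟨a, ha, hay⟩ := hy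
    have hb : (-(δ⁻¹ • z)) ∈ K := by
      apply hK.inn
      rw [mem_ball_zero_iff, norm_neg, norm_smul, norm_inv, Real.norm_of_nonneg hδ.le,
        inv_mul_lt_iff₀ hδ]
      exact hz
    have hy2 : y = (1 - δ) • a + δ • (-(δ⁻¹ • z)) := by
      rw [hay, smul_neg, smul_smul, mul_inv_cancel₀ hδ.ne', one_smul]
      abel
    rw [hy2]
    exact hK.conv ha hb h1δ.le hδ.le (by ring)
  have hvA : volume A = volume ((1 - δ) • K) := by
    rw [hA]
    exact (measurePreserving_add_right volume z).measure_preimage hK'm.nullMeasurableSet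
  have hvK' : volume ((1 - δ) • K) = ENNReal.ofReal ((1 - δ) ^ n) * volume K := by
    rw [Measure.addHaar_smul, finrank_euclideanSpace_fin, abs_of_pos (pow_pos h1δ n)]
  have hKfin : volume K ≠ ⊤ := hK.comp.measure_lt_top.ne
  have hint : ∫ x in (1 - δ) • K, gradient φ (x - z) = ∫ y in A, gradient φ y := by
    have := (measurePreserving_add_right volume z).setIntegral_preimage_emb
      (measurableEmbedding_addRight z) (fun y => gradient φ (y - z)) ((1 - δ) • K)
    simp only [add_sub_cancel_right] at this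
    rw [← this, hA]
  have hg := grad_meas φ
  have hgi : IntegrableOn (gradient φ) K := by
    refine Measure.integrableOn_of_bounded (M := R) hKfin hg.aestronglyMeasurable ?_
    exact Filter.Eventually.of_forall fun x => hR x
  have hsum : ∫ y in A, gradient φ y = - ∫ y in K \ A, gradient φ y := by
    have h1 := setIntegral_sdiff hAm hgi hAK
    rw [h1, int_grad hφ, hc]
    abel
  rw [hint, hsum, norm_neg]
  have hvd : (volume (K \ A)).toReal = (1 - (1 - δ) ^ n) * (volume K).toReal := by
    have hAfin : volume A ≠ ⊤ := ne_top_of_le_ne_top hKfin (measure_mono hAK)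
    rw [measure_sdiff hAK hAm.nullMeasurableSet hAfin, ENNReal.toReal_sub_of_le (measure_mono hAK)
      hKfin, hvA, hvK', ENNReal.toReal_mul, ENNReal.toReal_ofReal (pow_nonneg h1δ.le n)]
    ring
  have h2 := norm_setIntegral_le_of_norm_le_const (μ := volume) (s := K \ A)
    (f := gradient φ) (C := R) (lt_of_le_of_lt (measure_mono Set.sdiff_subset)
      hK.comp.measure_lt_top) (fun x _ => hR x)
  rw [Measure.real, hvd] at h2
  calc _ ≤ R * ((1 - (1 - δ) ^ n) * (volume K).toReal) := h2
    _ = _ := by ring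

end MeangAux

open MeangAux in
theorem mean_grad {n : ℕ} {r R δ ε : ℝ} (hr : 0 < r) {K C : Set (EE n)} (hK : Round r R K)
    (hC : Round r R C) {φ : EE n → ℝ} (hφ : Bre K C φ) (hc : ∫ y in C, y = (0 : EE n))
    (hδ : 0 < δ) (hδ1 : δ < 1) (hε : ε ≤ δ * r) {k : EE n → ℝ} (hk : Ker ε k) :
    ‖∫ x in (1 - δ) • K, gradient (mol k φ) x‖
      ≤ R * (1 - (1 - δ) ^ n) * (volume K).toReal := by
  have hCne : C.Nonempty := ⟨0, interior_subset hC.zero⟩
  have hR0 : 0 ≤ R := by
    have := hC.out (interior_subset hC.zero)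
    rwa [mem_closedBall_zero_iff, norm_zero] at this
  obtain ⟨R', hR'⟩ : ∃ R' : ℝ≥0, (R' : ℝ) = R := ⟨⟨R, hR0⟩, rfl⟩
  have hlip : LipschitzWith R' φ := lip hCne (by rw [hR']; exact hC.out) hφ.slope
  have hg : ∀ x, ‖gradient φ x‖ ≤ R := by
    intro x
    rw [← hR']
    exact grad_norm hlip x
  have hgm := grad_meas φ
  have hki := ker_int hk
  have hKfin : volume K ≠ ⊤ := hK.comp.measure_lt_top.ne
  have hK'fin : volume ((1 - δ) • K) < ⊤ := (hK.comp.smul (1 - δ)).measure_lt_top
  have : IsFiniteMeasure (volume.restrict ((1 - δ) • K)) := ⟨by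
    rwa [Measure.restrict_apply_univ]⟩
  have h1 : ∫ x in (1 - δ) • K, gradient (mol k φ) x =
      ∫ z, ∫ x in (1 - δ) • K, k z • gradient φ (x - z) := by
    simp only [grad_mol hk hlip]
    refine integral_integral_swap (f := fun x z => k z • gradient φ (x - z)) ?_
    have hb : Integrable (fun p : EE n × EE n => R * k p.2)
        ((volume.restrict ((1 - δ) • K)).prod volume) :=
      (integrable_const R).mul_prod hki
    refine hb.mono' ?_ (Filter.Eventually.of_forall fun p => ?_)
    · refine Measurable.aestronglyMeasurable ?_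
      exact (hk.smooth.continuous.measurable.comp measurable_snd).smul
        (hgm.comp (measurable_fst.sub measurable_snd))
    · rw [Function.uncurry, norm_smul, Real.norm_of_nonneg (hk.nn _), mul_comm]
      exact mul_le_mul_of_nonneg_right (hg _) (hk.nn _)
  have h2 : ∀ z, ‖∫ x in (1 - δ) • K, k z • gradient φ (x - z)‖ ≤
      (R * (1 - (1 - δ) ^ n) * (volume K).toReal) * k z := by
    intro z
    rw [integral_smul, norm_smul, Real.norm_of_nonneg (hk.nn z), mul_comm]
    by_cases hz : ε ≤ ‖z‖
    · rw [hk.supp z hz, mul_zero, mul_zero]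
    · rw [not_le] at hz
      exact mul_le_mul_of_nonneg_right
        (int_trans hr hK hC hφ hc hδ hδ1 hg z (lt_of_lt_of_le hz hε)) (hk.nn z)
  rw [h1]
  have h3 := norm_integral_le_of_norm_le (hki.const_mul
    (R * (1 - (1 - δ) ^ n) * (volume K).toReal)) (Filter.Eventually.of_forall h2)
  rwa [integral_const_mul, hk.int1, mul_one] at h3

end Pool.Agent.MP9dd972N
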