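import Mathlib
import Pool.Agent.Lib.MP_9dd972_gt.N.Defs
import Pool.Agent.Lib.MP_9dd972_gt.N.Hsup
import Pool.Agent.Lib.MP_9dd972_gt.N.Conj

/-!
# The dual transport problem has a minimiser
-/

set_option autoImplicit false

namespace Pool.Agent.MP9dd972N

open MeasureTheory Set Metric
open scoped ENNReal NNReal Topology Pointwise

namespace MiniAux

theorem Body.ne {n : ℕ} {K : Set (EE n)} (hK : Body K) : K.Nonempty :=
  ⟨0, interior_subset hK.zero⟩

theorem exists_R {n : ℕ} {K : Set (EE n)} (hK : Body K) :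
    ∃ R : ℝ, 0 ≤ R ∧ K ⊆ closedBall (0 : EE n) R := by
  obtain ⟨R, hR⟩ := hK.comp.isBounded.subset_closedBall (0 : EE n)
  exact ⟨max R 0, le_max_right _ _, hR.trans (closedBall_subset_closedBall (le_max_left _ _))⟩

/-- The class of `R`-Lipschitz functions vanishing at `0`. -/
def Fam (n : ℕ) (R : ℝ) : Set (EE n → ℝ) :=
  {ψ | ψ 0 = 0 ∧ ∀ u v, |ψ u - ψ v| ≤ R * ‖u - v‖}

theorem cont_of_lip {n : ℕ} {R : ℝ} {ψ : EE n → ℝ}
    (h : ∀ u v, |ψ u - ψ v| ≤ R * ‖u - v‖) : Continuous ψ := by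
  have hL : LipschitzWith (Real.toNNReal R) ψ := by
    apply LipschitzWith.of_dist_le_mul
    intro u v
    rw [Real.dist_eq, dist_eq_norm]
    refine (h u v).trans ?_
    exact mul_le_mul_of_nonneg_right (Real.le_coe_toNNReal R) (norm_nonneg _)
  exact hL.continuous

theorem Fam.cont {n : ℕ} {R : ℝ} {ψ : EE n → ℝ} (h : ψ ∈ Fam n R) : Continuous ψ :=
  cont_of_lip h.2

theorem Fam.compact (n : ℕ) (R : ℝ) : IsCompact (Fam n R) := by
  have h1 : IsCompact (Set.pi Set.univ fun y : EE n => Icc (-(R * ‖y‖)) (R * ‖y‖)) :=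
    isCompact_univ_pi fun y => isCompact_Icc
  apply h1.of_isClosed_subset
  · have e : Fam n R = {ψ : EE n → ℝ | ψ 0 = 0} ∩
        ⋂ u : EE n, ⋂ v : EE n, {ψ : EE n → ℝ | |ψ u - ψ v| ≤ R * ‖u - v‖} := by
      ext ψ
      simp [Fam]
    rw [e]
    apply IsClosed.inter
    · exact isClosed_eq (continuous_apply _) continuous_const
    · apply isClosed_iInter
      intro u
      apply isClosed_iInter
      intro v
      exact isClosed_le (((continuous_apply u).sub (continuous_apply v)).abs) continuous_const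
  · intro ψ hψ y _
    have h2 := hψ.2 y 0
    rw [hψ.1, sub_zero, sub_zero] at h2
    exact abs_le.1 h2

theorem cj_lip {n : ℕ} {C : Set (EE n)} (hC : IsCompact C) (hne : C.Nonempty) {R : ℝ}
    (hR : C ⊆ closedBall (0 : EE n) R) {ψ : EE n → ℝ} (hψ : Continuous ψ) (u v : EE n) :
    |cj C ψ u - cj C ψ v| ≤ R * ‖u - v‖ := by
  have h1 := (cj_slope hC hne hψ v u).trans (hh_bound hne hR (u - v))
  have h2 := (cj_slope hC hne hψ u v).trans (hh_bound hne hR (v - u))
  rw [norm_sub_rev] at h2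
  rw [abs_le]
  constructor <;> linarith

theorem cj_cont {n : ℕ} {C : Set (EE n)} (hC : Body C) {ψ : EE n → ℝ} (hψ : Continuous ψ) :
    Continuous (cj C ψ) := by
  obtain ⟨R, -, hR⟩ := exists_R hC
  exact cont_of_lip (cj_lip hC.comp (Body.ne hC) hR hψ)

theorem cj_sub_const {n : ℕ} {C : Set (EE n)} (hC : IsCompact C) (hne : C.Nonempty)
    {ψ : EE n → ℝ} (hψ : Continuous ψ) (c : ℝ) (x : EE n) :
    cj C (fun y => ψ y - c) x = cj C ψ x + c := by
  have hψc : Continuous fun y => ψ y - c := hψ.sub continuous_const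
  apply le_antisymm
  · obtain ⟨y, hy, e⟩ := exists_cj hC hne hψc x
    have h1 := le_cj hC hψ x hy
    rw [e]
    linarith
  · obtain ⟨y, hy, e⟩ := exists_cj hC hne hψ x
    have h1 := le_cj hC hψc x hy
    rw [e]
    linarith

theorem J_diff {n : ℕ} {K C : Set (EE n)} (hK : Body K) (hC : Body C)
    {ψ ψ' : EE n → ℝ} (hψ : Continuous ψ) (hψ' : Continuous ψ') {δ : ℝ}
    (h : ∀ y ∈ C, |ψ y - ψ' y| ≤ δ) :
    |((∫ x in K, cj C ψ x) + (∫ y in C, ψ y)) - ((∫ x in K, cj C ψ' x) + ∫ y in C, ψ' y)| ≤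
      δ * (volume.real K + volume.real C) := by
  have i1 : IntegrableOn (cj C ψ) K := (cj_cont hC hψ).continuousOn.integrableOn_compact hK.comp
  have i2 : IntegrableOn (cj C ψ') K := (cj_cont hC hψ').continuousOn.integrableOn_compact hK.comp
  have i3 : IntegrableOn ψ C := hψ.continuousOn.integrableOn_compact hC.comp
  have i4 : IntegrableOn ψ' C := hψ'.continuousOn.integrableOn_compact hC.comp
  have e1 : (∫ x in K, cj C ψ x) - (∫ x in K, cj C ψ' x) = ∫ x in K, (cj C ψ x - cj C ψ' x) :=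
    (integral_sub i1 i2).symm
  have e2 : (∫ y in C, ψ y) - (∫ y in C, ψ' y) = ∫ y in C, (ψ y - ψ' y) :=
    (integral_sub i3 i4).symm
  have b1 : ‖∫ x in K, (cj C ψ x - cj C ψ' x)‖ ≤ δ * volume.real K := by
    apply norm_setIntegral_le_of_norm_le_const hK.comp.measure_lt_top
    intro x _
    exact cj_sub_le hC.comp (Body.ne hC) hψ hψ' h x
  have b2 : ‖∫ y in C, (ψ y - ψ' y)‖ ≤ δ * volume.real C := by
    apply norm_setIntegral_le_of_norm_le_const hC.comp.measure_lt_top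
    intro x hx
    exact h x hx
  rw [← e1] at b1
  rw [← e2] at b2
  rw [Real.norm_eq_abs] at b1 b2
  have := abs_add_le ((∫ x in K, cj C ψ x) - (∫ x in K, cj C ψ' x))
    ((∫ y in C, ψ y) - (∫ y in C, ψ' y))
  have e3 : ((∫ x in K, cj C ψ x) + (∫ y in C, ψ y)) - ((∫ x in K, cj C ψ' x) + ∫ y in C, ψ' y)
      = ((∫ x in K, cj C ψ x) - (∫ x in K, cj C ψ' x)) +
        ((∫ y in C, ψ y) - (∫ y in C, ψ' y)) := by ring
  rw [e3]
  linarith

theorem J_cont {n : ℕ} {K C : Set (EE n)} (hK : Body K) (hC : Body C) {R : ℝ} (hR : 0 ≤ R) :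
    ContinuousOn (fun ψ : EE n → ℝ => (∫ x in K, cj C ψ x) + (∫ y in C, ψ y)) (Fam n R) := by
  intro ψ0 h0
  rw [ContinuousWithinAt, Metric.tendsto_nhds]
  intro ε hε
  set V : ℝ := volume.real K + volume.real C with hV
  have hV0 : 0 ≤ V := add_nonneg measureReal_nonneg measureReal_nonneg
  set η : ℝ := ε / ((2 * R + 1) * (V + 1)) with hη
  have hd : 0 < (2 * R + 1) * (V + 1) := by positivity
  have hη0 : 0 < η := div_pos hε hd
  obtain ⟨t, htC, htf, ht⟩ := hC.comp.finite_cover_balls hη0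
  have hev : ∀ᶠ ψ in 𝓝[Fam n R] ψ0, ∀ c ∈ t, |ψ c - ψ0 c| < η := by
    rw [Filter.eventually_all_finite htf]
    intro c _
    have h1 : Filter.Tendsto (fun ψ : EE n → ℝ => ψ c) (𝓝[Fam n R] ψ0) (𝓝 (ψ0 c)) :=
      ((continuous_apply c).tendsto ψ0).mono_left nhdsWithin_le_nhds
    have h2 := (Metric.tendsto_nhds.1 h1) η hη0
    simpa [Real.dist_eq] using h2
  have hF : ∀ᶠ ψ in 𝓝[Fam n R] ψ0, ψ ∈ Fam n R := self_mem_nhdsWithin
  filter_upwards [hev, hF] with ψ h1 h2
  have h3 : ∀ y ∈ C, |ψ y - ψ0 y| ≤ (2 * R + 1) * η := by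
    intro y hy
    obtain ⟨c, hc, hyc⟩ : ∃ c ∈ t, y ∈ ball c η := by simpa using ht hy
    have h4 := h2.2 y c
    have h5 := h0.2 y c
    have h6 := (h1 c hc).le
    have h7 : ‖y - c‖ ≤ η := by
      rw [mem_ball, dist_eq_norm] at hyc
      exact hyc.le
    have h8 : R * ‖y - c‖ ≤ R * η := mul_le_mul_of_nonneg_left h7 hR
    rw [abs_le] at h4 h5 h6 ⊢
    constructor <;> linarith [h4.1, h4.2, h5.1, h5.2, h6.1, h6.2]
  have h4 := J_diff hK hC (Fam.cont h2) (Fam.cont h0) h3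
  rw [Real.dist_eq]
  refine lt_of_le_of_lt h4 ?_
  rw [← hV]
  have h5 : (2 * R + 1) * η * V < (2 * R + 1) * η * (V + 1) := by
    have : 0 < (2 * R + 1) * η := by positivity
    nlinarith
  have h6 : (2 * R + 1) * η * (V + 1) = ε := by
    rw [hη]
    field_simp
  linarith

end MiniAux

open MiniAux in
theorem exists_min {n : ℕ} {K C : Set (EE n)} (hK : Body K) (hC : Body C)
    (hv : volume K = volume C) :
    ∃ ψ : EE n → ℝ, Continuous ψ ∧ ∀ ψ' : EE n → ℝ, Continuous ψ' →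
      (∫ x in K, cj C ψ x) + (∫ y in C, ψ y) ≤ (∫ x in K, cj C ψ' x) + ∫ y in C, ψ' y := by
  obtain ⟨R, hR0, hR⟩ := exists_R hK
  have hFne : (Fam n R).Nonempty := ⟨fun _ => 0, rfl, fun u v => by
    simpa using mul_nonneg hR0 (norm_nonneg (u - v))⟩
  obtain ⟨ψ, hψF, hmin⟩ := (Fam.compact n R).exists_isMinOn hFne (J_cont hK hC hR0)
  refine ⟨ψ, Fam.cont hψF, ?_⟩
  intro ψ' hψ'
  have hc1 : Continuous (cj C ψ') := cj_cont hC hψ'
  set ψ1 : EE n → ℝ := cj K (cj C ψ') with hψ1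
  have hc2 : Continuous ψ1 := cj_cont hK hc1
  set c : ℝ := ψ1 0 with hc
  have hF2 : (fun y => ψ1 y - c) ∈ Fam n R := by
    refine ⟨by simp [hc], ?_⟩
    intro u v
    have := cj_lip hK.comp (Body.ne hK) hR hc1 u v
    have e : (ψ1 u - c) - (ψ1 v - c) = ψ1 u - ψ1 v := by ring
    rw [e]
    exact this
  have h1 := isMinOn_iff.1 hmin _ hF2
  refine h1.trans ?_
  have e1 : ∀ x, cj C (fun y => ψ1 y - c) x = cj C ψ1 x + c :=
    cj_sub_const hC.comp (Body.ne hC) hc2 c
  have i1 : IntegrableOn (cj C ψ1) K := (cj_cont hC hc2).continuousOn.integrableOn_compact hK.comp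
  have i2 : IntegrableOn (cj C ψ') K := hc1.continuousOn.integrableOn_compact hK.comp
  have i3 : IntegrableOn ψ1 C := hc2.continuousOn.integrableOn_compact hC.comp
  have i4 : IntegrableOn ψ' C := hψ'.continuousOn.integrableOn_compact hC.comp
  have ik : IntegrableOn (fun _ : EE n => c) K :=
    continuous_const.continuousOn.integrableOn_compact hK.comp
  have ic : IntegrableOn (fun _ : EE n => c) C :=
    continuous_const.continuousOn.integrableOn_compact hC.comp
  have e2 : (∫ x in K, cj C (fun y => ψ1 y - c) x) = (∫ x in K, cj C ψ1 x) + volume.real K * c := by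
    simp_rw [e1]
    rw [integral_add i1 ik, setIntegral_const, smul_eq_mul]
  have e3 : (∫ y in C, (ψ1 y - c)) = (∫ y in C, ψ1 y) - volume.real C * c := by
    rw [integral_sub i3 ic, setIntegral_const, smul_eq_mul]
  have hvr : volume.real K = volume.real C := by
    simp [Measure.real, hv]
  have m1 : (∫ x in K, cj C ψ1 x) ≤ ∫ x in K, cj C ψ' x := by
    apply setIntegral_mono_on i1 i2 hK.comp.measurableSet
    intro x hx
    exact cj_cj_cj_le hK.comp hC.comp (Body.ne hC) hψ' hx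
  have m2 : (∫ y in C, ψ1 y) ≤ ∫ y in C, ψ' y := by
    apply setIntegral_mono_on i3 i4 hC.comp.measurableSet
    intro y hy
    exact cj_cj_le hC.comp (Body.ne hK) hψ' hy
  show (∫ x in K, cj C (fun y => ψ1 y - c) x) + (∫ y in C, (ψ1 y - c)) ≤ _
  rw [e2, e3, hvr]
  linarith

end Pool.Agent.MP9dd972N
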