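import Mathlib
import Pool.Agent.Lib.MP_9dd972_gt.N.Defs
import Pool.Agent.Lib.MP_9dd972_gt.N.Hsup

set_option autoImplicit false

namespace Pool.Agent.MP9dd972N

open MeasureTheory Set Metric
open scoped ENNReal NNReal Topology Pointwise

theorem exists_ker {n : ℕ} {ε : ℝ} (hε : 0 < ε) : ∃ k : EE n → ℝ, Ker ε k := by
  let b : ContDiffBump (0 : EE n) := ⟨ε / 2, ε, by positivity, by linarith⟩
  refine ⟨b.normed volume, ⟨hε, b.contDiff_normed, b.nonneg_normed, ?_, b.integral_normed⟩⟩
  intro z hz
  have hs : Function.support (b.normed (volume : Measure (EE n))) = Metric.ball 0 ε :=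
    b.support_normed_eq
  by_contra hne
  have : z ∈ Function.support (b.normed (volume : Measure (EE n))) := hne
  rw [hs, mem_ball_zero_iff] at this
  linarith

namespace MollAux

theorem hcs {n : ℕ} {ε : ℝ} {k : EE n → ℝ} (hk : Ker ε k) : HasCompactSupport k := by
  refine HasCompactSupport.intro (isCompact_closedBall (0 : EE n) ε) ?_
  intro x hx
  apply hk.supp
  rw [mem_closedBall_zero_iff] at hx
  linarith

theorem kint {n : ℕ} {ε : ℝ} {k φ : EE n → ℝ} (hk : Ker ε k) (hφ : Continuous φ) (x : EE n) :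
    Integrable (fun z => k z * φ (x - z)) := by
  apply Continuous.integrable_of_hasCompactSupport
  · exact hk.smooth.continuous.mul (hφ.comp (continuous_const.sub continuous_id))
  · exact (hcs hk).mul_right

end MollAux

open MollAux in
theorem mol_contDiff {n : ℕ} {ε : ℝ} {k φ : EE n → ℝ} (hk : Ker ε k) (hφ : Continuous φ) :
    ContDiff ℝ 3 (mol k φ) := by
  have h1 : ContDiff ℝ ((3 : ℕ∞) : WithTop ℕ∞)
      (MeasureTheory.convolution k φ (ContinuousLinearMap.lsmul ℝ ℝ) volume) :=
    HasCompactSupport.contDiff_convolution_left (ContinuousLinearMap.lsmul ℝ ℝ) (hcs hk)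
      (hk.smooth.of_le (by exact_mod_cast le_top)) hφ.locallyIntegrable
  have h2 : mol k φ = MeasureTheory.convolution k φ (ContinuousLinearMap.lsmul ℝ ℝ) volume := by
    funext x
    simp [mol, MeasureTheory.convolution]
  rw [h2]
  exact h1

theorem slope_lip {n : ℕ} {C : Set (EE n)} (hne : C.Nonempty) {R : ℝ≥0}
    (hR : C ⊆ closedBall (0 : EE n) R) {φ : EE n → ℝ}
    (hs : ∀ x z, φ z - φ x ≤ hh C (z - x)) : LipschitzWith R φ := by
  apply LipschitzWith.of_le_add_mul
  intro x y
  have h1 := hs y x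
  have h2 := hh_bound hne hR (x - y)
  rw [dist_eq_norm]
  linarith

open MollAux in
theorem mol_slope {n : ℕ} {ε : ℝ} {k φ : EE n → ℝ} (hk : Ker ε k) (hφ : Continuous φ)
    {C : Set (EE n)} (hs : ∀ x z, φ z - φ x ≤ hh C (z - x)) :
    ∀ x z, mol k φ z - mol k φ x ≤ hh C (z - x) := by
  intro x z
  unfold mol
  rw [← integral_sub (kint hk hφ z) (kint hk hφ x)]
  have h1 : Integrable (fun y => k y * hh C (z - x)) :=
    (hk.smooth.continuous.integrable_of_hasCompactSupport (hcs hk)).mul_const _
  calc ∫ y, (k y * φ (z - y) - k y * φ (x - y))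
      ≤ ∫ y, k y * hh C (z - x) := by
        apply integral_mono ((kint hk hφ z).sub (kint hk hφ x)) h1
        intro y
        have h2 := hs (x - y) (z - y)
        have h3 : z - y - (x - y) = z - x := by abel
        rw [h3] at h2
        have h4 := mul_le_mul_of_nonneg_left h2 (hk.nn y)
        simp only [Pi.sub_apply]
        linarith
    _ = hh C (z - x) := by
        rw [integral_mul_const, hk.int1, one_mul]

theorem grad_mem {n : ℕ} {C : Set (EE n)} (hv : Convex ℝ C) (hC : IsCompact C)
    (hne : C.Nonempty) {f : EE n → ℝ} {x : EE n} (hf : DifferentiableAt ℝ f x)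
    (hs : ∀ z, f z - f x ≤ hh C (z - x)) : gradient f x ∈ C := by
  apply mem_of_hh hC hv hne
  intro u
  have h1 : (inner ℝ u (gradient f x) : ℝ) = fderiv ℝ f x u := by
    rw [real_inner_comm, hf.hasGradientAt.hasFDerivAt.fderiv]
    simp
  rw [h1]
  have h2 : HasDerivAt (fun t : ℝ => f (x + t • u)) (fderiv ℝ f x u) 0 := by
    have h3 : HasDerivAt (fun t : ℝ => x + t • u) u 0 := by
      have := ((hasDerivAt_id (0 : ℝ)).smul_const u).const_add x
      simpa using this
    have h4 : HasFDerivAt f (fderiv ℝ f x) (x + (0 : ℝ) • u) := by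
      simpa using hf.hasFDerivAt
    exact h4.comp_hasDerivAt 0 h3
  have h5 := h2.tendsto_slope_zero_right
  refine le_of_tendsto h5 ?_
  filter_upwards [self_mem_nhdsWithin] with t ht
  have ht0 : (0 : ℝ) < t := ht
  have h6 := hs (x + t • u)
  have h7 : x + t • u - x = t • u := by abel
  rw [h7, hh_smul C ht0.le u] at h6
  simp only [zero_add, zero_smul, add_zero, smul_eq_mul]
  rw [inv_mul_le_iff₀ ht0]
  exact h6

end Pool.Agent.MP9dd972N
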