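import Mathlib
import Pool.Agent.Lib.MP_9dd972_gt.N.Defs
import Pool.Agent.Lib.MP_9dd972_gt.N.Bresub

/-!
# MP_9dd972_gt part 2, module MOLSUB: sub-mean value property of the mollification
-/

set_option autoImplicit false

namespace Pool.Agent.MP9dd972N

open MeasureTheory Set Metric
open scoped ENNReal NNReal Topology Pointwise

theorem mol_sub_mean {n : ℕ} (hn : 0 < n) {φ : EE n → ℝ} (hφ : ConvexOn ℝ univ φ)
    {Ω : Set (EE n)} (hΩ : IsOpen Ω) (hM : MAge φ Ω) {ε : ℝ} {k : EE n → ℝ} (hk : Ker ε k)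
    {x0 : EE n} (hx : closedBall x0 ε ⊆ Ω) {S : Matrix (Fin n) (Fin n) ℝ} (hS : S.det = 1) :
    ∃ ρ0 : ℝ, 0 < ρ0 ∧ ∀ ρ : ℝ, 0 < ρ → ρ < ρ0 →
      (volume (closedBall (0 : EE n) 1)).toReal * (mol k φ x0 + ρ ^ 2 / 2)
        ≤ ∫ z in closedBall (0 : EE n) 1, mol k φ (x0 + ρ • act S (‖z‖⁻¹ • z)) := by
  have hφc : Continuous φ := by
    rw [← continuousOn_univ]
    exact hφ.continuousOn isOpen_univ
  have hkc : Continuous k := hk.smooth.continuous
  obtain ⟨δ, hδ, hδΩ⟩ := (isCompact_closedBall x0 ε).exists_thickening_subset_open hΩ hx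
  set A : EE n →L[ℝ] EE n := Matrix.toEuclideanCLM (𝕜 := ℝ) S with hA
  have hact : ∀ z, act S z = A z := fun z => rfl
  have hM0 : 0 ≤ ‖A‖ := norm_nonneg _
  refine ⟨δ / (‖A‖ + 1), by positivity, ?_⟩
  intro ρ hρ hρ0
  have hρA : ρ * (‖A‖ + 1) < δ := by
    rwa [lt_div_iff₀ (by positivity)] at hρ0
  have hunit : ∀ z : EE n, ‖‖z‖⁻¹ • z‖ ≤ 1 := by
    intro z
    rw [norm_smul, norm_inv, norm_norm]
    exact inv_mul_le_one
  -- the function of two variables
  set F : EE n → EE n → ℝ := fun y z => k y * φ (x0 - y + ρ • act S (‖z‖⁻¹ • z)) with hF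
  set K : Set (EE n) := closedBall (0 : EE n) ε with hK
  set B : Set (EE n) := closedBall (0 : EE n) 1 with hB
  have hkzero : ∀ y, y ∉ K → k y = 0 := by
    intro y hy
    apply hk.supp
    rw [hK, mem_closedBall_zero_iff, not_le] at hy
    exact hy.le
  have hmolK : ∀ x, mol k φ x = ∫ y in K, k y * φ (x - y) := by
    intro x
    unfold mol
    rw [setIntegral_eq_integral_of_forall_compl_eq_zero]
    intro y hy
    rw [hkzero y hy, zero_mul]
  have hkint : ∫ y in K, k y = 1 := by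
    rw [setIntegral_eq_integral_of_forall_compl_eq_zero (fun y hy => hkzero y hy)]
    exact hk.int1
  -- bound
  obtain ⟨C1, hC1⟩ := (isCompact_closedBall x0 (ε + ρ * (‖A‖ + 1))).exists_bound_of_continuousOn
    hφc.continuousOn
  obtain ⟨C2, hC2⟩ := (isCompact_closedBall (0 : EE n) ε).exists_bound_of_continuousOn
    hkc.continuousOn
  have hmeas : Measurable (Function.uncurry F) := by
    have h1 : Measurable fun p : EE n × EE n => k p.1 := hkc.measurable.comp measurable_fst
    have h2 : Measurable fun p : EE n × EE n => ‖p.2‖⁻¹ • p.2 :=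
      (measurable_snd.norm.inv).smul measurable_snd
    have h3 : Measurable fun p : EE n × EE n => A (‖p.2‖⁻¹ • p.2) :=
      A.continuous.measurable.comp h2
    have h4 : Measurable fun p : EE n × EE n => x0 - p.1 + ρ • A (‖p.2‖⁻¹ • p.2) :=
      (measurable_const.sub measurable_fst).add (h3.const_smul ρ)
    exact h1.mul (hφc.measurable.comp h4)
  have hbound : ∀ p : EE n × EE n, ‖Function.uncurry F p‖ ≤ max C2 0 * max C1 0 := by
    rintro ⟨y, z⟩
    by_cases hy : y ∈ K
    · have h1 : ‖k y‖ ≤ max C2 0 := (hC2 y hy).trans (le_max_left _ _)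
      have h2 : ‖φ (x0 - y + ρ • act S (‖z‖⁻¹ • z))‖ ≤ max C1 0 := by
        refine (hC1 _ ?_).trans (le_max_left _ _)
        rw [mem_closedBall, dist_eq_norm]
        have h3 : x0 - y + ρ • act S (‖z‖⁻¹ • z) - x0 = -y + ρ • A (‖z‖⁻¹ • z) := by
          rw [hact]; abel
        rw [h3]
        have h4 : ‖A (‖z‖⁻¹ • z)‖ ≤ ‖A‖ := by
          calc ‖A (‖z‖⁻¹ • z)‖ ≤ ‖A‖ * ‖‖z‖⁻¹ • z‖ := A.le_opNorm _
            _ ≤ ‖A‖ * 1 := mul_le_mul_of_nonneg_left (hunit z) hM0
            _ = ‖A‖ := mul_one _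
        have h5 : ‖y‖ ≤ ε := by rwa [hK, mem_closedBall_zero_iff] at hy
        calc ‖-y + ρ • A (‖z‖⁻¹ • z)‖ ≤ ‖-y‖ + ‖ρ • A (‖z‖⁻¹ • z)‖ := norm_add_le _ _
          _ = ‖y‖ + ρ * ‖A (‖z‖⁻¹ • z)‖ := by
            rw [norm_neg, norm_smul, Real.norm_of_nonneg hρ.le]
          _ ≤ ε + ρ * (‖A‖ + 1) := by
            have := mul_le_mul_of_nonneg_left h4 hρ.le
            nlinarith
      show ‖k y * φ (x0 - y + ρ • act S (‖z‖⁻¹ • z))‖ ≤ _
      rw [norm_mul]
      exact mul_le_mul h1 h2 (norm_nonneg _) (le_max_right _ _)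
    · show ‖k y * φ (x0 - y + ρ • act S (‖z‖⁻¹ • z))‖ ≤ _
      rw [hkzero y hy, zero_mul, norm_zero]
      positivity
  have : IsFiniteMeasure (volume.restrict K) :=
    ⟨by rw [Measure.restrict_apply_univ]; exact (isCompact_closedBall _ _).measure_lt_top⟩
  have : IsFiniteMeasure (volume.restrict B) :=
    ⟨by rw [Measure.restrict_apply_univ]; exact (isCompact_closedBall _ _).measure_lt_top⟩
  have hint : Integrable (Function.uncurry F) ((volume.restrict K).prod (volume.restrict B)) :=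
    Integrable.of_bound hmeas.aestronglyMeasurable _ (Filter.Eventually.of_forall hbound)
  -- right hand side
  have hR : ∫ z in B, mol k φ (x0 + ρ • act S (‖z‖⁻¹ • z)) = ∫ y in K, ∫ z in B, F y z := by
    rw [integral_integral_swap hint]
    apply integral_congr_ae
    refine Filter.Eventually.of_forall fun z => ?_
    show mol k φ (x0 + ρ • act S (‖z‖⁻¹ • z)) = ∫ y in K, F y z
    rw [hmolK]
    apply integral_congr_ae
    refine Filter.Eventually.of_forall fun y => ?_
    show k y * φ (x0 + ρ • act S (‖z‖⁻¹ • z) - y) = k y * φ (x0 - y + ρ • act S (‖z‖⁻¹ • z))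
    congr 2
    abel
  -- left hand side
  set v : ℝ := (volume B).toReal with hv
  have hc1 : IntegrableOn (fun y => k y * φ (x0 - y)) K :=
    (Continuous.continuousOn (by fun_prop)).integrableOn_compact (isCompact_closedBall _ _)
  have hc2 : IntegrableOn k K := hkc.continuousOn.integrableOn_compact (isCompact_closedBall _ _)
  have hL : v * (mol k φ x0 + ρ ^ 2 / 2) = ∫ y in K, k y * (v * (φ (x0 - y) + ρ ^ 2 / 2)) := by
    have h1 : (fun y => k y * (v * (φ (x0 - y) + ρ ^ 2 / 2))) =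
        fun y => v * (k y * φ (x0 - y)) + v * (ρ ^ 2 / 2) * k y := by
      funext y; ring
    rw [h1, integral_add (hc1.const_mul v) (hc2.const_mul _), integral_const_mul,
      integral_const_mul, hkint, hmolK]
    ring
  rw [hL, hR]
  have hLi : IntegrableOn (fun y => k y * (v * (φ (x0 - y) + ρ ^ 2 / 2))) K :=
    (Continuous.continuousOn (by fun_prop)).integrableOn_compact (isCompact_closedBall _ _)
  have hRi : Integrable (fun y => ∫ z in B, F y z) (volume.restrict K) := hint.integral_prod_left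
  refine integral_mono hLi hRi ?_
  intro y
  show k y * (v * (φ (x0 - y) + ρ ^ 2 / 2)) ≤
    ∫ z in B, k y * φ (x0 - y + ρ • act S (‖z‖⁻¹ • z))
  rw [integral_const_mul]
  by_cases hy : k y = 0
  · rw [hy, zero_mul, zero_mul]
  · apply mul_le_mul_of_nonneg_left _ (hk.nn y)
    apply sub_mean_aff hn hφ hM hρ hS
    intro z hz
    apply hδΩ
    rw [mem_thickening_iff]
    refine ⟨x0 - y, ?_, ?_⟩
    · rw [mem_closedBall, dist_eq_norm]
      have : x0 - y - x0 = -y := by abel
      rw [this, norm_neg]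
      by_contra hlt
      exact hy (hk.supp y (not_le.mp hlt).le)
    · rw [dist_eq_norm]
      have : x0 - y + ρ • act S z - (x0 - y) = ρ • A z := by rw [hact]; abel
      rw [this, norm_smul, Real.norm_of_nonneg hρ.le]
      rw [mem_ball_zero_iff] at hz
      calc ρ * ‖A z‖ ≤ ρ * (‖A‖ * ‖z‖) := mul_le_mul_of_nonneg_left (A.le_opNorm z) hρ.le
        _ ≤ ρ * (‖A‖ + 1) := by
          apply mul_le_mul_of_nonneg_left _ hρ.le
          nlinarith
        _ < δ := hρA

end Pool.Agent.MP9dd972N
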