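import Mathlib
import Pool.Agent.Lib.MP_9dd972_gt.N.Defs

/-!
# MP_9dd972_gt, part 2, module PHITR: a quantitative trace inequality for symmetric matrices
-/

set_option autoImplicit false

namespace Pool.Agent.MP9dd972N

open MeasureTheory Set Metric
open scoped ENNReal NNReal Topology Pointwise

namespace PhitrAux

theorem tr_sq {n : ℕ} {M : Matrix (Fin n) (Fin n) ℝ} (hM : M.IsHermitian) :
    (M * M).trace = ∑ i, hM.eigenvalues i ^ 2 := by
  have h := hM.spectral_theorem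
  have h2 : M * M = Unitary.conjStarAlgAut ℝ _ hM.eigenvectorUnitary
      (Matrix.diagonal (RCLike.ofReal ∘ hM.eigenvalues) *
        Matrix.diagonal (RCLike.ofReal ∘ hM.eigenvalues)) := by
    rw [map_mul, ← h]
  rw [h2, Unitary.conjStarAlgAut_apply, Matrix.trace_mul_comm, ← mul_assoc]
  simp [Matrix.diagonal_mul_diagonal, Matrix.trace_diagonal, sq]

/-- `log (1 - y) ≥ - y - y ^ 2` -/
theorem log_ge {y : ℝ} (hy : |y| ≤ 1 / 2) : -y - y ^ 2 ≤ Real.log (1 - y) := by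
  have h1 := Real.abs_log_sub_add_sum_range_le (x := y) (by linarith) 4
  have h0 : 0 ≤ |y| := abs_nonneg y
  have h2 : |y| ^ (4 + 1) / (1 - |y|) ≤ 2 * |y| ^ 5 := by
    rw [div_le_iff₀ (by linarith)]
    have h3 : 0 ≤ |y| ^ 5 * (1 - 2 * |y|) :=
      mul_nonneg (by positivity) (by linarith)
    calc |y| ^ (4 + 1) = 2 * |y| ^ 5 * (1 - |y|) - |y| ^ 5 * (1 - 2 * |y|) := by ring
      _ ≤ 2 * |y| ^ 5 * (1 - |y|) := by linarith
  have h3 := (abs_le.1 (h1.trans h2)).1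
  simp only [Finset.sum_range_succ, Finset.sum_range_zero] at h3
  norm_num at h3
  have h4 : y ^ 2 = |y| ^ 2 := (sq_abs y).symm
  have h5 : y ^ 3 ≤ |y| ^ 3 := by
    calc y ^ 3 ≤ |y ^ 3| := le_abs_self _
      _ = |y| ^ 3 := abs_pow y 3
  have h6 : y ^ 4 = |y| ^ 4 := by
    calc y ^ 4 = (y ^ 2) ^ 2 := by ring
      _ = (|y| ^ 2) ^ 2 := by rw [h4]
      _ = |y| ^ 4 := by ring
  obtain ⟨a, ha⟩ : ∃ a, a = |y| := ⟨_, rfl⟩
  rw [← ha] at h0 hy h3 h4 h5 h6
  have h7 : a ^ 3 ≤ a ^ 2 * (1 / 2) := by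
    have : 0 ≤ a ^ 2 := by positivity
    nlinarith
  have h8 : a ^ 4 ≤ a ^ 2 * (1 / 4) := by
    have e : a ^ 4 = a ^ 2 * a ^ 2 := by ring
    have : 0 ≤ a ^ 2 := by positivity
    have : a ^ 2 ≤ 1 / 4 := by nlinarith
    rw [e]
    exact mul_le_mul_of_nonneg_left this (by positivity)
  have h9 : a ^ 5 ≤ a ^ 2 * (1 / 8) := by
    have e : a ^ 5 = a ^ 4 * a := by ring
    have : 0 ≤ a ^ 2 := by positivity
    rw [e]
    have h10 : a ^ 4 * a ≤ a ^ 4 * (1 / 2) := mul_le_mul_of_nonneg_left hy (by positivity)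
    linarith
  have h11 : 0 ≤ a ^ 2 := by positivity
  rw [h4, h6] at h3
  rw [h4]
  linarith

/-- determinants of symmetric matrices close to `1` -/
theorem det_ge {n : ℕ} {Z : Matrix (Fin n) (Fin n) ℝ} (hZ : Z.IsHermitian)
    (hq : (Z * Z).trace ≤ 1 / 4) :
    Real.exp (-Z.trace - (Z * Z).trace) ≤ (1 - Z).det := by
  have hM : (1 - Z).IsHermitian := Matrix.isHermitian_one.sub hZ
  obtain ⟨y, hy⟩ : ∃ y : Fin n → ℝ, y = fun i => 1 - hM.eigenvalues i := ⟨_, rfl⟩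
  have he : ∀ i, hM.eigenvalues i = 1 - y i := fun i => by rw [hy]; ring
  have h1 : ∑ i, y i = Z.trace := by
    have h := hM.trace_eq_sum_eigenvalues
    simp only [RCLike.ofReal_real_eq_id, id_eq, he, Finset.sum_sub_distrib, Finset.sum_const,
      Finset.card_univ, Fintype.card_fin, nsmul_eq_mul, mul_one, Matrix.trace_sub,
      Matrix.trace_one] at h
    linarith
  have h2 : ∑ i, y i ^ 2 = (Z * Z).trace := by
    have h := tr_sq hM
    have h3 : (1 - Z) * (1 - Z) = 1 - Z - Z + Z * Z := by noncomm_ring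
    rw [h3] at h
    have h4 : ∑ i, hM.eigenvalues i ^ 2 = n - 2 * ∑ i, y i + ∑ i, y i ^ 2 := by
      have h5 : ∀ i, hM.eigenvalues i ^ 2 = 1 - 2 * y i + y i ^ 2 := fun i => by rw [he]; ring
      rw [Finset.sum_congr rfl fun i _ => h5 i, Finset.sum_add_distrib, Finset.sum_sub_distrib,
        Finset.mul_sum]
      simp
    rw [h4, h1, Matrix.trace_add, Matrix.trace_sub, Matrix.trace_sub, Matrix.trace_one] at h
    simp only [Fintype.card_fin] at h
    linarith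
  have h3 : ∀ i, |y i| ≤ 1 / 2 := by
    intro i
    have h4 : y i ^ 2 ≤ ∑ j, y j ^ 2 :=
      Finset.single_le_sum (f := fun j => y j ^ 2) (fun j _ => sq_nonneg _) (Finset.mem_univ i)
    rw [h2] at h4
    refine abs_le_of_sq_le_sq ?_ (by norm_num)
    norm_num
    linarith
  have hpos : ∀ i, 0 < 1 - y i := fun i => by
    have := (abs_le.1 (h3 i)).2
    linarith
  have h4 : (1 - Z).det = ∏ i, (1 - y i) := by
    rw [hM.det_eq_prod_eigenvalues]
    refine Finset.prod_congr rfl fun i _ => ?_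
    rw [he]
    rfl
  have h5 : ∏ i, (1 - y i) = Real.exp (∑ i, Real.log (1 - y i)) := by
    rw [Real.exp_sum]
    exact Finset.prod_congr rfl fun i _ => (Real.exp_log (hpos i)).symm
  rw [h4, h5]
  refine Real.exp_le_exp.2 ?_
  rw [← h1, ← h2, ← Finset.sum_neg_distrib, ← Finset.sum_sub_distrib]
  exact Finset.sum_le_sum fun i _ => log_ge (h3 i)

/-- `trace (X ^ 3) ≤ F ^ 3` -/
theorem tr_cube {n : ℕ} {X : Matrix (Fin n) (Fin n) ℝ} (hX : X.IsSymm) {F : ℝ} (hF : 0 ≤ F)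
    (hF2 : F ^ 2 = ∑ i, ∑ j, X i j ^ 2) : (X * X * X).trace ≤ F ^ 3 := by
  have hs : ∀ i j, X i j = X j i := fun i j => by
    have := congrFun (congrFun hX j) i
    rw [Matrix.transpose_apply] at this
    exact this
  have h1 : (X * X * X).trace = ∑ p : Fin n × Fin n, (X * X) p.1 p.2 * X p.1 p.2 := by
    rw [Fintype.sum_prod_type, Matrix.trace]
    refine Finset.sum_congr rfl fun i _ => ?_
    rw [Matrix.diag_apply, Matrix.mul_apply]
    exact Finset.sum_congr rfl fun j _ => by rw [hs j i]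
  have h2 := Finset.sum_mul_sq_le_sq_mul_sq (Finset.univ : Finset (Fin n × Fin n))
    (fun p => (X * X) p.1 p.2) (fun p => X p.1 p.2)
  rw [← h1] at h2
  have h3 : ∑ p : Fin n × Fin n, X p.1 p.2 ^ 2 = F ^ 2 := by
    rw [Fintype.sum_prod_type, hF2]
  have h4 : ∑ p : Fin n × Fin n, (X * X) p.1 p.2 ^ 2 ≤ F ^ 2 * F ^ 2 := by
    rw [Fintype.sum_prod_type]
    have h5 : ∀ i j, (X * X) i j ^ 2 ≤ (∑ k, X i k ^ 2) * ∑ k, X k j ^ 2 := by
      intro i j
      rw [Matrix.mul_apply]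
      exact Finset.sum_mul_sq_le_sq_mul_sq _ _ _
    calc ∑ i, ∑ j, (X * X) i j ^ 2 ≤ ∑ i, ∑ j, (∑ k, X i k ^ 2) * ∑ k, X k j ^ 2 :=
          Finset.sum_le_sum fun i _ => Finset.sum_le_sum fun j _ => h5 i j
      _ = (∑ i, ∑ k, X i k ^ 2) * ∑ j, ∑ k, X k j ^ 2 := by
          rw [Finset.sum_mul]
          exact Finset.sum_congr rfl fun i _ => by rw [Finset.mul_sum]
      _ = F ^ 2 * F ^ 2 := by
          rw [hF2, Finset.sum_comm (f := fun j k => X k j ^ 2)]
  have h5 : (X * X * X).trace ^ 2 ≤ (F ^ 3) ^ 2 := by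
    calc (X * X * X).trace ^ 2 ≤ (∑ p : Fin n × Fin n, (X * X) p.1 p.2 ^ 2) *
          ∑ p : Fin n × Fin n, X p.1 p.2 ^ 2 := h2
      _ ≤ (F ^ 2 * F ^ 2) * F ^ 2 := by
          rw [h3]
          exact mul_le_mul_of_nonneg_right h4 (by positivity)
      _ = (F ^ 3) ^ 2 := by ring
  exact (le_abs_self _).trans (abs_le_of_sq_le_sq h5 (by positivity))

end PhitrAux

open PhitrAux

theorem phi_le_trace {n : ℕ} (hn : 0 < n) {A : Matrix (Fin n) (Fin n) ℝ} (hA : A.IsSymm)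
    (h : ∀ S : Matrix (Fin n) (Fin n) ℝ, S.det = 1 → (n : ℝ) ≤ (S.transpose * A * S).trace) :
    Phi (Real.sqrt (∑ i, ∑ j, ((A - 1) i j) ^ 2)) / 4 ≤ A.trace - n := by
  obtain ⟨X, hXA⟩ : ∃ X : Matrix (Fin n) (Fin n) ℝ, X = A - 1 := ⟨_, rfl⟩
  have hX : X.IsSymm := by
    rw [hXA]
    exact hA.sub Matrix.isSymm_one
  have hAX : A = 1 + X := by rw [hXA]; abel
  rw [← hXA]
  obtain ⟨F, hF⟩ : ∃ F, F = Real.sqrt (∑ i, ∑ j, (X i j) ^ 2) := ⟨_, rfl⟩
  rw [← hF]
  have hF0 : 0 ≤ F := by rw [hF]; exact Real.sqrt_nonneg _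
  have hF2 : F ^ 2 = ∑ i, ∑ j, X i j ^ 2 := by
    rw [hF]
    exact Real.sq_sqrt (Finset.sum_nonneg fun i _ => Finset.sum_nonneg fun j _ => sq_nonneg _)
  have htr2 : (X * X).trace = F ^ 2 := by
    rw [hF2, Matrix.trace]
    refine Finset.sum_congr rfl fun i _ => ?_
    rw [Matrix.diag_apply, Matrix.mul_apply]
    refine Finset.sum_congr rfl fun j _ => ?_
    have := congrFun (congrFun hX i) j
    rw [Matrix.transpose_apply] at this
    rw [this, sq]
  have htr3 := tr_cube hX hF0 hF2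
  obtain ⟨c, hc⟩ : ∃ c : ℝ, c = 1 / (2 * (1 + F)) := ⟨_, rfl⟩
  have hc0 : 0 < c := by rw [hc]; positivity
  have hcF : c * (1 + F) = 1 / 2 := by
    rw [hc]
    field_simp
  have hc1 : c ≤ 1 / 2 := by nlinarith
  -- the symmetric matrix `M = 1 - c X`
  obtain ⟨Z, hZ⟩ : ∃ Z : Matrix (Fin n) (Fin n) ℝ, Z = c • X := ⟨_, rfl⟩
  have hZh : Z.IsHermitian := by
    rw [Matrix.IsHermitian, Matrix.conjTranspose_eq_transpose_of_trivial, hZ,
      Matrix.transpose_smul, hX.eq]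
  have hZt : Z.trace = c * X.trace := by rw [hZ, Matrix.trace_smul, smul_eq_mul]
  have hZ2 : (Z * Z).trace = c ^ 2 * F ^ 2 := by
    rw [hZ, Matrix.smul_mul, Matrix.mul_smul, Matrix.trace_smul, Matrix.trace_smul, htr2,
      smul_eq_mul, smul_eq_mul]
    ring
  have hq : (Z * Z).trace ≤ 1 / 4 := by
    rw [hZ2]
    have h1 : 0 ≤ c * F := by positivity
    have h2 : c * F ≤ 1 / 2 := by nlinarith
    nlinarith
  have hdet := det_ge hZh hq
  have hdpos : 0 < (1 - Z).det := lt_of_lt_of_le (Real.exp_pos _) hdet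
  have hn' : (0 : ℝ) < n := Nat.cast_pos.2 hn
  obtain ⟨D, hD⟩ : ∃ D : ℝ, D = (1 - Z).det ^ ((1 : ℝ) / n) := ⟨_, rfl⟩
  have hD0 : 0 < D := by rw [hD]; exact Real.rpow_pos_of_pos hdpos _
  have hDn : D ^ n = (1 - Z).det := by
    rw [hD, ← Real.rpow_natCast, ← Real.rpow_mul hdpos.le]
    rw [one_div, inv_mul_cancel₀ hn'.ne', Real.rpow_one]
  have hD2 : (n : ℝ) * D ^ 2 ≥ n - 2 * Z.trace - 2 * (Z * Z).trace := by
    have h1 : Real.exp ((-Z.trace - (Z * Z).trace) / n) ≤ D := by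
      have h2 : Real.exp ((-Z.trace - (Z * Z).trace) / n) ^ n ≤ D ^ n := by
        rw [hDn, ← Real.exp_nat_mul]
        refine le_trans (le_of_eq ?_) hdet
        rw [mul_div_cancel₀ _ hn'.ne']
      exact le_of_pow_le_pow_left₀ hn.ne' hD0.le h2
    have h3 : Real.exp ((-Z.trace - (Z * Z).trace) / n) ^ 2 ≤ D ^ 2 :=
      pow_le_pow_left₀ (Real.exp_pos _).le h1 2
    have h4 := Real.add_one_le_exp (2 * ((-Z.trace - (Z * Z).trace) / n))
    have h5 : Real.exp (2 * ((-Z.trace - (Z * Z).trace) / n)) =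
        Real.exp ((-Z.trace - (Z * Z).trace) / n) ^ 2 := by
      rw [← Real.exp_nat_mul]
      norm_num
    rw [h5] at h4
    have h6 := mul_le_mul_of_nonneg_left (h4.trans h3) hn'.le
    have h7 : (n : ℝ) * (2 * ((-Z.trace - (Z * Z).trace) / n) + 1) =
        n - 2 * Z.trace - 2 * (Z * Z).trace := by
      field_simp
      ring
    rw [h7] at h6
    exact h6
  -- the test matrix
  have hS := h (D⁻¹ • (1 - Z)) (by
    rw [Matrix.det_smul, Fintype.card_fin, ← hDn, inv_pow]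
    exact inv_mul_cancel₀ (pow_pos hD0 n).ne')
  have hMt : (1 - Z).transpose = 1 - Z := by
    rw [Matrix.transpose_sub, Matrix.transpose_one, hZ, Matrix.transpose_smul, hX.eq]
  have hStr : ((D⁻¹ • (1 - Z)).transpose * A * (D⁻¹ • (1 - Z))).trace =
      (D ^ 2)⁻¹ * ((1 - Z) * (1 - Z) * A).trace := by
    rw [Matrix.transpose_smul, hMt, Matrix.smul_mul, Matrix.smul_mul, Matrix.mul_smul,
      Matrix.trace_smul, Matrix.trace_smul, Matrix.trace_mul_comm, ← mul_assoc, smul_eq_mul,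
      smul_eq_mul]
    ring
  have hexp : (1 - Z) * (1 - Z) * A = 1 + X - (2 * c) • X - (2 * c) • (X * X) +
      (c ^ 2) • (X * X) + (c ^ 2) • (X * X * X) := by
    rw [hAX, hZ]
    simp only [mul_add, sub_mul, mul_sub, one_mul, mul_one, Matrix.smul_mul,
      Matrix.mul_smul, smul_smul, mul_assoc]
    module
  have hexptr : ((1 - Z) * (1 - Z) * A).trace = n + X.trace - 2 * c * X.trace -
      2 * c * F ^ 2 + c ^ 2 * F ^ 2 + c ^ 2 * (X * X * X).trace := by
    rw [hexp]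
    simp only [Matrix.trace_add, Matrix.trace_sub, Matrix.trace_smul, Matrix.trace_one, htr2,
      smul_eq_mul, Fintype.card_fin]
  rw [hStr, hexptr] at hS
  have hS' : (n : ℝ) * D ^ 2 ≤ n + X.trace - 2 * c * X.trace -
      2 * c * F ^ 2 + c ^ 2 * F ^ 2 + c ^ 2 * (X * X * X).trace := by
    have hD2p : 0 < D ^ 2 := by positivity
    rw [← div_eq_inv_mul, le_div_iff₀ hD2p] at hS
    exact hS
  rw [hZt, hZ2] at hD2
  have hAt : A.trace - n = X.trace := by
    rw [hAX, Matrix.trace_add, Matrix.trace_one, Fintype.card_fin]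
    ring
  have hPhi : Phi F / 4 = c * F ^ 2 / 2 := by
    rw [Phi, hc]
    field_simp
    ring
  rw [hAt, hPhi]
  have h1 : c ^ 2 * (X * X * X).trace ≤ c ^ 2 * F ^ 3 :=
    mul_le_mul_of_nonneg_left htr3 (by positivity)
  have h2 : c ^ 2 * F ^ 3 = c * F ^ 2 * (1 / 2 - c) := by
    have : c * F = 1 / 2 - c := by linarith
    calc c ^ 2 * F ^ 3 = c * F ^ 2 * (c * F) := by ring
      _ = _ := by rw [this]
  have h3 : 0 ≤ c * F ^ 2 * (1 / 2 - c) := by
    have : 0 ≤ 1 / 2 - c := by linarith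
    positivity
  have h4 : c ^ 2 * F ^ 2 = c * F ^ 2 * c := by ring
  rw [h2] at h1
  nlinarith

end Pool.Agent.MP9dd972N
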