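import Mathlib
import Pool.Agent.Lib.MP_9dd972_gt.N.Centr

/-!
# A linear image between two fixed balls
-/

set_option autoImplicit false

namespace Pool.Agent.MP9dd972N

open MeasureTheory Set Metric
open scoped ENNReal NNReal Topology Pointwise

namespace PosAux

/-- the matrix with the columns `X j` -/
def mat {n : ℕ} (X : Fin n → EE n) : Matrix (Fin n) (Fin n) ℝ := Matrix.of fun i j => X j i

theorem mat_update {n : ℕ} (X : Fin n → EE n) (j : Fin n) (y : EE n) :
    mat (Function.update X j y) = (mat X).updateCol j (fun i => y i) := by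
  ext i k
  rw [Matrix.updateCol_apply]
  by_cases h : k = j
  · subst h
    simp [mat]
  · simp [mat, h]

theorem exists_max {n : ℕ} {K : Set (EE n)} (hK : Body K) :
    ∃ X : Fin n → EE n, (∀ j, X j ∈ K) ∧ (mat X).det ≠ 0 ∧
      ∀ Y : Fin n → EE n, (∀ j, Y j ∈ K) → |(mat Y).det| ≤ |(mat X).det| := by
  have hcont : Continuous fun X : Fin n → EE n => |(mat X).det| := by
    refine continuous_abs.comp ?_
    refine Continuous.matrix_det ?_
    refine continuous_matrix fun i j => ?_
    show Continuous fun X : Fin n → EE n => X j i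
    fun_prop
  have hcomp : IsCompact (Set.univ.pi fun _ : Fin n => K) := isCompact_univ_pi fun _ => hK.comp
  have hne : (Set.univ.pi fun _ : Fin n => K).Nonempty :=
    ⟨fun _ => 0, fun _ _ => interior_subset hK.zero⟩
  obtain ⟨X, hX, hmax⟩ := hcomp.exists_isMaxOn hne hcont.continuousOn
  have hmax' : ∀ Y : Fin n → EE n, (∀ j, Y j ∈ K) → |(mat Y).det| ≤ |(mat X).det| :=
    fun Y hY => hmax (fun j _ => hY j)
  refine ⟨X, fun j => hX j (Set.mem_univ j), ?_, hmax'⟩
  obtain ⟨ε, hε, hball⟩ := Metric.isOpen_iff.1 isOpen_interior 0 hK.zero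
  have h1 : ∀ j : Fin n, (ε / 2) • (EuclideanSpace.single j (1 : ℝ)) ∈ K := by
    intro j
    apply interior_subset
    apply hball
    rw [mem_ball_zero_iff, norm_smul, EuclideanSpace.norm_single, norm_one, mul_one,
      Real.norm_of_nonneg (by positivity)]
    linarith
  have h2 := hmax' _ h1
  have h3 : mat (fun j : Fin n => (ε / 2) • (EuclideanSpace.single j (1 : ℝ))) =
      Matrix.diagonal (fun _ => ε / 2) := by
    ext i j
    by_cases h : i = j
    · subst h
      simp [mat]
    · simp [mat, h, Matrix.diagonal_apply_ne]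
  rw [h3, Matrix.det_diagonal, Finset.prod_const] at h2
  intro h0
  rw [h0, abs_zero] at h2
  have : 0 < |(ε / 2) ^ (Finset.univ : Finset (Fin n)).card| := by positivity
  linarith

end PosAux

open PosAux in
theorem exists_position (n : ℕ) (hn : 0 < n) :
    ∃ r R : ℝ, 0 < r ∧ 1 ≤ R ∧ ∀ K : Set (EE n), Body K → ∫ x in K, x = (0 : EE n) →
      ∃ g : EE n ≃L[ℝ] EE n, ball (0 : EE n) r ⊆ g '' K ∧
        g '' K ⊆ closedBall (0 : EE n) R := by
  have hn' : (0 : ℝ) < n := by exact_mod_cast hn
  refine ⟨1 / (2 ^ (n + 1) * n), Real.sqrt n, by positivity, ?_, fun K hK hc => ?_⟩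
  · rw [Real.one_le_sqrt]
    exact_mod_cast hn
  obtain ⟨X, hX, hdet, hmax⟩ := exists_max hK
  set A := mat X with hA
  have hinv : ∀ z : Fin n → ℝ, A.adjugate.mulVec (A.mulVec z) = A.det • z := by
    intro z
    rw [Matrix.mulVec_mulVec, Matrix.adjugate_mul, Matrix.smul_mulVec, Matrix.one_mulVec]
  let ℓ : EE n →ₗ[ℝ] EE n := Matrix.toEuclideanLin A
  have hℓ : ∀ z i, ℓ z i = A.mulVec (fun j => z j) i := fun z i => rfl
  have hinj : Function.Injective ℓ := by
    rw [injective_iff_map_eq_zero]
    intro z hz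
    have h1 : A.mulVec (fun j => z j) = 0 := by
      funext i
      rw [← hℓ, hz]
      rfl
    have h2 := hinv (fun j => z j)
    rw [h1, Matrix.mulVec_zero] at h2
    ext i
    have h3 := congrFun h2 i
    rw [Pi.smul_apply, smul_eq_mul] at h3
    have h4 : (0 : ℝ) = A.det * z i := h3
    rcases mul_eq_zero.1 h4.symm with h5 | h5
    · exact absurd h5 hdet
    · exact h5
  let L : EE n ≃L[ℝ] EE n := (LinearEquiv.ofInjectiveEndo ℓ hinj).toContinuousLinearEquiv
  have hL : ∀ z, L z = ℓ z := fun z => rfl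
  have hLs : ∀ z, ℓ z = ∑ j, z j • X j := by
    intro z
    ext i
    rw [hℓ, Matrix.mulVec, dotProduct]
    simp only [hA, mat, Matrix.of_apply]
    have : (∑ j, z j • X j) i = ∑ j, z j * X j i := by
      simp [WithLp.ofLp_sum]
    rw [this]
    exact Finset.sum_congr rfl fun j _ => mul_comm _ _
  refine ⟨L.symm, ?_, ?_⟩
  · rw [ContinuousLinearEquiv.image_symm_eq_preimage]
    intro z hz
    rw [mem_ball_zero_iff] at hz
    show L z ∈ K
    have habs : Absorbent ℝ K := absorbent_nhds_zero (mem_interior_iff_mem_nhds.1 hK.zero)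
    have h0 : (0 : EE n) ∈ K := interior_subset hK.zero
    apply setOfPred_gauge_lt_one_subset_self hK.conv h0 habs
    show gauge K (L z) < 1
    rw [hL, hLs]
    have hm : (1 : ℝ) ≤ 2 ^ (n + 1) := one_le_pow₀ (by norm_num)
    have hterm : ∀ j, gauge K (z j • X j) ≤ 2 ^ (n + 1) * ‖z‖ := by
      intro j
      have hzj : |z j| ≤ ‖z‖ := by
        rw [← Real.norm_eq_abs]
        exact PiLp.norm_apply_le z j
      have hXj : gauge K (X j) ≤ 1 := gauge_le_one_of_mem (hX j)
      have hX0 : 0 ≤ gauge K (X j) := gauge_nonneg _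
      rcases le_total 0 (z j) with h | h
      · rw [gauge_smul_of_nonneg h, smul_eq_mul]
        rw [abs_of_nonneg h] at hzj
        calc z j * gauge K (X j) ≤ ‖z‖ * 1 := by gcongr
          _ ≤ 2 ^ (n + 1) * ‖z‖ := by nlinarith [norm_nonneg z]
      · have e : z j • X j = (-z j) • (-X j) := by rw [smul_neg, neg_smul, neg_neg]
        rw [e, gauge_smul_of_nonneg (neg_nonneg.2 h), smul_eq_mul]
        rw [abs_of_nonpos h] at hzj
        have h5 := gauge_neg_le hK hc (X j)
        calc -z j * gauge K (-X j) ≤ ‖z‖ * (2 ^ (n + 1) * 1) := by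
              refine mul_le_mul hzj (h5.trans (by gcongr)) (gauge_nonneg _) (norm_nonneg _)
          _ = 2 ^ (n + 1) * ‖z‖ := by ring
    calc gauge K (∑ j, z j • X j) ≤ ∑ j, gauge K (z j • X j) :=
          gauge_sum_le hK.conv habs _ _
      _ ≤ ∑ _j : Fin n, 2 ^ (n + 1) * ‖z‖ := Finset.sum_le_sum fun j _ => hterm j
      _ = (2 ^ (n + 1) * n) * ‖z‖ := by
          rw [Finset.sum_const, Finset.card_univ, Fintype.card_fin, nsmul_eq_mul]
          ring
      _ < (2 ^ (n + 1) * n) * (1 / (2 ^ (n + 1) * n)) := by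
          gcongr
      _ = 1 := by field_simp
  · rw [ContinuousLinearEquiv.image_symm_eq_preimage]
    intro z hz
    have hz' : ℓ z ∈ K := hz
    have hzj : ∀ j, |z j| ≤ 1 := by
      intro j
      have h1 := hmax (Function.update X j (ℓ z)) (fun k => by
        by_cases h : k = j
        · subst h
          rw [Function.update_self]
          exact hz'
        · rw [Function.update_of_ne h]
          exact hX k)
      rw [mat_update] at h1
      have h2 : ((mat X).updateCol j (fun i => (ℓ z) i)).det = A.det * z j := by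
        rw [← Matrix.cramer_apply, Matrix.cramer_eq_adjugate_mulVec]
        have h3 := congrFun (hinv (fun j => z j)) j
        rw [Pi.smul_apply, smul_eq_mul] at h3
        exact h3
      rw [h2, abs_mul] at h1
      have h4 : 0 < |A.det| := abs_pos.2 hdet
      exact le_of_mul_le_mul_left (by linarith) h4
    rw [mem_closedBall_zero_iff, EuclideanSpace.norm_eq]
    apply Real.sqrt_le_sqrt
    calc ∑ i, ‖z i‖ ^ 2 ≤ ∑ _i : Fin n, (1 : ℝ) := by
          refine Finset.sum_le_sum fun i _ => ?_
          rw [Real.norm_eq_abs]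
          exact pow_le_one₀ (abs_nonneg _) (hzj i)
      _ = n := by simp

end Pool.Agent.MP9dd972N
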