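import Mathlib
import Pool.Agent.Lib.MP_9dd972_gt.N.Defs

set_option autoImplicit false

namespace Pool.Agent.MP9dd972N

open MeasureTheory Set Metric
open scoped ENNReal NNReal Topology Pointwise

namespace PoincaAux

theorem Phi_mono {s s' : ℝ} (hs : 0 ≤ s) (h : s ≤ s') : Phi s ≤ Phi s' := by
  unfold Phi
  rw [div_le_div_iff₀ (by linarith) (by linarith)]
  have h1 : s * s ≤ s' * s' := mul_self_le_mul_self hs h
  have h2 : s * s' * s ≤ s * s' * s' := mul_le_mul_of_nonneg_left h (mul_nonneg hs (hs.trans h))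
  nlinarith

theorem Phi_scale {c s : ℝ} (hc : 1 ≤ c) (hs : 0 ≤ s) : Phi (c * s) ≤ c ^ 2 * Phi s := by
  unfold Phi
  rw [← mul_div_assoc]
  have h1 : (c * s) ^ 2 = c ^ 2 * s ^ 2 := by ring
  rw [h1]
  apply div_le_div_of_nonneg_left (by positivity) (by linarith)
  nlinarith

theorem Phi_tangent {a b : ℝ} (ha : 0 ≤ a) (hb : 0 ≤ b) :
    Phi a + (1 - 1 / (1 + a) ^ 2) * (b - a) ≤ Phi b := by
  unfold Phi
  have hp : 0 < 1 + a := by linarith
  have hq : 0 < 1 + b := by linarith
  have key : b ^ 2 / (1 + b) - (a ^ 2 / (1 + a) + (1 - 1 / (1 + a) ^ 2) * (b - a)) =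
      (a - b) ^ 2 / ((1 + a) ^ 2 * (1 + b)) := by
    field_simp
    ring
  have h2 : 0 ≤ (a - b) ^ 2 / ((1 + a) ^ 2 * (1 + b)) := by positivity
  linarith

theorem Phi_cont {f : ℝ → ℝ} (hf : Continuous f) (h0 : ∀ t, 0 ≤ f t) :
    Continuous fun t => Phi (f t) := by
  unfold Phi
  exact (hf.pow 2).div (continuous_const.add hf) fun t => by
    have := h0 t
    positivity

end PoincaAux

theorem seg_bound {n : ℕ} {K : Set (EE n)} (hK : Convex ℝ K) {R M : ℝ}
    (hR : 1 ≤ R) (hKR : K ⊆ closedBall (0 : EE n) R) {v : EE n → EE n} (hv : ContDiff ℝ 1 v)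
    (hM : ∀ x ∈ K, ‖v x‖ ≤ M) {x y : EE n} (hx : x ∈ K) (hy : y ∈ K) :
    ‖v x - v y‖ ^ 2 ≤ (1 + 2 * M) * (4 * R ^ 2)
      * ∫ t in (0 : ℝ)..1, Phi ‖fderiv ℝ v (y + t • (x - y))‖ := by
  have _ := hK
  have hM0 : 0 ≤ M := (norm_nonneg _).trans (hM x hx)
  have hγ : ∀ t : ℝ, HasDerivAt (fun t : ℝ => y + t • (x - y)) (x - y) t := by
    intro t
    have h := ((hasDerivAt_id t).smul_const (x - y)).const_add y
    simpa using h
  have hγc : Continuous fun t : ℝ => y + t • (x - y) := by fun_prop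
  have hv' : Continuous (fun z => fderiv ℝ v z) := hv.continuous_fderiv (by norm_num)
  have hcont : Continuous fun t : ℝ => fderiv ℝ v (y + t • (x - y)) := hv'.comp hγc
  have hg : Continuous fun t : ℝ => ‖fderiv ℝ v (y + t • (x - y))‖ := hcont.norm
  have hder : ∀ t : ℝ, HasDerivAt (fun t : ℝ => v (y + t • (x - y)))
      (fderiv ℝ v (y + t • (x - y)) (x - y)) t := by
    intro t
    exact ((hv.differentiable (by norm_num)) (y + t • (x - y))).hasFDerivAt.comp_hasDerivAt t (hγ t)
  have hcont2 : Continuous fun t : ℝ => fderiv ℝ v (y + t • (x - y)) (x - y) :=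
    hcont.clm_apply continuous_const
  have hftc : ∫ t in (0 : ℝ)..1, fderiv ℝ v (y + t • (x - y)) (x - y) = v x - v y := by
    rw [intervalIntegral.integral_eq_sub_of_hasDerivAt (fun t _ => hder t)
      (hcont2.intervalIntegrable _ _)]
    simp
  set J : ℝ := ∫ t in (0 : ℝ)..1, ‖fderiv ℝ v (y + t • (x - y))‖ with hJ
  have hJ0 : 0 ≤ J := intervalIntegral.integral_nonneg zero_le_one fun t _ => norm_nonneg _
  set s : ℝ := ‖v x - v y‖ with hs
  have hs0 : 0 ≤ s := norm_nonneg _
  have hxy : ‖x - y‖ ≤ 2 * R := by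
    have h1 := hKR hx
    have h2 := hKR hy
    rw [mem_closedBall, dist_zero_right] at h1 h2
    exact (norm_sub_le x y).trans (by linarith)
  have hsJ : s ≤ 2 * R * J := by
    rw [hs, ← hftc]
    refine (intervalIntegral.norm_integral_le_integral_norm zero_le_one).trans ?_
    have h1 : ∫ t in (0 : ℝ)..1, ‖fderiv ℝ v (y + t • (x - y)) (x - y)‖ ≤
        ∫ t in (0 : ℝ)..1, 2 * R * ‖fderiv ℝ v (y + t • (x - y))‖ := by
      refine intervalIntegral.integral_mono_on zero_le_one
        (hcont2.norm.intervalIntegrable _ _)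
        ((continuous_const.mul hg).intervalIntegrable _ _) fun t _ => ?_
      refine (ContinuousLinearMap.le_opNorm _ _).trans ?_
      rw [mul_comm]
      exact mul_le_mul_of_nonneg_right hxy (norm_nonneg _)
    rw [intervalIntegral.integral_const_mul] at h1
    exact h1
  have hs2M : s ≤ 2 * M := by
    have h1 := hM x hx
    have h2 := hM y hy
    exact (norm_sub_le (v x) (v y)).trans (by linarith)
  -- Jensen
  have hjen : Phi J ≤ ∫ t in (0 : ℝ)..1, Phi ‖fderiv ℝ v (y + t • (x - y))‖ := by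
    have h1 : ∫ t in (0 : ℝ)..1, (Phi J + (1 - 1 / (1 + J) ^ 2) *
        (‖fderiv ℝ v (y + t • (x - y))‖ - J)) ≤
        ∫ t in (0 : ℝ)..1, Phi ‖fderiv ℝ v (y + t • (x - y))‖ := by
      refine intervalIntegral.integral_mono_on zero_le_one ?_ ?_ fun t _ => ?_
      · exact (continuous_const.add (continuous_const.mul
          (hg.sub continuous_const))).intervalIntegrable _ _
      · exact (PoincaAux.Phi_cont hg fun t => norm_nonneg _).intervalIntegrable _ _
      · exact PoincaAux.Phi_tangent hJ0 (norm_nonneg _)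
    have h2 : ∫ t in (0 : ℝ)..1, (Phi J + (1 - 1 / (1 + J) ^ 2) *
        (‖fderiv ℝ v (y + t • (x - y))‖ - J)) = Phi J := by
      have e1 : IntervalIntegrable (fun _ : ℝ => Phi J) volume 0 1 :=
        continuous_const.intervalIntegrable _ _
      have e2 : IntervalIntegrable (fun t : ℝ => (1 - 1 / (1 + J) ^ 2) *
          (‖fderiv ℝ v (y + t • (x - y))‖ - J)) volume 0 1 :=
        Continuous.intervalIntegrable (by fun_prop) _ _
      have e3 : IntervalIntegrable (fun t : ℝ => ‖fderiv ℝ v (y + t • (x - y))‖) volume 0 1 :=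
        hg.intervalIntegrable _ _
      have e4 : IntervalIntegrable (fun _ : ℝ => J) volume 0 1 :=
        continuous_const.intervalIntegrable _ _
      rw [intervalIntegral.integral_add e1 e2, intervalIntegral.integral_const_mul,
        intervalIntegral.integral_sub e3 e4, ← hJ]
      simp
    linarith
  have hPhis : s ^ 2 = (1 + s) * Phi s := by
    unfold Phi
    have : (1 + s) ≠ 0 := by positivity
    field_simp
  have hPhi0 : 0 ≤ Phi s := by unfold Phi; positivity
  have h4 : Phi s ≤ (2 * R) ^ 2 * Phi J :=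
    (PoincaAux.Phi_mono hs0 hsJ).trans (PoincaAux.Phi_scale (by linarith) hJ0)
  calc s ^ 2 = (1 + s) * Phi s := hPhis
    _ ≤ (1 + 2 * M) * Phi s := mul_le_mul_of_nonneg_right (by linarith) hPhi0
    _ ≤ (1 + 2 * M) * ((2 * R) ^ 2 * Phi J) := mul_le_mul_of_nonneg_left h4 (by linarith)
    _ ≤ (1 + 2 * M) * ((2 * R) ^ 2 *
        ∫ t in (0 : ℝ)..1, Phi ‖fderiv ℝ v (y + t • (x - y))‖) := by
          refine mul_le_mul_of_nonneg_left ?_ (by linarith)
          exact mul_le_mul_of_nonneg_left hjen (by positivity)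
    _ = _ := by ring

end Pool.Agent.MP9dd972N
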