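import Mathlib
import Pool.Agent.Lib.MP_9dd972_gt.N.Defs

/-!
# Averaging over segments
-/

set_option autoImplicit false

namespace Pool.Agent.MP9dd972N

open MeasureTheory Set Metric
open scoped ENNReal NNReal Topology Pointwise

namespace PoincbAux

variable {n : ℕ} {K : Set (EE n)} {g : EE n → ℝ}

theorem slice (hK : Convex ℝ K) (hKc : IsCompact K) (hg : Continuous g) (h0 : ∀ x, 0 ≤ g x)
    {x : EE n} (hx : x ∈ K) {t : ℝ} (ht0 : 0 ≤ t) (ht : t ≤ 1 / 2) :
    ∫ y in K, g (y + t • (x - y)) ≤ 2 ^ n * ∫ y in K, g y := by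
  have hKm : MeasurableSet K := hKc.measurableSet
  have hs : (0 : ℝ) < 1 - t := by linarith
  have hφ : ∀ y : EE n, y + t • (x - y) = t • x + (1 - t) • y := by
    intro y
    rw [smul_sub, sub_smul, one_smul]
    abel
  set h : EE n → ℝ := K.indicator g with hh
  have hint : Integrable h := by
    rw [hh, integrable_indicator_iff hKm]
    exact hg.continuousOn.integrableOn_compact hKc
  have hint2 : Integrable (fun y : EE n => h (t • x + (1 - t) • y)) := by
    have h1 : Integrable (fun y : EE n => h (t • x + y)) := hint.comp_add_left (t • x)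
    exact h1.comp_smul hs.ne'
  have hnn : ∀ y, 0 ≤ h y := fun y => Set.indicator_nonneg (fun z _ => h0 z) y
  have h1 : ∫ y in K, g (y + t • (x - y)) ≤ ∫ y, h (t • x + (1 - t) • y) := by
    rw [← integral_indicator hKm]
    refine integral_mono_of_nonneg (Filter.Eventually.of_forall fun y =>
      Set.indicator_nonneg (fun z _ => h0 _) y) hint2 (Filter.Eventually.of_forall fun y => ?_)
    show K.indicator (fun y => g (y + t • (x - y))) y ≤ h (t • x + (1 - t) • y)
    by_cases hy : y ∈ K
    · rw [Set.indicator_of_mem hy, hφ, hh, Set.indicator_of_mem]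
      exact hK hx hy ht0 hs.le (by ring)
    · rw [Set.indicator_of_notMem hy]
      exact hnn _
  have h2 : ∫ y, h (t • x + (1 - t) • y) = ((1 - t) ^ n)⁻¹ * ∫ y in K, g y := by
    have h3 := Measure.integral_comp_smul (volume : Measure (EE n)) (fun y => h (t • x + y)) (1 - t)
    rw [h3, integral_add_left_eq_self (μ := (volume : Measure (EE n))) h (t • x), hh,
      integral_indicator hKm, finrank_euclideanSpace_fin, smul_eq_mul,
      abs_of_pos (by positivity)]
  rw [h2] at h1
  refine h1.trans ?_
  have h3 : ((1 - t) ^ n)⁻¹ ≤ 2 ^ n := by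
    rw [← inv_pow]
    apply pow_le_pow_left₀ (by positivity)
    rw [inv_le_comm₀ hs (by norm_num)]
    linarith
  have h4 : 0 ≤ ∫ y in K, g y := integral_nonneg h0
  exact mul_le_mul_of_nonneg_right h3 h4

theorem half (hK : Convex ℝ K) (hKc : IsCompact K) (hg : Continuous g) (h0 : ∀ x, 0 ≤ g x)
    {x : EE n} (hx : x ∈ K) :
    ∫ y in K, (∫ t in (0 : ℝ)..(1 / 2), g (y + t • (x - y))) ≤
      1 / 2 * (2 ^ n * ∫ y in K, g y) := by
  have hle : (0 : ℝ) ≤ 1 / 2 := by norm_num
  have hc : Continuous (fun p : EE n × ℝ => g (p.1 + p.2 • (x - p.1))) := by fun_prop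
  have hI : Integrable (Function.uncurry fun (y : EE n) (t : ℝ) => g (y + t • (x - y)))
      ((volume.restrict K).prod (volume.restrict (Ioc (0 : ℝ) (1 / 2)))) := by
    rw [Measure.prod_restrict]
    have : IntegrableOn (fun p : EE n × ℝ => g (p.1 + p.2 • (x - p.1))) (K ×ˢ Icc (0 : ℝ) (1 / 2))
        (volume.prod volume) := hc.continuousOn.integrableOn_compact (hKc.prod isCompact_Icc)
    exact this.mono_set (Set.prod_mono_right Ioc_subset_Icc_self)
  have h1 : ∫ y in K, (∫ t in (0 : ℝ)..(1 / 2), g (y + t • (x - y))) =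
      ∫ t in Ioc (0 : ℝ) (1 / 2), ∫ y in K, g (y + t • (x - y)) := by
    rw [← integral_integral_swap hI]
    simp only [intervalIntegral.integral_of_le hle]
  rw [h1]
  have h2 : ∫ t in Ioc (0 : ℝ) (1 / 2), ∫ y in K, g (y + t • (x - y)) ≤
      ∫ _t in Ioc (0 : ℝ) (1 / 2), (2 ^ n * ∫ y in K, g y) := by
    refine setIntegral_mono_on hI.integral_prod_right ?_ measurableSet_Ioc fun t ht =>
      slice hK hKc hg h0 hx ht.1.le ht.2
    exact integrableOn_const (by simp)
  refine h2.trans (le_of_eq ?_)
  rw [setIntegral_const, smul_eq_mul, measureReal_def, Real.volume_Ioc]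
  rw [ENNReal.toReal_ofReal (by norm_num)]
  ring

end PoincbAux

open PoincbAux in
theorem seg_int {n : ℕ} {K : Set (EE n)} (hK : Convex ℝ K) (hKc : IsCompact K)
    {g : EE n → ℝ} (hg : Continuous g) (h0 : ∀ x, 0 ≤ g x) :
    ∫ x in K, ∫ y in K, (∫ t in (0 : ℝ)..1, g (y + t • (x - y)))
      ≤ 2 ^ n * (volume K).toReal * ∫ x in K, g x := by
  have hKm : MeasurableSet K := hKc.measurableSet
  set G : EE n → EE n → ℝ := fun x y => ∫ t in (0 : ℝ)..(1 / 2), g (y + t • (x - y)) with hG
  have hcG : Continuous (Function.uncurry G) := by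
    have h1 : Continuous (Function.uncurry fun (p : EE n × EE n) (t : ℝ) =>
      g (p.2 + t • (p.1 - p.2))) := by
      show Continuous fun q : (EE n × EE n) × ℝ => g (q.1.2 + q.2 • (q.1.1 - q.1.2))
      fun_prop
    exact intervalIntegral.continuous_parametric_intervalIntegral_of_continuous' h1 0 (1 / 2)
  have hsplit : ∀ x y : EE n, (∫ t in (0 : ℝ)..1, g (y + t • (x - y))) = G x y + G y x := by
    intro x y
    have hc : Continuous fun t : ℝ => g (y + t • (x - y)) := by fun_prop
    rw [← intervalIntegral.integral_add_adjacent_intervals (b := 1 / 2)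
      (hc.intervalIntegrable _ _) (hc.intervalIntegrable _ _)]
    congr 1
    have h1 := intervalIntegral.integral_comp_sub_left (a := 0) (b := 1 / 2)
      (fun t : ℝ => g (y + t • (x - y))) 1
    have h2 : (1 : ℝ) - 1 / 2 = 1 / 2 := by norm_num
    rw [sub_zero, h2] at h1
    rw [← h1]
    show _ = ∫ t in (0 : ℝ)..(1 / 2), g (x + t • (y - x))
    refine intervalIntegral.integral_congr fun t _ => ?_
    show g (y + (1 - t) • (x - y)) = g (x + t • (y - x))
    congr 1
    rw [sub_smul, one_smul, ← neg_sub x y, smul_neg]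
    abel
  simp only [hsplit]
  have hint : Integrable (Function.uncurry G) ((volume.restrict K).prod (volume.restrict K)) := by
    rw [Measure.prod_restrict]
    exact hcG.continuousOn.integrableOn_compact (hKc.prod hKc)
  have hcGx : ∀ x, IntegrableOn (G x) K := fun x =>
    (hcG.comp (Continuous.prodMk_right x)).continuousOn.integrableOn_compact hKc
  have hcGy : ∀ x, IntegrableOn (fun y => G y x) K := fun x =>
    (hcG.comp (Continuous.prodMk_left x)).continuousOn.integrableOn_compact hKc
  have h1 : ∀ x, ∫ y in K, (G x y + G y x) = (∫ y in K, G x y) + ∫ y in K, G y x := fun x =>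
    integral_add (hcGx x) (hcGy x)
  simp only [h1]
  have h2 : ∫ x in K, ∫ y in K, G y x = ∫ x in K, ∫ y in K, G x y :=
    (integral_integral_swap hint).symm
  have i1 : IntegrableOn (fun x => ∫ y in K, G x y) K := hint.integral_prod_left
  have i2 : IntegrableOn (fun x => ∫ y in K, G y x) K := hint.integral_prod_right
  rw [integral_add i1 i2, h2]
  have h3 : ∫ x in K, ∫ y in K, G x y ≤ ∫ _x in K, (1 / 2 * (2 ^ n * ∫ y in K, g y)) :=
    setIntegral_mono_on i1 (integrableOn_const hKc.measure_lt_top.ne) hKm fun x hx =>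
      half hK hKc hg h0 hx
  rw [setIntegral_const, smul_eq_mul, measureReal_def] at h3
  calc _ ≤ (volume K).toReal * (1 / 2 * (2 ^ n * ∫ y in K, g y)) +
        (volume K).toReal * (1 / 2 * (2 ^ n * ∫ y in K, g y)) := add_le_add h3 h3
    _ = _ := by ring

end Pool.Agent.MP9dd972N
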