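import Mathlib
import Pool.Agent.Lib.MP_9dd972_gt.N.Defs
import Pool.Agent.Lib.MP_9dd972_gt.N.Poinca
import Pool.Agent.Lib.MP_9dd972_gt.N.Poincb

/-!
# Poincare type inequality
-/

set_option autoImplicit false

namespace Pool.Agent.MP9dd972N

open MeasureTheory Set Metric
open scoped ENNReal NNReal Topology Pointwise

namespace PoincAux

theorem phi_nonneg {s : ℝ} (hs : 0 ≤ s) : 0 ≤ Phi s := by
  unfold Phi
  positivity

theorem phi_cont {n : ℕ} {v : EE n → EE n} (hv : ContDiff ℝ 1 v) :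
    Continuous fun x : EE n => Phi ‖fderiv ℝ v x‖ := by
  have h1 : Continuous (fderiv ℝ v) := hv.continuous_fderiv (by norm_num)
  unfold Phi
  apply Continuous.div
  · exact h1.norm.pow 2
  · exact continuous_const.add h1.norm
  · intro x
    have := norm_nonneg (fderiv ℝ v x)
    positivity

theorem int_compact {n : ℕ} {K : Set (EE n)} (hKc : IsCompact K) {E : Type*}
    [NormedAddCommGroup E] [NormedSpace ℝ E] {f : EE n → E} (hf : Continuous f) :
    IntegrableOn f K :=
  hf.continuousOn.integrableOn_compact hKc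

/-- Variance identity. -/
theorem variance {n : ℕ} {K : Set (EE n)} (hKc : IsCompact K) {v : EE n → EE n}
    (hv : Continuous v) :
    ∫ x in K, ∫ y in K, ‖v x - v y‖ ^ 2 =
      2 * (volume K).toReal * (∫ x in K, ‖v x‖ ^ 2) - 2 * ‖∫ x in K, v x‖ ^ 2 := by
  set V : ℝ := (volume K).toReal with hV
  set w : EE n := ∫ x in K, v x with hw
  set I2 : ℝ := ∫ x in K, ‖v x‖ ^ 2 with hI2
  have h1 : ∀ x, ∫ y in K, ‖v x - v y‖ ^ 2 = V * ‖v x‖ ^ 2 - 2 * inner ℝ (v x) w + I2 := by
    intro x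
    have e : ∀ y, ‖v x - v y‖ ^ 2 = ‖v x‖ ^ 2 - 2 * inner ℝ (v x) (v y) + ‖v y‖ ^ 2 :=
      fun y => norm_sub_sq_real _ _
    simp_rw [e]
    have i1 : IntegrableOn (fun _ : EE n => ‖v x‖ ^ 2) K := int_compact hKc continuous_const
    have i2 : IntegrableOn (fun y : EE n => 2 * (inner ℝ (v x) (v y) : ℝ)) K :=
      int_compact hKc (continuous_const.mul (continuous_const.inner hv))
    have i3 : IntegrableOn (fun y : EE n => ‖v y‖ ^ 2) K := int_compact hKc (hv.norm.pow 2)
    have i4 : IntegrableOn v K := int_compact hKc hv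
    have i12 : IntegrableOn (fun y : EE n => ‖v x‖ ^ 2 - 2 * (inner ℝ (v x) (v y) : ℝ)) K :=
      i1.sub i2
    rw [integral_add i12 i3, integral_sub i1 i2, setIntegral_const, smul_eq_mul,
      integral_const_mul]
    have i5 : ∫ y in K, (inner ℝ (v x) (v y) : ℝ) = inner ℝ (v x) w :=
      integral_inner (𝕜 := ℝ) (μ := volume.restrict K) i4 (v x)
    rw [i5]
    rfl
  simp_rw [h1]
  have j1 : IntegrableOn (fun x : EE n => V * ‖v x‖ ^ 2) K :=
    int_compact hKc (continuous_const.mul (hv.norm.pow 2))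
  have j2 : IntegrableOn (fun x : EE n => 2 * (inner ℝ (v x) w : ℝ)) K :=
    int_compact hKc (continuous_const.mul (hv.inner continuous_const))
  have j3 : IntegrableOn (fun _ : EE n => I2) K := int_compact hKc continuous_const
  have j4 : IntegrableOn v K := int_compact hKc hv
  have j12 : IntegrableOn (fun x : EE n => V * ‖v x‖ ^ 2 - 2 * (inner ℝ (v x) w : ℝ)) K :=
    j1.sub j2
  rw [integral_add j12 j3, integral_sub j1 j2, setIntegral_const, smul_eq_mul,
    integral_const_mul, integral_const_mul]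
  have j5 : ∫ x in K, (inner ℝ (v x) w : ℝ) = ‖w‖ ^ 2 := by
    have h2 := integral_inner (𝕜 := ℝ) (μ := volume.restrict K) j4 w
    rw [← hw, real_inner_self_eq_norm_sq] at h2
    rw [← h2]
    congr 1
    ext x
    exact real_inner_comm _ _
  rw [j5]
  have hVr : volume.real K = V := rfl
  rw [hVr, ← hI2]
  ring

theorem core {n : ℕ} {K : Set (EE n)} (hKc : IsCompact K) {v : EE n → EE n}
    (hvc : Continuous v) {g : EE n → ℝ} (hg : Continuous g) (hg0 : ∀ x, 0 ≤ g x) {A : ℝ}
    (hA0 : 0 ≤ A)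
    (hb : ∀ x ∈ K, ∀ y ∈ K, ‖v x - v y‖ ^ 2 ≤ A * ∫ t in (0 : ℝ)..1, g (y + t • (x - y)))
    (hs : ∫ x in K, ∫ y in K, (∫ t in (0 : ℝ)..1, g (y + t • (x - y)))
      ≤ 2 ^ n * (volume K).toReal * ∫ x in K, g x) (hvol : 0 < (volume K).toReal) :
    ∫ x in K, ‖v x‖ ^ 2 ≤ A * 2 ^ n * (∫ x in K, g x)
      + ‖∫ x in K, v x‖ ^ 2 / (volume K).toReal := by
  set V : ℝ := (volume K).toReal with hV
  have h1 := variance hKc hvc
  have c1 : Continuous fun p : EE n × EE n => ‖v p.1 - v p.2‖ ^ 2 :=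
    ((hvc.comp continuous_fst).sub (hvc.comp continuous_snd)).norm.pow 2
  have c2 : Continuous fun p : EE n × EE n =>
      A * ∫ t in (0 : ℝ)..1, g (p.2 + t • (p.1 - p.2)) := by
    apply continuous_const.mul
    apply intervalIntegral.continuous_parametric_intervalIntegral_of_continuous'
    have : Continuous fun q : (EE n × EE n) × ℝ => q.1.2 + q.2 • (q.1.1 - q.1.2) := by fun_prop
    exact hg.comp this
  have c1' : Continuous fun x : EE n => ∫ y in K, ‖v x - v y‖ ^ 2 :=
    continuous_parametric_integral_of_continuous (f := fun x y : EE n => ‖v x - v y‖ ^ 2) c1 hKc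
  have c2' : Continuous fun x : EE n => ∫ y in K,
      (A * ∫ t in (0 : ℝ)..1, g (y + t • (x - y))) :=
    continuous_parametric_integral_of_continuous
      (f := fun x y : EE n => A * ∫ t in (0 : ℝ)..1, g (y + t • (x - y))) c2 hKc
  have h2 : ∫ x in K, ∫ y in K, ‖v x - v y‖ ^ 2 ≤
      ∫ x in K, ∫ y in K, (A * ∫ t in (0 : ℝ)..1, g (y + t • (x - y))) := by
    refine setIntegral_mono_on (int_compact hKc c1') (int_compact hKc c2') hKc.measurableSet ?_
    intro x hx
    have d1 : Continuous fun y : EE n => ‖v x - v y‖ ^ 2 := (continuous_const.sub hvc).norm.pow 2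
    have d2 : Continuous fun y : EE n =>
        A * ∫ t in (0 : ℝ)..1, g (y + t • (x - y)) := by
      apply continuous_const.mul
      apply intervalIntegral.continuous_parametric_intervalIntegral_of_continuous'
      have : Continuous fun q : EE n × ℝ => q.1 + q.2 • (x - q.1) := by fun_prop
      exact hg.comp this
    exact setIntegral_mono_on (int_compact hKc d1) (int_compact hKc d2) hKc.measurableSet
      fun y hy => hb x hx y hy
  have h3 : ∫ x in K, ∫ y in K, (A * ∫ t in (0 : ℝ)..1, g (y + t • (x - y))) =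
      A * ∫ x in K, ∫ y in K, ∫ t in (0 : ℝ)..1, g (y + t • (x - y)) := by
    simp_rw [integral_const_mul]
  have h4 := mul_le_mul_of_nonneg_left hs hA0
  set P : ℝ := ∫ x in K, g x with hP
  have hP0 : 0 ≤ P := integral_nonneg fun x => hg0 x
  set I2 : ℝ := ∫ x in K, ‖v x‖ ^ 2 with hI2
  set W : ℝ := ‖∫ x in K, v x‖ ^ 2 with hW
  rw [h3] at h2
  rw [← hV] at h1
  have h5 : 2 * V * I2 - 2 * W ≤ A * (2 ^ n * V * P) := by
    rw [← h1]
    exact h2.trans h4
  have h6 : 0 ≤ A * 2 ^ n * P := by positivity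
  have h7 : V * (W / V) = W := by
    field_simp
  have h8 : V * I2 ≤ V * (A * 2 ^ n * P + W / V) := by
    rw [mul_add, h7]
    nlinarith
  exact le_of_mul_le_mul_left h8 hvol

end PoincAux

open PoincAux in
theorem poincare {n : ℕ} {K : Set (EE n)} (hK : Convex ℝ K) (hKc : IsCompact K) {R M : ℝ}
    (hR : 1 ≤ R) (hKR : K ⊆ closedBall (0 : EE n) R) {v : EE n → EE n} (hv : ContDiff ℝ 1 v)
    (hM : ∀ x ∈ K, ‖v x‖ ≤ M) (hvol : 0 < (volume K).toReal) :
    ∫ x in K, ‖v x‖ ^ 2 ≤ (1 + 2 * M) * (4 * R ^ 2) * 2 ^ n * (∫ x in K, Phi ‖fderiv ℝ v x‖)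
      + ‖∫ x in K, v x‖ ^ 2 / (volume K).toReal := by
  have hne : K.Nonempty := by
    rw [nonempty_iff_ne_empty]
    rintro rfl
    simp at hvol
  obtain ⟨x0, hx0⟩ := hne
  have hM0 : 0 ≤ M := (norm_nonneg _).trans (hM x0 hx0)
  have hg := phi_cont hv
  have hg0 : ∀ x : EE n, 0 ≤ Phi ‖fderiv ℝ v x‖ := fun x => phi_nonneg (norm_nonneg _)
  exact core hKc hv.continuous hg hg0 (by positivity)
    (fun x hx y hy => seg_bound hK hR hKR hv hM hx hy) (seg_int hK hKc hg hg0) hvol

end Pool.Agent.MP9dd972N
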