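import Mathlib
import Pool.Agent.Lib.MP_9dd972_gt.N.Defs
import Pool.Agent.Lib.MP_9dd972_gt.N.Hsup
import Pool.Agent.Lib.MP_9dd972_gt.N.Gauge
import Pool.Agent.Lib.MP_9dd972_gt.N.Div

set_option autoImplicit false

namespace Pool.Agent.MP9dd972N

open MeasureTheory Set Metric
open scoped ENNReal NNReal Topology Pointwise

namespace TraceAux

variable {n : ℕ}

theorem expand (x : EE n) : x = ∑ i, (x i) • EuclideanSpace.single i (1 : ℝ) := by
  ext j
  simp [Finset.sum_apply, Pi.single_apply]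

theorem dv_smul_id {F : EE n → ℝ} (hF : ContDiff ℝ 1 F) (x : EE n) :
    dv (fun x => F x • x) x = n * F x + fderiv ℝ F x x := by
  have hd : HasFDerivAt F (fderiv ℝ F x) x := (hF.differentiable one_ne_zero x).hasFDerivAt
  have h1 := hd.smul (hasFDerivAt_id x)
  have h2 : fderiv ℝ (fun x => F x • x) x =
      F x • ContinuousLinearMap.id ℝ (EE n) + (fderiv ℝ F x).smulRight x := h1.fderiv
  have h3 : ∀ i : Fin n, (fderiv ℝ (fun x => F x • x) x (EuclideanSpace.single i (1 : ℝ))) i =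
      F x + x i * fderiv ℝ F x (EuclideanSpace.single i (1 : ℝ)) := by
    intro i
    rw [h2]
    simp [mul_comm]
  have h4 : fderiv ℝ F x x = ∑ i, x i * fderiv ℝ F x (EuclideanSpace.single i (1 : ℝ)) := by
    conv_lhs => rw [expand x]
    rw [map_sum]
    refine Finset.sum_congr rfl fun i _ => ?_
    rw [map_smul, smul_eq_mul, ← expand x]
  rw [dv]
  simp only [h3]
  rw [Finset.sum_add_distrib, h4]
  simp

end TraceAux

open TraceAux

theorem trace_cone {n : ℕ} (hn : 0 < n) {K : Set (EE n)} (hK : Body K) {F : EE n → ℝ}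
    (hF : ContDiff ℝ 1 F) :
    n * ∫ x in K, F (bd K x) = ∫ x in K, (n * F x + fderiv ℝ F x x) := by
  have h0 : ContDiff ℝ 1 (fun x : EE n => F x • x) := hF.smul contDiff_id
  have h1 : ∫ x in K, dv (fun x => F x • x) x =
      n * ∫ x in K, (inner ℝ (NN K x) (F (bd K x) • bd K x) : ℝ) := div_cone hn hK h0
  have h2 : ∫ x in K, dv (fun x => F x • x) x = ∫ x in K, (n * F x + fderiv ℝ F x x) := by
    congr 1
    funext x
    exact dv_smul_id hF x
  have h3 : ∫ x in K, (inner ℝ (NN K x) (F (bd K x) • bd K x) : ℝ) = ∫ x in K, F (bd K x) := by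
    refine integral_congr_ae (ae_restrict_of_ae ?_)
    filter_upwards [hK.ae_diff hn] with x hx
    rw [inner_smul_right, inner_NN_bd hK hx.1 hx.2, mul_one]
  rw [← h2, h1, h3]

theorem div_le {n : ℕ} (hn : 0 < n) {K C : Set (EE n)} (hK : Body K) (hC : IsCompact C)
    {T : EE n → EE n} (hT : ContDiff ℝ 1 T) (hTC : ∀ x, T x ∈ C) :
    ∫ x in K, dv T x ≤ n * ∫ x in K, hh C (NN K x) := by
  rw [div_cone hn hK hT]
  refine mul_le_mul_of_nonneg_left ?_ (Nat.cast_nonneg n)
  obtain ⟨M, hM⟩ := hK.comp.exists_bound_of_continuousOn hT.continuous.continuousOn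
  refine integral_mono ?_ ?_ ?_
  · exact DivAux.int_inner hK (hT.continuous.measurable.comp (bd_meas hK))
      (fun x _ => hM _ (bd_mem hK x))
  · exact int_hh hK hC ⟨T 0, hTC 0⟩
  · intro x
    exact inner_le_hh hC (hTC _) _

end Pool.Agent.MP9dd972N
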