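import Mathlib
import Pool.Agent.Lib.MP_9dd972_gt.N.Defs
import Pool.Agent.Lib.MP_9dd972_gt.N.Trace
import Pool.Agent.Lib.MP_9dd972_gt.N.Poinc
import Pool.Agent.Lib.MP_9dd972_gt.N.Gauge
import Pool.Agent.Lib.MP_9dd972_gt.N.Hom
import Pool.Agent.Lib.MP_9dd972_gt.N.Hsup

set_option autoImplicit false

namespace Pool.Agent.MP9dd972N

open MeasureTheory Set Metric
open scoped ENNReal NNReal Topology Pointwise

namespace StaboneAux

theorem phi_nn {s : ℝ} (hs : 0 ≤ s) : 0 ≤ Phi s := by unfold Phi; positivity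

theorem ab_le {R a b : ℝ} (hR : 1 ≤ R) (_ha : 0 ≤ a) (haR : a ≤ 2 * R) (hb : 0 ≤ b) :
    a * b ≤ a ^ 2 / 2 + (1 + 4 * R) * Phi b := by
  have h1 : 0 < 1 + b := by linarith
  rcases le_total b 1 with h | h
  · have h2 : b ^ 2 / 2 ≤ Phi b := by
      unfold Phi
      rw [div_le_div_iff₀ (by norm_num) h1]
      nlinarith [sq_nonneg b]
    have h3 := phi_nn hb
    nlinarith [sq_nonneg (a - b)]
  · have h2 : b / 2 ≤ Phi b := by
      unfold Phi
      rw [div_le_div_iff₀ (by norm_num) h1]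
      nlinarith
    have h3 := phi_nn hb
    nlinarith [sq_nonneg a, mul_le_mul_of_nonneg_right haR hb]

theorem phi_cont {X : Type*} [TopologicalSpace X] {g : X → ℝ} (hg : Continuous g)
    (h0 : ∀ x, 0 ≤ g x) : Continuous fun x => Phi (g x) := by
  unfold Phi
  exact (hg.pow 2).div (continuous_const.add hg) fun x => by have := h0 x; linarith

end StaboneAux

open StaboneAux in
theorem stab_one {n : ℕ} (hn : 0 < n) {r R : ℝ} (hr : 0 < r) (hR : 1 ≤ R) :
    ∃ A : ℝ, 0 ≤ A ∧ ∀ K C : Set (EE n), Round r R K → Round r R C → volume K = volume C →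
      ∫ x in K, x = (0 : EE n) → ∀ δ : ℝ, 0 < δ → δ ≤ 1 / 2 →
      ∀ T : EE n → EE n, ContDiff ℝ 2 T → (∀ x, T x ∈ C) →
      (∀ x ∈ (1 - δ) • K, Phi ‖fderiv ℝ (fun y => T y - y) x‖ / 4 ≤ dv T x - n) →
      ∫ x in K, (max 0 ((1 - δ) - hh C (NN K x))) ^ 2
        ≤ A * ((1 - δ) ^ (n - 1) * (∫ x in K, hh C (NN K x)) - (1 - δ) ^ n * (volume K).toReal
          + ‖∫ x in (1 - δ) • K, T x‖ ^ 2) := by
  have hR0 : 0 < R := by linarith
  set v0 : ℝ := (1 / 2) ^ n * (volume (ball (0 : EE n) r)).toReal with hv0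
  have hbpos : 0 < (volume (ball (0 : EE n) r)).toReal :=
    ENNReal.toReal_pos (measure_ball_pos volume _ hr).ne' measure_ball_lt_top.ne
  have hv0p : 0 < v0 := by positivity
  set c1 : ℝ := (1 + 2 * (2 * R)) * (4 * R ^ 2) * 2 ^ n with hc1
  have hc1p : 0 < c1 := by positivity
  have hnR : (1 : ℝ) ≤ n := by exact_mod_cast hn
  refine ⟨2 ^ n * (r⁻¹) ^ 2 * ((n + R) * (4 * n * c1 + v0⁻¹) + 8 * n * R * (1 + 4 * R)),
    by positivity, ?_⟩
  intro K C hK hC hv cK δ hδ hδ2 T hT hTC hTd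
  have h1δ : 0 < 1 - δ := by linarith
  have h1δ' : 1 - δ ≤ 1 := by linarith
  have hneC : C.Nonempty := ⟨0, interior_subset hC.zero⟩
  set K' : Set (EE n) := (1 - δ) • K with hK'def
  have hK' : Body K' := hK.toBody.smul h1δ
  have hT1 : ContDiff ℝ 1 T := hT.of_le (by norm_num)
  set v : EE n → EE n := fun y => T y - y with hvdef
  have hv1 : ContDiff ℝ 1 v := hT1.sub contDiff_id
  set I := ∫ x in K, hh C (NN K x) with hI
  set V := (volume K).toReal with hV
  set Q : ℝ := (1 - δ) ^ (n - 1) * I - (1 - δ) ^ n * V with hQ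
  set m2 : ℝ := ‖∫ x in K', T x‖ ^ 2 with hm2
  have hm2n : 0 ≤ m2 := by positivity
  have hK'c : IsCompact K' := hK'.comp
  have hK'm : MeasurableSet K' := hK'c.measurableSet
  have hpowsplit : (1 - δ) ^ n = (1 - δ) ^ (n - 1) * (1 - δ) := by
    rw [← pow_succ]; congr 1; omega
  -- K' inside K
  have hK'K : K' ⊆ K := by
    rintro _ ⟨x, hx, rfl⟩
    exact hK.conv.smul_mem_of_zero_mem (interior_subset hK.zero) hx ⟨h1δ.le, h1δ'⟩
  have hK'R : K' ⊆ closedBall (0 : EE n) R := hK'K.trans hK.out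
  have hvolK' : (volume K').toReal = (1 - δ) ^ n * V := vol_smul K h1δ
  have hvolK'0 : v0 ≤ (volume K').toReal := by
    rw [hvolK', hv0]
    have h1 : (volume (ball (0 : EE n) r)).toReal ≤ V :=
      ENNReal.toReal_mono hK.comp.measure_lt_top.ne (measure_mono hK.inn)
    have h2 : (1 / 2 : ℝ) ^ n ≤ (1 - δ) ^ n := pow_le_pow_left₀ (by norm_num) (by linarith) n
    exact mul_le_mul h2 h1 hbpos.le (by positivity)
  have hvolpos : 0 < (volume K').toReal := hv0p.trans_le hvolK'0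
  -- integrability of continuous functions on K'
  have hci : ∀ f : EE n → ℝ, Continuous f → IntegrableOn f K' := fun f hf =>
    hf.continuousOn.integrableOn_compact hK'c
  have hdvc : Continuous (dv T) := by
    unfold dv
    refine continuous_finsetSum _ fun i _ => ?_
    have h1 : Continuous fun x => fderiv ℝ T x (EuclideanSpace.single i (1 : ℝ)) :=
      (hT1.continuous_fderiv (by norm_num)).clm_apply continuous_const
    exact (EuclideanSpace.proj i).continuous.comp h1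
  have hDv : Continuous fun x => fderiv ℝ v x := hv1.continuous_fderiv (by norm_num)
  have hPhic : Continuous fun x => Phi ‖fderiv ℝ v x‖ :=
    phi_cont hDv.norm fun x => norm_nonneg _
  -- (1)
  have hstep1 : ∫ x in K', (dv T x - n) ≤ n * Q := by
    have h1 := div_le hn hK' hC.comp hT1 hTC
    have h2 : ∫ x in K', hh C (NN K' x) = (1 - δ) ^ (n - 1) * I := by
      have h3 : ∀ x, hh C (NN K' x) = (1 - δ)⁻¹ * hh C (NN K x) := fun x => by
        rw [hK'def, NN_smul_set K h1δ, hh_smul C (inv_pos.2 h1δ).le]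
      simp_rw [h3]
      rw [integral_const_mul, hK'def,
        hom_smul K (H := fun x => hh C (NN K x)) (fun c x hc => by simp only [NN_smul K hc]) h1δ,
        hpowsplit]
      field_simp
      rfl
    rw [h2] at h1
    rw [integral_sub (hci _ hdvc) (integrable_const_iff.2 (Or.inr (by
      constructor
      simpa using hK'c.measure_lt_top))), integral_const, measureReal_restrict_apply_univ,
      smul_eq_mul]
    have h4 : volume.real K' = (1 - δ) ^ n * V := hvolK'
    rw [h4, hQ]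
    nlinarith
  set P : ℝ := ∫ x in K', Phi ‖fderiv ℝ v x‖ with hP
  have hP0 : 0 ≤ P := integral_nonneg fun x => phi_nn (norm_nonneg _)
  have hfinK' : IsFiniteMeasure (volume.restrict K') := ⟨by simpa using hK'c.measure_lt_top⟩
  have hP4 : P ≤ 4 * n * Q := by
    have h1 : ∫ x in K', Phi ‖fderiv ℝ v x‖ / 4 ≤ ∫ x in K', (dv T x - n) := by
      refine setIntegral_mono_on ((hci _ hPhic).div_const 4)
        ((hci _ hdvc).sub (integrable_const _)) hK'm fun x hx => hTd x hx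
    rw [integral_div] at h1
    linarith
  have hQ0 : 0 ≤ Q := by
    have : 0 ≤ 4 * n * Q := hP0.trans hP4
    by_contra hneg
    push Not at hneg
    nlinarith
  -- (2)
  set S2 : ℝ := ∫ x in K', ‖v x‖ ^ 2 with hS2
  have hM : ∀ x ∈ K', ‖v x‖ ≤ 2 * R := fun x hx => by
    have h1 : ‖T x‖ ≤ R := by
      have := hC.out (hTC x)
      rwa [mem_closedBall_zero_iff] at this
    have h2 : ‖x‖ ≤ R := by
      have := hK'R hx
      rwa [mem_closedBall_zero_iff] at this
    calc ‖v x‖ = ‖T x - x‖ := rfl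
      _ ≤ ‖T x‖ + ‖x‖ := norm_sub_le _ _
      _ ≤ 2 * R := by linarith
  have hS2b : S2 ≤ c1 * P + m2 * v0⁻¹ := by
    have h1 := poincare hK'.conv hK'c hR hK'R hv1 hM hvolpos
    have h2 : ∫ x in K', v x = ∫ x in K', T x := by
      have h3 : ∫ x in K', v x = (∫ x in K', T x) - ∫ x in K', x := by
        have hi1 : IntegrableOn T K' := hT1.continuous.continuousOn.integrableOn_compact hK'c
        have hi2 : IntegrableOn (fun x : EE n => x) K' :=
          continuous_id.continuousOn.integrableOn_compact hK'c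
        exact integral_sub hi1 hi2
      have h4 : ∫ x in K', x = (0 : EE n) := by
        have h5 := Measure.setIntegral_comp_smul (μ := (volume : Measure (EE n)))
          (fun x : EE n => x) K h1δ.ne'
        rw [integral_smul, cK, smul_zero] at h5
        have h6 : |((1 - δ) ^ Module.finrank ℝ (EE n))⁻¹| ≠ 0 := by positivity
        rcases smul_eq_zero.1 h5.symm with h7 | h7
        · exact absurd h7 h6
        · exact h7
      rw [h3, h4, sub_zero]
    rw [h2] at h1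
    have h3 : m2 / (volume K').toReal ≤ m2 * v0⁻¹ := by
      rw [div_eq_mul_inv]
      exact mul_le_mul_of_nonneg_left (inv_anti₀ hv0p hvolK'0) hm2n
    linarith
  -- (3)
  set S3 : ℝ := ∫ x in K', ‖v (bd K' x)‖ ^ 2 with hS3
  have hF1 : ContDiff ℝ 1 fun x => ‖v x‖ ^ 2 := hv1.norm_sq ℝ
  have hS3b : n * S3 ≤ (n + R) * S2 + 2 * R * (1 + 4 * R) * P := by
    have h1 := trace_cone hn hK' hF1
    rw [h1]
    have h2 : ∀ x ∈ K', n * ‖v x‖ ^ 2 + fderiv ℝ (fun x => ‖v x‖ ^ 2) x x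
        ≤ (n + R) * ‖v x‖ ^ 2 + 2 * R * (1 + 4 * R) * Phi ‖fderiv ℝ v x‖ := by
      intro x hx
      have h3 : HasFDerivAt (fun x => ‖v x‖ ^ 2) (2 • (innerSL ℝ (v x)).comp (fderiv ℝ v x)) x :=
        ((hv1.differentiable (by norm_num)) x).hasFDerivAt.norm_sq
      rw [h3.fderiv]
      have h4 : (2 • (innerSL ℝ (v x)).comp (fderiv ℝ v x)) x
          = 2 * (inner ℝ (v x) (fderiv ℝ v x x) : ℝ) := by
        simp
      rw [h4]
      have h5 : ‖x‖ ≤ R := by
        have := hK'R hx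
        rwa [mem_closedBall_zero_iff] at this
      have h6 : (inner ℝ (v x) (fderiv ℝ v x x) : ℝ) ≤ R * (‖v x‖ * ‖fderiv ℝ v x‖) := by
        calc (inner ℝ (v x) (fderiv ℝ v x x) : ℝ) ≤ ‖v x‖ * ‖fderiv ℝ v x x‖ :=
              real_inner_le_norm _ _
          _ ≤ ‖v x‖ * (‖fderiv ℝ v x‖ * R) := by
              apply mul_le_mul_of_nonneg_left _ (norm_nonneg _)
              exact ((fderiv ℝ v x).le_opNorm x).trans
                (mul_le_mul_of_nonneg_left h5 (norm_nonneg _))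
          _ = R * (‖v x‖ * ‖fderiv ℝ v x‖) := by ring
      have h7 := ab_le hR (norm_nonneg (v x)) (hM x hx) (norm_nonneg (fderiv ℝ v x))
      have h8 := mul_le_mul_of_nonneg_left h7 hR0.le
      nlinarith
    have hL : Continuous fun x => n * ‖v x‖ ^ 2 + fderiv ℝ (fun x => ‖v x‖ ^ 2) x x :=
      (continuous_const.mul hF1.continuous).add
        ((hF1.continuous_fderiv (by norm_num)).clm_apply continuous_id)
    have hRc : Continuous fun x =>
        (n + R) * ‖v x‖ ^ 2 + 2 * R * (1 + 4 * R) * Phi ‖fderiv ℝ v x‖ :=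
      (continuous_const.mul hF1.continuous).add (continuous_const.mul hPhic)
    refine (setIntegral_mono_on (hci _ hL) (hci _ hRc) hK'm h2).trans (le_of_eq ?_)
    rw [integral_add ((hci _ hF1.continuous).const_mul _) ((hci _ hPhic).const_mul _),
      integral_const_mul, integral_const_mul]
  -- (4)
  have hS3n : 0 ≤ S3 := integral_nonneg fun x => by positivity
  have hbdm : Measurable fun x => ‖v (bd K' x)‖ ^ 2 :=
    ((hv1.continuous.measurable.comp (bd_meas hK')).norm).pow_const 2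
  have hbdi : IntegrableOn (fun x => ‖v (bd K' x)‖ ^ 2) K' := by
    refine Integrable.of_bound (C := (2 * R) ^ 2) hbdm.aestronglyMeasurable
      (Filter.Eventually.of_forall fun x => ?_)
    rw [Real.norm_of_nonneg (by positivity)]
    exact pow_le_pow_left₀ (norm_nonneg _) (hM _ (bd_mem hK' x)) 2
  have hmeasH : Measurable fun x => (max 0 ((1 - δ) - hh C (NN K x))) ^ 2 :=
    (measurable_const.max (measurable_const.sub
      ((hh_cont hC.comp hneC).measurable.comp (NN_meas K)))).pow_const 2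
  have hpt : ∀ᵐ x ∂(volume.restrict K'),
      (max 0 ((1 - δ) - hh C (NN K x))) ^ 2 ≤ (r⁻¹) ^ 2 * ‖v (bd K' x)‖ ^ 2 := by
    refine ae_restrict_of_ae ?_
    filter_upwards [hK'.ae_diff hn] with x hx
    have h1 := inner_NN_bd hK' hx.1 hx.2
    have h2 : (inner ℝ (NN K' x) (T (bd K' x)) : ℝ) ≤ hh C (NN K' x) :=
      inner_le_hh hC.comp (hTC _) _
    have h3 : 1 - hh C (NN K' x) ≤ ‖NN K' x‖ * ‖v (bd K' x)‖ := by
      have h4 : (inner ℝ (NN K' x) (v (bd K' x)) : ℝ)
          = inner ℝ (NN K' x) (T (bd K' x)) - 1 := by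
        show (inner ℝ (NN K' x) (T (bd K' x) - bd K' x) : ℝ) = _
        rw [inner_sub_right, h1]
      have h5 := abs_real_inner_le_norm (NN K' x) (v (bd K' x))
      have h6 := neg_abs_le (inner ℝ (NN K' x) (v (bd K' x)) : ℝ)
      linarith
    have h7 : NN K' x = (1 - δ)⁻¹ • NN K x := by rw [hK'def, NN_smul_set K h1δ]
    rw [h7, hh_smul C (inv_pos.2 h1δ).le, norm_smul, Real.norm_of_nonneg (inv_pos.2 h1δ).le] at h3
    have h8 : (1 - δ) - hh C (NN K x) ≤ ‖NN K x‖ * ‖v (bd K' x)‖ := by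
      have h9 := mul_le_mul_of_nonneg_left h3 h1δ.le
      have e1 : (1 - δ) * (1 - (1 - δ)⁻¹ * hh C (NN K x)) = (1 - δ) - hh C (NN K x) := by
        field_simp
      have e2 : (1 - δ) * ((1 - δ)⁻¹ * ‖NN K x‖ * ‖v (bd K' x)‖)
          = ‖NN K x‖ * ‖v (bd K' x)‖ := by field_simp
      rw [e1, e2] at h9
      exact h9
    have h10 : ‖NN K x‖ * ‖v (bd K' x)‖ ≤ r⁻¹ * ‖v (bd K' x)‖ :=
      mul_le_mul_of_nonneg_right (norm_NN_le hr hK x) (norm_nonneg _)
    have h11 : max 0 ((1 - δ) - hh C (NN K x)) ≤ r⁻¹ * ‖v (bd K' x)‖ :=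
      max_le (by positivity) (h8.trans h10)
    calc (max 0 ((1 - δ) - hh C (NN K x))) ^ 2 ≤ (r⁻¹ * ‖v (bd K' x)‖) ^ 2 :=
          pow_le_pow_left₀ (le_max_left _ _) h11 2
      _ = (r⁻¹) ^ 2 * ‖v (bd K' x)‖ ^ 2 := by ring
  have h4 : ∫ x in K', (max 0 ((1 - δ) - hh C (NN K x))) ^ 2 ≤ (r⁻¹) ^ 2 * S3 := by
    rw [hS3, ← integral_const_mul]
    refine integral_mono_of_nonneg (Filter.Eventually.of_forall fun x => by positivity)
      (hbdi.const_mul _) hpt
  have h5 : ∫ x in K', (max 0 ((1 - δ) - hh C (NN K x))) ^ 2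
      = (1 - δ) ^ n * ∫ x in K, (max 0 ((1 - δ) - hh C (NN K x))) ^ 2 :=
    hom_smul K (fun c x hc => by simp only [NN_smul K hc]) h1δ
  rw [h5] at h4
  set LH : ℝ := ∫ x in K, (max 0 ((1 - δ) - hh C (NN K x))) ^ 2 with hLH
  have hLH0 : 0 ≤ LH := integral_nonneg fun x => by positivity
  have h6 : LH ≤ 2 ^ n * ((r⁻¹) ^ 2 * S3) := by
    have h7 : (1 / 2 : ℝ) ^ n ≤ (1 - δ) ^ n := pow_le_pow_left₀ (by norm_num) (by linarith) n
    have h8 : (1 / 2 : ℝ) ^ n * LH ≤ (r⁻¹) ^ 2 * S3 :=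
      (mul_le_mul_of_nonneg_right h7 hLH0).trans h4
    have h9 : LH = 2 ^ n * ((1 / 2 : ℝ) ^ n * LH) := by
      rw [← mul_assoc, ← mul_pow]
      norm_num
    rw [h9]
    exact mul_le_mul_of_nonneg_left h8 (by positivity)
  have h7 : S3 ≤ (n + R) * S2 + 2 * R * (1 + 4 * R) * P := by
    have : S3 ≤ n * S3 := le_mul_of_one_le_left hS3n hnR
    linarith
  have h8 : (n + R) * S2 + 2 * R * (1 + 4 * R) * P
      ≤ ((n + R) * (4 * n * c1 + v0⁻¹) + 8 * n * R * (1 + 4 * R)) * (Q + m2) := by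
    have hv0i : 0 < v0⁻¹ := inv_pos.2 hv0p
    have e1 : (n + R) * S2 ≤ (n + R) * (c1 * (4 * n * Q) + m2 * v0⁻¹) := by
      apply mul_le_mul_of_nonneg_left _ (by positivity)
      have := mul_le_mul_of_nonneg_left hP4 hc1p.le
      linarith
    have e2 : 2 * R * (1 + 4 * R) * P ≤ 2 * R * (1 + 4 * R) * (4 * n * Q) :=
      mul_le_mul_of_nonneg_left hP4 (by positivity)
    have e3 : ((n + R) * (4 * n * c1 + v0⁻¹) + 8 * n * R * (1 + 4 * R)) * (Q + m2)
        - ((n + R) * (c1 * (4 * n * Q) + m2 * v0⁻¹) + 2 * R * (1 + 4 * R) * (4 * n * Q))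
        = (n + R) * (4 * n * c1) * m2 + (n + R) * v0⁻¹ * Q + 8 * n * R * (1 + 4 * R) * m2 := by
      ring
    have e4 : 0 ≤ (n + R) * (4 * n * c1) * m2 + (n + R) * v0⁻¹ * Q
        + 8 * n * R * (1 + 4 * R) * m2 := by positivity
    linarith
  calc LH ≤ 2 ^ n * ((r⁻¹) ^ 2 * S3) := h6
    _ ≤ 2 ^ n * ((r⁻¹) ^ 2 *
        (((n + R) * (4 * n * c1 + v0⁻¹) + 8 * n * R * (1 + 4 * R)) * (Q + m2))) := by
        gcongr
        exact h7.trans h8
    _ = 2 ^ n * (r⁻¹) ^ 2 * ((n + R) * (4 * n * c1 + v0⁻¹) + 8 * n * R * (1 + 4 * R))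
        * (Q + m2) := by ring

end Pool.Agent.MP9dd972N
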