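import Mathlib
import Pool.Agent.Lib.MP_9dd972_gt.N.Defs
import Pool.Agent.Lib.MP_9dd972_gt.N.Hsup
import Pool.Agent.Lib.MP_9dd972_gt.N.Conj

/-!
# MP_9dd972_gt part 2, module VARI: the gradient of the optimal potential transports the volume
-/

set_option autoImplicit false

namespace Pool.Agent.MP9dd972N

open MeasureTheory Set Metric
open scoped ENNReal NNReal Topology Pointwise

namespace VariAux

open Filter

theorem cj_lipschitz {n : ℕ} {C : Set (EE n)} (hC : IsCompact C) (hne : C.Nonempty) :
    ∃ L : ℝ≥0, ∀ ψ : EE n → ℝ, Continuous ψ → LipschitzWith L (cj C ψ) := by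
  obtain ⟨R, hR⟩ := hC.isBounded.subset_closedBall (0 : EE n)
  have hR' : C ⊆ closedBall (0 : EE n) (max R 0) := hR.trans (closedBall_subset_closedBall
    (le_max_left _ _))
  refine ⟨⟨max R 0, le_max_right _ _⟩, fun ψ hψ => LipschitzWith.of_dist_le_mul fun x z => ?_⟩
  have h1 : ∀ a b : EE n, cj C ψ a - cj C ψ b ≤ max R 0 * ‖a - b‖ := fun a b =>
    (cj_slope hC hne hψ b a).trans (hh_bound hne hR' (a - b))
  rw [Real.dist_eq, dist_eq_norm, abs_le]
  constructor
  · have := h1 z x
    rw [norm_sub_rev] at this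
    change -(max R 0 * ‖x - z‖) ≤ _
    linarith
  · exact h1 x z

theorem measurable_gradient {n : ℕ} (φ : EE n → ℝ) : Measurable (gradient φ) := by
  have h : Measurable (fun x => (InnerProductSpace.toDual ℝ (EE n)).symm (fderiv ℝ φ x)) :=
    (InnerProductSpace.toDual ℝ (EE n)).symm.continuous.measurable.comp (measurable_fderiv ℝ φ)
  exact h

/-- the derivative of the conjugate in the direction `g`. -/
theorem tendsto_quot {n : ℕ} {C : Set (EE n)} (hC : IsCompact C) (hne : C.Nonempty)
    {ψ g : EE n → ℝ} (hψ : Continuous ψ) (hg : Continuous g) {M : ℝ} (hM : ∀ y, |g y| ≤ M)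
    {x : EE n} (hd : DifferentiableAt ℝ (cj C ψ) x) {t : ℕ → ℝ} (ht : ∀ m, 0 < t m)
    (ht0 : Tendsto t atTop (𝓝 0)) :
    Tendsto (fun m => (cj C (fun y => ψ y + t m * g y) x - cj C ψ x) / t m) atTop
      (𝓝 (-g (gradient (cj C ψ) x))) := by
  have hc : ∀ m, Continuous fun y => ψ y + t m * g y := fun m => hψ.add (continuous_const.mul hg)
  obtain ⟨y0, hy0, hm0⟩ := exists_cj hC hne hψ x
  have hgr : gradient (cj C ψ) x = y0 := cj_grad hC hψ hy0 hm0 hd
  choose y hy hm using fun m => exists_cj hC hne (hc m) x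
  have habs : ∀ m, |cj C (fun y => ψ y + t m * g y) x - cj C ψ x| ≤ t m * M := by
    intro m
    refine cj_sub_le hC hne (hc m) hψ (fun z _ => ?_) x
    rw [add_sub_cancel_left, abs_mul, abs_of_pos (ht m)]
    exact mul_le_mul_of_nonneg_left (hM z) (ht m).le
  have htM : Tendsto (fun m => t m * M) atTop (𝓝 0) := by
    simpa using ht0.mul_const M
  have hF : Tendsto (fun m => (inner ℝ x (y m) : ℝ) - ψ (y m)) atTop (𝓝 (cj C ψ x)) := by
    have h1 : Tendsto (fun m => cj C (fun y => ψ y + t m * g y) x - cj C ψ x) atTop (𝓝 0) :=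
      squeeze_zero_norm (fun m => by simpa using habs m) htM
    have h2 : Tendsto (fun m => t m * g (y m)) atTop (𝓝 0) := by
      refine squeeze_zero_norm (fun m => ?_) htM
      rw [Real.norm_eq_abs, abs_mul, abs_of_pos (ht m)]
      exact mul_le_mul_of_nonneg_left (hM _) (ht m).le
    have h3 := (h1.add h2).add_const (cj C ψ x)
    rw [zero_add, zero_add] at h3
    refine h3.congr fun m => ?_
    rw [hm m]
    ring
  have hFc : Continuous fun z : EE n => (inner ℝ x z : ℝ) - ψ z :=
    (continuous_const.inner continuous_id).sub hψ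
  have hylim : Tendsto y atTop (𝓝 y0) := by
    refine hC.tendsto_nhds_of_unique_mapClusterPt (Eventually.of_forall hy) fun z hz hcl => ?_
    have h1 : MapClusterPt ((inner ℝ x z : ℝ) - ψ z) atTop
        (fun m => (inner ℝ x (y m) : ℝ) - ψ (y m)) := hcl.continuousAt_comp hFc.continuousAt
    have h2 : (inner ℝ x z : ℝ) - ψ z = cj C ψ x :=
      eq_of_nhds_neBot (ClusterPt.mono h1 hF)
    rw [← hgr]
    exact (cj_grad hC hψ hz h2.symm hd).symm
  have hlim1 : Tendsto (fun m => -g (y m)) atTop (𝓝 (-g y0)) :=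
    ((hg.tendsto y0).comp hylim).neg
  rw [hgr]
  refine tendsto_of_tendsto_of_tendsto_of_le_of_le tendsto_const_nhds hlim1 (fun m => ?_)
    (fun m => ?_)
  · have h1 := le_cj hC (hc m) x hy0
    show -g y0 ≤ (cj C (fun y => ψ y + t m * g y) x - cj C ψ x) / t m
    rw [le_div_iff₀ (ht m), hm0]
    linarith
  · have h1 := le_cj hC hψ x (hy m)
    show (cj C (fun y => ψ y + t m * g y) x - cj C ψ x) / t m ≤ -g (y m)
    rw [div_le_iff₀ (ht m), hm m]
    linarith

theorem integral_le {n : ℕ} {K C : Set (EE n)} (hK : Body K) (hC : Body C)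
    {ψ : EE n → ℝ} (hψ : Continuous ψ)
    (hmin : ∀ ψ' : EE n → ℝ, Continuous ψ' →
      (∫ x in K, cj C ψ x) + (∫ y in C, ψ y) ≤ (∫ x in K, cj C ψ' x) + ∫ y in C, ψ' y)
    {g : EE n → ℝ} (hg : Continuous g) {M : ℝ} (hM : ∀ y, |g y| ≤ M) :
    ∫ x in K, g (gradient (cj C ψ) x) ≤ ∫ y in C, g y := by
  have hne : C.Nonempty := ⟨0, interior_subset hC.zero⟩
  obtain ⟨L, hL⟩ := cj_lipschitz hC.comp hne
  have hae : ∀ᵐ x ∂(volume.restrict K), DifferentiableAt ℝ (cj C ψ) x :=
    ae_restrict_of_ae (hL ψ hψ).ae_differentiableAt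
  set t : ℕ → ℝ := fun m => 1 / ((m : ℝ) + 1) with ht
  have htp : ∀ m, 0 < t m := fun m => by positivity
  have ht0 : Tendsto t atTop (𝓝 0) := tendsto_one_div_add_atTop_nhds_zero_nat
  have hc : ∀ m, Continuous fun y => ψ y + t m * g y := fun m => hψ.add (continuous_const.mul hg)
  have hintK : ∀ f : EE n → ℝ, Continuous f → IntegrableOn f K := fun f hf =>
    hf.continuousOn.integrableOn_compact hK.comp
  have hintC : ∀ f : EE n → ℝ, Continuous f → IntegrableOn f C := fun f hf =>
    hf.continuousOn.integrableOn_compact hC.comp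
  have : IsFiniteMeasure (volume.restrict K : Measure (EE n)) :=
    ⟨by rw [Measure.restrict_apply_univ]; exact hK.comp.measure_lt_top⟩
  have hlim : Tendsto (fun m => ∫ x in K, (cj C (fun y => ψ y + t m * g y) x - cj C ψ x) / t m)
      atTop (𝓝 (∫ x in K, -g (gradient (cj C ψ) x))) := by
    refine tendsto_integral_of_dominated_convergence (fun _ => M) (fun m => ?_)
      (integrable_const _) (fun m => Eventually.of_forall fun x => ?_) ?_
    · exact (((hL _ (hc m)).continuous.sub (hL ψ hψ).continuous).div_const _).aestronglyMeasurable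
    · rw [Real.norm_eq_abs, abs_div, abs_of_pos (htp m), div_le_iff₀ (htp m)]
      refine cj_sub_le hC.comp hne (hc m) hψ (fun z _ => ?_) x
      rw [add_sub_cancel_left, abs_mul, abs_of_pos (htp m), mul_comm]
      exact mul_le_mul_of_nonneg_right (hM z) (htp m).le
    · exact hae.mono fun x hx => tendsto_quot hC.comp hne hψ hg hM hx htp ht0
  have hge : ∀ m, -(∫ y in C, g y) ≤
      ∫ x in K, (cj C (fun y => ψ y + t m * g y) x - cj C ψ x) / t m := by
    intro m
    have h1 := hmin _ (hc m)
    rw [integral_div, integral_sub (hintK _ (hL _ (hc m)).continuous) (hintK _ (hL ψ hψ).continuous),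
      le_div_iff₀ (htp m)]
    rw [integral_add (hintC ψ hψ) (hintC (fun y => t m * g y) (continuous_const.mul hg)),
      integral_const_mul] at h1
    linarith
  have h2 := ge_of_tendsto' hlim hge
  rw [integral_neg] at h2
  linarith

end VariAux

open VariAux in
theorem push_of_min {n : ℕ} {K C : Set (EE n)} (hK : Body K) (hC : Body C)
    {ψ : EE n → ℝ} (hψ : Continuous ψ)
    (hmin : ∀ ψ' : EE n → ℝ, Continuous ψ' →
      (∫ x in K, cj C ψ x) + (∫ y in C, ψ y) ≤ (∫ x in K, cj C ψ' x) + ∫ y in C, ψ' y)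
    {G : Set (EE n)} (hG : MeasurableSet G) :
    volume {x | x ∈ K ∧ gradient (cj C ψ) x ∈ G} = volume (C ∩ G) := by
  have : IsFiniteMeasure (volume.restrict K : Measure (EE n)) :=
    ⟨by rw [Measure.restrict_apply_univ]; exact hK.comp.measure_lt_top⟩
  have : IsFiniteMeasure (volume.restrict C : Measure (EE n)) :=
    ⟨by rw [Measure.restrict_apply_univ]; exact hC.comp.measure_lt_top⟩
  have hmeas : Measurable (gradient (cj C ψ)) := measurable_gradient _
  have key : (volume.restrict K).map (gradient (cj C ψ)) = volume.restrict C := by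
    have := Measure.isFiniteMeasure_map (volume.restrict K) (gradient (cj C ψ))
    refine ext_of_forall_integral_eq_of_IsFiniteMeasure fun f => ?_
    rw [integral_map hmeas.aemeasurable f.continuous.aestronglyMeasurable]
    have hb : ∀ y, |f y| ≤ ‖f‖ := fun y => by
      simpa using f.norm_coe_le_norm y
    apply le_antisymm
    · exact integral_le hK hC hψ hmin f.continuous hb
    · have h1 := integral_le hK hC hψ hmin (g := fun y => -f y) f.continuous.neg (M := ‖f‖)
        (fun y => by rw [abs_neg]; exact hb y)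
      rw [integral_neg, integral_neg] at h1
      linarith
  have h2 : ((volume.restrict K).map (gradient (cj C ψ))) G = (volume.restrict C) G := by rw [key]
  rw [Measure.map_apply hmeas hG, Measure.restrict_apply (hmeas hG),
    Measure.restrict_apply hG] at h2
  rw [Set.inter_comm C G, ← h2]
  congr 1
  ext x
  exact and_comm

end Pool.Agent.MP9dd972N
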