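import Mathlib
import Pool.Agent.Lib.MP_9dd972_gt.N.Defs
import Pool.Agent.Lib.MP_9dd972_gt.N.Hsup
import Pool.Agent.Lib.MP_9dd972_gt.N.Gauge
import Pool.Agent.Lib.MP_9dd972_gt.N.Moll
import Pool.Agent.Lib.MP_9dd972_gt.N.Meang
import Pool.Agent.Lib.MP_9dd972_gt.N.Mage
import Pool.Agent.Lib.MP_9dd972_gt.N.Conj
import Pool.Agent.Lib.MP_9dd972_gt.N.Mini
import Pool.Agent.Lib.MP_9dd972_gt.N.Vari
import Pool.Agent.Lib.MP_9dd972_gt.N.Molsub
import Pool.Agent.Lib.MP_9dd972_gt.N.Taylor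
import Pool.Agent.Lib.MP_9dd972_gt.N.Phitr
import Pool.Agent.Lib.MP_9dd972_gt.N.Hessa
import Pool.Agent.Lib.MP_9dd972_gt.N.Stabone
import Pool.Agent.Lib.MP_9dd972_gt.N.Lininv
import Pool.Agent.Lib.MP_9dd972_gt.N.Pos

/-!
Quantitative stability of the Minkowski inequality (assembly).
-/

set_option autoImplicit false

namespace Pool.Agent.MP9dd972N

open MeasureTheory Set Metric
open scoped ENNReal NNReal Topology Pointwise

/-- Existence of the transport potential. -/
theorem exists_brenier {n : ℕ} {K C : Set (EE n)} (hK : Body K) (hC : Body C)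
    (hv : volume K = volume C) : ∃ φ : EE n → ℝ, Bre K C φ := by
  obtain ⟨ψ, hψ, hmin⟩ := exists_min hK hC hv
  have hne : C.Nonempty := ⟨0, interior_subset hC.zero⟩
  exact ⟨cj C ψ, cj_convex hC.comp hne hψ, fun x z => cj_slope hC.comp hne hψ x z,
    fun G hG => push_of_min hK hC hψ hmin hG⟩

namespace StabAux

theorem phi_nonneg {s : ℝ} (hs : 0 ≤ s) : 0 ≤ Phi s := by
  unfold Phi; positivity

theorem phi_mono {s t : ℝ} (hs : 0 ≤ s) (hst : s ≤ t) : Phi s ≤ Phi t := by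
  unfold Phi
  have ht : 0 ≤ t := hs.trans hst
  rw [div_le_div_iff₀ (by linarith) (by linarith)]
  nlinarith [mul_nonneg hs ht, mul_nonneg (mul_nonneg hs ht) (sub_nonneg.2 hst), mul_self_nonneg (t - s)]

end StabAux

open StabAux in
/-- The pointwise inequality for the mollified potential. -/
theorem key_ineq {n : ℕ} (hn : 0 < n) {K C : Set (EE n)} (hC : Body C)
    {φ : EE n → ℝ} (hφ : Bre K C φ) {ε : ℝ} {k : EE n → ℝ} (hk : Ker ε k) {x0 : EE n}
    (hx : closedBall x0 ε ⊆ interior K) :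
    Phi ‖fderiv ℝ (fun y => gradient (mol k φ) y - y) x0‖ / 4
      ≤ dv (gradient (mol k φ)) x0 - n := by
  have hne : C.Nonempty := ⟨0, interior_subset hC.zero⟩
  obtain ⟨r, R, hr, hR, hRd⟩ := hC.round
  have hRc : C ⊆ closedBall (0 : EE n) ((R.toNNReal : ℝ≥0) : ℝ) := by
    rw [Real.coe_toNNReal R (by linarith)]
    exact hRd.out
  have hlip : LipschitzWith R.toNNReal φ := slope_lip hne hRc hφ.slope
  have hcont : Continuous φ := hlip.continuous
  have hf3 : ContDiff ℝ 3 (mol k φ) := mol_contDiff hk hcont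
  have hf2 : ContDiff ℝ 2 (mol k φ) := hf3.of_le (by norm_num)
  have hM := bre_mage hC hφ
  have htr : ∀ S : Matrix (Fin n) (Fin n) ℝ, S.det = 1 →
      (n : ℝ) ≤ (S.transpose * HM (mol k φ) x0 * S).trace := fun S hS =>
    trace_ge hn hf2 S (mol_sub_mean hn hφ.conv isOpen_interior hM hk hx hS)
  have h1 := phi_le_trace hn (hm_symm hf2 x0) htr
  rw [← hm_trace] at h1
  refine le_trans ?_ h1
  have hd : DifferentiableAt ℝ (gradient (mol k φ)) x0 :=
    ((grad_contDiff1 hf2).differentiable (by norm_num)) x0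
  have hfd : fderiv ℝ (fun y => gradient (mol k φ) y - y) x0
      = fderiv ℝ (gradient (mol k φ)) x0 - ContinuousLinearMap.id ℝ (EE n) := by
    exact (hd.hasFDerivAt.sub (hasFDerivAt_id x0)).fderiv
  have h2 := norm_fderiv_le (fun y => gradient (mol k φ) y - y) x0
  have h3 : (∑ i, ∑ j, ((fderiv ℝ (fun y => gradient (mol k φ) y - y) x0
      (EuclideanSpace.single j (1 : ℝ))) i) ^ 2)
      = ∑ i, ∑ j, ((HM (mol k φ) x0 - 1) i j) ^ 2 := by
    refine Finset.sum_congr rfl fun i _ => Finset.sum_congr rfl fun j _ => ?_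
    rw [hfd]
    congr 1
    simp [HM, Matrix.one_apply]
  rw [h3] at h2
  have := phi_mono (norm_nonneg _) h2
  linarith




namespace StabAux

theorem closedBall_sub {n : ℕ} {r R δ ε : ℝ} {K : Set (EE n)} (hK : Round r R K)
    (hδ : 0 < δ) (hδ1 : δ < 1) (hε : ε < δ * r) {x : EE n} (hx : x ∈ (1 - δ) • K) :
    closedBall x ε ⊆ interior K := by
  obtain ⟨a, ha, rfl⟩ := hx
  intro y hy
  have h1 : δ⁻¹ • (y - (1 - δ) • a) ∈ ball (0 : EE n) r := by
    rw [mem_ball_zero_iff, norm_smul, Real.norm_of_nonneg (by positivity)]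
    rw [mem_closedBall, dist_eq_norm] at hy
    rw [inv_mul_lt_iff₀ hδ]
    linarith
  have h2 : δ⁻¹ • (y - (1 - δ) • a) ∈ interior K :=
    (isOpen_ball.subset_interior_iff.2 hK.inn) h1
  have h3 := hK.conv.combo_self_interior_mem_interior ha h2 (sub_nonneg.2 hδ1.le) hδ
    (by ring)
  have h4 : (1 - δ) • a + δ • (δ⁻¹ • (y - (1 - δ) • a)) = y := by
    rw [smul_smul, mul_inv_cancel₀ hδ.ne', one_smul]
    abel
  rwa [h4] at h3

theorem max_bd {t δ : ℝ} (ht : 0 ≤ t) (hδ : 0 ≤ δ) :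
    (max 0 (1 - t)) ^ 2 ≤ (max 0 ((1 - δ) - t)) ^ 2 + (2 * δ + δ ^ 2) := by
  have h1 : max 0 (1 - t) ≤ max 0 ((1 - δ) - t) + δ := by
    apply max_le
    · have := le_max_left 0 ((1 - δ) - t); linarith
    · have := le_max_right 0 ((1 - δ) - t); linarith
  have h2 : 0 ≤ max 0 (1 - t) := le_max_left _ _
  have h3 : 0 ≤ max 0 ((1 - δ) - t) := le_max_left _ _
  have h4 : max 0 ((1 - δ) - t) ≤ 1 := max_le (by norm_num) (by linarith)
  nlinarith [pow_le_pow_left₀ h2 h1 2]

end StabAux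

open StabAux in
/-- Quantitative stability of the Minkowski inequality, fixed balls. -/
theorem stab {n : ℕ} (hn : 0 < n) {r R : ℝ} (hr : 0 < r) (hR : 1 ≤ R) :
    ∃ A : ℝ, 0 ≤ A ∧ ∀ K C : Set (EE n), Round r R K → Round r R C → volume K = volume C →
      ∫ x in K, x = (0 : EE n) → ∫ x in C, x = (0 : EE n) →
      ∫ x in K, (max 0 (1 - hh C (NN K x))) ^ 2
        ≤ A * ((∫ x in K, hh C (NN K x)) - (volume K).toReal) := by
  obtain ⟨A, hA, hst⟩ := stab_one hn hr hR
  refine ⟨A, hA, fun K C hK hC hv cK cC => ?_⟩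
  have hneC : C.Nonempty := ⟨0, interior_subset hC.zero⟩
  have h0C : (0 : EE n) ∈ C := interior_subset hC.zero
  obtain ⟨φ, hφ⟩ := exists_brenier hK.toBody hC.toBody hv
  have hRc : C ⊆ closedBall (0 : EE n) ((R.toNNReal : ℝ≥0) : ℝ) := by
    rw [Real.coe_toNNReal R (by linarith)]
    exact hC.out
  have hcont : Continuous φ := (slope_lip hneC hRc hφ.slope).continuous
  have hhnn : ∀ u : EE n, 0 ≤ hh C u := fun u => by
    have := inner_le_hh hC.comp h0C u
    rwa [inner_zero_right] at this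
  set I := ∫ x in K, hh C (NN K x) with hI
  set V := (volume K).toReal with hV
  have hV0 : 0 ≤ V := ENNReal.toReal_nonneg
  have hKfin : volume K ≠ ⊤ := hK.comp.measure_lt_top.ne
  have hmK : MeasurableSet K := hK.comp.measurableSet
  have : IsFiniteMeasure (volume.restrict K) := ⟨by simpa using hK.comp.measure_lt_top⟩
  have hmeas : Measurable fun x => hh C (NN K x) :=
    (hh_cont hC.comp hneC).measurable.comp (NN_meas K)
  -- integrability
  have hint : ∀ a : ℝ, a ≤ 1 → IntegrableOn (fun x => (max 0 (a - hh C (NN K x))) ^ 2) K := by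
    intro a ha
    refine Integrable.of_bound (C := 1) ?_ (Filter.Eventually.of_forall fun x => ?_)
    · exact ((measurable_const.max (measurable_const.sub hmeas)).pow_const 2).aestronglyMeasurable
    · rw [Real.norm_of_nonneg (by positivity)]
      have h1 : max 0 (a - hh C (NN K x)) ≤ 1 :=
        max_le (by norm_num) (by have := hhnn (NN K x); linarith)
      have h2 : 0 ≤ max 0 (a - hh C (NN K x)) := le_max_left _ _
      nlinarith
  have hmain : ∀ δ : ℝ, 0 < δ → δ ≤ 1 / 2 →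
      ∫ x in K, (max 0 (1 - hh C (NN K x))) ^ 2 ≤
        A * ((1 - δ) ^ (n - 1) * I - (1 - δ) ^ n * V + (R * (1 - (1 - δ) ^ n) * V) ^ 2)
          + (2 * δ + δ ^ 2) * V := by
    intro δ hδ hδ2
    have hδ1 : δ < 1 := by linarith
    have hε : 0 < δ * r / 2 := by positivity
    obtain ⟨k, hk⟩ := exists_ker (n := n) hε
    have hf3 : ContDiff ℝ 3 (mol k φ) := mol_contDiff hk hcont
    have hsl := mol_slope hk hcont hφ.slope
    have hTC : ∀ x, gradient (mol k φ) x ∈ C := fun x =>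
      grad_mem hC.conv hC.comp hneC ((hf3.differentiable (by norm_num)) x) (fun z => hsl x z)
    have h1 := hst K C hK hC hv cK δ hδ hδ2 (gradient (mol k φ)) (grad_contDiff2 hf3) hTC
      (fun x hx => key_ineq hn hC.toBody hφ hk
        (closedBall_sub hK hδ hδ1 (by linarith [mul_pos hδ hr]) hx))
    have h2 := mean_grad hr hK hC hφ cC hδ hδ1 (by linarith [mul_pos hδ hr]) hk
    have h3 : ‖∫ x in (1 - δ) • K, gradient (mol k φ) x‖ ^ 2 ≤ (R * (1 - (1 - δ) ^ n) * V) ^ 2 :=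
      pow_le_pow_left₀ (norm_nonneg _) h2 2
    have h4 : ∫ x in K, (max 0 (1 - hh C (NN K x))) ^ 2
        ≤ (∫ x in K, (max 0 ((1 - δ) - hh C (NN K x))) ^ 2) + (2 * δ + δ ^ 2) * V := by
      have h5 : (∫ x in K, (max 0 ((1 - δ) - hh C (NN K x))) ^ 2) + (2 * δ + δ ^ 2) * V
          = ∫ x in K, ((max 0 ((1 - δ) - hh C (NN K x))) ^ 2 + (2 * δ + δ ^ 2)) := by
        rw [integral_add (hint _ (by linarith)) (integrable_const _), integral_const]
        rw [smul_eq_mul, measureReal_restrict_apply_univ, mul_comm (volume.real K)]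
        rfl
      rw [h5]
      refine integral_mono (hint 1 le_rfl) ((hint _ (by linarith)).add (integrable_const _))
        fun x => max_bd (hhnn _) hδ.le
    have h6 := mul_le_mul_of_nonneg_left h3 hA
    have h7 : A * ((1 - δ) ^ (n - 1) * I - (1 - δ) ^ n * V
        + ‖∫ x in (1 - δ) • K, gradient (mol k φ) x‖ ^ 2)
        ≤ A * ((1 - δ) ^ (n - 1) * I - (1 - δ) ^ n * V + (R * (1 - (1 - δ) ^ n) * V) ^ 2) := by
      apply mul_le_mul_of_nonneg_left _ hA
      linarith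
    linarith
  have hcontF : Continuous fun δ : ℝ =>
      A * ((1 - δ) ^ (n - 1) * I - (1 - δ) ^ n * V + (R * (1 - (1 - δ) ^ n) * V) ^ 2)
          + (2 * δ + δ ^ 2) * V := by fun_prop
  have hlim : Filter.Tendsto (fun δ : ℝ =>
      A * ((1 - δ) ^ (n - 1) * I - (1 - δ) ^ n * V + (R * (1 - (1 - δ) ^ n) * V) ^ 2)
          + (2 * δ + δ ^ 2) * V) (𝓝[>] 0) (𝓝 (A * (I - V))) := by
    have h8 := hcontF.tendsto 0
    have h9 : A * ((1 - (0 : ℝ)) ^ (n - 1) * I - (1 - (0 : ℝ)) ^ n * V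
        + (R * (1 - (1 - (0 : ℝ)) ^ n) * V) ^ 2) + (2 * (0 : ℝ) + 0 ^ 2) * V = A * (I - V) := by
      simp
    rw [h9] at h8
    exact h8.mono_left nhdsWithin_le_nhds
  refine ge_of_tendsto hlim ?_
  have h10 : ∀ᶠ δ : ℝ in 𝓝[>] 0, δ ∈ Ioo (0 : ℝ) (1 / 2) := Ioo_mem_nhdsGT (by norm_num)
  filter_upwards [h10] with δ hδ
  exact hmain δ hδ.1 hδ.2.le



/-- Affine invariant stability of the Minkowski inequality. -/
theorem staba (n : ℕ) (hn : 0 < n) {M : ℝ} (hM : 1 ≤ M) :
    ∃ A : ℝ, 0 ≤ A ∧ ∀ K C : Set (EE n), Body K → Body C → K ⊆ M • C → C ⊆ M • K →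
      volume K = volume C → ∫ x in K, x = (0 : EE n) → ∫ x in C, x = (0 : EE n) →
      ∫ x in K, (max 0 (1 - hh C (NN K x))) ^ 2
        ≤ A * ((∫ x in K, hh C (NN K x)) - (volume K).toReal) := by
  obtain ⟨r, R, hr, hR, hpos⟩ := exists_position n hn
  have hM0 : 0 < M := by linarith
  have hrM : 0 < r / M := by positivity
  have hMR : 1 ≤ M * R := by nlinarith
  obtain ⟨A, hA, hst⟩ := stab hn hrM hMR
  refine ⟨A, hA, fun K C hK hC hKC hCK hv cK cC => ?_⟩
  obtain ⟨g, hg1, hg2⟩ := hpos K hK cK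
  have hgK : Body (g '' K) := hK.image g
  have hgC : Body (g '' C) := hC.image g
  have hsm : ∀ D : Set (EE n), g '' (M • D) = M • (g '' D) := fun D => by
    ext y
    constructor
    · rintro ⟨_, ⟨x, hx, rfl⟩, rfl⟩
      exact ⟨g x, ⟨x, hx, rfl⟩, by simp⟩
    · rintro ⟨_, ⟨x, hx, rfl⟩, rfl⟩
      exact ⟨M • x, ⟨x, hx, rfl⟩, by simp⟩
  have h1 : g '' C ⊆ closedBall (0 : EE n) (M * R) := by
    intro y hy
    have h2 : y ∈ M • (g '' K) := by
      rw [← hsm]
      exact image_mono hCK hy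
    obtain ⟨z, hz, rfl⟩ := h2
    have h3 := hg2 hz
    rw [mem_closedBall_zero_iff] at h3 ⊢
    show ‖M • z‖ ≤ M * R
    rw [norm_smul, Real.norm_of_nonneg hM0.le]
    exact mul_le_mul_of_nonneg_left h3 hM0.le
  have h2 : ball (0 : EE n) (r / M) ⊆ g '' C := by
    intro y hy
    rw [mem_ball_zero_iff, lt_div_iff₀ hM0] at hy
    have h3 : M • y ∈ g '' K := hg1 (by
      rw [mem_ball_zero_iff, norm_smul, Real.norm_of_nonneg hM0.le]
      linarith)
    have h4 : M • y ∈ M • (g '' C) := by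
      rw [← hsm]
      exact image_mono hKC h3
    obtain ⟨z, hz, hzy⟩ := h4
    have h5 : z = y := smul_right_injective (EE n) hM0.ne' hzy
    rwa [← h5]
  have hRK : Round (r / M) (M * R) (g '' K) := ⟨hgK,
    (ball_subset_ball (div_le_self hr.le hM)).trans hg1,
    hg2.trans (closedBall_subset_closedBall (by nlinarith))⟩
  have hRC : Round (r / M) (M * R) (g '' C) := ⟨hgC, h2, h1⟩
  have hvol : volume (g '' K) = volume (g '' C) := by
    rw [lin_vol, lin_vol, hv]
  have hfin := hst (g '' K) (g '' C) hRK hRC hvol (lin_cent hK g cK) (lin_cent hC g cC)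
  rw [lin_hh hK C g (fun t => (max 0 (1 - t)) ^ 2)] at hfin
  have h6 := lin_hh hK C g (fun t => t)
  rw [h6, lin_vol, ENNReal.toReal_mul, ENNReal.toReal_ofReal (abs_nonneg _)] at hfin
  have hdet : 0 < |(g : EE n →L[ℝ] EE n).det| := by
    rw [abs_pos]
    exact (LinearEquiv.isUnit_det' g.toLinearEquiv).ne_zero
  have h7 : |(g : EE n →L[ℝ] EE n).det| * ∫ x in K, (max 0 (1 - hh C (NN K x))) ^ 2
      ≤ |(g : EE n →L[ℝ] EE n).det| *
        (A * ((∫ x in K, hh C (NN K x)) - (volume K).toReal)) := by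
    refine hfin.trans (le_of_eq ?_)
    ring
  exact le_of_mul_le_mul_left h7 hdet

end Pool.Agent.MP9dd972N
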