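import Mathlib
import Pool.Agent.Lib.MP_9dd972_gt.N.Defs
import Pool.Agent.Lib.MP_9dd972_gt.N.Hsup
import Pool.Agent.Lib.MP_9dd972_gt.N.Gauge

/-!
# Normals determine the body
-/

set_option autoImplicit false

namespace Pool.Agent.MP9dd972N

open MeasureTheory Set Metric
open scoped ENNReal NNReal Topology Pointwise

theorem subset_of_ae {n : ℕ} (hn : 0 < n) {K C : Set (EE n)} (hK : Body K) (hC : Body C)
    (h : ∀ᵐ x ∂(volume.restrict K), hh C (NN K x) ≤ 1) : C ⊆ K := by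
  intro y0 hy0
  by_contra hyK
  have hg1 : 1 < gauge K y0 := by
    rw [← hK.gauge_le_one] at hyK
    exact not_le.1 hyK
  obtain ⟨r, R, hr, hR, hRd⟩ := hK.round
  obtain ⟨L, hL⟩ := hK.gauge_lip
  have hcont : Continuous fun x : EE n => gauge K x - r⁻¹ * ‖y0 - x‖ :=
    hL.continuous.sub (continuous_const.mul (continuous_const.sub continuous_id).norm)
  have hopen : {x : EE n | 1 < gauge K x - r⁻¹ * ‖y0 - x‖} ∈ 𝓝 y0 := by
    apply (isOpen_lt continuous_const hcont).mem_nhds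
    show 1 < gauge K y0 - r⁻¹ * ‖y0 - y0‖
    rw [sub_self, norm_zero, mul_zero, sub_zero]
    exact hg1
  obtain ⟨s, hs, hsU⟩ := Metric.mem_nhds_iff.1 hopen
  set c : ℝ := r / (‖y0‖ + s) with hc
  have hden : 0 < ‖y0‖ + s := by positivity
  have hc0 : 0 < c := div_pos hr hden
  have hsc : ∀ x ∈ ball y0 s, c • x ∈ K := by
    intro x hx
    apply hRd.inn
    rw [mem_ball_zero_iff, norm_smul, Real.norm_eq_abs, abs_of_pos hc0]
    have h1 : ‖x‖ < ‖y0‖ + s := by
      rw [mem_ball, dist_eq_norm] at hx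
      have h2 : ‖x‖ ≤ ‖y0‖ + ‖x - y0‖ := by
        have := norm_add_le y0 (x - y0)
        rwa [add_sub_cancel] at this
      linarith
    calc c * ‖x‖ < c * (‖y0‖ + s) := mul_lt_mul_of_pos_left h1 hc0
      _ = r := by rw [hc, div_mul_cancel₀ _ hden.ne']
  have hnull : ∀ᵐ x : EE n, c • x ∈ K → hh C (NN K (c • x)) ≤ 1 := by
    rw [ae_restrict_iff' hK.comp.measurableSet] at h
    rw [ae_iff] at h ⊢
    have e := Measure.addHaar_preimage_smul (volume : Measure (EE n)) hc0.ne'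
      {a | ¬(a ∈ K → hh C (NN K a) ≤ 1)}
    rw [h, mul_zero] at e
    exact e
  have hboth : ∀ᵐ x ∂(volume.restrict (ball y0 s)),
      (c • x ∈ K → hh C (NN K (c • x)) ≤ 1) ∧ (DifferentiableAt ℝ (gauge K) x ∧ x ≠ 0) :=
    ae_restrict_of_ae (hnull.and (hK.ae_diff hn))
  obtain ⟨x, hx, hx1, hx2⟩ := Measure.exists_mem_of_measure_ne_zero_of_ae
    (measure_ball_pos volume y0 hs).ne' hboth
  have h1 := hx1 (hsc x hx)
  rw [NN_smul K hc0] at h1
  have h2 : (inner ℝ (NN K x) y0 : ℝ) ≤ hh C (NN K x) := inner_le_hh hC.comp hy0 _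
  have h3 := inner_NN_self hK hx2.1
  have h4 : 1 < gauge K x - r⁻¹ * ‖y0 - x‖ := hsU hx
  have h5 : |(inner ℝ (NN K x) (y0 - x) : ℝ)| ≤ r⁻¹ * ‖y0 - x‖ :=
    (abs_real_inner_le_norm _ _).trans
      (mul_le_mul_of_nonneg_right (norm_NN_le hr hRd x) (norm_nonneg _))
  have h6 := (abs_le.1 h5).1
  rw [inner_sub_right] at h6
  linarith

theorem eq_of_subset {n : ℕ} {K C : Set (EE n)} (hK : Body K) (hC : Body C) (hs : C ⊆ K)
    (hv : volume K = volume C) : K = C := by
  apply Subset.antisymm _ hs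
  intro x hx
  by_contra hxC
  have hd : volume (K \ C) = 0 := by
    rw [measure_sdiff hs hC.comp.measurableSet.nullMeasurableSet hC.comp.measure_lt_top.ne, hv,
      tsub_self]
  have hcl : x ∈ closure (interior K) := by
    rw [hK.conv.closure_interior_eq_closure_of_nonempty_interior ⟨0, hK.zero⟩]
    exact subset_closure hx
  have hCo : IsOpen Cᶜ := hC.comp.isClosed.isOpen_compl
  obtain ⟨z, hz1, hz2⟩ := mem_closure_iff.1 hcl Cᶜ hCo hxC
  have hpos : 0 < volume (Cᶜ ∩ interior K) :=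
    (hCo.inter isOpen_interior).measure_pos volume ⟨z, hz1, hz2⟩
  have hsub : Cᶜ ∩ interior K ⊆ K \ C := fun w hw => ⟨interior_subset hw.2, hw.1⟩
  exact (hpos.trans_le (measure_mono hsub)).ne' hd

end Pool.Agent.MP9dd972N
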