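import Mathlib
import Pool.Agent.Lib.MP_9dd972_gt.N.Defs
import Pool.Agent.Lib.MP_9dd972_gt.N.Hsup
import Pool.Agent.Lib.MP_9dd972_gt.N.Gauge
import Pool.Agent.Lib.MP_9dd972_gt.N.Hom
import Pool.Agent.Lib.MP_9dd972_gt.N.Hypr
import Pool.Agent.Lib.MP_9dd972_gt.N.Compar
import Pool.Agent.Lib.MP_9dd972_gt.N.Subn
import Pool.Agent.Lib.MP_9dd972_gt.N.Stab

/-!
Uniqueness in homogeneous form for p close to one (assembly).
-/

set_option autoImplicit false

namespace Pool.Agent.MP9dd972N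

open MeasureTheory Set Metric
open scoped ENNReal NNReal Topology Pointwise

namespace FinAux

theorem pt1 {τ p L : ℝ} (hτ : 0 < τ) (hL : 1 ≤ L) (hτL : τ ≤ L) (hp0 : 0 < p) :
    (L⁻¹) ^ 2 * (τ - 1) ^ 2 ≤ (max 0 (1 - τ)) ^ 2 + τ ^ p * (max 0 (1 - τ⁻¹)) ^ 2 := by
  have hL0 : 0 < L := by linarith
  have hLi : L⁻¹ ≤ 1 := inv_le_one_of_one_le₀ hL
  have hLi0 : 0 < L⁻¹ := inv_pos.2 hL0
  rcases le_total τ 1 with h | h
  · have h1 : max 0 (1 - τ) = 1 - τ := max_eq_right (by linarith)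
    rw [h1]
    have h2 : (L⁻¹) ^ 2 ≤ 1 := pow_le_one₀ hLi0.le hLi
    have h3 : 0 ≤ τ ^ p * (max 0 (1 - τ⁻¹)) ^ 2 := by positivity
    nlinarith [sq_nonneg (τ - 1)]
  · have h1 : max 0 (1 - τ⁻¹) = 1 - τ⁻¹ :=
      max_eq_right (by have := inv_le_one_of_one_le₀ h; linarith)
    rw [h1]
    have h2 : 1 ≤ τ ^ p := Real.one_le_rpow h hp0.le
    have h3 : 1 - τ⁻¹ = τ⁻¹ * (τ - 1) := by field_simp
    have h4 : L⁻¹ ≤ τ⁻¹ := inv_anti₀ hτ hτL
    have h5 : (L⁻¹) ^ 2 ≤ (τ⁻¹) ^ 2 := pow_le_pow_left₀ hLi0.le h4 2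
    rw [h3, mul_pow]
    have h6 : 0 ≤ (max 0 (1 - τ)) ^ 2 := by positivity
    have h7 : (L⁻¹) ^ 2 * (τ - 1) ^ 2 ≤ (τ⁻¹) ^ 2 * (τ - 1) ^ 2 :=
      mul_le_mul_of_nonneg_right h5 (sq_nonneg _)
    have h8 : (τ⁻¹) ^ 2 * (τ - 1) ^ 2 ≤ τ ^ p * ((τ⁻¹) ^ 2 * (τ - 1) ^ 2) :=
      le_mul_of_one_le_left (by positivity) h2
    linarith

theorem pt2 {τ p L : ℝ} (hτ : 0 < τ) (hL : 1 ≤ L) (hτL : L⁻¹ ≤ τ) (hp0 : 0 < p) (hp1 : p < 1) :
    (τ - 1) * (1 - τ ^ (p - 1)) ≤ (1 - p) * L * (τ - 1) ^ 2 := by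
  have hL0 : 0 < L := by linarith
  have hq : 0 < 1 - p := by linarith
  rcases le_total τ 1 with h | h
  · -- τ ≤ 1
    have h1 : τ ^ (p - 1) ≤ 1 + (1 - p) * (τ⁻¹ - 1) := by
      have h2 : τ ^ (p - 1) = (1 + (τ⁻¹ - 1)) ^ (1 - p) := by
        rw [add_sub_cancel, Real.inv_rpow hτ.le, ← Real.rpow_neg hτ.le]
        congr 1
        ring
      rw [h2]
      exact rpow_one_add_le_one_add_mul_self (by have := inv_pos.2 hτ; linarith) hq.le
        (by linarith)
    have h3 : τ⁻¹ ≤ L := by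
      have := inv_anti₀ (inv_pos.2 hL0) hτL
      rwa [inv_inv] at this
    have h4 : τ⁻¹ - 1 = τ⁻¹ * (1 - τ) := by field_simp
    have h5 : τ⁻¹ - 1 ≤ L * (1 - τ) := by
      rw [h4]
      exact mul_le_mul_of_nonneg_right h3 (by linarith)
    have h6 : τ ^ (p - 1) - 1 ≤ (1 - p) * (L * (1 - τ)) := by
      have := mul_le_mul_of_nonneg_left h5 hq.le
      linarith
    have h7 : (1 - τ) * (τ ^ (p - 1) - 1) ≤ (1 - τ) * ((1 - p) * (L * (1 - τ))) :=
      mul_le_mul_of_nonneg_left h6 (by linarith)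
    nlinarith
  · -- τ ≥ 1
    have h1 : 1 + (p - 1) * (τ - 1) ≤ τ ^ (p - 1) := by
      have h2 : τ ^ (1 - p) ≤ 1 + (1 - p) * (τ - 1) := by
        have := rpow_one_add_le_one_add_mul_self (s := τ - 1) (by linarith) hq.le
          (by linarith : (1 - p) ≤ 1)
        rwa [add_sub_cancel] at this
      have h3 : τ ^ (p - 1) = (τ ^ (1 - p))⁻¹ := by
        rw [← Real.rpow_neg hτ.le]
        congr 1
        ring
      have h4 : 0 < τ ^ (1 - p) := Real.rpow_pos_of_pos hτ _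
      rw [h3]
      have h5 : 0 < 1 + (1 - p) * (τ - 1) := by nlinarith
      have h6 : (1 + (1 - p) * (τ - 1))⁻¹ ≤ (τ ^ (1 - p))⁻¹ := inv_anti₀ h4 h2
      refine le_trans ?_ h6
      rw [inv_eq_one_div, le_div_iff₀ h5]
      nlinarith [sq_nonneg ((1 - p) * (τ - 1))]
    have h7 : 1 - τ ^ (p - 1) ≤ (1 - p) * (τ - 1) := by linarith
    have h8 : (τ - 1) * (1 - τ ^ (p - 1)) ≤ (τ - 1) * ((1 - p) * (τ - 1)) :=
      mul_le_mul_of_nonneg_left h7 (by linarith)
    have h9 : (1 - p) * (τ - 1) ^ 2 ≤ (1 - p) * L * (τ - 1) ^ 2 := by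
      have h10 : 0 ≤ (1 - p) * (τ - 1) ^ 2 := by positivity
      nlinarith
    nlinarith

theorem core_alg {α : Type*} [MeasurableSpace α] {μ : Measure α} [IsFiniteMeasure μ]
    {t : α → ℝ} (ht : Measurable t) {M s A p : ℝ} (hM : 1 ≤ M) (hs : M⁻¹ ≤ s) (hsM : s ≤ M)
    (hp0 : 0 < p) (hp1 : p < 1) (hA : 0 ≤ A) (hq : A * (1 - p) * M ^ 6 < 1)
    (hb : ∀ᵐ x ∂μ, M⁻¹ ≤ t x ∧ t x ≤ M)
    (h2 : ∫ x, (max 0 (1 - s⁻¹ * t x)) ^ 2 ∂μ ≤ A * (∫ x, (s⁻¹ * t x - 1) ∂μ))
    (h3 : ∫ x, t x ^ p * (max 0 (1 - s * (t x)⁻¹)) ^ 2 ∂μ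
      ≤ A * (∫ x, (t x ^ p * (s * (t x)⁻¹) - t x ^ p) ∂μ)) :
    ∀ᵐ x ∂μ, t x = s := by
  have hM0 : 0 < M := by linarith
  have hMi : 0 < M⁻¹ := inv_pos.2 hM0
  have hs0 : 0 < s := hMi.trans_le hs
  have hsp : 0 < s ^ p := Real.rpow_pos_of_pos hs0 p
  have hMi1 : M⁻¹ ≤ 1 := inv_le_one_of_one_le₀ hM
  -- continuous functions of t are integrable
  have hbdd : ∀ (F : ℝ → ℝ), Measurable F → ContinuousOn F (Icc M⁻¹ M) →
      Integrable (fun x => F (t x)) μ := by
    intro F hF hc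
    obtain ⟨B, hB⟩ := isCompact_Icc.exists_bound_of_continuousOn hc
    refine Integrable.of_bound (C := B) (hF.comp ht).aestronglyMeasurable ?_
    filter_upwards [hb] with x hx
    exact hB _ ⟨hx.1, hx.2⟩
  have hinv : ContinuousOn (fun y : ℝ => y⁻¹) (Icc M⁻¹ M) :=
    continuousOn_inv₀.mono fun y hy => (hMi.trans_le hy.1).ne'
  have hpow : ContinuousOn (fun y : ℝ => y ^ p) (Icc M⁻¹ M) :=
    (Real.continuous_rpow_const hp0.le).continuousOn
  have i1 : Integrable (fun x => (max 0 (1 - s⁻¹ * t x)) ^ 2) μ :=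
    hbdd (fun y => (max 0 (1 - s⁻¹ * y)) ^ 2) (by fun_prop) (by fun_prop)
  have i2 : Integrable (fun x => t x ^ p * (max 0 (1 - s * (t x)⁻¹)) ^ 2) μ := by
    refine hbdd (fun y => y ^ p * (max 0 (1 - s * y⁻¹)) ^ 2) (by fun_prop) (hpow.mul ?_)
    exact ((continuous_const.max continuous_id).comp_continuousOn
      (continuousOn_const.sub (continuousOn_const.mul hinv))).pow 2
  have i3 : Integrable (fun x => s⁻¹ * t x - 1) μ :=
    hbdd (fun y => s⁻¹ * y - 1) (by fun_prop) (by fun_prop)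
  have i4 : Integrable (fun x => t x ^ p * (s * (t x)⁻¹) - t x ^ p) μ := by
    refine hbdd (fun y => y ^ p * (s * y⁻¹) - y ^ p) (by fun_prop)
      ((hpow.mul (continuousOn_const.mul hinv)).sub hpow)
  have i5 : Integrable (fun x => (s⁻¹ * t x - 1) ^ 2) μ :=
    hbdd (fun y => (s⁻¹ * y - 1) ^ 2) (by fun_prop) (by fun_prop)
  set c0 : ℝ := s ^ p * ((M ^ 4)⁻¹ * (1 - A * (1 - p) * M ^ 6)) with hc0
  have hc0p : 0 < c0 := by
    have : 0 < 1 - A * (1 - p) * M ^ 6 := by linarith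
    positivity
  have hpt : ∀ᵐ x ∂μ, c0 * (s⁻¹ * t x - 1) ^ 2 ≤
      (s ^ p * (max 0 (1 - s⁻¹ * t x)) ^ 2 + t x ^ p * (max 0 (1 - s * (t x)⁻¹)) ^ 2)
        - A * (s ^ p * (s⁻¹ * t x - 1) + (t x ^ p * (s * (t x)⁻¹) - t x ^ p)) := by
    filter_upwards [hb] with x hx
    obtain ⟨hx1, hx2⟩ := hx
    have htx : 0 < t x := hMi.trans_le hx1
    set τ : ℝ := s⁻¹ * t x with hτ
    have hτ0 : 0 < τ := by positivity
    have hst : t x = s * τ := by rw [hτ]; field_simp
    have hL : (1 : ℝ) ≤ M ^ 2 := by nlinarith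
    have hτL : τ ≤ M ^ 2 := by
      have h5 : s⁻¹ ≤ M := by
        have := inv_anti₀ hMi hs
        rwa [inv_inv] at this
      calc τ = s⁻¹ * t x := rfl
        _ ≤ M * M := mul_le_mul h5 hx2 htx.le hM0.le
        _ = M ^ 2 := by ring
    have hτL' : (M ^ 2)⁻¹ ≤ τ := by
      have h5 : M⁻¹ ≤ s⁻¹ := inv_anti₀ hs0 hsM
      calc (M ^ 2)⁻¹ = M⁻¹ * M⁻¹ := by rw [sq, mul_inv]
        _ ≤ s⁻¹ * t x := mul_le_mul h5 hx1 hMi.le (inv_pos.2 hs0).le
    have e1 : t x ^ p = s ^ p * τ ^ p := by rw [hst, Real.mul_rpow hs0.le hτ0.le]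
    have e2 : s * (t x)⁻¹ = τ⁻¹ := by rw [hst]; field_simp
    have e3 : τ ^ p * τ⁻¹ = τ ^ (p - 1) := by
      rw [Real.rpow_sub hτ0, Real.rpow_one, div_eq_mul_inv]
    have e4 : τ ^ p = τ ^ (p - 1) * τ := by
      rw [← e3]; field_simp
    rw [e1, e2]
    have h6 := pt1 hτ0 hL hτL hp0
    have h7 := pt2 hτ0 hL hτL' hp0 hp1
    have h8 : (τ - 1) + (τ ^ p * τ⁻¹ - τ ^ p) = (τ - 1) * (1 - τ ^ (p - 1)) := by
      rw [e3, e4]; ring
    have h9 : c0 * (τ - 1) ^ 2
        = s ^ p * (((M ^ 2)⁻¹) ^ 2 * (τ - 1) ^ 2 - A * ((1 - p) * M ^ 2 * (τ - 1) ^ 2)) := by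
      rw [hc0]
      field_simp
    have h10 : (s ^ p * (max 0 (1 - τ)) ^ 2 + s ^ p * τ ^ p * (max 0 (1 - τ⁻¹)) ^ 2)
        - A * (s ^ p * (τ - 1) + (s ^ p * τ ^ p * τ⁻¹ - s ^ p * τ ^ p))
        = s ^ p * (((max 0 (1 - τ)) ^ 2 + τ ^ p * (max 0 (1 - τ⁻¹)) ^ 2)
          - A * ((τ - 1) + (τ ^ p * τ⁻¹ - τ ^ p))) := by ring
    rw [h9, h10, h8]
    apply mul_le_mul_of_nonneg_left _ hsp.le
    have h11 := mul_le_mul_of_nonneg_left h7 hA
    linarith
  have hI : ∫ x, c0 * (s⁻¹ * t x - 1) ^ 2 ∂μ ≤ 0 := by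
    have j1 : Integrable (fun x => s ^ p * (max 0 (1 - s⁻¹ * t x)) ^ 2
        + t x ^ p * (max 0 (1 - s * (t x)⁻¹)) ^ 2) μ := (i1.const_mul (s ^ p)).add i2
    have j2 : Integrable (fun x => s ^ p * (s⁻¹ * t x - 1)
        + (t x ^ p * (s * (t x)⁻¹) - t x ^ p)) μ := (i3.const_mul (s ^ p)).add i4
    have j3 : Integrable (fun x =>
      (s ^ p * (max 0 (1 - s⁻¹ * t x)) ^ 2 + t x ^ p * (max 0 (1 - s * (t x)⁻¹)) ^ 2)
        - A * (s ^ p * (s⁻¹ * t x - 1) + (t x ^ p * (s * (t x)⁻¹) - t x ^ p))) μ :=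
      j1.sub (j2.const_mul A)
    refine (integral_mono_ae (i5.const_mul c0) j3 hpt).trans ?_
    rw [integral_sub j1 (j2.const_mul A), integral_const_mul,
      integral_add (i1.const_mul (s ^ p)) i2,
      integral_add (i3.const_mul (s ^ p)) i4, integral_const_mul, integral_const_mul]
    have h5 := mul_le_mul_of_nonneg_left h2 hsp.le
    have h6 : s ^ p * ∫ x, (max 0 (1 - s⁻¹ * t x)) ^ 2 ∂μ
        + ∫ x, t x ^ p * (max 0 (1 - s * (t x)⁻¹)) ^ 2 ∂μ
        ≤ s ^ p * (A * ∫ x, (s⁻¹ * t x - 1) ∂μ)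
          + A * ∫ x, (t x ^ p * (s * (t x)⁻¹) - t x ^ p) ∂μ := add_le_add h5 h3
    nlinarith
  have hI0 : ∫ x, c0 * (s⁻¹ * t x - 1) ^ 2 ∂μ = 0 :=
    le_antisymm hI (integral_nonneg fun x => by positivity)
  have hz := (integral_eq_zero_iff_of_nonneg (fun x => by positivity) (i5.const_mul c0)).1 hI0
  filter_upwards [hz] with x hx
  have h5 : (s⁻¹ * t x - 1) ^ 2 = 0 := by
    rcases mul_eq_zero.1 hx with h | h
    · exact absurd h hc0p.ne'
    · exact h
  have h6 : s⁻¹ * t x = 1 := by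
    have := pow_eq_zero_iff (two_ne_zero) |>.1 h5
    linarith
  field_simp at h6
  exact h6

end FinAux



namespace FinAux


theorem smul_mono {n : ℕ} {C : Set (EE n)} (hC : Body C) {a b : ℝ} (ha : 0 ≤ a) (hab : a ≤ b) :
    a • C ⊆ b • C := by
  have h0 : (0 : EE n) ∈ C := interior_subset hC.zero
  rcases ha.eq_or_lt with h | h
  · rw [← h]
    rintro _ ⟨x, hx, rfl⟩
    refine ⟨0, h0, ?_⟩
    simp
  · have hb : 0 < b := h.trans_le hab
    rintro _ ⟨x, hx, rfl⟩
    refine ⟨(a / b) • x, ?_, ?_⟩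
    · have := hC.conv.smul_mem_of_zero_mem h0 hx (t := a / b)
        ⟨by positivity, (div_le_one hb).2 hab⟩
      exact this
    · show b • ((a / b) • x) = a • x
      rw [smul_smul]
      congr 1
      field_simp

theorem cent_smul {n : ℕ} {C : Set (EE n)} (hc : ∫ x in C, x = (0 : EE n)) {c : ℝ}
    (hc0 : 0 < c) : ∫ x in c • C, x = (0 : EE n) := by
  have h := Measure.setIntegral_comp_smul (μ := (volume : Measure (EE n)))
    (fun x : EE n => x) C hc0.ne'
  rw [integral_smul, hc, smul_zero] at h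
  have h1 : |(c ^ Module.finrank ℝ (EE n))⁻¹| ≠ 0 := by positivity
  rcases smul_eq_zero.1 h.symm with h2 | h2
  · exact absurd h2 h1
  · exact h2

end FinAux

open FinAux in
/-- Uniqueness in homogeneous form for `p` close to one. -/
theorem near_one_core (n : ℕ) (hn : 2 ≤ n) :
    ∃ p0 : ℝ, 0 < p0 ∧ p0 < 1 ∧ ∀ p : ℝ, p0 < p → p < 1 → ∀ K C : Set (EE n),
      Body K → Body C → ∫ x in K, x = (0 : EE n) → ∫ x in C, x = (0 : EE n) →
      Hyp p K C → K = C := by
  have hn0 : 0 < n := by omega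
  obtain ⟨M, hM, hcomp⟩ := comparable n hn
  have hM2 : (1 : ℝ) ≤ M ^ 2 := one_le_pow₀ hM
  have hM0 : 0 < M := by linarith
  obtain ⟨A, hA, hst⟩ := staba n hn0 hM2
  refine ⟨max (1 / 2) (1 - 1 / (2 * (A + 1) * M ^ 6)), ?_, ?_, ?_⟩
  · exact lt_max_of_lt_left (by norm_num)
  · apply max_lt (by norm_num)
    have : 0 < 1 / (2 * (A + 1) * M ^ 6) := by positivity
    linarith
  intro p hp hp1 K C hK hC cK cC hyp
  have hp2 : 1 / 2 ≤ p := ((le_max_left _ _).trans_lt hp).le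
  have hp0 : 0 < p := by linarith
  have hq : A * (1 - p) * M ^ 6 < 1 := by
    have h1 : 1 - p < 1 / (2 * (A + 1) * M ^ 6) := by
      have := (le_max_right (1 / 2) (1 - 1 / (2 * (A + 1) * M ^ 6))).trans_lt hp
      linarith
    have h2 : (1 - p) * (2 * (A + 1) * M ^ 6) < 1 := by
      rwa [lt_div_iff₀ (by positivity)] at h1
    have h3 : 0 ≤ (1 - p) * M ^ 6 := by
      have : 0 < 1 - p := by linarith
      positivity
    nlinarith
  obtain ⟨hKC, hCK⟩ := hcomp p hp2 hp1 K C hK hC cK cC hyp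
  -- basic facts
  have hneK : K.Nonempty := ⟨0, interior_subset hK.zero⟩
  have hneC : C.Nonempty := ⟨0, interior_subset hC.zero⟩
  have hKfin : volume K ≠ ⊤ := hK.comp.measure_lt_top.ne
  have hCfin : volume C ≠ ⊤ := hC.comp.measure_lt_top.ne
  have hKpos : 0 < (volume K).toReal := ENNReal.toReal_pos
    (((isOpen_interior.measure_pos volume ⟨0, hK.zero⟩).trans_le
      (measure_mono interior_subset)).ne') hKfin
  have hCpos : 0 < (volume C).toReal := ENNReal.toReal_pos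
    (((isOpen_interior.measure_pos volume ⟨0, hC.zero⟩).trans_le
      (measure_mono interior_subset)).ne') hCfin
  set vK := (volume K).toReal with hvK
  set vC := (volume C).toReal with hvC
  have hsmfin : ∀ (D : Set (EE n)) (c : ℝ), Body D → 0 < c → volume (c • D) ≠ ⊤ :=
    fun D c hD hc => (hD.smul hc).comp.measure_lt_top.ne
  -- the ratio
  obtain ⟨s, hs0, hsn⟩ : ∃ s : ℝ, 0 < s ∧ s ^ n = vC / vK := by
    refine ⟨(vC / vK) ^ ((n : ℝ)⁻¹), by positivity, ?_⟩
    exact Real.rpow_inv_natCast_pow (by positivity) (by omega)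
  have hsvK : s ^ n * vK = vC := by rw [hsn]; field_simp
  have hs1 : M⁻¹ ≤ s := by
    have h1 : vK ≤ M ^ n * vC := by
      have h2 : volume K ≤ volume (M • C) := measure_mono hKC
      have h3 := ENNReal.toReal_mono (hsmfin C M hC hM0) h2
      rwa [vol_smul C hM0] at h3
    have h2 : (M⁻¹) ^ n ≤ s ^ n := by
      rw [inv_pow, hsn, inv_le_iff_one_le_mul₀ (by positivity), div_mul_eq_mul_div,
        le_div_iff₀ hKpos]
      linarith
    exact (pow_le_pow_iff_left₀ (by positivity) hs0.le (by omega)).1 h2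
  have hsM : s ≤ M := by
    have h1 : vC ≤ M ^ n * vK := by
      have h2 : volume C ≤ volume (M • K) := measure_mono hCK
      have h3 := ENNReal.toReal_mono (hsmfin K M hK hM0) h2
      rwa [vol_smul K hM0] at h3
    have h2 : s ^ n ≤ M ^ n := by
      rw [hsn, div_le_iff₀ hKpos]
      exact h1
    exact (pow_le_pow_iff_left₀ hs0.le hM0.le (by omega)).1 h2
  have hsi : 0 < s⁻¹ := inv_pos.2 hs0
  have hsiM : s⁻¹ ≤ M := by
    have := inv_anti₀ (inv_pos.2 hM0) hs1
    rwa [inv_inv] at this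
  -- the function t
  set t : EE n → ℝ := fun x => hh C (NN K x) with ht
  have htm : Measurable t := (hh_cont hC.comp hneC).measurable.comp (NN_meas K)
  have hfinK : IsFiniteMeasure (volume.restrict K) := ⟨by simpa using hK.comp.measure_lt_top⟩
  have hfinC : IsFiniteMeasure (volume.restrict C) := ⟨by simpa using hC.comp.measure_lt_top⟩
  have hhKC : ∀ u : EE n, hh K u ≤ M * hh C u := fun u => by
    rw [← hh_smul_set C hM0.le]
    exact hh_mono (hC.smul hM0).comp hneK hKC u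
  have hhCK : ∀ u : EE n, hh C u ≤ M * hh K u := fun u => by
    rw [← hh_smul_set K hM0.le]
    exact hh_mono (hK.smul hM0).comp hneC hCK u
  have hKae : ∀ᵐ x ∂(volume.restrict K), hh K (NN K x) = 1 := by
    refine ae_restrict_of_ae ?_
    filter_upwards [hK.ae_diff hn0] with x hx
    exact hh_NN hK hx.1 hx.2
  have hCae : ∀ᵐ x ∂(volume.restrict C), hh C (NN C x) = 1 := by
    refine ae_restrict_of_ae ?_
    filter_upwards [hC.ae_diff hn0] with x hx
    exact hh_NN hC hx.1 hx.2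
  have hb : ∀ᵐ x ∂(volume.restrict K), M⁻¹ ≤ t x ∧ t x ≤ M := by
    filter_upwards [hKae] with x hx
    constructor
    · have := hhKC (NN K x)
      rw [hx] at this
      rw [inv_le_iff_one_le_mul₀ hM0]
      linarith
    · have := hhCK (NN K x)
      rw [hx] at this
      linarith
  -- estimate (2)
  have h2 : ∫ x in K, (max 0 (1 - s⁻¹ * t x)) ^ 2 ≤ A * (∫ x in K, (s⁻¹ * t x - 1)) := by
    have e1 : K ⊆ M ^ 2 • (s⁻¹ • C) := by
      rw [smul_smul]
      refine hKC.trans (smul_mono hC hM0.le ?_)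
      rw [← div_eq_mul_inv, le_div_iff₀ hs0]
      nlinarith
    have e2 : s⁻¹ • C ⊆ M ^ 2 • K := by
      have e3 : s⁻¹ • C ⊆ s⁻¹ • (M • K) := smul_set_mono hCK
      refine e3.trans ?_
      rw [smul_smul]
      exact smul_mono hK (by positivity) (by nlinarith)
    have e3 : volume K = volume (s⁻¹ • C) := by
      rw [← ENNReal.toReal_eq_toReal_iff' hKfin (hsmfin C _ hC hsi), vol_smul C hsi, inv_pow]
      rw [eq_inv_mul_iff_mul_eq₀ (by positivity)]
      exact hsvK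
    have e4 := hst K (s⁻¹ • C) hK (hC.smul hsi) e1 e2 e3 cK (cent_smul cC hsi)
    simp only [hh_smul_set C hsi.le] at e4
    refine e4.trans (le_of_eq ?_)
    rw [integral_sub ((int_hh hK hC.comp hneC).const_mul _) (integrable_const _),
      integral_const, measureReal_restrict_apply_univ, smul_eq_mul, mul_one]
    rfl
  -- estimate (3)
  have hratm : Measurable fun u : EE n => hh K u * (hh C u)⁻¹ :=
    (hh_cont hK.comp hneK).measurable.mul (hh_cont hC.comp hneC).measurable.inv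
  have hhnn : ∀ u : EE n, 0 ≤ hh C u := fun u => by
    have := inner_le_hh hC.comp (interior_subset hC.zero) u
    rwa [inner_zero_right] at this
  have hhnnK : ∀ u : EE n, 0 ≤ hh K u := fun u => by
    have := inner_le_hh hK.comp (interior_subset hK.zero) u
    rwa [inner_zero_right] at this
  have htrans : ∀ F : ℝ → ℝ, Measurable F → (∀ y, 0 ≤ F y) →
      ∫ x in K, (t x) ^ p * F (t x)⁻¹ = ∫ x in C, F (hh K (NN C x)) := by
    intro F hF hF0
    have e1 := hyp_real hn0 hp0 hK hC hyp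
      (G := fun u => (hh C u) ^ p * F (hh K u * (hh C u)⁻¹))
      (((hh_cont hC.comp hneC).measurable.pow_const p).mul (hF.comp hratm))
      (fun u => mul_nonneg (Real.rpow_nonneg (hhnn u) _) (hF0 _))
      (fun c u hc => by
        rw [hh_smul C hc.le, hh_smul K hc.le, Real.mul_rpow hc.le (hhnn u)]
        have : c * hh K u * (c * hh C u)⁻¹ = hh K u * (hh C u)⁻¹ := by
          rw [mul_inv]
          field_simp
        rw [this]
        ring)
    have e2 : ∫ x in K, (hh C (NN K x)) ^ p * F (hh K (NN K x) * (hh C (NN K x))⁻¹)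
        = ∫ x in K, (t x) ^ p * F (t x)⁻¹ := by
      refine integral_congr_ae ?_
      filter_upwards [hKae] with x hx
      rw [hx, one_mul]
    have e3 : ∫ x in C, (hh C (NN C x)) ^ p * F (hh K (NN C x) * (hh C (NN C x))⁻¹)
        = ∫ x in C, F (hh K (NN C x)) := by
      refine integral_congr_ae ?_
      filter_upwards [hCae] with x hx
      rw [hx, Real.one_rpow, inv_one, mul_one, one_mul]
    rw [← e2, ← e3]
    exact e1
  have htp : ∫ x in K, t x ^ p = vC := by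
    have := htrans (fun _ => 1) measurable_const (fun _ => zero_le_one)
    simp only [mul_one] at this
    rw [this, integral_const, measureReal_restrict_apply_univ, smul_eq_mul, mul_one]
    rfl
  have h3 : ∫ x in K, t x ^ p * (max 0 (1 - s * (t x)⁻¹)) ^ 2
      ≤ A * (∫ x in K, (t x ^ p * (s * (t x)⁻¹) - t x ^ p)) := by
    have e1 : C ⊆ M ^ 2 • (s • K) := by
      rw [smul_smul]
      refine hCK.trans (smul_mono hK hM0.le ?_)
      have : 1 ≤ M * s := by
        rw [inv_le_iff_one_le_mul₀ hM0] at hs1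
        linarith
      nlinarith
    have e2 : s • K ⊆ M ^ 2 • C := by
      have e3 : s • K ⊆ s • (M • C) := smul_set_mono hKC
      refine e3.trans ?_
      rw [smul_smul]
      exact smul_mono hC (by positivity) (by nlinarith)
    have e3 : volume C = volume (s • K) := by
      rw [← ENNReal.toReal_eq_toReal_iff' hCfin (hsmfin K _ hK hs0), vol_smul K hs0]
      exact hsvK.symm
    have e4 := hst C (s • K) hC (hK.smul hs0) e1 e2 e3 cC (cent_smul cK hs0)
    simp only [hh_smul_set K hs0.le] at e4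
    have e5 := htrans (fun y => (max 0 (1 - s * y)) ^ 2) (by fun_prop) (fun y => by positivity)
    rw [e5]
    refine e4.trans (le_of_eq ?_)
    have e6 := htrans (fun y => s * max 0 y) (by fun_prop) (fun y => by positivity)
    have e7 : ∫ x in K, (t x) ^ p * (s * max 0 (t x)⁻¹)
        = ∫ x in K, (t x) ^ p * (s * (t x)⁻¹) := by
      refine integral_congr_ae ?_
      filter_upwards [hb] with x hx
      rw [max_eq_right]
      exact inv_nonneg.2 ((inv_pos.2 hM0).le.trans hx.1)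
    have e8 : ∫ x in C, s * max 0 (hh K (NN C x)) = ∫ x in C, s * hh K (NN C x) := by
      refine integral_congr_ae (Filter.Eventually.of_forall fun x => ?_)
      simp only
      rw [max_eq_right (hhnnK _)]
    have e9 : ∫ x in C, s * hh K (NN C x) = ∫ x in K, (t x) ^ p * (s * (t x)⁻¹) := by
      rw [← e7, ← e8, e6]
    rw [e9]
    have i1 : Integrable (fun x => t x ^ p) (volume.restrict K) := by
      refine Integrable.of_bound (C := M ^ p) (htm.pow_const p).aestronglyMeasurable ?_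
      filter_upwards [hb] with x hx
      have h0 : 0 ≤ t x := hhnn _
      rw [Real.norm_of_nonneg (by positivity)]
      exact Real.rpow_le_rpow h0 hx.2 hp0.le
    have i2 : Integrable (fun x => t x ^ p * (s * (t x)⁻¹)) (volume.restrict K) := by
      refine Integrable.of_bound (C := M ^ p * (s * M))
        ((htm.pow_const p).mul (measurable_const.mul htm.inv)).aestronglyMeasurable ?_
      filter_upwards [hb] with x hx
      have h0 : 0 ≤ t x := hhnn _
      rw [Real.norm_of_nonneg (by positivity)]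
      have h5 : (t x)⁻¹ ≤ M := by
        have := inv_anti₀ (inv_pos.2 hM0) hx.1
        rwa [inv_inv] at this
      have h6 := Real.rpow_le_rpow h0 hx.2 hp0.le
      gcongr
    rw [integral_sub i2 i1, htp]
  have hfin := core_alg htm hM hs1 hsM hp0 hp1 hA hq hb h2 h3
  -- conclusion
  have hs : s = 1 := by
    have e1 : ∫ x in K, t x ^ p = s ^ p * vK := by
      have e2 : ∫ x in K, t x ^ p = ∫ x in K, s ^ p := by
        refine integral_congr_ae ?_
        filter_upwards [hfin] with x hx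
        rw [hx]
      rw [e2, integral_const, measureReal_restrict_apply_univ, smul_eq_mul, mul_comm]
      rfl
    have e2 : s ^ p * vK = s ^ n * vK := by rw [← e1, htp, hsvK]
    have e3 : s ^ p = s ^ (n : ℝ) := by
      rw [Real.rpow_natCast]
      exact mul_right_cancel₀ hKpos.ne' e2
    by_contra hne
    have e4 := (Real.rpow_right_inj hs0 hne).1 e3
    have : (2 : ℝ) ≤ n := by exact_mod_cast hn
    linarith
  have hsub : C ⊆ K := by
    refine subset_of_ae hn0 hK hC ?_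
    filter_upwards [hfin] with x hx
    show t x ≤ 1
    rw [hx, hs]
  refine eq_of_subset hK hC hsub ?_
  rw [← ENNReal.toReal_eq_toReal_iff' hKfin hCfin]
  rw [← hvK, ← hvC, ← hsvK, hs, one_pow, one_mul]

end Pool.Agent.MP9dd972N
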