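import Mathlib
import Pool.Agent.Lib.MP_9dd972_gt.N.Defs

/-!
# MP_9dd972_gt, part 2, module FLAT

Hausdorff measure of a flat piece and the volume of the cone over it.
-/

set_option autoImplicit false

namespace Pool.Agent.MP9dd972N

open MeasureTheory Set Metric
open scoped ENNReal NNReal Topology Pointwise

namespace FlatAux

theorem mem_cone_iff {n : ℕ} (u : EE n) (h : ℝ) (A : Set (EE n)) (hh0 : 0 < h)
    (hA : ∀ x ∈ A, (inner ℝ u x : ℝ) = h) (y : EE n) :
    y ∈ cone A ↔ (0 < (inner ℝ u y : ℝ) ∧ (inner ℝ u y : ℝ) ≤ h) ∧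
      (h / (inner ℝ u y : ℝ)) • y ∈ A := by
  constructor
  · rintro ⟨x, hx, s, hs, rfl⟩
    have h1 : (inner ℝ u (s • x) : ℝ) = s * h := by
      rw [inner_smul_right, hA x hx]
    rw [h1]
    refine ⟨⟨mul_pos hs.1 hh0, ?_⟩, ?_⟩
    · have := hs.2
      nlinarith
    · rw [smul_smul]
      have : h / (s * h) * s = 1 := by
        have := hs.1.ne'
        field_simp
      rw [this, one_smul]
      exact hx
  · rintro ⟨⟨h1, h2⟩, h3⟩
    refine ⟨_, h3, (inner ℝ u y : ℝ) / h, ⟨div_pos h1 hh0, (div_le_one hh0).mpr h2⟩, ?_⟩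
    rw [smul_smul]
    have : (inner ℝ u y : ℝ) / h * (h / (inner ℝ u y : ℝ)) = 1 := by
      field_simp
    rw [this, one_smul]

theorem measurable_cone {n : ℕ} (u : EE n) (h : ℝ) (A : Set (EE n)) (hh0 : 0 < h)
    (hm : MeasurableSet A) (hA : ∀ x ∈ A, (inner ℝ u x : ℝ) = h) :
    MeasurableSet (cone A) := by
  have hc : Measurable fun y : EE n => (inner ℝ u y : ℝ) := by fun_prop
  have hf : Measurable fun y : EE n => (h / (inner ℝ u y : ℝ)) • y :=
    (measurable_const.div hc).smul measurable_id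
  have e : cone A = {y : EE n | 0 < (inner ℝ u y : ℝ)} ∩ {y : EE n | (inner ℝ u y : ℝ) ≤ h} ∩
      (fun y : EE n => (h / (inner ℝ u y : ℝ)) • y) ⁻¹' A := by
    ext y
    rw [mem_cone_iff u h A hh0 hA]
    rfl
  rw [e]
  exact ((measurableSet_lt measurable_const hc).inter
    (measurableSet_le hc measurable_const)).inter (hf hm)

theorem slice {n : ℕ} (u : EE n) (hu : ‖u‖ = 1) (h : ℝ) (A : Set (EE n)) (hh0 : 0 < h)
    (hA : ∀ x ∈ A, (inner ℝ u x : ℝ) = h) (t : ℝ) :
    cone A ∩ (AffineSubspace.mk' (t • u +ᵥ (0 : EE n)) (Submodule.span ℝ {u})ᗮ : Set (EE n)) =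
      if t ∈ Ioc 0 h then (t / h) • A else ∅ := by
  have hmk : ∀ y : EE n, y ∈ (AffineSubspace.mk' (t • u +ᵥ (0 : EE n))
      (Submodule.span ℝ {u})ᗮ : Set (EE n)) ↔ (inner ℝ u y : ℝ) = t := by
    intro y
    rw [SetLike.mem_coe, AffineSubspace.mem_mk', Submodule.mem_orthogonal_singleton_iff_inner_right]
    simp only [vadd_eq_add, add_zero, vsub_eq_sub]
    rw [inner_sub_right, inner_smul_right, real_inner_self_eq_norm_sq, hu]
    constructor
    · intro h; linarith
    · intro h; rw [h]; ring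
  ext y
  rw [mem_inter_iff, hmk, mem_cone_iff u h A hh0 hA]
  split_ifs with ht
  · rw [mem_smul_set_iff_inv_smul_mem₀ (div_pos ht.1 hh0).ne']
    constructor
    · rintro ⟨⟨_, h2⟩, h3⟩
      rw [h3] at h2
      rw [inv_div]
      exact h2
    · intro h1
      rw [inv_div] at h1
      have h2 := hA _ h1
      rw [inner_smul_right] at h2
      have h3 : (inner ℝ u y : ℝ) = t := by
        have ht0 := ht.1.ne'
        have hne := hh0.ne'
        field_simp at h2
        linarith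
      refine ⟨⟨?_, ?_⟩, h3⟩
      · rw [h3]; exact ht
      · rw [h3]; exact h1
  · constructor
    · rintro ⟨⟨h1, _⟩, h3⟩
      exact absurd (h3 ▸ h1) ht
    · intro h; exact absurd h (notMem_empty _)

theorem lint (n : ℕ) (hn : 1 ≤ n) (h : ℝ) (hh0 : 0 < h) :
    ∫⁻ t in Ioc 0 h, ENNReal.ofReal ((t / h) ^ (n - 1)) = ENNReal.ofReal (h / n) := by
  rw [← ofReal_integral_eq_lintegral_ofReal]
  · congr 1
    rw [← intervalIntegral.integral_of_le hh0.le]
    have : (fun t : ℝ => (t / h) ^ (n - 1)) = fun t => (t ^ (n - 1)) * ((h ^ (n - 1))⁻¹) := by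
      funext t
      rw [div_pow, div_eq_mul_inv]
    rw [this, intervalIntegral.integral_mul_const, integral_pow]
    obtain ⟨m, rfl⟩ : ∃ m, n = m + 1 := ⟨n - 1, by omega⟩
    have hne := hh0.ne'
    simp only [Nat.add_sub_cancel]
    push_cast
    rw [zero_pow (by omega), sub_zero]
    have : ((m : ℝ) + 1) ≠ 0 := by positivity
    field_simp
    ring
  · exact (Continuous.integrableOn_Icc (by fun_prop)).mono_set Ioc_subset_Icc_self
  · refine (ae_restrict_iff' measurableSet_Ioc).mpr (Filter.Eventually.of_forall fun t ht => ?_)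
    exact pow_nonneg (div_nonneg ht.1.le hh0.le) _

theorem volume_cone (n : ℕ) (hn : 1 ≤ n) (u : EE n) (h : ℝ) (A : Set (EE n)) (hu : ‖u‖ = 1)
    (hh0 : 0 < h) (hm : MeasurableSet A) (hA : ∀ x ∈ A, (inner ℝ u x : ℝ) = h) :
    volume (cone A) = (μHE[n - 1] : Measure (EE n)) A * ENNReal.ofReal (h / n) := by
  have hu0 : u ≠ 0 := by
    intro h0
    rw [h0, norm_zero] at hu
    exact zero_ne_one hu
  have h1 := EuclideanGeometry.euclideanHausdorffMeasure_eq_lintegral (0 : EE n) hu0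
    (measurable_cone u h A hh0 hm hA)
  rw [finrank_euclideanSpace_fin, EuclideanSpace.euclideanHausdorffMeasure_eq_volume] at h1
  rw [h1]
  have h2 : ‖u‖ₑ = 1 := by
    rw [← ofReal_norm, hu, ENNReal.ofReal_one]
  rw [h2, one_mul]
  have h3 : ∀ t : ℝ, (μHE[n - 1] : Measure (EE n))
      (cone A ∩ (AffineSubspace.mk' (t • u +ᵥ (0 : EE n)) (Submodule.span ℝ {u})ᗮ : Set (EE n))) =
      (Ioc 0 h).indicator (fun t => ENNReal.ofReal ((t / h) ^ (n - 1)) *
        (μHE[n - 1] : Measure (EE n)) A) t := by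
    intro t
    rw [slice u hu h A hh0 hA t, Set.indicator_apply]
    split_ifs with ht
    · rw [Measure.euclideanHausdorffMeasure_smul₀ _ (div_pos ht.1 hh0).ne']
      rw [ENNReal.smul_def, smul_eq_mul, ENNReal.ofReal_pow (div_pos ht.1 hh0).le,
        ENNReal.coe_pow]
      congr 2
      rw [← enorm_eq_nnnorm, ← ofReal_norm, Real.norm_of_nonneg (div_pos ht.1 hh0).le]
    · exact measure_empty
  simp_rw [h3]
  rw [lintegral_indicator measurableSet_Ioc, lintegral_mul_const _ (by fun_prop), lint n hn h hh0,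
    mul_comm]

end FlatAux

theorem flat_cone (n : ℕ) (hn : 2 ≤ n) :
    ∃ κ : ℝ≥0∞, κ ≠ 0 ∧ κ ≠ ⊤ ∧ ∀ (u : EE n) (h : ℝ) (A : Set (EE n)), ‖u‖ = 1 → 0 < h →
      MeasurableSet A → (∀ x ∈ A, (inner ℝ u x : ℝ) = h) →
      μH[(n : ℝ) - 1] A * ENNReal.ofReal h = κ * volume (cone A) := by
  set c : ℝ≥0 := Measure.addHaarScalarFactor (volume : Measure (EuclideanSpace ℝ (Fin (n - 1))))
    μH[((n - 1 : ℕ) : ℝ)] with hc
  have hc0 : c ≠ 0 := Measure.addHaarScalarFactor_volume_hausdorffMeasure_ne_zero (n - 1)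
  have hn0 : (n : ℝ≥0∞) ≠ 0 := by
    have : n ≠ 0 := by omega
    exact_mod_cast this
  refine ⟨(n : ℝ≥0∞) / c, ?_, ?_, ?_⟩
  · exact (ENNReal.div_pos hn0 ENNReal.coe_ne_top).ne'
  · exact ENNReal.div_ne_top (ENNReal.natCast_ne_top n) (by exact_mod_cast hc0)
  · intro u h A hu hh0 hm hA
    rw [FlatAux.volume_cone n (by omega) u h A hu hh0 hm hA]
    have e : (μHE[n - 1] : Measure (EE n)) A = (c : ℝ≥0∞) * μH[(n : ℝ) - 1] A := by
      rw [Measure.euclideanHausdorffMeasure_def, Measure.smul_apply, ← hc]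
      rw [ENNReal.smul_def, smul_eq_mul]
      have : ((n - 1 : ℕ) : ℝ) = (n : ℝ) - 1 := by
        rw [Nat.cast_sub (by omega)]; simp
      rw [this]
    rw [e]
    have e2 : ENNReal.ofReal h = (n : ℝ≥0∞) * ENNReal.ofReal (h / n) := by
      rw [← ENNReal.ofReal_natCast, ← ENNReal.ofReal_mul (by positivity)]
      congr 1
      have : (n : ℝ) ≠ 0 := by
        have : n ≠ 0 := by omega
        exact_mod_cast this
      field_simp
    rw [e2]
    have hc1 : (c : ℝ≥0∞) ≠ 0 := by exact_mod_cast hc0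
    calc μH[(n : ℝ) - 1] A * ((n : ℝ≥0∞) * ENNReal.ofReal (h / n))
        = ((c : ℝ≥0∞)⁻¹ * c) * (μH[(n : ℝ) - 1] A * ((n : ℝ≥0∞) * ENNReal.ofReal (h / n))) := by
          rw [ENNReal.inv_mul_cancel hc1 ENNReal.coe_ne_top, one_mul]
      _ = (n : ℝ≥0∞) / c * ((c : ℝ≥0∞) * μH[(n : ℝ) - 1] A * ENNReal.ofReal (h / n)) := by
          rw [ENNReal.div_eq_inv_mul]
          ring

end Pool.Agent.MP9dd972N
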