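import Mathlib
import Pool.Agent.Lib.MP_9dd972_gt.N.Defs
import Pool.Agent.Lib.MP_9dd972_gt.N.Hsup
import Pool.Agent.Lib.MP_9dd972_gt.N.Gauge

set_option autoImplicit false

namespace Pool.Agent.MP9dd972N

open MeasureTheory Set Metric
open scoped ENNReal NNReal Topology Pointwise

namespace HypofAux

/-- unit normal map -/
noncomputable def T {n : ℕ} (K : Set (EE n)) (x : EE n) : EE n := ‖NN K x‖⁻¹ • NN K x

theorem T_meas {n : ℕ} (K : Set (EE n)) : Measurable (T K) :=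
  (NN_meas K).norm.inv.smul (NN_meas K)

theorem dens_meas {n : ℕ} (K : Set (EE n)) (p : ℝ) :
    Measurable (fun x => ENNReal.ofReal (‖NN K x‖ ^ p)) :=
  ((NN_meas K).norm.pow_const p).ennreal_ofReal

theorem NN_ne {n : ℕ} (hn : 0 < n) {K : Set (EE n)} (hK : Body K) :
    ∀ᵐ x : EE n, NN K x ≠ 0 := by
  filter_upwards [hK.ae_diff hn] with x hx h0
  have h1 := hh_NN hK hx.1 hx.2
  rw [h0, hh_zero] at h1
  exact zero_ne_one h1

/-- the weighted image measure -/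
noncomputable def mu {n : ℕ} (K : Set (EE n)) (p : ℝ) : Measure (EE n) :=
  ((volume.restrict K).withDensity (fun x => ENNReal.ofReal (‖NN K x‖ ^ p))).map (T K)

theorem lint_mu {n : ℕ} (hn : 0 < n) {K : Set (EE n)} (hK : Body K) (p : ℝ)
    {G : EE n → ℝ≥0∞} (hG : Measurable G)
    (hh : ∀ (c : ℝ) (u : EE n), 0 < c → G (c • u) = ENNReal.ofReal (c ^ p) * G u) :
    ∫⁻ x in K, G (NN K x) = ∫⁻ u, G u ∂(mu K p) := by
  unfold mu
  have h0 := lintegral_withDensity_eq_lintegral_mul (volume.restrict K) (dens_meas K p)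
    (hG.comp (T_meas K))
  rw [lintegral_map hG (T_meas K)]
  refine Eq.trans ?_ h0.symm
  apply lintegral_congr_ae
  apply ae_restrict_of_ae
  filter_upwards [NN_ne hn hK] with x hx
  have h1 : 0 < ‖NN K x‖ := norm_pos_iff.mpr hx
  have h2 : NN K x = ‖NN K x‖ • T K x := by
    unfold T
    rw [smul_smul, mul_inv_cancel₀ h1.ne', one_smul]
  have h3 := hh ‖NN K x‖ (T K x) h1
  rw [← h2] at h3
  rw [h3]
  rfl

theorem mu_apply {n : ℕ} (hn : 0 < n) {K : Set (EE n)} (hK : Body K) (p : ℝ)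
    {s : Set (EE n)} (hs : MeasurableSet s) :
    mu K p s = ∫⁻ x in K ∩ {x | ‖NN K x‖⁻¹ • NN K x ∈ s ∩ sphere (0 : EE n) 1},
      ENNReal.ofReal (‖NN K x‖ ^ p) := by
  unfold mu
  rw [Measure.map_apply (T_meas K) hs, withDensity_apply _ (T_meas K hs),
    Measure.restrict_restrict (T_meas K hs)]
  apply setLIntegral_congr
  have h1 : ∀ᵐ x : EE n, NN K x ≠ 0 := NN_ne hn hK
  filter_upwards [h1] with x hx
  apply propext
  have h2 : 0 < ‖NN K x‖ := norm_pos_iff.mpr hx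
  have h3 : ‖NN K x‖⁻¹ • NN K x ∈ sphere (0 : EE n) 1 := by
    rw [mem_sphere_zero_iff_norm, norm_smul, norm_inv, norm_norm, inv_mul_cancel₀ h2.ne']
  constructor
  · rintro ⟨ha, hb⟩
    exact ⟨hb, ha, h3⟩
  · rintro ⟨ha, hb, _⟩
    exact ⟨hb, ha⟩

end HypofAux

open HypofAux in
theorem hyp_of {n : ℕ} (hn : 2 ≤ n) {p : ℝ} (hp0 : 0 < p) (hp1 : p < 1) {K C : Set (EE n)}
    (hK : Body K) (hC : Body C)
    (h : ∀ ω : Set (EE n), MeasurableSet ω → ω ⊆ sphere (0 : EE n) 1 →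
      ∫⁻ x in K ∩ {x | ‖NN K x‖⁻¹ • NN K x ∈ ω}, ENNReal.ofReal (‖NN K x‖ ^ p)
        = ∫⁻ x in C ∩ {x | ‖NN C x‖⁻¹ • NN C x ∈ ω}, ENNReal.ofReal (‖NN C x‖ ^ p)) :
    Hyp p K C := by
  intro G hG hGh
  rw [lint_mu (by omega) hK p hG hGh, lint_mu (by omega) hC p hG hGh]
  have h1 : mu K p = mu C p := by
    apply Measure.ext
    intro s hs
    rw [mu_apply (by omega) hK p hs, mu_apply (by omega) hC p hs]
    exact h _ (hs.inter isClosed_sphere.measurableSet) inter_subset_right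
  rw [h1]

end Pool.Agent.MP9dd972N
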