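import Mathlib
import Pool.Agent.Lib.MP_9dd972_gt.N.Defs
import Pool.Agent.Lib.MP_9dd972_gt.N.Gauge
import Pool.Agent.Lib.MP_9dd972_gt.N.Coneb

set_option autoImplicit false

namespace Pool.Agent.MP9dd972N

open MeasureTheory Set Metric
open scoped ENNReal NNReal Topology Pointwise

namespace PushmAux

/-- the weighted image measure -/
noncomputable def nu {n : ℕ} (K : Set (EE n)) : Measure (EE n) :=
  ((volume.restrict K).withDensity (fun x => ENNReal.ofReal ‖NN K x‖)).map (bd K)

theorem dens_meas {n : ℕ} (K : Set (EE n)) :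
    Measurable (fun x => ENNReal.ofReal ‖NN K x‖) :=
  (NN_meas K).norm.ennreal_ofReal

theorem lint_nu {n : ℕ} {K : Set (EE n)} (hK : Body K) {F : EE n → ℝ≥0∞} (hF : Measurable F) :
    ∫⁻ x, F x ∂(nu K) = ∫⁻ x in K, F (bd K x) * ENNReal.ofReal ‖NN K x‖ := by
  unfold nu
  have h0 := lintegral_withDensity_eq_lintegral_mul (volume.restrict K) (dens_meas K)
    (hF.comp (bd_meas hK))
  rw [lintegral_map hF (bd_meas hK)]
  refine Eq.trans h0 ?_
  apply lintegral_congr
  intro x
  simp only [Pi.mul_apply, Function.comp_apply]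
  rw [mul_comm]

theorem nu_apply {n : ℕ} (hn : 0 < n) {K : Set (EE n)} (hK : Body K)
    {s : Set (EE n)} (hs : MeasurableSet s) :
    nu K s = ∫⁻ x in cone (s ∩ frontier K), ENNReal.ofReal ‖NN K x‖ := by
  unfold nu
  rw [Measure.map_apply (bd_meas hK) hs, withDensity_apply _ (bd_meas hK hs),
    Measure.restrict_restrict (bd_meas hK hs), cone_eq hK inter_subset_right]
  apply setLIntegral_congr
  filter_upwards [hK.ae_diff hn] with x hx
  apply propext
  constructor
  · rintro ⟨ha, hb⟩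
    exact ⟨hb, hx.2, ha, bd_frontier hK hx.2⟩
  · rintro ⟨ha, _, hb, _⟩
    exact ⟨hb, ha⟩

end PushmAux

open PushmAux in
theorem lint_frontier {n : ℕ} (hn : 2 ≤ n) {κ : ℝ≥0∞} (hκ : κ ≠ ⊤) {K : Set (EE n)}
    (hK : Body K)
    (hcone : ∀ A : Set (EE n), MeasurableSet A → A ⊆ frontier K →
      μH[(n : ℝ) - 1] A = κ * ∫⁻ x in cone A, ENNReal.ofReal ‖NN K x‖)
    {F : EE n → ℝ≥0∞} (hF : Measurable F) :
    ∫⁻ x in frontier K, F x ∂μH[(n : ℝ) - 1]
      = κ * ∫⁻ x in K, F (bd K x) * ENNReal.ofReal ‖NN K x‖ := by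
  have h1 : (μH[(n : ℝ) - 1] : Measure (EE n)).restrict (frontier K) = κ • nu K := by
    apply Measure.ext
    intro s hs
    rw [Measure.restrict_apply hs, Measure.smul_apply, nu_apply (by omega) hK hs, smul_eq_mul]
    exact hcone _ (hs.inter isClosed_frontier.measurableSet) inter_subset_right
  rw [h1, lintegral_smul_measure, lint_nu hK hF, smul_eq_mul]

end Pool.Agent.MP9dd972N
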