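import Mathlib
import Pool.Agent.Lib.MP_9dd972_gt.N.Defs
import Pool.Agent.Lib.MP_9dd972_gt.N.Gauge

/-!
# MP_9dd972_gt part 2: the unique normal at smooth boundary points
-/

set_option autoImplicit false

namespace Pool.Agent.MP9dd972N

open MeasureTheory Set Metric
open scoped ENNReal NNReal Topology Pointwise

namespace SmoothAux

theorem gauge_eq_one {n : ℕ} {K : Set (EE n)} (hK : Body K) {x : EE n} (hx : x ∈ frontier K) :
    gauge K x = 1 := by
  have hcl : IsClosed K := hK.comp.isClosed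
  have h1 : x ∈ K := hcl.frontier_subset hx
  have h2 : x ∉ interior K := hx.2
  have h3 := (Body.gauge_le_one hK x).2 h1
  have h4 : ¬ gauge K x < 1 := fun h => h2 ((Body.gauge_lt_one hK x).1 h)
  exact le_antisymm h3 (not_lt.1 h4)

theorem NN_of_nor {n : ℕ} {K : Set (EE n)} (hK : Body K) {x : EE n} (hx : x ∈ frontier K)
    (hd : DifferentiableAt ℝ (gauge K) x) {u : EE n} (hu : IsNor K x u) :
    0 < (inner ℝ u x : ℝ) ∧ NN K x = (inner ℝ u x : ℝ)⁻¹ • u := by
  obtain ⟨hu1, hu2⟩ := hu
  rw [mem_sphere_zero_iff_norm] at hu1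
  set s : ℝ := (inner ℝ u x : ℝ) with hs
  obtain ⟨r, R, hr, -, hround⟩ := Body.round hK
  have hspos : 0 < s := by
    have hy : (r / 2) • u ∈ K := by
      apply hround.inn
      rw [mem_ball_zero_iff, norm_smul, hu1, Real.norm_eq_abs, abs_of_pos (by positivity)]
      linarith
    have h := hu2 _ hy
    rw [inner_sub_right, inner_smul_right, real_inner_self_eq_norm_sq, hu1] at h
    linarith
  refine ⟨hspos, ?_⟩
  have hle : ∀ y : EE n, (inner ℝ u y : ℝ) ≤ s * gauge K y := by
    intro y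
    rcases eq_or_ne y 0 with rfl | hy
    · simp [gauge_zero]
    · have hg : 0 < gauge K y := Body.gauge_pos hK hy
      have hb : bd K y ∈ K := bd_mem hK y
      have h := hu2 _ hb
      rw [inner_sub_right] at h
      unfold bd at h
      rw [inner_smul_right] at h
      have h2 : (gauge K y)⁻¹ * (inner ℝ u y : ℝ) ≤ s := by linarith
      have h3 := mul_le_mul_of_nonneg_left h2 hg.le
      rw [← mul_assoc, mul_inv_cancel₀ hg.ne', one_mul] at h3
      linarith
  have hmin : IsLocalMin (fun y : EE n => gauge K y - s⁻¹ * (inner ℝ u y : ℝ)) x := by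
    refine Filter.Eventually.of_forall fun y => ?_
    have h1 : gauge K x - s⁻¹ * (inner ℝ u x : ℝ) = 0 := by
      rw [gauge_eq_one hK hx, ← hs, inv_mul_cancel₀ hspos.ne', sub_self]
    show gauge K x - s⁻¹ * (inner ℝ u x : ℝ) ≤ gauge K y - s⁻¹ * (inner ℝ u y : ℝ)
    rw [h1]
    have h2 := mul_le_mul_of_nonneg_left (hle y) (inv_pos.2 hspos).le
    rw [← mul_assoc, inv_mul_cancel₀ hspos.ne', one_mul] at h2
    linarith
  have hg : HasGradientAt (gauge K) (NN K x) x := hd.hasGradientAt
  have hf : HasFDerivAt (fun y : EE n => gauge K y - s⁻¹ * (inner ℝ u y : ℝ))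
      ((InnerProductSpace.toDual ℝ (EE n) (NN K x)) - s⁻¹ • (innerSL ℝ u)) x := by
    have h1 := hg.hasFDerivAt
    have h2 : HasFDerivAt (fun y : EE n => (inner ℝ u y : ℝ)) (innerSL ℝ u) x :=
      (innerSL ℝ u).hasFDerivAt
    exact h1.sub (h2.const_mul s⁻¹)
  have hz := hmin.hasFDerivAt_eq_zero hf
  refine ext_inner_right ℝ fun v => ?_
  have hv := congrArg (fun L : EE n →L[ℝ] ℝ => L v) hz
  simp only [_root_.sub_apply, _root_.smul_apply,
    _root_.zero_apply, InnerProductSpace.toDual_apply_apply, innerSL_apply_apply,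
    smul_eq_mul] at hv
  rw [inner_smul_left]
  simp only [conj_trivial]
  linarith

end SmoothAux

open SmoothAux

theorem nor_inner {n : ℕ} {K : Set (EE n)} (hK : Body K) {x : EE n} (hx : x ∈ frontier K)
    (hd : DifferentiableAt ℝ (gauge K) x) :
    (inner ℝ (‖NN K x‖⁻¹ • NN K x) x : ℝ) = ‖NN K x‖⁻¹ := by
  rw [inner_smul_left, inner_NN_self hK hd, gauge_eq_one hK hx]
  simp

theorem nor_iff {n : ℕ} {K : Set (EE n)} (hK : Body K) {x : EE n} (hx : x ∈ frontier K)
    (hd : DifferentiableAt ℝ (gauge K) x) (u : EE n) :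
    IsNor K x u ↔ u = ‖NN K x‖⁻¹ • NN K x := by
  constructor
  · intro hu
    obtain ⟨hs, hN⟩ := NN_of_nor hK hx hd hu
    have hu1 : ‖u‖ = 1 := by
      have := hu.1
      rwa [mem_sphere_zero_iff_norm] at this
    rw [hN, norm_smul, hu1, mul_one, Real.norm_eq_abs, abs_of_pos (inv_pos.2 hs), inv_inv,
      smul_smul, mul_inv_cancel₀ hs.ne', one_smul]
  · rintro rfl
    have h1 : (inner ℝ (NN K x) x : ℝ) = 1 := by
      rw [inner_NN_self hK hd, gauge_eq_one hK hx]
    have hN0 : NN K x ≠ 0 := by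
      intro h
      rw [h, inner_zero_left] at h1
      exact zero_ne_one h1
    have hNp : 0 < ‖NN K x‖ := norm_pos_iff.2 hN0
    refine ⟨?_, fun y hy => ?_⟩
    · rw [mem_sphere_zero_iff_norm, norm_smul, norm_inv, norm_norm, inv_mul_cancel₀ hNp.ne']
    · rw [inner_smul_left, inner_sub_right, h1]
      have h2 := inner_NN_le hK x y
      have h3 := (Body.gauge_le_one hK y).2 hy
      simp only [conj_trivial]
      exact mul_nonpos_of_nonneg_of_nonpos (inv_pos.2 hNp).le (by linarith)

end Pool.Agent.MP9dd972N
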