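import Mathlib
import Pool.Agent.Lib.MP_9dd972_gt.N.Gauge
import Pool.Agent.Lib.MP_9dd972_gt.N.Smooth
import Pool.Agent.Lib.MP_9dd972_gt.N.Pushm

/-!
# The L_p surface area measure in terms of the gradient of the gauge
-/

set_option autoImplicit false

namespace Pool.Agent.MP9dd972N

open MeasureTheory Set Metric
open scoped ENNReal NNReal Topology Pointwise



namespace LpneqAux

variable {n : ℕ} {K : Set (EE n)}

theorem mem_frontier_of_nor (hK : Body K) {x u : EE n} (hx : x ∈ K) (hu : ‖u‖ = 1)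
    (h : ∀ y ∈ K, inner ℝ u (y - x) ≤ (0 : ℝ)) : x ∈ frontier K := by
  rw [hK.comp.isClosed.frontier_eq]
  refine ⟨hx, fun hi => ?_⟩
  obtain ⟨ε, hε, hball⟩ := Metric.isOpen_iff.1 isOpen_interior x hi
  have h1 : x + (ε / 2) • u ∈ K := by
    apply interior_subset
    apply hball
    rw [mem_ball_iff_norm, add_sub_cancel_left, norm_smul, hu, mul_one,
      Real.norm_of_nonneg (by positivity)]
    linarith
  have h2 := h _ h1
  rw [add_sub_cancel_left, inner_smul_right, real_inner_self_eq_norm_sq, hu] at h2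
  linarith

theorem diff_of_smul {x : EE n} {s : ℝ} (hs : 0 < s)
    (h : DifferentiableAt ℝ (gauge K) (s • x)) : DifferentiableAt ℝ (gauge K) x := by
  have h1 : gauge K = fun y => s⁻¹ * gauge K (s • y) := by
    funext y
    rw [gauge_smul_of_nonneg hs.le, smul_eq_mul, ← mul_assoc, inv_mul_cancel₀ hs.ne', one_mul]
  rw [h1]
  have h2 : DifferentiableAt ℝ (fun y : EE n => s • y) x := by fun_prop
  exact (DifferentiableAt.comp x h h2).const_mul _

theorem cone_null (hn : 0 < n) (hK : Body K) :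
    volume (cone {x | x ∈ frontier K ∧ ¬ DifferentiableAt ℝ (gauge K) x}) = 0 := by
  have h1 := hK.ae_diff hn
  refine measure_mono_null ?_ (ae_iff.1 h1)
  rintro y ⟨x, ⟨-, hx⟩, s, hs, rfl⟩
  show ¬ _
  exact fun h => hx (diff_of_smul hs.1 h.1)

end LpneqAux

open LpneqAux in
theorem lpn_eq {n : ℕ} (hn : 2 ≤ n) {κ : ℝ≥0∞} (hκ : κ ≠ ⊤) {K : Set (EE n)} (hK : Body K)
    (hcone : ∀ A : Set (EE n), MeasurableSet A → A ⊆ frontier K →
      μH[(n : ℝ) - 1] A = κ * ∫⁻ x in cone A, ENNReal.ofReal ‖NN K x‖)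
    {p : ℝ} (hp0 : 0 < p) (hp1 : p < 1) {ω : Set (EE n)} (hω : MeasurableSet ω)
    (hωs : ω ⊆ sphere (0 : EE n) 1) :
    LpN p K ω = κ * ∫⁻ x in K ∩ {x | ‖NN K x‖⁻¹ • NN K x ∈ ω}, ENNReal.ofReal (‖NN K x‖ ^ p)
      := by
  have hn0 : 0 < n := by omega
  set S : Set (EE n) := {x | ‖NN K x‖⁻¹ • NN K x ∈ ω} with hS
  have hSm : MeasurableSet S := ((NN_meas K).norm.inv.smul (NN_meas K)) hω
  have hFm : MeasurableSet (frontier K) := isClosed_frontier.measurableSet
  set Z : Set (EE n) := {x | x ∈ frontier K ∧ ¬ DifferentiableAt ℝ (gauge K) x} with hZ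
  have hZm : MeasurableSet Z := hFm.inter (measurableSet_of_differentiableAt ℝ (gauge K)).compl
  have hZ0 : μH[(n : ℝ) - 1] Z = 0 := by
    rw [hcone Z hZm (fun x hx => hx.1), setLIntegral_measure_zero _ _ (cone_null hn0 hK), mul_zero]
  have hZae : ∀ᵐ x ∂μH[(n : ℝ) - 1], x ∉ Z := measure_eq_zero_iff_ae_notMem.1 hZ0
  set f1 : EE n → ℝ≥0∞ := fun x => ENNReal.ofReal ((‖NN K x‖⁻¹) ^ (1 - p)) with hf1
  have hf1m : Measurable f1 := ((NN_meas K).norm.inv.pow_const (1 - p)).ennreal_ofReal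
  have h1 : LpN p K ω = ∫⁻ x in S ∩ frontier K, f1 x ∂μH[(n : ℝ) - 1] := by
    unfold LpN
    have e1 : ({x | x ∈ K ∧ ∃ u ∈ ω, ∀ y ∈ K, inner ℝ u (y - x) ≤ (0 : ℝ)} : Set (EE n))
        =ᵐ[μH[(n : ℝ) - 1]] (S ∩ frontier K : Set (EE n)) := by
      filter_upwards [hZae] with x hx
      apply propext
      show (x ∈ K ∧ ∃ u ∈ ω, ∀ y ∈ K, inner ℝ u (y - x) ≤ (0 : ℝ)) ↔ (x ∈ S ∧ x ∈ frontier K)
      constructor
      · rintro ⟨hxK, u, hu, hn⟩
        have hu1 : ‖u‖ = 1 := mem_sphere_zero_iff_norm.1 (hωs hu)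
        have hfr := mem_frontier_of_nor hK hxK hu1 hn
        have hd : DifferentiableAt ℝ (gauge K) x := by
          by_contra h
          exact hx ⟨hfr, h⟩
        have := (nor_iff hK hfr hd u).1 ⟨hωs hu, hn⟩
        refine ⟨?_, hfr⟩
        show ‖NN K x‖⁻¹ • NN K x ∈ ω
        rw [← this]
        exact hu
      · rintro ⟨hxS, hfr⟩
        have hd : DifferentiableAt ℝ (gauge K) x := by
          by_contra h
          exact hx ⟨hfr, h⟩
        have h2 := (nor_iff hK hfr hd _).2 rfl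
        exact ⟨hK.comp.isClosed.frontier_subset hfr, _, hxS, h2.2⟩
    rw [setLIntegral_congr e1]
    refine setLIntegral_congr_fun_ae (hSm.inter hFm) ?_
    filter_upwards [hZae] with x hx hxS
    have hfr := hxS.2
    have hd : DifferentiableAt ℝ (gauge K) x := by
      by_contra h
      exact hx ⟨hfr, h⟩
    have hiff := fun u => nor_iff hK hfr hd u
    have hin := nor_inner hK hfr hd
    apply le_antisymm
    · refine (iInf₂_le (‖NN K x‖⁻¹ • NN K x) ((hiff _).2 rfl)).trans ?_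
      rw [hin]
    · refine le_iInf₂ fun u hu => ?_
      rw [(hiff u).1 hu, hin]
  rw [h1, ← setLIntegral_indicator hSm,
    lint_frontier hn hκ hK hcone (hf1m.indicator hSm)]
  congr 1
  rw [inter_comm, ← setLIntegral_indicator hSm]
  refine lintegral_congr_ae (ae_restrict_of_ae ?_)
  filter_upwards [hK.ae_diff hn0] with x hx
  have hb : NN K (bd K x) = NN K x := by
    unfold bd
    exact NN_smul K (inv_pos.2 (hK.gauge_pos hx.2)) x
  by_cases hxS : x ∈ S
  · have hbS : bd K x ∈ S := by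
      show ‖NN K (bd K x)‖⁻¹ • NN K (bd K x) ∈ ω
      rw [hb]
      exact hxS
    rw [indicator_of_mem hbS, indicator_of_mem hxS]
    simp only [hf1]
    rw [hb]
    have hN : NN K x ≠ 0 := by
      intro h0
      have h2 : ‖NN K x‖⁻¹ • NN K x ∈ ω := hxS
      have h3 := mem_sphere_zero_iff_norm.1 (hωs h2)
      rw [h0, smul_zero, norm_zero] at h3
      exact zero_ne_one h3
    have hpos : 0 < ‖NN K x‖ := norm_pos_iff.2 hN
    rw [← ENNReal.ofReal_mul (by positivity)]
    congr 1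
    rw [Real.inv_rpow hpos.le, ← Real.rpow_neg hpos.le]
    nth_rewrite 2 [← Real.rpow_one ‖NN K x‖]
    rw [← Real.rpow_add hpos]
    congr 1
    ring
  · have hbS : bd K x ∉ S := by
      intro h
      have h2 : ‖NN K (bd K x)‖⁻¹ • NN K (bd K x) ∈ ω := h
      rw [hb] at h2
      exact hxS h2
    rw [indicator_of_notMem hbS, indicator_of_notMem hxS, zero_mul]

end Pool.Agent.MP9dd972N
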