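import Mathlib
import Pool.Agent.Lib.MP_9dd972_gt.N.Defs

/-!
# First and second moments of the sphere
-/

set_option autoImplicit false

namespace Pool.Agent.MP9dd972N

open MeasureTheory Set Metric
open scoped ENNReal NNReal Topology Pointwise

namespace MomAux

/-- The integral over the unit ball is invariant under linear isometries. -/
theorem comp_iso {n : ℕ} (f : EE n ≃ₗᵢ[ℝ] EE n) (G : EE n → ℝ) :
    ∫ z in closedBall (0 : EE n) 1, G (f z) = ∫ z in closedBall (0 : EE n) 1, G z := by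
  have h1 : (f : EE n → EE n) ⁻¹' closedBall (0 : EE n) 1 = closedBall (0 : EE n) 1 := by
    ext z
    simp
  have h2 := (f.measurePreserving).setIntegral_preimage_emb f.toHomeomorph.measurableEmbedding
    G (closedBall (0 : EE n) 1)
  rw [h1] at h2
  exact h2

/-- Sign change of one coordinate. -/
noncomputable def flip {n : ℕ} (i : Fin n) : EE n ≃ₗᵢ[ℝ] EE n :=
  LinearIsometryEquiv.piLpCongrRight 2 fun k =>
    if k = i then LinearIsometryEquiv.neg ℝ else LinearIsometryEquiv.refl ℝ ℝ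

theorem flip_apply {n : ℕ} (i k : Fin n) (z : EE n) :
    (flip i z) k = if k = i then - z k else z k := by
  unfold flip
  rw [LinearIsometryEquiv.piLpCongrRight_apply]
  show (if k = i then LinearIsometryEquiv.neg ℝ else LinearIsometryEquiv.refl ℝ ℝ :
    ℝ ≃ₗᵢ[ℝ] ℝ) (z k) = _
  split_ifs <;> simp

/-- Transposition of two coordinates. -/
noncomputable def swp {n : ℕ} (i j : Fin n) : EE n ≃ₗᵢ[ℝ] EE n :=
  LinearIsometryEquiv.piLpCongrLeft 2 ℝ ℝ (Equiv.swap i j)

theorem swp_apply {n : ℕ} (i j k : Fin n) (z : EE n) :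
    (swp i j z) k = z (Equiv.swap i j k) := rfl

theorem meas_bar {n : ℕ} (i : Fin n) : Measurable fun z : EE n => (‖z‖⁻¹ • z) i := by
  have h1 : Measurable fun z : EE n => ‖z‖⁻¹ * z i := by
    apply Measurable.mul
    · exact measurable_norm.inv
    · fun_prop
  exact h1

theorem bar_le {n : ℕ} (i : Fin n) (z : EE n) : |(‖z‖⁻¹ • z) i| ≤ 1 := by
  have h1 : ‖(‖z‖⁻¹ • z) i‖ ≤ ‖‖z‖⁻¹ • z‖ := PiLp.norm_apply_le _ i
  rw [Real.norm_eq_abs, norm_smul, norm_inv, norm_norm] at h1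
  exact h1.trans (inv_mul_le_one)

theorem int_sq {n : ℕ} (i : Fin n) :
    IntegrableOn (fun z : EE n => (‖z‖⁻¹ • z) i * (‖z‖⁻¹ • z) i) (closedBall (0 : EE n) 1) := by
  apply Measure.integrableOn_of_bounded (M := 1) measure_closedBall_lt_top.ne
    ((meas_bar i).mul (meas_bar i)).aestronglyMeasurable
  apply Filter.Eventually.of_forall
  intro z
  have h1 := bar_le i z
  show ‖(‖z‖⁻¹ • z) i * (‖z‖⁻¹ • z) i‖ ≤ 1
  rw [norm_mul, Real.norm_eq_abs]
  exact mul_le_one₀ h1 (abs_nonneg _) h1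

end MomAux

open MomAux

theorem mom_one {n : ℕ} (i : Fin n) :
    ∫ z in closedBall (0 : EE n) 1, (‖z‖⁻¹ • z) i = 0 := by
  have h1 := comp_iso (LinearIsometryEquiv.neg ℝ) fun z : EE n => (‖z‖⁻¹ • z) i
  have h2 : ∀ z : EE n, (‖(LinearIsometryEquiv.neg ℝ) z‖⁻¹ • (LinearIsometryEquiv.neg ℝ) z) i
      = - (‖z‖⁻¹ • z) i := by
    intro z
    simp
  simp_rw [h2] at h1
  rw [integral_neg] at h1
  linarith

theorem mom_two {n : ℕ} (i j : Fin n) :
    ∫ z in closedBall (0 : EE n) 1, (‖z‖⁻¹ • z) i * (‖z‖⁻¹ • z) j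
      = if i = j then (volume (closedBall (0 : EE n) 1)).toReal / n else 0 := by
  split_ifs with hij
  · subst hij
    have hn : 0 < n := i.pos
    have : Nonempty (Fin n) := ⟨i⟩
    have hn0 : (n : ℝ) ≠ 0 := by positivity
    have heq : ∀ k : Fin n, ∫ z in closedBall (0 : EE n) 1, (‖z‖⁻¹ • z) k * (‖z‖⁻¹ • z) k =
        ∫ z in closedBall (0 : EE n) 1, (‖z‖⁻¹ • z) i * (‖z‖⁻¹ • z) i := by
      intro k
      rw [← comp_iso (swp i k) fun z : EE n => (‖z‖⁻¹ • z) i * (‖z‖⁻¹ • z) i]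
      congr 1
      ext z
      have h1 : (‖swp i k z‖⁻¹ • swp i k z) i = (‖z‖⁻¹ • z) k := by
        rw [LinearIsometryEquiv.norm_map]
        show ‖z‖⁻¹ * (swp i k z) i = ‖z‖⁻¹ * z k
        rw [swp_apply, Equiv.swap_apply_left]
      rw [h1]
    have hsum : ∑ k : Fin n, ∫ z in closedBall (0 : EE n) 1, (‖z‖⁻¹ • z) k * (‖z‖⁻¹ • z) k =
        (volume (closedBall (0 : EE n) 1)).toReal := by
      rw [← integral_finsetSum _ fun k _ => int_sq k]
      have h1 : ∀ᵐ z : EE n ∂(volume.restrict (closedBall (0 : EE n) 1)),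
          ∑ k : Fin n, (‖z‖⁻¹ • z) k * (‖z‖⁻¹ • z) k = 1 := by
        apply ae_restrict_of_ae
        have h2 : ∀ᵐ z : EE n, z ≠ 0 := by
          rw [ae_iff]
          simp
        filter_upwards [h2] with z hz
        have h3 : ‖‖z‖⁻¹ • z‖ ^ 2 = ∑ k : Fin n, ‖(‖z‖⁻¹ • z) k‖ ^ 2 :=
          EuclideanSpace.norm_sq_eq _
        rw [norm_smul, norm_inv, norm_norm, inv_mul_cancel₀ (norm_ne_zero_iff.2 hz)] at h3
        rw [one_pow] at h3
        rw [h3]
        refine Finset.sum_congr rfl fun k _ => ?_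
        rw [Real.norm_eq_abs, sq_abs, sq]
      rw [integral_congr_ae h1, setIntegral_const, smul_eq_mul, mul_one]
      rfl
    simp_rw [heq] at hsum
    rw [Finset.sum_const, Finset.card_univ, Fintype.card_fin, nsmul_eq_mul] at hsum
    rw [eq_div_iff hn0, mul_comm]
    exact hsum
  · have h1 := comp_iso (flip i) fun z : EE n => (‖z‖⁻¹ • z) i * (‖z‖⁻¹ • z) j
    have h2 : ∀ z : EE n, (‖flip i z‖⁻¹ • flip i z) i * (‖flip i z‖⁻¹ • flip i z) j
        = - ((‖z‖⁻¹ • z) i * (‖z‖⁻¹ • z) j) := by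
      intro z
      rw [LinearIsometryEquiv.norm_map]
      show (‖z‖⁻¹ * (flip i z) i) * (‖z‖⁻¹ * (flip i z) j) = - ((‖z‖⁻¹ * z i) * (‖z‖⁻¹ * z j))
      rw [flip_apply, flip_apply, if_pos rfl, if_neg (Ne.symm hij)]
      ring
    simp_rw [h2] at h1
    rw [integral_neg] at h1
    linarith

end Pool.Agent.MP9dd972N
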