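import Mathlib
import Pool.Agent.Lib.MP_9dd972_gt.N.Defs
import Pool.Agent.Lib.MP_9dd972_gt.N.Hessb
import Pool.Agent.Lib.MP_9dd972_gt.N.Mom

/-!
# MP_9dd972_gt part 2: the sub-mean value inequality gives the trace inequality
-/

set_option autoImplicit false

namespace Pool.Agent.MP9dd972N

open MeasureTheory Set Metric
open scoped ENNReal NNReal Topology Pointwise

namespace TaylorAux

/-- the direction of `z` has norm at most one -/
theorem dir_norm {n : ℕ} (z : EE n) : ‖‖z‖⁻¹ • z‖ ≤ 1 := by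
  rw [norm_smul, norm_inv, norm_norm]
  rcases eq_or_ne (‖z‖) 0 with h | h
  · rw [h]; simp
  · rw [inv_mul_cancel₀ h]

theorem dir_meas {n : ℕ} : Measurable (fun z : EE n => ‖z‖⁻¹ • z) :=
  measurable_norm.inv.smul measurable_id

/-- a bounded measurable function is integrable on the ball -/
theorem ball_int {n : ℕ} {g : EE n → ℝ} (hg : Measurable g) {M : ℝ} (hM : ∀ z, |g z| ≤ M) :
    IntegrableOn g (closedBall (0 : EE n) 1) := by
  refine Measure.integrableOn_of_bounded (M := M) ?_ hg.aestronglyMeasurable ?_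
  · exact measure_closedBall_lt_top.ne
  · exact Filter.Eventually.of_forall fun z => by simpa [Real.norm_eq_abs] using hM z

theorem act_apply {n : ℕ} (S : Matrix (Fin n) (Fin n) ℝ) (w : EE n) (i : Fin n) :
    (act S w) i = ∑ k, S i k * w k := by
  unfold act
  rw [show (Matrix.toEuclideanCLM (𝕜 := ℝ) S w) i = (S.mulVec w.ofLp) i from rfl]
  rfl

theorem quad_act {n : ℕ} (S H : Matrix (Fin n) (Fin n) ℝ) (w : EE n) :
    ∑ i, ∑ j, H i j * (act S w) i * (act S w) j
      = ∑ k, ∑ l, (S.transpose * H * S) k l * (w k * w l) := by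
  simp only [act_apply, Matrix.mul_apply, Matrix.transpose_apply, Finset.sum_mul, Finset.mul_sum]
  -- both sides are fourfold sums
  calc ∑ i, ∑ j, ∑ l, ∑ k, H i j * (S i k * w k) * (S j l * w l)
      = ∑ i, ∑ j, ∑ l, ∑ k, S i k * H i j * S j l * (w k * w l) := by
        refine Finset.sum_congr rfl fun i _ => Finset.sum_congr rfl fun j _ =>
          Finset.sum_congr rfl fun l _ => Finset.sum_congr rfl fun k _ => ?_
        ring
    _ = ∑ k, ∑ l, ∑ j, ∑ i, S i k * H i j * S j l * (w k * w l) := by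
        rw [Finset.sum_comm]
        -- ∑ j ∑ i ∑ l ∑ k
        have h1 : ∀ j, (∑ i, ∑ l, ∑ k, S i k * H i j * S j l * (w k * w l))
            = ∑ k, ∑ l, ∑ i, S i k * H i j * S j l * (w k * w l) := by
          intro j
          rw [Finset.sum_comm]
          have h2 : ∀ l, (∑ i, ∑ k, S i k * H i j * S j l * (w k * w l))
              = ∑ k, ∑ i, S i k * H i j * S j l * (w k * w l) := fun l => Finset.sum_comm
          simp_rw [h2]
          rw [Finset.sum_comm]
        simp_rw [h1]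
        rw [Finset.sum_comm]
        refine Finset.sum_congr rfl fun k _ => ?_
        rw [Finset.sum_comm]

theorem inner_act {n : ℕ} (S : Matrix (Fin n) (Fin n) ℝ) (g w : EE n) :
    (inner ℝ g (act S w) : ℝ) = ∑ k, (∑ i, g i * S i k) * w k := by
  rw [PiLp.inner_apply]
  simp only [act_apply, Finset.sum_mul]
  rw [Finset.sum_comm]
  refine Finset.sum_congr rfl fun i _ => ?_
  simp only [RCLike.inner_apply, conj_trivial, Finset.sum_mul]
  refine Finset.sum_congr rfl fun k _ => ?_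
  ring

end TaylorAux

open TaylorAux

theorem trace_ge {n : ℕ} (hn : 0 < n) {f : EE n → ℝ} (hf : ContDiff ℝ 2 f) {x0 : EE n}
    (S : Matrix (Fin n) (Fin n) ℝ)
    (h : ∃ ρ0 : ℝ, 0 < ρ0 ∧ ∀ ρ : ℝ, 0 < ρ → ρ < ρ0 →
      (volume (closedBall (0 : EE n) 1)).toReal * (f x0 + ρ ^ 2 / 2)
        ≤ ∫ z in closedBall (0 : EE n) 1, f (x0 + ρ • act S (‖z‖⁻¹ • z))) :
    (n : ℝ) ≤ (S.transpose * HM f x0 * S).trace := by
  obtain ⟨ρ0, hρ0, hmain⟩ := h
  set V : ℝ := (volume (closedBall (0 : EE n) 1)).toReal with hV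
  have hn' : (0 : ℝ) < n := by exact_mod_cast hn
  have hVpos : 0 < V := by
    rw [hV]
    exact ENNReal.toReal_pos (measure_closedBall_pos _ _ one_pos).ne' measure_closedBall_lt_top.ne
  set M : Matrix (Fin n) (Fin n) ℝ := S.transpose * HM f x0 * S with hM
  set c : ℝ := ‖(Matrix.toEuclideanCLM (𝕜 := ℝ) S : EE n →L[ℝ] EE n)‖ with hc
  have hc0 : 0 ≤ c := norm_nonneg _
  have hact : ∀ z : EE n, ‖act S (‖z‖⁻¹ • z)‖ ≤ c := by
    intro z
    unfold act
    refine (ContinuousLinearMap.le_opNorm _ _).trans ?_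
    calc c * ‖‖z‖⁻¹ • z‖ ≤ c * 1 := mul_le_mul_of_nonneg_left (dir_norm z) hc0
      _ = c := mul_one c
  have hwk : ∀ (z : EE n) (k : Fin n), |(‖z‖⁻¹ • z) k| ≤ 1 := by
    intro z k
    have h1 := PiLp.norm_apply_le (‖z‖⁻¹ • z) k
    rw [Real.norm_eq_abs] at h1
    exact h1.trans (dir_norm z)
  have key : ∀ η : ℝ, 0 < η → (n : ℝ) ≤ M.trace + 2 * n * η * c ^ 2 := by
    intro η hη
    obtain ⟨ρ1, hρ1, ht⟩ := taylor_two hf x0 hη
    set ρ : ℝ := min (ρ0 / 2) (ρ1 / (c + 1)) with hρ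
    have hρpos : 0 < ρ := lt_min (by linarith) (by positivity)
    have hρlt : ρ < ρ0 := lt_of_le_of_lt (min_le_left _ _) (by linarith)
    have hρc : ρ * c ≤ ρ1 := by
      have h1 : ρ ≤ ρ1 / (c + 1) := min_le_right _ _
      have h2 : ρ * (c + 1) ≤ ρ1 := by
        rwa [le_div_iff₀ (by positivity)] at h1
      nlinarith
    have hb := hmain ρ hρpos hρlt
    set a : Fin n → ℝ := fun k => ∑ i, (gradient f x0) i * S i k with ha
    have hpt : ∀ z : EE n, f (x0 + ρ • act S (‖z‖⁻¹ • z)) ≤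
        (f x0 + η * (ρ * c) ^ 2) + ((∑ k, (ρ * a k) * (‖z‖⁻¹ • z) k)
          + ∑ k, ∑ l, (ρ ^ 2 / 2 * M k l) * ((‖z‖⁻¹ • z) k * (‖z‖⁻¹ • z) l)) := by
      intro z
      set w : EE n := ‖z‖⁻¹ • z with hw
      have hy : ‖ρ • act S w‖ ≤ ρ * c := by
        rw [norm_smul, Real.norm_eq_abs, abs_of_pos hρpos]
        exact mul_le_mul_of_nonneg_left (hact z) hρpos.le
      have h1 := ht (ρ • act S w) (hy.trans hρc)
      have h2 := (abs_le.1 h1).2
      have h3 : (inner ℝ (gradient f x0) (ρ • act S w) : ℝ) = ∑ k, (ρ * a k) * w k := by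
        rw [inner_smul_right, inner_act, Finset.mul_sum]
        refine Finset.sum_congr rfl fun k _ => ?_
        rw [ha]; ring
      have h4 : (1 / 2 : ℝ) * ∑ i, ∑ j, HM f x0 i j * (ρ • act S w) i * (ρ • act S w) j
          = ∑ k, ∑ l, (ρ ^ 2 / 2 * M k l) * (w k * w l) := by
        have h5 : ∑ i, ∑ j, HM f x0 i j * (ρ • act S w) i * (ρ • act S w) j
            = ρ ^ 2 * ∑ i, ∑ j, HM f x0 i j * (act S w) i * (act S w) j := by
          simp only [Finset.mul_sum]
          refine Finset.sum_congr rfl fun i _ => Finset.sum_congr rfl fun j _ => ?_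
          have e1 : (ρ • act S w) i = ρ * (act S w) i := rfl
          have e2 : (ρ • act S w) j = ρ * (act S w) j := rfl
          rw [e1, e2]; ring
        rw [h5, quad_act]
        simp only [Finset.mul_sum]
        refine Finset.sum_congr rfl fun k _ => Finset.sum_congr rfl fun l _ => ?_
        rw [hM]; ring
      have h6 : ‖ρ • act S w‖ ^ 2 ≤ (ρ * c) ^ 2 := pow_le_pow_left₀ (norm_nonneg _) hy 2
      rw [h3, h4] at h2
      nlinarith [mul_le_mul_of_nonneg_left h6 hη.le]
    -- measurability and integrability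
    have hwm : ∀ k : Fin n, Measurable (fun z : EE n => (‖z‖⁻¹ • z) k) := by
      intro k
      exact (measurable_pi_apply k).comp ((WithLp.measurable_ofLp 2 (Fin n → ℝ)).comp dir_meas)
    have hi1 : ∀ k : Fin n, IntegrableOn (fun z : EE n => (‖z‖⁻¹ • z) k)
        (closedBall (0 : EE n) 1) := fun k => ball_int (hwm k) (fun z => hwk z k)
    have hi2 : ∀ k l : Fin n, IntegrableOn (fun z : EE n => (‖z‖⁻¹ • z) k * (‖z‖⁻¹ • z) l)
        (closedBall (0 : EE n) 1) := fun k l => ball_int ((hwm k).mul (hwm l)) (M := 1) (fun z => by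
          rw [abs_mul]
          calc |(‖z‖⁻¹ • z) k| * |(‖z‖⁻¹ • z) l| ≤ 1 * 1 :=
                mul_le_mul (hwk z k) (hwk z l) (abs_nonneg _) zero_le_one
            _ = 1 := one_mul 1)
    have hl : IntegrableOn (fun z : EE n => ∑ k, (ρ * a k) * (‖z‖⁻¹ • z) k)
        (closedBall (0 : EE n) 1) :=
      integrable_finsetSum _ fun k _ => (hi1 k).const_mul _
    have hq : IntegrableOn (fun z : EE n => ∑ k, ∑ l, (ρ ^ 2 / 2 * M k l) *
        ((‖z‖⁻¹ • z) k * (‖z‖⁻¹ • z) l)) (closedBall (0 : EE n) 1) :=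
      integrable_finsetSum _ fun k _ => integrable_finsetSum _ fun l _ => (hi2 k l).const_mul _
    have hcst : IntegrableOn (fun _ : EE n => f x0 + η * (ρ * c) ^ 2) (closedBall (0 : EE n) 1) :=
      integrableOn_const measure_closedBall_lt_top.ne
    have hfi : IntegrableOn (fun z : EE n => f (x0 + ρ • act S (‖z‖⁻¹ • z)))
        (closedBall (0 : EE n) 1) := by
      obtain ⟨C, hC⟩ := (isCompact_closedBall x0 (ρ * c)).exists_bound_of_continuousOn
        hf.continuous.continuousOn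
      refine ball_int (M := C) ?_ (fun z => ?_)
      · refine hf.continuous.measurable.comp ?_
        refine measurable_const.add (Measurable.const_smul ?_ ρ)
        exact ((Matrix.toEuclideanCLM (𝕜 := ℝ) S : EE n →L[ℝ] EE n).continuous.measurable).comp
          dir_meas
      · have := hC (x0 + ρ • act S (‖z‖⁻¹ • z)) (by
          rw [mem_closedBall, dist_eq_norm, add_sub_cancel_left, norm_smul, Real.norm_eq_abs,
            abs_of_pos hρpos]
          exact mul_le_mul_of_nonneg_left (hact z) hρpos.le)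
        simpa [Real.norm_eq_abs] using this
    have hle : ∫ z in closedBall (0 : EE n) 1, f (x0 + ρ • act S (‖z‖⁻¹ • z)) ≤
        ∫ z in closedBall (0 : EE n) 1, ((f x0 + η * (ρ * c) ^ 2) +
          ((∑ k, (ρ * a k) * (‖z‖⁻¹ • z) k)
          + ∑ k, ∑ l, (ρ ^ 2 / 2 * M k l) * ((‖z‖⁻¹ • z) k * (‖z‖⁻¹ • z) l))) :=
      integral_mono hfi (hcst.add (hl.add hq)) hpt
    have hval : ∫ z in closedBall (0 : EE n) 1, ((f x0 + η * (ρ * c) ^ 2) +
          ((∑ k, (ρ * a k) * (‖z‖⁻¹ • z) k)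
          + ∑ k, ∑ l, (ρ ^ 2 / 2 * M k l) * ((‖z‖⁻¹ • z) k * (‖z‖⁻¹ • z) l)))
        = V * (f x0 + η * (ρ * c) ^ 2) + ρ ^ 2 / 2 * (V / n * M.trace) := by
      have s1 := integral_add hcst (hl.add hq)
      have s2 := integral_add hl hq
      simp only [Pi.add_apply] at s1 s2
      rw [s1, s2]
      have e1 : ∫ _ in closedBall (0 : EE n) 1, (f x0 + η * (ρ * c) ^ 2) =
          V * (f x0 + η * (ρ * c) ^ 2) := by
        rw [setIntegral_const, smul_eq_mul]
        rfl
      have e2 : ∫ z in closedBall (0 : EE n) 1, (∑ k, (ρ * a k) * (‖z‖⁻¹ • z) k) = 0 := by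
        rw [integral_finsetSum _ fun k _ => (hi1 k).const_mul _]
        refine Finset.sum_eq_zero fun k _ => ?_
        rw [integral_const_mul, mom_one, mul_zero]
      have e3 : ∫ z in closedBall (0 : EE n) 1, (∑ k, ∑ l, (ρ ^ 2 / 2 * M k l) *
          ((‖z‖⁻¹ • z) k * (‖z‖⁻¹ • z) l)) = ρ ^ 2 / 2 * (V / n * M.trace) := by
        rw [integral_finsetSum _ fun k _ =>
          integrable_finsetSum _ fun l _ => (hi2 k l).const_mul _]
        have e4 : ∀ k, ∫ z in closedBall (0 : EE n) 1, (∑ l, (ρ ^ 2 / 2 * M k l) *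
            ((‖z‖⁻¹ • z) k * (‖z‖⁻¹ • z) l)) = ρ ^ 2 / 2 * M k k * (V / n) := by
          intro k
          rw [integral_finsetSum _ fun l _ => (hi2 k l).const_mul _]
          rw [Finset.sum_eq_single k]
          · rw [integral_const_mul, mom_two, if_pos rfl]
          · intro l _ hl'
            rw [integral_const_mul, mom_two, if_neg (Ne.symm hl'), mul_zero]
          · intro hk; exact absurd (Finset.mem_univ k) hk
        simp_rw [e4]
        rw [Matrix.trace]
        simp only [Matrix.diag_apply, Finset.mul_sum]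
        refine Finset.sum_congr rfl fun k _ => ?_
        ring
      rw [e1, e2, e3, zero_add]
    rw [hval] at hle
    have hfin := hb.trans hle
    -- divide by V ρ² / 2
    have h7 : V * (ρ ^ 2 / 2) ≤ V * (η * (ρ * c) ^ 2) + ρ ^ 2 / 2 * (V / n * M.trace) := by
      linarith
    have h8 : (n : ℝ) * (V * (ρ ^ 2 / 2)) ≤
        n * (V * (η * (ρ * c) ^ 2) + ρ ^ 2 / 2 * (V / n * M.trace)) :=
      mul_le_mul_of_nonneg_left h7 hn'.le
    have h9 : (n : ℝ) * (V * (η * (ρ * c) ^ 2) + ρ ^ 2 / 2 * (V / n * M.trace)) =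
        (V * (ρ ^ 2 / 2)) * (M.trace + 2 * n * η * c ^ 2) := by
      field_simp
      ring
    rw [h9] at h8
    have h10 : 0 < V * (ρ ^ 2 / 2) := by positivity
    have h11 : (V * (ρ ^ 2 / 2)) * (n : ℝ) ≤ (V * (ρ ^ 2 / 2)) * (M.trace + 2 * n * η * c ^ 2) := by
      linarith
    exact le_of_mul_le_mul_left h11 h10
  -- let η tend to 0
  refine le_of_forall_pos_le_add fun ε hε => ?_
  have hd : 0 < 2 * (n : ℝ) * (c ^ 2 + 1) := by positivity
  have := key (ε / (2 * n * (c ^ 2 + 1))) (by positivity)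
  refine this.trans ?_
  have h12 : 2 * (n : ℝ) * (ε / (2 * n * (c ^ 2 + 1))) * c ^ 2 ≤ ε := by
    have : 2 * (n : ℝ) * (ε / (2 * n * (c ^ 2 + 1))) * c ^ 2 = ε * (c ^ 2 / (c ^ 2 + 1)) := by
      field_simp
    rw [this]
    have h13 : c ^ 2 / (c ^ 2 + 1) ≤ 1 := by
      rw [div_le_one (by positivity)]; linarith
    nlinarith
  linarith

end Pool.Agent.MP9dd972N
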