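import Mathlib
import Pool.Agent.Lib.MP_9dd972_gt.N.Defs
import Pool.Agent.Lib.MP_9dd972_gt.N.Int0
import Pool.Agent.Lib.MP_9dd972_gt.N.Flat
import Pool.Agent.Lib.MP_9dd972_gt.N.Cap
import Pool.Agent.Lib.MP_9dd972_gt.N.Conem
import Pool.Agent.Lib.MP_9dd972_gt.N.Lpneq
import Pool.Agent.Lib.MP_9dd972_gt.N.Hypof
import Pool.Agent.Lib.MP_9dd972_gt.N.Fin

/-!
Uniqueness for p close to one (assembly).
-/

set_option autoImplicit false

namespace Pool.Agent.MP9dd972N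

open MeasureTheory Set Metric
open scoped ENNReal NNReal Topology Pointwise


/-- Equality of the L_p surface area measures gives the homogeneous form. -/
theorem hyp_of_lpn {n : ℕ} (hn : 2 ≤ n) {p : ℝ} (hp0 : 0 < p) (hp1 : p < 1)
    {K C : Set (EE n)} (hK : Body K) (hC : Body C)
    (h : ∀ ω : Set (EE n), MeasurableSet ω → ω ⊆ sphere (0 : EE n) 1 →
      LpN p K ω = LpN p C ω) : Hyp p K C := by
  obtain ⟨κ, hκ0, hκ, hflat⟩ := flat_cone n hn
  have hcone : ∀ D : Set (EE n), Body D → ∀ A : Set (EE n), MeasurableSet A → A ⊆ frontier D →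
      μH[(n : ℝ) - 1] A = κ * ∫⁻ x in cone A, ENNReal.ofReal ‖NN D x‖ := fun D hD A hA hAD =>
    cone_measure hn hD hκ (fun θ hθ => cap_est hn hκ hflat hD hθ) hA hAD
  refine hyp_of hn hp0 hp1 hK hC fun ω hω hωs => ?_
  have h1 := h ω hω hωs
  rw [lpn_eq hn hκ hK (hcone K hK) hp0 hp1 hω hωs,
    lpn_eq hn hκ hC (hcone C hC) hp0 hp1 hω hωs] at h1
  exact (ENNReal.mul_right_inj hκ0 hκ).1 h1

/-- Uniqueness for `p` close to one, in every dimension. -/
theorem near_one (n : ℕ) (hn : 2 ≤ n) :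
    ∃ p0 : ℝ, 0 < p0 ∧ p0 < 1 ∧ ∀ p : ℝ, p0 < p → p < 1 → ∀ K C : Set (EE n),
      Convex ℝ K → IsCompact K → (interior K).Nonempty →
      Convex ℝ C → IsCompact C → (interior C).Nonempty →
      ∫ x in K, x = (0 : EE n) → ∫ x in C, x = (0 : EE n) →
      (∀ ω : Set (EE n), MeasurableSet ω → ω ⊆ sphere (0 : EE n) 1 → LpN p K ω = LpN p C ω) →
      K = C := by
  obtain ⟨p0, h0, h1, hmain⟩ := near_one_core n hn
  refine ⟨p0, h0, h1, fun p hp hp1 K C hK hKc hKi hC hCc hCi cK cC h => ?_⟩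
  have bK : Body K := body_of_centred hK hKc hKi cK
  have bC : Body C := body_of_centred hC hCc hCi cC
  exact hmain p hp hp1 K C bK bC cK cC (hyp_of_lpn hn (h0.trans hp) hp1 bK bC h)

end Pool.Agent.MP9dd972N
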